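import Pool.Agent.Work.MP_f4b644_ag.Mid.Cov3
import Pool.Agent.Work.MP_f4b644_ag.Mid.D.BG

/-!
The three conditions for the formats with `1602 ≤ I`.
-/

namespace Pool.Agent.Work.MP_f4b644_ag.Mid

theorem big0 {m J : ℕ} (h0 : 1600 ≤ m) (h1 : m ≤ 25600) (h : m ≤ J) : HH m J :=
  HH.of (RA1 rtG0 (by unfold In1; omega)) (BA1 bkG0 (by unfold In1; omega)) fun k => absurd k (by omega)

theorem big1 {m J : ℕ} (h0 : 25600 ≤ m) (h1 : m ≤ 102400) (h : m ≤ J) : HH m J :=
  HH.of (RA1 rtG1 (by unfold In1; omega)) (BA1 bkG1 (by unfold In1; omega)) fun k => absurd k (by omega)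

theorem big2 {m J : ℕ} (h0 : 102400 ≤ m) (h1 : m ≤ 409600) (h : m ≤ J) : HH m J :=
  HH.of (RA1 rtG2 (by unfold In1; omega)) (BA1 bkG2 (by unfold In1; omega)) fun k => absurd k (by omega)

theorem big3 {m J : ℕ} (h0 : 409600 ≤ m) (h1 : m ≤ 6553600) (h : m ≤ J) : HH m J :=
  HH.of (RA1 rtG3 (by unfold In1; omega)) (BA1 bkG3 (by unfold In1; omega)) fun k => absurd k (by omega)

theorem big4 {m J : ℕ} (h0 : 6553600 ≤ m) (h1 : m ≤ 104857600) (h : m ≤ J) : HH m J :=
  HH.of (RA1 rtG4 (by unfold In1; omega)) (BA1 bkG4 (by unfold In1; omega)) fun k => absurd k (by omega)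

theorem big5 {m J : ℕ} (h0 : 104857600 ≤ m) (h1 : m ≤ 1677721600) (h : m ≤ J) : HH m J :=
  HH.of (RA1 rtG5 (by unfold In1; omega)) (BA1 bkG5 (by unfold In1; omega)) fun k => absurd k (by omega)

theorem big6 {m J : ℕ} (h0 : 1677721600 ≤ m) (h1 : m ≤ 26843545600) (h : m ≤ J) : HH m J :=
  HH.of (RA1 rtG6 (by unfold In1; omega)) (BA1 bkG6 (by unfold In1; omega)) fun k => absurd k (by omega)

theorem big7 {m J : ℕ} (h0 : 26843545600 ≤ m) (h1 : m ≤ 429496729600) (h : m ≤ J) : HH m J :=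
  HH.of (RA1 rtG7 (by unfold In1; omega)) (BA1 bkG7 (by unfold In1; omega)) fun k => absurd k (by omega)

theorem big8 {m J : ℕ} (h0 : 429496729600 ≤ m) (h1 : m ≤ 6871947673600) (h : m ≤ J) : HH m J :=
  HH.of (RA1 rtG8 (by unfold In1; omega)) (BA1 bkG8 (by unfold In1; omega)) fun k => absurd k (by omega)

theorem big9 {m J : ℕ} (h0 : 6871947673600 ≤ m) (h1 : m ≤ 109951162777600) (h : m ≤ J) : HH m J :=
  HH.of (RA1 rtG9 (by unfold In1; omega)) (BA1 bkG9 (by unfold In1; omega)) fun k => absurd k (by omega)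

theorem big10 {m J : ℕ} (h0 : 109951162777600 ≤ m) (h1 : m ≤ 1759218604441600) (h : m ≤ J) : HH m J :=
  HH.of (RA1 rtG10 (by unfold In1; omega)) (BA1 bkG10 (by unfold In1; omega)) fun k => absurd k (by omega)

theorem big11 {m J : ℕ} (h0 : 1759218604441600 ≤ m) (h1 : m ≤ 28147497671065600) (h : m ≤ J) : HH m J :=
  HH.of (RA1 rtG11 (by unfold In1; omega)) (BA1 bkG11 (by unfold In1; omega)) fun k => absurd k (by omega)

theorem big12 {m J : ℕ} (h0 : 28147497671065600 ≤ m) (h1 : m ≤ 450359962737049600) (h : m ≤ J) : HH m J :=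
  HH.of (RA1 rtG12 (by unfold In1; omega)) (BA1 bkG12 (by unfold In1; omega)) fun k => absurd k (by omega)

theorem big13 {m J : ℕ} (h0 : 450359962737049600 ≤ m) (h1 : m ≤ 7205759403792793600) (h : m ≤ J) : HH m J :=
  HH.of (RA1 rtG13 (by unfold In1; omega)) (BA1 bkG13 (by unfold In1; omega)) fun k => absurd k (by omega)

theorem big {m J : ℕ} (h0 : 1600 ≤ m) (h1 : m ≤ 10 ^ 18) (h : m ≤ J) : HH m J := by
  by_cases c0 : m ≤ 25600
  · exact big0 (by omega) c0 h
  by_cases c1 : m ≤ 102400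
  · exact big1 (by omega) c1 h
  by_cases c2 : m ≤ 409600
  · exact big2 (by omega) c2 h
  by_cases c3 : m ≤ 6553600
  · exact big3 (by omega) c3 h
  by_cases c4 : m ≤ 104857600
  · exact big4 (by omega) c4 h
  by_cases c5 : m ≤ 1677721600
  · exact big5 (by omega) c5 h
  by_cases c6 : m ≤ 26843545600
  · exact big6 (by omega) c6 h
  by_cases c7 : m ≤ 429496729600
  · exact big7 (by omega) c7 h
  by_cases c8 : m ≤ 6871947673600
  · exact big8 (by omega) c8 h
  by_cases c9 : m ≤ 109951162777600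
  · exact big9 (by omega) c9 h
  by_cases c10 : m ≤ 1759218604441600
  · exact big10 (by omega) c10 h
  by_cases c11 : m ≤ 28147497671065600
  · exact big11 (by omega) c11 h
  by_cases c12 : m ≤ 450359962737049600
  · exact big12 (by omega) c12 h
  exact big13 (by omega) (by omega) h

end Pool.Agent.Work.MP_f4b644_ag.Mid
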