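import Pool.Agent.Work.MP_f4b644_ag.Mid.Cov3
import Pool.Agent.Work.MP_f4b644_ag.Mid.D.MD

/-!
The three conditions for the formats with `30 ≤ I ≤ 61` and `150 ≤ J`.
-/

namespace Pool.Agent.Work.MP_f4b644_ag.Mid

theorem midl28 {J : ℕ} (h : 150 ≤ J) : HH 28 J :=
  HH.of (RA0 rt28 (by unfold In0; omega)) (BA0 bk28 (by unfold In0; omega)) fun k => absurd k (by omega)

theorem midl29 {J : ℕ} (h : 150 ≤ J) : HH 29 J :=
  HH.of (RA0 rt29 (by unfold In0; omega)) (BA0 bk29 (by unfold In0; omega)) fun k => absurd k (by omega)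

theorem midl30 {J : ℕ} (h : 150 ≤ J) : HH 30 J :=
  HH.of (RA0 rt30 (by unfold In0; omega)) (BA0 bk30 (by unfold In0; omega)) fun k => absurd k (by omega)

theorem midl31 {J : ℕ} (h : 150 ≤ J) : HH 31 J :=
  HH.of (RA0 rt31 (by unfold In0; omega)) (BA0 bk31 (by unfold In0; omega)) fun k => absurd k (by omega)

theorem midl32 {J : ℕ} (h : 150 ≤ J) : HH 32 J :=
  HH.of (RA0 rt32 (by unfold In0; omega)) (BA0 bk32 (by unfold In0; omega)) fun k => absurd k (by omega)

theorem midl33 {J : ℕ} (h : 150 ≤ J) : HH 33 J :=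
  HH.of (RA0 rt33 (by unfold In0; omega)) (BA0 bk33 (by unfold In0; omega)) fun k => absurd k (by omega)

theorem midl34 {J : ℕ} (h : 150 ≤ J) : HH 34 J :=
  HH.of (RA0 rt34 (by unfold In0; omega)) (BA0 bk34 (by unfold In0; omega)) fun k => absurd k (by omega)

theorem midl35 {J : ℕ} (h : 150 ≤ J) : HH 35 J :=
  HH.of (RA0 rt35 (by unfold In0; omega)) (BA0 bk35 (by unfold In0; omega)) fun k => absurd k (by omega)

theorem midl36 {J : ℕ} (h : 150 ≤ J) : HH 36 J :=
  HH.of (RA0 rt36 (by unfold In0; omega)) (BA0 bk36 (by unfold In0; omega)) fun k => absurd k (by omega)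

theorem midl37 {J : ℕ} (h : 150 ≤ J) : HH 37 J :=
  HH.of (RA0 rt37 (by unfold In0; omega)) (BA0 bk37 (by unfold In0; omega)) fun k => absurd k (by omega)

theorem midl38 {J : ℕ} (h : 150 ≤ J) : HH 38 J :=
  HH.of (RA0 rt38 (by unfold In0; omega)) (BA0 bk38 (by unfold In0; omega)) fun k => absurd k (by omega)

theorem midl39 {J : ℕ} (h : 150 ≤ J) : HH 39 J :=
  HH.of (RA0 rt39 (by unfold In0; omega)) (BA0 bk39 (by unfold In0; omega)) fun k => absurd k (by omega)

theorem midl40 {J : ℕ} (h : 150 ≤ J) : HH 40 J :=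
  HH.of (RA0 rt40 (by unfold In0; omega)) (BA0 bk40 (by unfold In0; omega)) fun k => absurd k (by omega)

theorem midl41 {J : ℕ} (h : 150 ≤ J) : HH 41 J :=
  HH.of (RA0 rt41 (by unfold In0; omega)) (BA0 bk41 (by unfold In0; omega)) fun k => absurd k (by omega)

theorem midl42 {J : ℕ} (h : 150 ≤ J) : HH 42 J :=
  HH.of (RA0 rt42 (by unfold In0; omega)) (BA0 bk42 (by unfold In0; omega)) fun k => absurd k (by omega)

theorem midl43 {J : ℕ} (h : 150 ≤ J) : HH 43 J :=
  HH.of (RA0 rt43 (by unfold In0; omega)) (BA0 bk43 (by unfold In0; omega)) fun k => absurd k (by omega)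

theorem midl44 {J : ℕ} (h : 150 ≤ J) : HH 44 J :=
  HH.of (RA0 rt44 (by unfold In0; omega)) (BA0 bk44 (by unfold In0; omega)) fun k => absurd k (by omega)

theorem midl45 {J : ℕ} (h : 150 ≤ J) : HH 45 J :=
  HH.of (RA0 rt45 (by unfold In0; omega)) (BA0 bk45 (by unfold In0; omega)) fun k => absurd k (by omega)

theorem midl46 {J : ℕ} (h : 150 ≤ J) : HH 46 J :=
  HH.of (RA0 rt46 (by unfold In0; omega)) (BA0 bk46 (by unfold In0; omega)) fun k => absurd k (by omega)

theorem midl47 {J : ℕ} (h : 150 ≤ J) : HH 47 J :=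
  HH.of (RA0 rt47 (by unfold In0; omega)) (BA0 bk47 (by unfold In0; omega)) fun k => absurd k (by omega)

theorem midl48 {J : ℕ} (h : 150 ≤ J) : HH 48 J :=
  HH.of (RA0 rt48 (by unfold In0; omega)) (BA0 bk48 (by unfold In0; omega)) fun k => absurd k (by omega)

theorem midl49 {J : ℕ} (h : 150 ≤ J) : HH 49 J :=
  HH.of (RA0 rt49 (by unfold In0; omega)) (BA0 bk49 (by unfold In0; omega)) fun k => absurd k (by omega)

theorem midl50 {J : ℕ} (h : 150 ≤ J) : HH 50 J :=
  HH.of (RA0 rt50 (by unfold In0; omega)) (BA0 bk50 (by unfold In0; omega)) fun k => absurd k (by omega)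

theorem midl51 {J : ℕ} (h : 150 ≤ J) : HH 51 J :=
  HH.of (RA0 rt51 (by unfold In0; omega)) (BA0 bk51 (by unfold In0; omega)) fun k => absurd k (by omega)

theorem midl52 {J : ℕ} (h : 150 ≤ J) : HH 52 J :=
  HH.of (RA0 rt52 (by unfold In0; omega)) (BA0 bk52 (by unfold In0; omega)) fun k => absurd k (by omega)

theorem midl53 {J : ℕ} (h : 150 ≤ J) : HH 53 J :=
  HH.of (RA0 rt53 (by unfold In0; omega)) (BA0 bk53 (by unfold In0; omega)) fun k => absurd k (by omega)

theorem midl54 {J : ℕ} (h : 150 ≤ J) : HH 54 J :=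
  HH.of (RA0 rt54 (by unfold In0; omega)) (BA0 bk54 (by unfold In0; omega)) fun k => absurd k (by omega)

theorem midl55 {J : ℕ} (h : 150 ≤ J) : HH 55 J :=
  HH.of (RA0 rt55 (by unfold In0; omega)) (BA0 bk55 (by unfold In0; omega)) fun k => absurd k (by omega)

theorem midl56 {J : ℕ} (h : 150 ≤ J) : HH 56 J :=
  HH.of (RA0 rt56 (by unfold In0; omega)) (BA0 bk56 (by unfold In0; omega)) fun k => absurd k (by omega)

theorem midl57 {J : ℕ} (h : 150 ≤ J) : HH 57 J :=
  HH.of (RA0 rt57 (by unfold In0; omega)) (BA0 bk57 (by unfold In0; omega)) fun k => absurd k (by omega)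

theorem midl58 {J : ℕ} (h : 150 ≤ J) : HH 58 J :=
  HH.of (RA0 rt58 (by unfold In0; omega)) (BA0 bk58 (by unfold In0; omega)) fun k => absurd k (by omega)

theorem midl59 {J : ℕ} (h : 150 ≤ J) : HH 59 J :=
  HH.of (RA0 rt59 (by unfold In0; omega)) (BA0 bk59 (by unfold In0; omega)) fun k => absurd k (by omega)

theorem midl {m J : ℕ} (h0 : 28 ≤ m) (h1 : m ≤ 59) (h : 150 ≤ J) : HH m J := by
  interval_cases m
  · exact midl28 h
  · exact midl29 h
  · exact midl30 h
  · exact midl31 h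
  · exact midl32 h
  · exact midl33 h
  · exact midl34 h
  · exact midl35 h
  · exact midl36 h
  · exact midl37 h
  · exact midl38 h
  · exact midl39 h
  · exact midl40 h
  · exact midl41 h
  · exact midl42 h
  · exact midl43 h
  · exact midl44 h
  · exact midl45 h
  · exact midl46 h
  · exact midl47 h
  · exact midl48 h
  · exact midl49 h
  · exact midl50 h
  · exact midl51 h
  · exact midl52 h
  · exact midl53 h
  · exact midl54 h
  · exact midl55 h
  · exact midl56 h
  · exact midl57 h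
  · exact midl58 h
  · exact midl59 h

end Pool.Agent.Work.MP_f4b644_ag.Mid
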