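import Pool.Agent.Work.MP_f4b644_ag.Mid.Cov4
import Pool.Agent.Work.MP_f4b644_ag.Mid.Midl
import Pool.Agent.Work.MP_f4b644_ag.Mid.D.FT

/-!
The two conditions for the formats with `62 ≤ I ≤ 1601` and `100 ≤ J`.
-/

namespace Pool.Agent.Work.MP_f4b644_ag.Mid

theorem fat60 {J : ℕ} (h : 100 ≤ J) : HU 60 J :=
  HU.of (RW0 ru60 (by unfold In0; omega)) (BW0 bu60 (by unfold In0; omega))

theorem fat61 {J : ℕ} (h : 100 ≤ J) : HU 61 J :=
  HU.of (RW0 ru61 (by unfold In0; omega)) (BW0 bu61 (by unfold In0; omega))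

theorem fat62 {J : ℕ} (h : 100 ≤ J) : HU 62 J :=
  HU.of (RW0 ru62 (by unfold In0; omega)) (BW0 bu62 (by unfold In0; omega))

theorem fat63 {J : ℕ} (h : 100 ≤ J) : HU 63 J :=
  HU.of (RW0 ru63 (by unfold In0; omega)) (BW0 bu63 (by unfold In0; omega))

theorem fat64 {J : ℕ} (h : 100 ≤ J) : HU 64 J :=
  HU.of (RW0 ru64 (by unfold In0; omega)) (BW0 bu64 (by unfold In0; omega))

theorem fat65 {J : ℕ} (h : 100 ≤ J) : HU 65 J :=
  HU.of (RW0 ru65 (by unfold In0; omega)) (BW0 bu65 (by unfold In0; omega))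

theorem fat66 {J : ℕ} (h : 100 ≤ J) : HU 66 J :=
  HU.of (RW0 ru66 (by unfold In0; omega)) (BW0 bu66 (by unfold In0; omega))

theorem fat67 {J : ℕ} (h : 100 ≤ J) : HU 67 J :=
  HU.of (RW0 ru67 (by unfold In0; omega)) (BW0 bu67 (by unfold In0; omega))

theorem fat68 {J : ℕ} (h : 100 ≤ J) : HU 68 J :=
  HU.of (RW0 ru68 (by unfold In0; omega)) (BW0 bu68 (by unfold In0; omega))

theorem fat69 {J : ℕ} (h : 100 ≤ J) : HU 69 J :=
  HU.of (RW0 ru69 (by unfold In0; omega)) (BW0 bu69 (by unfold In0; omega))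

theorem fat70 {J : ℕ} (h : 100 ≤ J) : HU 70 J :=
  HU.of (RW0 ru70 (by unfold In0; omega)) (BW0 bu70 (by unfold In0; omega))

theorem fat71 {J : ℕ} (h : 100 ≤ J) : HU 71 J :=
  HU.of (RW0 ru71 (by unfold In0; omega)) (BW0 bu71 (by unfold In0; omega))

theorem fat72 {J : ℕ} (h : 100 ≤ J) : HU 72 J :=
  HU.of (RW0 ru72 (by unfold In0; omega)) (BW0 bu72 (by unfold In0; omega))

theorem fat73 {J : ℕ} (h : 100 ≤ J) : HU 73 J :=
  HU.of (RW0 ru73 (by unfold In0; omega)) (BW0 bu73 (by unfold In0; omega))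

theorem fat74 {J : ℕ} (h : 100 ≤ J) : HU 74 J :=
  HU.of (RW0 ru74 (by unfold In0; omega)) (BW0 bu74 (by unfold In0; omega))

theorem fat75 {J : ℕ} (h : 100 ≤ J) : HU 75 J :=
  HU.of (RW0 ru75 (by unfold In0; omega)) (BW0 bu75 (by unfold In0; omega))

theorem fat76 {J : ℕ} (h : 100 ≤ J) : HU 76 J :=
  HU.of (RW0 ru76 (by unfold In0; omega)) (BW0 bu76 (by unfold In0; omega))

theorem fat77 {J : ℕ} (h : 100 ≤ J) : HU 77 J :=
  HU.of (RW0 ru77 (by unfold In0; omega)) (BW0 bu77 (by unfold In0; omega))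

theorem fat78 {J : ℕ} (h : 100 ≤ J) : HU 78 J :=
  HU.of (RW0 ru78 (by unfold In0; omega)) (BW0 bu78 (by unfold In0; omega))

theorem fat79 {J : ℕ} (h : 100 ≤ J) : HU 79 J :=
  HU.of (RW0 ru79 (by unfold In0; omega)) (BW0 bu79 (by unfold In0; omega))

theorem fat80 {J : ℕ} (h : 100 ≤ J) : HU 80 J :=
  HU.of (RW0 ru80 (by unfold In0; omega)) (BW0 bu80 (by unfold In0; omega))

theorem fat81 {J : ℕ} (h : 100 ≤ J) : HU 81 J :=
  HU.of (RW0 ru81 (by unfold In0; omega)) (BW0 bu81 (by unfold In0; omega))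

theorem fat82 {J : ℕ} (h : 100 ≤ J) : HU 82 J :=
  HU.of (RW0 ru82 (by unfold In0; omega)) (BW0 bu82 (by unfold In0; omega))

theorem fat83 {J : ℕ} (h : 100 ≤ J) : HU 83 J :=
  HU.of (RW0 ru83 (by unfold In0; omega)) (BW0 bu83 (by unfold In0; omega))

theorem fat84 {J : ℕ} (h : 100 ≤ J) : HU 84 J :=
  HU.of (RW0 ru84 (by unfold In0; omega)) (BW0 bu84 (by unfold In0; omega))

theorem fat85 {J : ℕ} (h : 100 ≤ J) : HU 85 J :=
  HU.of (RW0 ru85 (by unfold In0; omega)) (BW0 bu85 (by unfold In0; omega))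

theorem fat86 {J : ℕ} (h : 100 ≤ J) : HU 86 J :=
  HU.of (RW0 ru86 (by unfold In0; omega)) (BW0 bu86 (by unfold In0; omega))

theorem fat87 {J : ℕ} (h : 100 ≤ J) : HU 87 J :=
  HU.of (RW0 ru87 (by unfold In0; omega)) (BW0 bu87 (by unfold In0; omega))

theorem fat88 {J : ℕ} (h : 100 ≤ J) : HU 88 J :=
  HU.of (RW0 ru88 (by unfold In0; omega)) (BW0 bu88 (by unfold In0; omega))

theorem fat89 {J : ℕ} (h : 100 ≤ J) : HU 89 J :=
  HU.of (RW0 ru89 (by unfold In0; omega)) (BW0 bu89 (by unfold In0; omega))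

theorem fat90 {J : ℕ} (h : 100 ≤ J) : HU 90 J :=
  HU.of (RW0 ru90 (by unfold In0; omega)) (BW0 bu90 (by unfold In0; omega))

theorem fat91 {J : ℕ} (h : 100 ≤ J) : HU 91 J :=
  HU.of (RW0 ru91 (by unfold In0; omega)) (BW0 bu91 (by unfold In0; omega))

theorem fat92 {J : ℕ} (h : 100 ≤ J) : HU 92 J :=
  HU.of (RW0 ru92 (by unfold In0; omega)) (BW0 bu92 (by unfold In0; omega))

theorem fat93 {J : ℕ} (h : 100 ≤ J) : HU 93 J :=
  HU.of (RW0 ru93 (by unfold In0; omega)) (BW0 bu93 (by unfold In0; omega))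

theorem fat94 {J : ℕ} (h : 100 ≤ J) : HU 94 J :=
  HU.of (RW0 ru94 (by unfold In0; omega)) (BW0 bu94 (by unfold In0; omega))

theorem fat95 {J : ℕ} (h : 100 ≤ J) : HU 95 J :=
  HU.of (RW0 ru95 (by unfold In0; omega)) (BW0 bu95 (by unfold In0; omega))

theorem fat96 {J : ℕ} (h : 100 ≤ J) : HU 96 J :=
  HU.of (RW0 ru96 (by unfold In0; omega)) (BW0 bu96 (by unfold In0; omega))

theorem fat97 {J : ℕ} (h : 100 ≤ J) : HU 97 J :=
  HU.of (RW0 ru97 (by unfold In0; omega)) (BW0 bu97 (by unfold In0; omega))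

theorem fat98 {J : ℕ} (h : 100 ≤ J) : HU 98 J :=
  HU.of (RW0 ru98 (by unfold In0; omega)) (BW0 bu98 (by unfold In0; omega))

theorem fat99 {J : ℕ} (h : 100 ≤ J) : HU 99 J :=
  HU.of (RW0 ru99 (by unfold In0; omega)) (BW0 bu99 (by unfold In0; omega))

theorem fatF100 {m J : ℕ} (h0 : 100 ≤ m) (h1 : m ≤ 140) (h : m ≤ J) : HU m J :=
  HU.of (RW1 ruF100 (by unfold In1; omega)) (BW1 buF100 (by unfold In1; omega))

theorem fatF141 {m J : ℕ} (h0 : 141 ≤ m) (h1 : m ≤ 200) (h : m ≤ J) : HU m J :=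
  HU.of (RW1 ruF141 (by unfold In1; omega)) (BW1 buF141 (by unfold In1; omega))

theorem fatF201 {m J : ℕ} (h0 : 201 ≤ m) (h1 : m ≤ 400) (h : m ≤ J) : HU m J :=
  HU.of (RW1 ruF201 (by unfold In1; omega)) (BW1 buF201 (by unfold In1; omega))

theorem fatF401 {m J : ℕ} (h0 : 401 ≤ m) (h1 : m ≤ 1599) (h : m ≤ J) : HU m J :=
  HU.of (RW1 ruF401 (by unfold In1; omega)) (BW1 buF401 (by unfold In1; omega))

theorem fat {m J : ℕ} (h0 : 60 ≤ m) (h1 : m ≤ 1599) (h : 100 ≤ J) (hJ : m ≤ J) : HU m J := by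
  by_cases c401 : 401 ≤ m
  · exact fatF401 c401 (by omega) hJ
  by_cases c201 : 201 ≤ m
  · exact fatF201 c201 (by omega) hJ
  by_cases c141 : 141 ≤ m
  · exact fatF141 c141 (by omega) hJ
  by_cases c100 : 100 ≤ m
  · exact fatF100 c100 (by omega) hJ
  have h2 : m ≤ 99 := by omega
  interval_cases m
  · exact fat60 h
  · exact fat61 h
  · exact fat62 h
  · exact fat63 h
  · exact fat64 h
  · exact fat65 h
  · exact fat66 h
  · exact fat67 h
  · exact fat68 h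
  · exact fat69 h
  · exact fat70 h
  · exact fat71 h
  · exact fat72 h
  · exact fat73 h
  · exact fat74 h
  · exact fat75 h
  · exact fat76 h
  · exact fat77 h
  · exact fat78 h
  · exact fat79 h
  · exact fat80 h
  · exact fat81 h
  · exact fat82 h
  · exact fat83 h
  · exact fat84 h
  · exact fat85 h
  · exact fat86 h
  · exact fat87 h
  · exact fat88 h
  · exact fat89 h
  · exact fat90 h
  · exact fat91 h
  · exact fat92 h
  · exact fat93 h
  · exact fat94 h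
  · exact fat95 h
  · exact fat96 h
  · exact fat97 h
  · exact fat98 h
  · exact fat99 h

theorem root_B : ∀ I J r, 30 ≤ I → I ≤ 61 → 150 ≤ J → Fin.Need I J r → Fin.NotA I J r → Dag.Root I J r :=
  fun _ _ _ h0 h1 h2 hN hA => HH.root (midl (by omega) (by omega) h2) (by omega) (by omega) hN hA

theorem root_C : ∀ I J r, 62 ≤ I → I < 1602 → I ≤ J → 100 ≤ J → Fin.Need I J r → Fin.NotA I J r → Dag.Root I J r :=
  fun _ _ _ h0 h1 h2 h3 hN hA => HU.root (fat (by omega) (by omega) h3 (by omega)) (by omega) h2 hN hA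

end Pool.Agent.Work.MP_f4b644_ag.Mid
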