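import Pool.Agent.Work.MP_f4b644_ag.Thin.Q
import Pool.Agent.Work.MP_f4b644_ag.Big.SqLeaf

/-!
The part of a block which carries the tangents, without a bound for the number w of levels filled by B-fibres,
and with 2 rp further levels in the full strips which are filled by pairs of C-fibres.
-/

set_option autoImplicit false

namespace Pool.Agent.Work.MP_f4b644_ag.Mid

open Big Thin Multiset Big.Gad

theorem ruleA_Tz (y z : ℕ) : Rule Dir.A (T y z) (T y z) (AF 0) := by
  refine ⟨Set.univ, Rules_red id id id id id id ?_, Rules_red id id id id id id ?_⟩ <;>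
    refine ⟨?_, ?_, ?_, ?_⟩ <;>
    simp only [Gad.cfg, Cfg.res, Set.mem_ofPred_eq, Set.mem_compl_iff, Set.mem_univ,
      Set.mem_empty_iff_false, Prod.mk.injEq, id] <;> intros <;>
    first | omega | grind

theorem S_A1 (j k b e y w nB nC z0 : ℕ) (Z : Multiset ℕ) (hy : 1 ≤ y) (hZ : Z.card = j)
    (hz : ∀ z ∈ Z, z ≤ z0) (hz0 : z0 ≤ y) (h2 : j + e ≤ k) (hk : 1 ≤ k)
    (hB : j + e + b + w = (w + 1) * k + nB) (hD : j * k ≤ j + Z.sum + e + j * nB + k * nC)
    (h1 : nC + 1 ≤ j ∨ e = 0) (h3 : nC + z0 + 1 ≤ j ∨ Z.sum = 0) :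
    S (y + w + 3) j k (Z.map (fun z => T (y - z) z) + replicate b (BP 0) + replicate e (BP 1) +
      replicate nC (CP 1)) := by
  obtain ⟨k1, rfl⟩ : ∃ k1, k = k1 + 1 := ⟨k - 1, by omega⟩
  have e1 : (w + 1) * (k1 + 1) = w * k1 + w + k1 + 1 := by ring
  obtain ⟨b0, rfl⟩ : ∃ b0, b = b0 + w * k1 := ⟨b - w * k1, by omega⟩
  have H := S_A0 j (k1 + 1) b0 e y 0 nB nC z0 Z hy hZ hz hz0 h2 (Nat.zero_le _) (by omega) hD h1 h3
  have H2 := S_afB w j (k1 + 1) hk
  rw [Nat.add_sub_cancel] at H2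
  rw [show y + w + 3 = y + 0 + 3 + w by omega]
  refine S.splitA (Spl.of_eq (((((Spl.map Z _ _ _ fun z _ => ruleA_Tz (y - z) z).add
    (Spl.repL (ruleA_BP 0) b0)).add (Spl.repR (ruleA_BP 0).symm (w * k1))).add
    (Spl.repL (ruleA_BP 1) e)).add (Spl.repL (ruleA_CP 1 0) nC)) ?_ ?_ ?_) H H2
  · simp only [replicate_add]
    abel
  · abel
  · rw [map_const', hZ]
    abel

theorem S_full (k Tt w y rp T' c : ℕ) (hy : 1 ≤ y) (hT : Tt + w = w * k + T') (hc : c + T' + 1 = k) :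
    S (y + w + 3 + 2 * rp) k k (replicate k (T y 0) + replicate Tt (BP 0) +
      replicate (rp * (k - 1)) (CP 2) + replicate c (CP 1)) := by
  have hk : k * k = k + k * T' + k * c := by
    conv_lhs => rw [← hc]
    rw [← hc]
    ring
  have H := S_A1 k k Tt 0 y w T' c 0 (replicate k 0) hy (by simp)
    (fun z hz => (eq_of_mem_replicate hz).le) (Nat.zero_le _) (by omega) (by omega)
    (by rw [add_mul]; omega) (by omega) (Or.inr rfl) (Or.inr (by simp))
  have H2 := S_afC (2 * rp) k 0 (Nat.zero_le _) (replicate (rp * (k - 1)) 2) (fun z hz => by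
    obtain ⟨h1, rfl⟩ := mem_replicate.1 hz
    rcases Nat.eq_zero_or_pos rp with h | h
    · simp [h] at h1
    · omega) (by rw [sum_replicate, smul_eq_mul]; ring)
  refine S.splitA (Spl.of_eq ((((Spl.rep (ruleA_Tz y 0) k).add (Spl.repL (ruleA_BP 0) Tt)).add
    (Spl.repR (ruleA_CP 0 2) (rp * (k - 1)))).add (Spl.repL (ruleA_CP 1 0) c)) rfl ?_ ?_) H H2
  · simp
  · simp

theorem QTopP_full (k Tt w y rp T' c q b : ℕ) (hy : 1 ≤ y) (hT : Tt + w = w * k + T')
    (hc : c + T' + 1 = k) (hb : b + q * k = k + Tt) :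
    S (y + w + 3 + 2 * rp) (q * k) k (replicate (q * k) (T y 0) + replicate b (BP 0) +
      replicate (q * (rp * (k - 1))) (CP 2) + replicate (q * c) (CP 1)) := by
  have rT : Rule Dir.B (T y 0) (T y 0) (BP 0) := ruleB_T y 0 0
  have rB : Rule Dir.B (BP 0) (BP 0) (BP 0) := ruleB_BP 0 0
  induction q generalizing b with
  | zero =>
    rw [zero_mul]
    exact S_zeroB _ _ _
  | succ q ih =>
    have e1 : (q + 1) * k = q * k + k := by ring
    have e2 : (q + 1) * c = q * c + c := by ring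
    have e3 : (q + 1) * (rp * (k - 1)) = q * (rp * (k - 1)) + rp * (k - 1) := by ring
    have h1 := ih (k + b) (by omega)
    have h2 := S_full k Tt w y rp T' c hy hT hc
    rw [show Tt = q * k + b by omega] at h2
    rw [e1, e2, e3]
    refine S.splitB (Spl.of_eq (((((((Spl.rep rT (q * k)).add (Spl.rep rT.symm k)).add
      (Spl.rep rB b)).add (Spl.repL (ruleB_CP 1) (q * c))).add (Spl.repR (ruleB_CP 1).symm c)).add
      (Spl.repL (ruleB_CP 2) (q * (rp * (k - 1))))).add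
      (Spl.repR (ruleB_CP 2).symm (rp * (k - 1)))) ?_ ?_ ?_) h1 h2
    · simp only [replicate_add]
      abel
    · simp only [replicate_add]
      abel
    · simp only [replicate_add]
      abel

theorem QTopP (k Tt w y rp Y T' c q s' X' c' z0 e1 e2 a b : ℕ) (Z : Multiset ℕ) (hy : 1 ≤ y)
    (hY : Y = y + 2 * rp) (hT : Tt + w = w * k + T') (hc : c + T' + 1 = k) (ha : a + e2 = q * k)
    (hZ : Z.card = s') (hz : ∀ z ∈ Z, z ≤ z0) (hz0 : z0 ≤ Y) (hs : s' + e1 + e2 ≤ k)
    (hX : X' + c' = s') (hE : k * X' ≤ s' * (T' + 1) + (e1 + e2 + Z.sum))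
    (h1 : 1 ≤ X' ∨ e1 + e2 = 0) (h2 : z0 + 1 ≤ X' ∨ Z.sum = 0)
    (hb : b + e1 + q * k + s' = k + Tt) :
    S (Y + w + 3) (q * k + s') k (replicate a (T y 0) + replicate e2 (T (y - 1) 1) +
      Z.map (fun z => T (Y - z) z) + replicate b (BP 0) + replicate e1 (BP 1) +
      replicate (q * (rp * (k - 1))) (CP 2) + replicate (q * c + c') (CP 1)) := by
  have rT : Rule Dir.B (T y 0) (T y 0) (BP 0) := ruleB_T y 0 0
  have rU : Rule Dir.B (T (y - 1) 1) (T y 0) (BP 1) := by
    have := ruleB_T (y - 1) 0 1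
    rwa [Nat.sub_add_cancel hy] at this
  have rZ : ∀ z ∈ Z, Rule Dir.B (T (Y - z) z) (BP 0) (T (Y - z) z) :=
    fun z _ => (ruleB_T (Y - z) z 0).symm
  have rB : Rule Dir.B (BP 0) (BP 0) (BP 0) := ruleB_BP 0 0
  have rE : Rule Dir.B (BP 1) (BP 0) (BP 1) := ruleB_BP 0 1
  have rC : Rule Dir.B (CP 1) (CP 1) (CP 0) := ruleB_CP 1
  have f1 := QTopP_full k Tt w y rp T' c q (s' + b + e1) hy hT hc (by omega)
  rw [show y + w + 3 + 2 * rp = Y + w + 3 by omega] at f1
  have hk : s' * k = k * X' + k * c' := by rw [← hX]; ring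
  have hk' : s' * (T' + 1) = s' * T' + s' := by ring
  have f2 := S_A1 s' k (a + b) (e2 + e1) Y w T' c' z0 Z (by omega) hZ hz hz0 (by omega) (by omega)
    (by rw [add_mul]; omega) (by omega) (by omega) (by omega)
  refine S.splitB (Spl.of_eq ((((((((Spl.rep rT a).add (Spl.rep rU e2)).add
    (Spl.map Z _ _ _ rZ)).add (Spl.rep rB b)).add (Spl.rep rE e1)).add
    (Spl.repL rC (q * c))).add (Spl.repR rC.symm c')).add
    (Spl.repL (ruleB_CP 2) (q * (rp * (k - 1))))) ?_ ?_ ?_) f1 f2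
  · simp only [replicate_add]
    abel
  · rw [← ha, map_const', hZ]
    simp only [replicate_add]
    abel
  · simp only [replicate_add]
    abel

end Pool.Agent.Work.MP_f4b644_ag.Mid
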