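import Mathlib

/-!
Sufficient conditions (generated). All of them are decided by interval arithmetic on boxes.
-/

set_option autoImplicit false

namespace Pool.Agent.Work.MP_f4b644_ag.Mid

/-- sufficient condition for the block with a sink, all counts in ranges -/
def QRc (m j k Tlo Thi slo shi uhi elo ehi Ghi rn rc wc : ℕ) : Prop :=
  ∃ km wU wl yL yH js rp ro Tp Gs L L2 kG kk A1 A2 B1 B2 : ℕ,
    km = k - 1 ∧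
    wU = (max ((Thi - 1) / km) wc) ∧
    wl = (Tlo - 1) / km ∧
    yL = m - (wU + 1) ∧
    yH = m - (wl + 1) ∧
    js = j - shi ∧
    rp = yL * rn / 16 + rc ∧
    ro = 2 * rp ∧
    Tp = (max (Tlo - wU * km) 1) ∧
    Gs = Ghi - slo / k * rp * km ∧
    L = (yL - ro) * shi + ehi + ro * km ∧
    L2 = L + shi ∧
    kG = k * Gs ∧
    kk = wU * km + 1 ∧
    A1 = js * (k * (m + 1) - Thi) ∧
    A2 = js * (k * (m - 1) - Thi) ∧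
    B1 = js * (k * (yL + 2) + wl + 1) ∧
    B2 = js * (k * yL + wl + 1) ∧
    2 ≤ k ∧
    1 ≤ Tlo ∧
    wU + 2 ≤ m ∧
    shi + 1 ≤ j ∧
    shi + ehi ≤ Tlo + k ∧
    uhi ≤ slo ∧
    ro + 1 ≤ yL ∧
    (shi + 1 ≤ k ∨ uhi + k ≤ slo ∨ ((uhi ≤ k ∨ uhi + k ≤ slo + 1) ∧ ro + 2 ≤ yL)) ∧
    (k ≤ slo ∨ (2 ≤ yL ∧ (k ≤ slo + elo ∨ (k * k ≤ slo * slo * (Tp + 1) + k * elo ∧ k ≤ (yL - 1) * slo + elo +
      1) ∨ (3 ≤ yL ∧ 2 * k ≤ 3 * slo)))) ∧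
    yH * (k - slo) + ro * shi + uhi + k ≤ js * Tlo + yL * (slo - k) + elo + 1 ∧
    L + 2 * kG ≤ A1 ∧
    ((Gs ≤ js ∧ L ≤ A2) ∨ L + kG ≤ A2) ∧
    (kk ≤ Tlo ∨ (shi ≤ k * js ∧ L2 + 2 * kG ≤ B1 ∧ ((Gs ≤ js ∧ L2 ≤ B2) ∨ L2 + kG ≤ B2)))

/-- the same without the bound for the number of B-points -/
def QZc (m j k Tlo Thi slo shi uhi elo ehi Ghi rn rc wc : ℕ) : Prop :=
  ∃ km wU wl yL yH js rp ro Tp Gs L L2 kG kk A1 A2 B1 B2 : ℕ,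
    km = k - 1 ∧
    wU = (max ((Thi - 1) / km) wc) ∧
    wl = (Tlo - 1) / km ∧
    yL = m - (wU + 1) ∧
    yH = m - (wl + 1) ∧
    js = j - shi ∧
    rp = yL * rn / 16 + rc ∧
    ro = 2 * rp ∧
    Tp = (max (Tlo - wU * km) 1) ∧
    Gs = Ghi - slo / k * rp * km ∧
    L = (yL - ro) * shi + ehi + ro * km ∧
    L2 = L + shi ∧
    kG = k * Gs ∧
    kk = wU * km + 1 ∧
    A1 = js * (k * (m + 1) - Thi) ∧
    A2 = js * (k * (m - 1) - Thi) ∧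
    B1 = js * (k * (yL + 2) + wl + 1) ∧
    B2 = js * (k * yL + wl + 1) ∧
    2 ≤ k ∧
    1 ≤ Tlo ∧
    wU + 2 ≤ m ∧
    shi + 1 ≤ j ∧
    uhi ≤ slo ∧
    ro + 1 ≤ yL ∧
    (shi + 1 ≤ k ∨ uhi + k ≤ slo ∨ ((uhi ≤ k ∨ uhi + k ≤ slo + 1) ∧ ro + 2 ≤ yL)) ∧
    (k ≤ slo ∨ (2 ≤ yL ∧ (k ≤ slo + elo ∨ (k * k ≤ slo * slo * (Tp + 1) + k * elo ∧ k ≤ (yL - 1) * slo + elo +
      1) ∨ (3 ≤ yL ∧ 2 * k ≤ 3 * slo)))) ∧
    yH * (k - slo) + ro * shi + uhi + k ≤ js * Tlo + yL * (slo - k) + elo + 1 ∧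
    L + 2 * kG ≤ A1 ∧
    ((Gs ≤ js ∧ L ≤ A2) ∨ L + kG ≤ A2) ∧
    (kk ≤ Tlo ∨ (shi ≤ k * js ∧ L2 + 2 * kG ≤ B1 ∧ ((Gs ≤ js ∧ L2 ≤ B2) ∨ L2 + kG ≤ B2)))

/-- the same for blocks with k <= s + e -/
def QYc (m j k Tlo Thi slo shi uhi elo ehi Ghi rn rc wc : ℕ) : Prop :=
  ∃ km wU wl yL yH js rp ro Gs L L2 kG kk A1 A2 B1 B2 : ℕ,
    km = k - 1 ∧
    wU = (max ((Thi - 1) / km) wc) ∧
    wl = (Tlo - 1) / km ∧
    yL = m - (wU + 1) ∧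
    yH = m - (wl + 1) ∧
    js = j - shi ∧
    rp = yL * rn / 16 + rc ∧
    ro = 2 * rp ∧
    Gs = Ghi - slo / k * rp * km ∧
    L = (yL - ro) * shi + ehi + ro * km ∧
    L2 = L + shi ∧
    kG = k * Gs ∧
    kk = wU * km + 1 ∧
    A1 = js * (k * (m + 1) - Thi) ∧
    A2 = js * (k * (m - 1) - Thi) ∧
    B1 = js * (k * (yL + 2) + wl + 1) ∧
    B2 = js * (k * yL + wl + 1) ∧
    2 ≤ k ∧
    1 ≤ Tlo ∧
    wU + 2 ≤ m ∧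
    shi + 1 ≤ j ∧
    shi + ehi ≤ Tlo + k ∧
    uhi ≤ slo ∧
    ro + 1 ≤ yL ∧
    (shi + 1 ≤ k ∨ uhi + k ≤ slo ∨ ((uhi ≤ k ∨ uhi + k ≤ slo + 1) ∧ ro + 2 ≤ yL)) ∧
    2 ≤ yL ∧
    yH * (k - slo) + ro * shi + uhi + k ≤ js * Tlo + yL * (slo - k) + elo + 1 ∧
    L + 2 * kG ≤ A1 ∧
    ((Gs ≤ js ∧ L ≤ A2) ∨ L + kG ≤ A2) ∧
    (kk ≤ Tlo ∨ (shi ≤ k * js ∧ L2 + 2 * kG ≤ B1 ∧ ((Gs ≤ js ∧ L2 ≤ B2) ∨ L2 + kG ≤ B2)))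

/-- the same for blocks with T < k and s + e < k -/
def QOc (m j k Tlo slo shi uhi elo ehi Ghi : ℕ) : Prop :=
  ∃ y js L kG A2 : ℕ,
    y = m - 1 ∧
    js = j - shi ∧
    L = y * shi + ehi ∧
    kG = k * Ghi ∧
    A2 = js * (k * (m - 2) + 1) ∧
    2 ≤ k ∧
    1 ≤ Tlo ∧
    3 ≤ m ∧
    shi + 1 ≤ j ∧
    uhi ≤ slo ∧
    k * k ≤ slo * slo * (Tlo + 1) + k * elo ∧
    k ≤ (y - 1) * slo + elo + 1 ∧
    y * (k - slo) + uhi + k ≤ js * Tlo + elo + 1 ∧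
    L + 2 * kG ≤ js * (k * m + 1) ∧
    ((Ghi ≤ js ∧ L ≤ A2) ∨ L + kG ≤ A2)

/-- sufficient condition for the grid leaf, all counts in ranges -/
def GRc (m j k Tlo Thi slo shi uhi ehi Ghi Xlo Xhi : ℕ) : Prop :=
  ∃ w : ℕ,
    w = Tlo / k ∧
    shi + ehi ≤ k ∧
    shi + Ghi ≤ j ∧
    uhi ≤ slo ∧
    w + 2 ≤ m ∧
    Xhi ≤ (w + 1) * j ∧
    ((w ≤ 0 ∧ m ≤ Xlo) ∨ (w * j + 2 * (m - (w + 1)) + 1 ≤ Xlo ∧ Thi + 2 * w + 1 ≤ (w + 1) * k))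

/-- cases k <= s + e; s + e < k and wc k <= T (grid leaf); s + e < k and T < wc k -/
def SRc (m j k Tlo Thi slo shi uhi elo ehi Ghi Xlo Xhi rn rc wc : ℕ) : Prop :=
  ∃ s1 s2 y wk : ℕ,
    s1 = (max slo (k - ehi)) ∧
    s2 = (min shi k) ∧
    y = m - (wc + 1) ∧
    wk = wc * k ∧
    (Thi + 1 ≤ wk ∨ (uhi ≤ slo ∧ s2 + Ghi ≤ j ∧ wc + 2 ≤ m ∧ Xhi ≤ (wc + 1) * j ∧ ((wc * j + y + 2 ≤ Xlo ∧ Thi
      + (y + 2) * wc ≤ wk + k) ∨ (wc * j + 2 * y + 1 ≤ Xlo ∧ Thi + 2 * wc + 1 ≤ wk + k)))) ∧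
    (wk ≤ Tlo ∨ (wc ≤ 1 ∧ QOc m j k Tlo slo s2 uhi elo ehi Ghi)) ∧
    (shi + ehi + 1 ≤ k ∨ QYc m j k Tlo Thi s1 shi uhi elo ehi Ghi rn rc 0)

/-- one of the two leaves -/
def LFc (m j k Tlo Thi slo shi uhi elo ehi Ghi Xlo Xhi rn rc wc : ℕ) : Prop :=
    (QRc m j k Tlo Thi slo shi uhi elo ehi Ghi rn rc 0 ∨ GRc m j k Tlo Thi slo shi uhi ehi Ghi Xlo Xhi ∨ (wc ≠
      0 ∧ SRc m j k Tlo Thi slo shi uhi elo ehi Ghi Xlo Xhi rn rc wc))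

/-- one chunk of the range of the deviation of the number of B-points -/
def CHc (m j k nj mn njb Cl Dh Ch Dl Sl Sh nP uhi elo ehi Ghi Xlo Xhi g0 g1 rn rc wc : ℕ) : Prop :=
  ∃ a0 a1 T1 T2 s1 s2 : ℕ,
    a0 = nj * g0 ∧
    a1 = nj * g1 ∧
    T1 = (Cl + a0 + nj - (Dh + njb + (if g0 = 0 then 0 else 1))) / nj ∧
    T2 = (Ch + a1 - (Dl + njb + 1)) / nj ∧
    s1 = (Sl + njb - (nP + a1)) / mn ∧
    s2 = (Sh + njb - (a0 + 1)) / mn ∧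
    (T2 + 1 ≤ T1 ∨ LFc m j k T1 T2 s1 s2 uhi elo ehi Ghi Xlo Xhi rn rc wc)

/-- a part cut into n blocks of widths k and k + 1 -/
def PTc (m j Tlo Thi slo shi Xlo Xhi n k rho Phi Ul Uh gh b c rn rc wc rn2 rc2 wc2 : ℕ) : Prop :=
  ∃ aU aE ql qh uhi elo ehi Ghi nj mn njb nP Sl Sh Cl Ch Dl Dh k1 nr Cl1 Ch1 z : ℕ,
    aU = (Phi - 1) / 2 ∧
    aE = Phi / 2 ∧
    ql = Ul / n ∧
    qh = (Uh + n - 1) / n ∧
    uhi = qh + aU ∧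
    elo = ql - aE ∧
    ehi = qh + aE ∧
    Ghi = gh - (ql - aU) ∧
    nj = n * j ∧
    mn = m * n ∧
    njb = nj * b ∧
    nP = n * (Phi + 2) ∧
    Sl = m * slo + mn ∧
    Sh = m * shi + nP ∧
    Cl = j * Tlo ∧
    Ch = j * Thi ∧
    Dl = rho * Xlo ∧
    Dh = rho * Xhi ∧
    k1 = k + 1 ∧
    nr = n - rho ∧
    Cl1 = Cl + nr * Xlo ∧
    Ch1 = Ch + nr * Xhi ∧
    z = 0 ∧
    1 ≤ c ∧
    Dh + njb ≤ Cl + nj ∧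
    njb + nP ≤ Sl ∧
    (∀ i < c, CHc m j k nj mn njb Cl Dh Ch Dl Sl Sh nP uhi elo ehi Ghi Xlo Xhi (2 * b * i / c) (2 * b * (i +
      1) / c) rn rc wc) ∧
    (rho ≤ 0 ∨ (∀ i < c, CHc m j k1 nj mn njb Cl1 z Ch1 z Sl Sh nP uhi elo ehi Ghi Xlo Xhi (2 * b * i / c) (2
      * b * (i + 1) / c) rn2 rc2 wc2))

/-- the root is cut into two parts joined by pairs -/
def PPc (m J om r K f4 cm cJ cd pc pk aA bA kcA ncA ndA nnA cA rnA rcA wcA rn2A rc2A wc2A aB bB kcB ncB ndB nnB cB rnB rcB wcB rn2B rc2B wc2B : ℕ) : Prop :=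
  ∃ tau X jA jB Tlo Thi qA xA sloA shiA XloA XhiA nA kA rhoA PhiA qB xB sloB shiB XloB XhiB nB kB rhoB PhiB p0
    pm Ul gh Uh : ℕ,
    tau = J + m ∧
    X = om + m ∧
    jA = 2 * ((cJ * J + cm * m) / (2 * cd)) ∧
    jB = J - jA ∧
    Tlo = (K * om + (tau - 1)) / tau ∧
    Thi = (K * om + (om + tau - 1)) / tau ∧
    qA = jA * r / J ∧
    xA = jA * X / J ∧
    sloA = qA - 1 ∧
    shiA = qA + 2 ∧
    XloA = xA - 1 ∧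
    XhiA = xA + 2 ∧
    nA = (if kcA = 0 then r * ndA / (J * nnA) + ncA else K / kcA) ∧
    kA = (if kcA = 0 then K / nA else kcA) ∧
    rhoA = (min (K - nA * kA) (if kcA = 0 then nA - 1 else kcA - 1)) ∧
    PhiA = (m + (bA * jA - aA * m + (aA * m - bA * jA)) * (bA - 1) + (bA - 1)) / bA ∧
    qB = jB * r / J ∧
    xB = jB * X / J ∧
    sloB = qB - 1 ∧
    shiB = qB + 2 ∧
    XloB = xB - 1 ∧
    XhiB = xB + 2 ∧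
    nB = (if kcB = 0 then r * ndB / (J * nnB) + ncB else K / kcB) ∧
    kB = (if kcB = 0 then K / nB else kcB) ∧
    rhoB = (min (K - nB * kB) (if kcB = 0 then nB - 1 else kcB - 1)) ∧
    PhiB = (m + (bB * jB - aB * m + (aB * m - bB * jB)) * (bB - 1) + (bB - 1)) / bB ∧
    p0 = (max (max ((nA * (PhiA / 2) + 1) / 2) ((nA * (PhiA / 2 + 1) - 3) / (nA - 2))) (max ((nB * (PhiB / 2)
      + 1) / 2) ((nB * (PhiB / 2 + 1) - 3) / (nB - 2)))) + K * pk / 16 + pc ∧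
    pm = (if f4 = 0 then (K + m + 1) / 2 else (K + m) / 4 + 1) ∧
    Ul = 2 * p0 ∧
    gh = p0 + pm ∧
    Uh = 2 * gh ∧
    1 ≤ m ∧
    jA + 1 ≤ J ∧
    kcA ≤ nA ∧
    (1 ≤ bA ∧ Nat.Coprime aA bA) ∧
    3 ≤ nA ∧
    1 ≤ qA ∧
    1 ≤ xA ∧
    kcB ≤ nB ∧
    (1 ≤ bB ∧ Nat.Coprime aB bB) ∧
    3 ≤ nB ∧
    1 ≤ qB ∧
    1 ≤ xB ∧
    PTc m jA Tlo Thi sloA shiA XloA XhiA nA kA rhoA PhiA Ul Uh gh bA cA rnA rcA wcA rn2A rc2A wc2A ∧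
    PTc m jB Tlo Thi sloB shiB XloB XhiB nB kB rhoB PhiB Ul Uh gh bB cB rnB rcB wcB rn2B rc2B wc2B

/-- exact cut of a root without slack -/
def PEc (m J om r K j pc pk kcA ncA ndA nnA cA rnA rcA wcA rn2A rc2A wc2A kcB ncB ndB nnB cB rnB rcB wcB rn2B rc2B wc2B : ℕ) : Prop :=
  ∃ tau T jB sA XA nA kA rhoA sB XB nB kB rhoB p0 U : ℕ,
    tau = J + m ∧
    T = K * om / tau ∧
    jB = J - j ∧
    sA = j * r / J ∧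
    XA = j * (om + m) / J ∧
    nA = (if kcA = 0 then r * ndA / (J * nnA) + ncA else K / kcA) ∧
    kA = (if kcA = 0 then K / nA else kcA) ∧
    rhoA = (min (K - nA * kA) (if kcA = 0 then nA - 1 else kcA - 1)) ∧
    sB = jB * r / J ∧
    XB = jB * (om + m) / J ∧
    nB = (if kcB = 0 then r * ndB / (J * nnB) + ncB else K / kcB) ∧
    kB = (if kcB = 0 then K / nB else kcB) ∧
    rhoB = (min (K - nB * kB) (if kcB = 0 then nB - 1 else kcB - 1)) ∧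
    p0 = (max (max ((nA * (m / 2) + 1) / 2) ((nA * (m / 2 + 1) - 3) / (nA - 2))) (max ((nB * (m / 2) + 1) / 2)
      ((nB * (m / 2 + 1) - 3) / (nB - 2)))) + K * pk / 16 + pc ∧
    U = 2 * p0 ∧
    1 ≤ m ∧
    kcA ≤ nA ∧
    3 ≤ nA ∧
    kcB ≤ nB ∧
    3 ≤ nB ∧
    PTc m j T T sA sA XA XA nA kA rhoA m U U p0 1 cA rnA rcA wcA rn2A rc2A wc2A ∧
    PTc m jB T T sB sB XB XB nB kB rhoB m U U p0 1 cB rnB rcB wcB rn2B rc2B wc2B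

/-- a block with free C-points is cut into two parts -/
def MTc (m J om K f fp cm cJ cd pc pk oneA oneB aA bA kcA ncA ndA nnA cA rnA rcA wcA rn2A rc2A wc2A aB bB kcB ncB ndB nnB cB rnB rcB wcB rn2B rc2B wc2B : ℕ) : Prop :=
  ∃ t X B jA jB D J2 mJ xA qA sloA shiA XloA XhiA nA kA rhoA PhiA needA xB qB sloB shiB XloB XhiB nB kB rhoB
    PhiB needB gl m2 Ul Uh gh hh z E : ℕ,
    t = (om * K + (J + m - 1)) / (J + m) ∧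
    X = om + m ∧
    B = K + t ∧
    jA = (cJ * J + cm * m) / cd ∧
    jB = J - jA ∧
    D = J * (K + m + 2) ∧
    J2 = 2 * J ∧
    mJ = m * J2 ∧
    xA = 2 * X * jA ∧
    qA = 2 * m * B * jA ∧
    sloA = (qA + (mJ - 1) - D) / mJ ∧
    shiA = (qA + D) / mJ ∧
    XloA = (xA + (J - 1)) / J2 ∧
    XhiA = (xA + J) / J2 ∧
    nA = (if kcA = 0 then B * ndA / (J * nnA) + ncA else K / kcA) ∧
    kA = (if kcA = 0 then K / nA else kcA) ∧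
    rhoA = (min (K - nA * kA) (if kcA = 0 then nA - 1 else kcA - 1)) ∧
    PhiA = (m + (bA * jA - aA * m + (aA * m - bA * jA)) * (bA - 1) + (bA - 1)) / bA ∧
    needA = (if oneA = 0 then (if fp = 0 then nA * (PhiA / 2) else max ((nA * (PhiA / 2) + 1) / 2) ((nA *
      (PhiA / 2 + 1) - 3) / (nA - 2))) else 0) ∧
    xB = 2 * X * jB ∧
    qB = 2 * m * B * jB ∧
    sloB = (qB + (mJ - 1) - D) / mJ ∧
    shiB = (qB + D) / mJ ∧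
    XloB = (xB + (J - 1)) / J2 ∧
    XhiB = (xB + J) / J2 ∧
    nB = (if kcB = 0 then B * ndB / (J * nnB) + ncB else K / kcB) ∧
    kB = (if kcB = 0 then K / nB else kcB) ∧
    rhoB = (min (K - nB * kB) (if kcB = 0 then nB - 1 else kcB - 1)) ∧
    PhiB = (m + (bB * jB - aB * m + (aB * m - bB * jB)) * (bB - 1) + (bB - 1)) / bB ∧
    needB = (if oneB = 0 then (if fp = 0 then nB * (PhiB / 2) else max ((nB * (PhiB / 2) + 1) / 2) ((nB *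
      (PhiB / 2 + 1) - 3) / (nB - 2))) else 0) ∧
    gl = (max needA needB) + K * pk / 16 + pc ∧
    m2 = m / 2 ∧
    Ul = (if fp = 0 then gl else 2 * gl) ∧
    Uh = Ul + m2 ∧
    gh = gl + m2 ∧
    hh = (if fp = 0 then gh else m2) ∧
    z = 0 ∧
    E = D + m * J + mJ * hh ∧
    1 ≤ m ∧
    1 ≤ jA ∧
    jA + 1 ≤ J ∧
    D ≤ qA ∧
    (oneA ≠ 0 ∨ (kcA ≤ nA ∧ (1 ≤ bA ∧ Nat.Coprime aA bA) ∧ (if fp = 0 then 2 else 3) ≤ nA)) ∧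
    D ≤ qB ∧
    (oneB ≠ 0 ∨ (kcB ≤ nB ∧ (1 ≤ bB ∧ Nat.Coprime aB bB) ∧ (if fp = 0 then 2 else 3) ≤ nB)) ∧
    E ≤ 2 * m * f * jA ∧
    E ≤ 2 * m * f * jB ∧
    ((oneA ≠ 0 ∧ fp = 0 ∧ LFc m jA K t t sloA shiA Uh Ul Uh z XloA XhiA rnA rcA wcA) ∨ (oneA = 0 ∧ PTc m jA t
      t sloA shiA XloA XhiA nA kA rhoA PhiA Ul Uh gh bA cA rnA rcA wcA rn2A rc2A wc2A)) ∧
    ((oneB ≠ 0 ∧ fp = 0 ∧ LFc m jB K t t sloB shiB Uh Ul Uh z XloB XhiB rnB rcB wcB) ∨ (oneB = 0 ∧ PTc m jB t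
      t sloB shiB XloB XhiB nB kB rhoB PhiB Ul Uh gh bB cB rnB rcB wcB rn2B rc2B wc2B))

/-- a narrow block is a leaf -/
def DQc (m J om K rn rc wc : ℕ) : Prop :=
  ∃ t B z : ℕ,
    t = (om * K + (J + m - 1)) / (J + m) ∧
    B = K + t ∧
    z = 0 ∧
    QZc m J K t t B B z z z z rn rc wc

/-- the condition SLr of the slice design -/
def SLc (N R C y kap : ℕ) : Prop :=
  ∃ y1 y2 D hy h yh : ℕ,
    y1 = y + 1 ∧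
    y2 = 2 * y1 ∧
    D = 2 * ((N + (R - (y + 2))) / (R - y1)) ∧
    hy = y / 2 ∧
    h = (y + 2) / 2 ∧
    yh = y1 + h ∧
    ((R + C + (max (max (7 * kap - 17) (13 * kap - 53)) (17 * kap - 105)) + 1 ≤ (kap - 1) * y + 2 ∧ y2 ≤ R ∧
      (y2 + kap + 2 + D ≤ C ∨ (y2 + kap ≤ R ∧ y2 + 3 + D ≤ C))) ∨ ((R + C) / 2 + hy + (max (max (7 * kap - 17)
      (13 * kap - 53)) (17 * kap - 105)) + 1 ≤ (kap - 1) * (hy + 1) ∧ ((3 * y1 ≤ R ∧ yh + kap + 2 ≤ C ∧ yh + 2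
      + 2 * ((N + y) / y1) ≤ C) ∨ (3 * y1 + h ≤ R ∧ yh + 2 ≤ C ∧ y1 + 2 * kap + 2 + 2 * ((N + hy) / h) ≤ C))))

/-- slices along one of the three factors (o = 0: I, else p = 0: J, else K) -/
def SXc (m J r K kap o p sw : ℕ) : Prop :=
  ∃ I N P Q R C y : ℕ,
    I = m + 2 ∧
    N = (if o = 0 then I else (if p = 0 then J else K)) ∧
    P = (if o = 0 then J else I) ∧
    Q = (if o = 0 then K else (if p = 0 then K else J)) ∧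
    R = (if sw = 0 then P else Q) ∧
    C = (if sw = 0 then Q else P) ∧
    y = r / N ∧
    8 ≤ N ∧
    4 ≤ kap ∧
    kap ≤ 19 ∧
    3 ≤ y ∧
    SLc N R C y kap

/-- regions that are not needed or settled elsewhere (K = r (J + m) / (J + m + om)) -/
def EXc (m J om r K : ℕ) : Prop :=
  ∃ I S W Q : ℕ,
    I = m + 2 ∧
    S = I + J ∧
    W = S + K ∧
    Q = I * J ∧
    (K + 1 ≤ J ∨ J ≤ m + 1 ∨ (28 ≤ m ∧ 100 ≤ J ∧ (om + 1 ≤ 3 * m ∨ 9 * (J + m + om) ≤ Q)) ∨ (om + m ≤ J ∧ 3 *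
      m + 50 ≤ J) ∨ (om ≤ m ∧ m + 5 ≤ J) ∨ 16 * S * (W * W) ≤ Q * Q ∨ (m ≤ 4 ∧ 320 ≤ J ∧ 4 * r ≤ 13 * J) ∨ (5
      ≤ m ∧ m ≤ 5 ∧ 600 ≤ J ∧ 4 * r ≤ 15 * J) ∨ (m ≤ 4 ∧ 320 ≤ J ∧ 12 * om ≤ 13 * J) ∨ (5 ≤ m ∧ m ≤ 5 ∧ 600 ≤
      J ∧ 24 * om ≤ 25 * J))

/-- a root: settled elsewhere, or cut with pairs, or exact blocks and a last block -/
def RTc (m J om sx so sp sw sl fz cm cJ cd pc pk oneA oneB aA bA kcA ncA ndA nnA cA rnA rcA wcA rn2A rc2A wc2A aB bB kcB ncB ndB nnB cB rnB rcB wcB rn2B rc2B wc2B : ℕ) : Prop :=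
  ∃ tau v r K K1 fr : ℕ,
    tau = J + m ∧
    v = tau + om ∧
    r = (m + 1) * J - (m + om) ∧
    K = r * tau / v ∧
    K1 = tau / 16 + 1 ∧
    fr = r - v ∧
    (EXc m J om r K ∨ (sx ≠ 0 ∧ SXc m J r K sx so sp sw) ∨ (sl = 0 ∧ (fz = 0 ∨ (K + m + 1 ≤ 3 * J ∧ 8 * K ≤ 9
      * tau ∧ m ≤ 19)) ∧ PPc m J om r K fz cm cJ cd pc pk aA bA kcA ncA ndA nnA cA rnA rcA wcA rn2A rc2A wc2A
      aB bB kcB ncB ndB nnB cB rnB rcB wcB rn2B rc2B wc2B) ∨ (sl ≠ 0 ∧ K1 + tau ≤ K ∧ v ≤ r ∧ MTc m J om tau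
      fr fz cm cJ cd pc pk oneA oneB aA bA kcA ncA ndA nnA cA rnA rcA wcA rn2A rc2A wc2A aB bB kcB ncB ndB nnB
      cB rnB rcB wcB rn2B rc2B wc2B))

/-- the last block, after a exact blocks -/
def BKc (m J om sx so sp sw a sl fz cm cJ cd pc pk oneA oneB aA bA kcA ncA ndA nnA cA rnA rcA wcA rn2A rc2A wc2A aB bB kcB ncB ndB nnB cB rnB rcB wcB rn2B rc2B wc2B : ℕ) : Prop :=
  ∃ tau v r K K1 aT L f : ℕ,
    tau = J + m ∧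
    v = tau + om ∧
    r = (m + 1) * J - (m + om) ∧
    K = r * tau / v ∧
    K1 = tau / 16 + 1 ∧
    aT = a * tau ∧
    L = K - aT ∧
    f = a * v ∧
    (EXc m J om r K ∨ K + 1 ≤ K1 + tau ∨ (5 ≤ m ∧ m ≤ 5 ∧ 600 ≤ J ∧ 19 * J ≤ 10 * om ∧ 10 * om ≤ 21 * J) ∨ (sx
      ≠ 0 ∧ SXc m J r K sx so sp sw) ∨ (a = 0 ∧ PPc m J om r K 0 cm cJ cd pc pk aA bA kcA ncA ndA nnA cA rnA
      rcA wcA rn2A rc2A wc2A aB bB kcB ncB ndB nnB cB rnB rcB wcB rn2B rc2B wc2B) ∨ (a ≠ 0 ∧ aT + 1 ≤ K ∧ ((sl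
      = 0 ∧ DQc m J om L rnA rcA wcA) ∨ (sl ≠ 0 ∧ MTc m J om L f fz cm cJ cd pc pk oneA oneB aA bA kcA ncA ndA
      nnA cA rnA rcA wcA rn2A rc2A wc2A aB bB kcB ncB ndB nnB cB rnB rcB wcB rn2B rc2B wc2B))))

/-- a root without slack near the diagonal -/
def PXc (m J om j pc pk kcA ncA ndA nnA cA rnA rcA wcA rn2A rc2A wc2A kcB ncB ndB nnB cB rnB rcB wcB rn2B rc2B wc2B : ℕ) : Prop :=
  ∃ tau v r K : ℕ,
    tau = J + m ∧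
    v = tau + om ∧
    r = (m + 1) * J - (m + om) ∧
    K = r * tau / v ∧
    (EXc m J om r K ∨ 9 * tau + 1 ≤ 8 * K ∨ 3 * j + 1 ≤ J ∨ J + 1 ≤ 2 * j ∨ PEc m J om r K j pc pk kcA ncA ndA
      nnA cA rnA rcA wcA rn2A rc2A wc2A kcB ncB ndB nnB cB rnB rcB wcB rn2B rc2B wc2B)

end Pool.Agent.Work.MP_f4b644_ag.Mid
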