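import Pool.Agent.Work.MP_f4b644_ag.Mid.Cond

/-!
Sufficient conditions for fat roots (generated).
-/

set_option autoImplicit false

namespace Pool.Agent.Work.MP_f4b644_ag.Mid

/-- the exact block by slices -/
def TBc (N C R v ta te tz tc td tb ts : ℕ) : Prop :=
  ∃ mm g md bm w c u sm : ℕ,
    mm = ta - te ∧
    g = (1 - te) * td ∧
    md = mm * td ∧
    bm = C * tb / 256 + ts ∧
    w = (mm - 1) * bm ∧
    c = v / N ∧
    u = (c + 1) / 2 ∧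
    sm = (td - 1) * mm ∧
    te ≤ 1 ∧
    te + 1 ≤ ta ∧
    ta + 4 ≤ N ∧
    td + 3 ≤ c ∧
    (ta + 3) * v + 4 * N ≤ R * N ∧
    ((tz ≠ 0 ∧ 2 * g + 5 ≤ c ∧ 3 * c + w + td ≤ C + (1 + 2 * g) ∧ C + (5 + te + td + g) ≤ (4 + te) * c + w ∧ R
      + (2 + g) ≤ md * c + u) ∨ (tz = 0 ∧ 1 ≤ tc ∧ 2 * (tc + g) + 3 ≤ c ∧ 2 * c + w + (2 + 2 * tc + td) ≤ C ∧
      C + (3 + te + td) ≤ (3 + te) * c + u + w + tc ∧ R ≤ md * c + tc)) ∧
    (mm ≤ 1 ∨ (td ≤ bm ∧ (bm + (td + 1) ≤ c ∨ (bm + td ≤ c ∧ 1 ≤ sm ∧ md + 1 ≤ c * (sm - 1)))))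

/-- a block of width L with B tangents by slices -/
def LBc (N C R v L B ta te tz tc td tb ts : ℕ) : Prop :=
  ∃ mm g md bm w c y h u W ng A AL x1 x2 sm sn : ℕ,
    mm = ta - te ∧
    g = (1 - te) * td ∧
    md = mm * td ∧
    bm = C * tb / 256 + ts ∧
    w = (mm - 1) * bm ∧
    c = (v - 1) / N ∧
    y = B / N ∧
    h = y / 2 ∧
    u = (y + 1) / 2 ∧
    W = N * R ∧
    ng = 2 * (y - c) ∧
    A = C + bm + md ∧
    AL = A + L ∧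
    x1 = w + 1 ∧
    x2 = 2 * c + x1 ∧
    sm = (c - (bm + 1)) * mm ∧
    sn = sm + mm ∧
    te ≤ 1 ∧
    te + 1 ≤ ta ∧
    1 ≤ td ∧
    ta + 4 ≤ N ∧
    td + 3 ≤ c ∧
    1 ≤ y ∧
    ((ta + 3) * B + 4 * N ≤ L * N ∨ (4 * N + (ta + 3)) * R ≤ L * (W - (ta + 3) * v)) ∧
    ((tz ≠ 0 ∧ h + (g + 3) ≤ c ∧ 3 * c + w + td ≤ C + (1 + 2 * g) ∧ C + (5 + te + td + g) ≤ (4 + te) * c + w)
      ∨ (tz = 0 ∧ 1 ≤ tc ∧ h + (tc + g + 2) ≤ c ∧ y + c + w + (2 + 2 * tc + td) ≤ C ∧ C + (3 + te + td) ≤ (3 +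
      te) * c + u + w + tc)) ∧
    (L + C + ng ≤ (md - 1) * y + 3 ∨ W * (C + ng + md) ≤ L * ((md - 1) * v - W)) ∧
    (mm ≤ 1 ∨ (td ≤ bm ∧ (bm + (td + 1) ≤ c ∨ (3 ≤ sm ∧ A ≤ y * (sm - 1) + x1 ∧ A ≤ y * (sm - 3) + x2 ∧ (bm +
      td ≤ c ∨ (AL ≤ y * (sn - 1) + x1 ∧ AL ≤ y * (sn - 3) + x2))))))

/-- the exact block by slices (tq = 0: along I, else along J) -/
def RVc (m J om tq ta te tz tc td tb ts : ℕ) : Prop :=
  ∃ tau v r K K1 I N C : ℕ,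
    tau = J + m ∧
    v = tau + om ∧
    r = (m + 1) * J - (m + om) ∧
    K = r * tau / v ∧
    K1 = tau / 16 + 1 ∧
    I = m + 2 ∧
    N = (if tq = 0 then I else J) ∧
    C = (if tq = 0 then J else I) ∧
    K1 + tau ≤ K ∧
    v ≤ r ∧
    TBc N C tau v ta te tz tc td tb ts

/-- the last block by slices, after sa exact blocks -/
def LVc (m J om sa tq ta te tz tc td tb ts : ℕ) : Prop :=
  ∃ tau v I N C ra L B : ℕ,
    tau = J + m ∧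
    v = tau + om ∧
    I = m + 2 ∧
    N = (if tq = 0 then I else J) ∧
    C = (if tq = 0 then J else I) ∧
    ra = I * J - (sa + 1) * v ∧
    L = ra * tau / v ∧
    B = (max (min ((L * v + (tau - 1)) / tau) ra) (ra - (v / tau + 1))) ∧
    1 ≤ L ∧
    LBc N C tau v L B ta te tz tc td tb ts

/-- a root is cut into two blocks of half the width -/
def HBc (m J om tq ta te tz tc td tb ts : ℕ) : Prop :=
  ∃ tau v r K I N C L1 L2 B1 B2 : ℕ,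
    tau = J + m ∧
    v = tau + om ∧
    r = (m + 1) * J - (m + om) ∧
    K = r * tau / v ∧
    I = m + 2 ∧
    N = (if tq = 0 then I else J) ∧
    C = (if tq = 0 then J else I) ∧
    L1 = K / 2 ∧
    L2 = (K + 1) / 2 ∧
    B1 = (L1 * v + (tau - 1)) / tau ∧
    B2 = (L2 * v + (tau - 1)) / tau ∧
    K * v + tau ≤ r * tau + 1 ∧
    LBc N C tau v L1 B1 ta te tz tc td tb ts ∧
    LBc N C tau v L2 B2 ta te tz tc td tb ts

/-- a fat root -/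
def RUc (m J om st hb tq ta te tz tc td tb ts sx so sp sw sl fz cm cJ cd pc pk oneA oneB aA bA kcA ncA ndA nnA cA rnA rcA wcA rn2A rc2A wc2A aB bB kcB ncB ndB nnB cB rnB rcB wcB rn2B rc2B wc2B : ℕ) : Prop :=
    ((st ≠ 0 ∧ RVc m J om tq ta te tz tc td tb ts) ∨ (st = 0 ∧ ((hb ≠ 0 ∧ HBc m J om tq ta te tz tc td tb ts)
      ∨ (hb = 0 ∧ RTc m J om sx so sp sw sl fz cm cJ cd pc pk oneA oneB aA bA kcA ncA ndA nnA cA rnA rcA wcA
      rn2A rc2A wc2A aB bB kcB ncB ndB nnB cB rnB rcB wcB rn2B rc2B wc2B))))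

/-- the last block of a fat root -/
def BUc (m J om sa hb tq ta te tz tc td tb ts sx so sp sw a sl fz cm cJ cd pc pk oneA oneB aA bA kcA ncA ndA nnA cA rnA rcA wcA rn2A rc2A wc2A aB bB kcB ncB ndB nnB cB rnB rcB wcB rn2B rc2B wc2B : ℕ) : Prop :=
    ((sa ≠ 0 ∧ LVc m J om sa tq ta te tz tc td tb ts) ∨ (sa = 0 ∧ ((hb ≠ 0 ∧ HBc m J om tq ta te tz tc td tb
      ts) ∨ (hb = 0 ∧ BKc m J om sx so sp sw a sl fz cm cJ cd pc pk oneA oneB aA bA kcA ncA ndA nnA cA rnA rcA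
      wcA rn2A rc2A wc2A aB bB kcB ncB ndB nnB cB rnB rcB wcB rn2B rc2B wc2B))))

end Pool.Agent.Work.MP_f4b644_ag.Mid
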