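import Pool.Agent.Work.MP_f4b644_ag.Mid.Prog

/-!
The three programs which are checked on boxes, and the two charts. The variables are `m`, `J`, `ω`, `j`.
-/

namespace Pool.Agent.Work.MP_f4b644_ag.Mid

/-- roots -/
def pRT : C := RTp 32 (.var 0) (.var 1) (.var 2)
    (.hint 0) (.hint 1) (.hint 2) (.hint 3) (.hint 4) (.hint 5) (.hint 6) (.hint 7) (.hint 8) (.hint 9)
    (.hint 10) (.hint 11) (.hint 12) (.hint 13) (.hint 14) (.hint 15) (.hint 16) (.hint 17) (.hint 18)
    (.hint 19) (.hint 20) (.hint 21) (.hint 22) (.hint 23) (.hint 24) (.hint 25) (.hint 26) (.hint 27)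
    (.hint 28) (.hint 29) (.hint 30) (.hint 31) (.hint 32) (.hint 33) (.hint 34) (.hint 35) (.hint 36)
    (.hint 37) (.hint 38)

/-- last blocks -/
def pBK : C := BKp 32 (.var 0) (.var 1) (.var 2)
    (.hint 0) (.hint 1) (.hint 2) (.hint 3) (.hint 4) (.hint 5) (.hint 6) (.hint 7) (.hint 8) (.hint 9)
    (.hint 10) (.hint 11) (.hint 12) (.hint 13) (.hint 14) (.hint 15) (.hint 16) (.hint 17) (.hint 18)
    (.hint 19) (.hint 20) (.hint 21) (.hint 22) (.hint 23) (.hint 24) (.hint 25) (.hint 26) (.hint 27)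
    (.hint 28) (.hint 29) (.hint 30) (.hint 31) (.hint 32) (.hint 33) (.hint 34) (.hint 35) (.hint 36)
    (.hint 37) (.hint 38) (.hint 39)

/-- exact cuts -/
def pPX : C := PXp 32 (.var 0) (.var 1) (.var 2) (.var 3)
    (.hint 0) (.hint 1) (.hint 2) (.hint 3) (.hint 4) (.hint 5) (.hint 6) (.hint 7) (.hint 8) (.hint 9)
    (.hint 10) (.hint 11) (.hint 12) (.hint 13) (.hint 14) (.hint 15) (.hint 16) (.hint 17) (.hint 18)
    (.hint 19) (.hint 20) (.hint 21) (.hint 22) (.hint 23)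

/-- coordinates `m`, `J`, `ω / J`, `j / J` -/
def ce0 : Nat := 649501250653812760807561

/-- coordinates `m`, `J / m`, `ω / (m J)`, `j / J` -/
def ce1 : Nat := 649502403577516391958665

end Pool.Agent.Work.MP_f4b644_ag.Mid
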