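import Pool.Agent.Work.MP_f4b644_ag.Mid.DomS
import Pool.Agent.Work.MP_f4b644_ag.Mid.PTop

/-!
Boxes on which a program holds, and the meaning for the two charts.
-/

namespace Pool.Agent.Work.MP_f4b644_ag.Mid

open Pool.Agent.Lib.KLA

/-- the program holds at all points of the box -/
def Cov (ce : ℕ) (p : C) (b : Bx) : Prop := ∀ (x : Pt) (ρ : ℕ → ℕ), InBox b x → Vars ce ρ x → ∃ g h, p.sem ρ g h

theorem Cov.run {ce : ℕ} {p : C} {t : Tr} {b : Bx} (h : t.run ce p b = true) : Cov ce p b :=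
  fun x ρ hb hρ => Tr.run_s h x ρ hb hρ

/-- equality of the bounds -/
noncomputable def beqB (a b : Bx) : Bool :=
  bnd (bnd (bnd (bnd (Nat.beq a.l0 b.l0) (Nat.beq a.h0 b.h0)) (bnd (Nat.beq a.l1 b.l1) (Nat.beq a.h1 b.h1)))
    (bnd (bnd (Nat.beq a.l2 b.l2) (Nat.beq a.h2 b.h2)) (bnd (Nat.beq a.l3 b.l3) (Nat.beq a.h3 b.h3))))
    (bnd (Nat.beq a.l4 b.l4) (Nat.beq a.h4 b.h4))

theorem beqB_s {a b : Bx} {x : Pt} (h : beqB a b = true) (ha : InBox a x) : InBox b x := by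
  have h1 := bnd_t h
  have h2 := bnd_t h1.1
  have h3 := bnd_t h2.1
  have h4 := bnd_t h2.2
  unfold InBox at ha ⊢
  rw [← beq_t (bnd_t h3.1).1, ← beq_t (bnd_t h3.1).2, ← beq_t (bnd_t h3.2).1, ← beq_t (bnd_t h3.2).2,
    ← beq_t (bnd_t h4.1).1, ← beq_t (bnd_t h4.1).2, ← beq_t (bnd_t h4.2).1, ← beq_t (bnd_t h4.2).2,
    ← beq_t (bnd_t h1.2).1, ← beq_t (bnd_t h1.2).2]
  exact ha

/-- the box `b` is cut into the boxes `l` and `r` -/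
noncomputable def cutOK (ce w : ℕ) (b l r : Bx) : Bool :=
  (Tr.node w (.leaf 0) (.leaf 1)).chk ce (.le (.cst 1) (.cst 0)) (fun d => cnd (Nat.beq d.w 0) (beqB d l) (beqB d r)) b

theorem Cov.node {ce : ℕ} {p : C} (w : ℕ) (b : Bx) {l r : Bx} (hl : Cov ce p l) (hr : Cov ce p r)
    (h : cutOK ce w b l r = true) : Cov ce p b := by
  intro x ρ hb hρ
  refine chk_s (p := p) hρ (Tr.node w (.leaf 0) (.leaf 1)) _ b hb (fun d hd _ => ?_) h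
  exact cnd_ind (fun c : Bool => c = true → _) (fun _ k => hl x ρ (beqB_s k hd) hρ) fun _ k => hr x ρ (beqB_s k hd) hρ

/-- `a / b` lies between the bounds -/
def IQ (l h a b : ℕ) : Prop := l * b ≤ a * 4294967296 ∧ (h ≠ 0 → a * 4294967296 ≤ h * b)

theorem vars4 {x : Pt} {ce a0 a1 a2 a3 : ℕ} (hce : ce < 2 ^ 80) (h0 : (a0 : ℝ) = mon x (ceOf ce 0))
    (h1 : (a1 : ℝ) = mon x (ceOf ce 1)) (h2 : (a2 : ℝ) = mon x (ceOf ce 2)) (h3 : (a3 : ℝ) = mon x (ceOf ce 3)) :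
    Vars ce (rho5 a0 a1 a2 a3 0) x := by
  refine vars_of 4 hce fun i hi => ?_
  have h : i = 0 ∨ i = 1 ∨ i = 2 ∨ i = 3 := by omega
  rcases h with rfl | rfl | rfl | rfl <;> assumption

theorem ch0 {p : C} {l0 h0 l1 h1 l2 h2 l3 h3 : ℕ}
    (H : Cov ce0 p ⟨l0, h0, l1, h1, l2, h2, l3, h3, 4294967296, 4294967296, 0⟩) (m J om j : ℕ) (pm : 0 < m)
    (pJ : 0 < J) (po : 0 < om) (pj : 0 < j) (k0 : IQ l0 h0 m 1) (k1 : IQ l1 h1 J 1) (k2 : IQ l2 h2 om J)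
    (k3 : IQ l3 h3 j J) : ∃ g h, p.sem (rho5 m J om j 0) g h := by
  have qJ : (J : ℝ) ≠ 0 := by exact_mod_cast pJ.ne'
  refine H (ptQ m 1 J 1 om J j J 1 1 (by omega)) _
    ⟨I1_div one_pos k0.1 k0.2, I1_div one_pos k1.1 k1.2, I1_div pJ k2.1 k2.2, I1_div pJ k3.1 k3.2,
      I1_div one_pos (by simp) (by simp)⟩ (vars4 (by decide) ?_ ?_ ?_ ?_)
  · rw [mon_of _ _ 1 0 0 0 0 (by decide)]
    simp [ptQ]
  · rw [mon_of _ _ 0 1 0 0 0 (by decide)]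
    simp [ptQ]
  · rw [mon_of _ _ 0 1 1 0 0 (by decide)]
    simp only [ptQ, zpow_zero, zpow_one, Nat.cast_one]
    field_simp
  · rw [mon_of _ _ 0 1 0 1 0 (by decide)]
    simp only [ptQ, zpow_zero, zpow_one, Nat.cast_one]
    field_simp

theorem ch1 {p : C} {l0 h0 l1 h1 l2 h2 l3 h3 : ℕ}
    (H : Cov ce1 p ⟨l0, h0, l1, h1, l2, h2, l3, h3, 4294967296, 4294967296, 0⟩) (m J om j : ℕ) (pm : 0 < m)
    (pJ : 0 < J) (po : 0 < om) (pj : 0 < j) (k0 : IQ l0 h0 m 1) (k1 : IQ l1 h1 J m) (k2 : IQ l2 h2 om (m * J))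
    (k3 : IQ l3 h3 j J) : ∃ g h, p.sem (rho5 m J om j 0) g h := by
  have qJ : (J : ℝ) ≠ 0 := by exact_mod_cast pJ.ne'
  have qm : (m : ℝ) ≠ 0 := by exact_mod_cast pm.ne'
  refine H (ptQ m 1 J m om (m * J) j J 1 1 ⟨pm, one_pos, pJ, pm, po, Nat.mul_pos pm pJ, pj, pJ, one_pos, one_pos⟩) _
    ⟨I1_div one_pos k0.1 k0.2, I1_div pm k1.1 k1.2, I1_div (Nat.mul_pos pm pJ) k2.1 k2.2, I1_div pJ k3.1 k3.2,
      I1_div one_pos (by simp) (by simp)⟩ (vars4 (by decide) ?_ ?_ ?_ ?_)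
  · rw [mon_of _ _ 1 0 0 0 0 (by decide)]
    simp [ptQ]
  · rw [mon_of _ _ 1 1 0 0 0 (by decide)]
    simp only [ptQ, zpow_zero, zpow_one, Nat.cast_one]
    field_simp
  · rw [mon_of _ _ 2 1 1 0 0 (by decide)]
    simp only [ptQ, zpow_zero, zpow_one, Nat.cast_one, Nat.cast_mul]
    field_simp
  · rw [mon_of _ _ 1 1 0 1 0 (by decide)]
    simp only [ptQ, zpow_zero, zpow_one, Nat.cast_one]
    field_simp

end Pool.Agent.Work.MP_f4b644_ag.Mid
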