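import Pool.Agent.Work.MP_f4b644_ag.Mid.Dom

/-!
The conditions of `Cond` as programs for the box checker (generated).
-/

namespace Pool.Agent.Work.MP_f4b644_ag.Mid

/-- the algorithm of Euclid ends with `1` -/
def copP : Nat → E → E → C
  | 0, _, b => .and (.le b (.cst 1)) (.le (.cst 1) b)
  | n + 1, a, b => .or (.and (.le b (.cst 1)) (.le (.cst 1) b)) (copP n b (.mod a b))

/-- `F i`, `F (i + 1)`, ... below `c`, at most `n` conditions -/
def allP (c : E) (F : Nat → C) : Nat → Nat → C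
  | 0, i => .le c (.cst i)
  | n + 1, i => .or (.le c (.cst i)) (.and (F i) (allP c F n (i + 1)))

/-- sufficient condition for the block with a sink, all counts in ranges -/
def QRp (th : Nat) (vm vj vk vTlo vThi vslo vshi vuhi velo vehi vGhi vrn vrc vwc : E) : C :=
  let vkm : E := (.sub vk (.cst 1))
  let vwU : E := (.max (.div th (.sub vThi (.cst 1)) vkm) vwc)
  let vwl : E := (.div th (.sub vTlo (.cst 1)) vkm)
  let vyL : E := (.sub vm (.add vwU (.cst 1)))
  let vyH : E := (.sub vm (.add vwl (.cst 1)))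
  let vjs : E := (.sub vj vshi)
  let vrp : E := (.add (.div th (.mul vyL vrn) (.cst 16)) vrc)
  let vro : E := (.mul (.cst 2) vrp)
  let vTp : E := (.max (.sub vTlo (.mul vwU vkm)) (.cst 1))
  let vGs : E := (.sub vGhi (.mul (.mul (.div th vslo vk) vrp) vkm))
  let vL : E := (.add (.add (.mul (.sub vyL vro) vshi) vehi) (.mul vro vkm))
  let vL2 : E := (.add vL vshi)
  let vkG : E := (.mul vk vGs)
  let vkk : E := (.add (.mul vwU vkm) (.cst 1))
  let vA1 : E := (.mul vjs (.sub (.mul vk (.add vm (.cst 1))) vThi))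
  let vA2 : E := (.mul vjs (.sub (.mul vk (.sub vm (.cst 1))) vThi))
  let vB1 : E := (.mul vjs (.add (.add (.mul vk (.add vyL (.cst 2))) vwl) (.cst 1)))
  let vB2 : E := (.mul vjs (.add (.add (.mul vk vyL) vwl) (.cst 1)))
  (.and (.le (.cst 2) vk)
    (.and (.le (.cst 1) vTlo)
    (.and (.le (.add vwU (.cst 2)) vm)
    (.and (.le (.add vshi (.cst 1)) vj)
    (.and (.le (.add vshi vehi) (.add vTlo vk))
    (.and (.le vuhi vslo)
    (.and (.le (.add vro (.cst 1)) vyL)
    (.and (.or (.le (.add vshi (.cst 1)) vk)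
    (.or (.le (.add vuhi vk) vslo)
    (.and (.or (.le vuhi vk)
    (.le (.add vuhi vk) (.add vslo (.cst 1))))
    (.le (.add vro (.cst 2)) vyL))))
    (.and (.or (.le vk vslo)
    (.and (.le (.cst 2) vyL)
    (.or (.le vk (.add vslo velo))
    (.or (.and (.le (.mul vk vk) (.add (.mul (.mul vslo vslo) (.add vTp (.cst 1))) (.mul vk velo)))
    (.le vk (.add (.add (.mul (.sub vyL (.cst 1)) vslo) velo) (.cst 1))))
    (.and (.le (.cst 3) vyL)
    (.le (.mul (.cst 2) vk) (.mul (.cst 3) vslo)))))))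
    (.and (.le (.add (.add (.add (.mul vyH (.sub vk vslo)) (.mul vro vshi)) vuhi) vk) (.add (.add (.add (.mul vjs
      vTlo) (.mul vyL (.sub vslo vk))) velo) (.cst 1)))
    (.and (.le (.add vL (.mul (.cst 2) vkG)) vA1)
    (.and (.or (.and (.le vGs vjs)
    (.le vL vA2))
    (.le (.add vL vkG) vA2))
    (.or (.le vkk vTlo)
    (.and (.le vshi (.mul vk vjs))
    (.and (.le (.add vL2 (.mul (.cst 2) vkG)) vB1)
    (.or (.and (.le vGs vjs)
    (.le vL2 vB2))
    (.le (.add vL2 vkG) vB2)))))))))))))))))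

/-- the same without the bound for the number of B-points -/
def QZp (th : Nat) (vm vj vk vTlo vThi vslo vshi vuhi velo vehi vGhi vrn vrc vwc : E) : C :=
  let vkm : E := (.sub vk (.cst 1))
  let vwU : E := (.max (.div th (.sub vThi (.cst 1)) vkm) vwc)
  let vwl : E := (.div th (.sub vTlo (.cst 1)) vkm)
  let vyL : E := (.sub vm (.add vwU (.cst 1)))
  let vyH : E := (.sub vm (.add vwl (.cst 1)))
  let vjs : E := (.sub vj vshi)
  let vrp : E := (.add (.div th (.mul vyL vrn) (.cst 16)) vrc)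
  let vro : E := (.mul (.cst 2) vrp)
  let vTp : E := (.max (.sub vTlo (.mul vwU vkm)) (.cst 1))
  let vGs : E := (.sub vGhi (.mul (.mul (.div th vslo vk) vrp) vkm))
  let vL : E := (.add (.add (.mul (.sub vyL vro) vshi) vehi) (.mul vro vkm))
  let vL2 : E := (.add vL vshi)
  let vkG : E := (.mul vk vGs)
  let vkk : E := (.add (.mul vwU vkm) (.cst 1))
  let vA1 : E := (.mul vjs (.sub (.mul vk (.add vm (.cst 1))) vThi))
  let vA2 : E := (.mul vjs (.sub (.mul vk (.sub vm (.cst 1))) vThi))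
  let vB1 : E := (.mul vjs (.add (.add (.mul vk (.add vyL (.cst 2))) vwl) (.cst 1)))
  let vB2 : E := (.mul vjs (.add (.add (.mul vk vyL) vwl) (.cst 1)))
  (.and (.le (.cst 2) vk)
    (.and (.le (.cst 1) vTlo)
    (.and (.le (.add vwU (.cst 2)) vm)
    (.and (.le (.add vshi (.cst 1)) vj)
    (.and (.le vuhi vslo)
    (.and (.le (.add vro (.cst 1)) vyL)
    (.and (.or (.le (.add vshi (.cst 1)) vk)
    (.or (.le (.add vuhi vk) vslo)
    (.and (.or (.le vuhi vk)
    (.le (.add vuhi vk) (.add vslo (.cst 1))))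
    (.le (.add vro (.cst 2)) vyL))))
    (.and (.or (.le vk vslo)
    (.and (.le (.cst 2) vyL)
    (.or (.le vk (.add vslo velo))
    (.or (.and (.le (.mul vk vk) (.add (.mul (.mul vslo vslo) (.add vTp (.cst 1))) (.mul vk velo)))
    (.le vk (.add (.add (.mul (.sub vyL (.cst 1)) vslo) velo) (.cst 1))))
    (.and (.le (.cst 3) vyL)
    (.le (.mul (.cst 2) vk) (.mul (.cst 3) vslo)))))))
    (.and (.le (.add (.add (.add (.mul vyH (.sub vk vslo)) (.mul vro vshi)) vuhi) vk) (.add (.add (.add (.mul vjs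
      vTlo) (.mul vyL (.sub vslo vk))) velo) (.cst 1)))
    (.and (.le (.add vL (.mul (.cst 2) vkG)) vA1)
    (.and (.or (.and (.le vGs vjs)
    (.le vL vA2))
    (.le (.add vL vkG) vA2))
    (.or (.le vkk vTlo)
    (.and (.le vshi (.mul vk vjs))
    (.and (.le (.add vL2 (.mul (.cst 2) vkG)) vB1)
    (.or (.and (.le vGs vjs)
    (.le vL2 vB2))
    (.le (.add vL2 vkG) vB2))))))))))))))))

/-- the same for blocks with k <= s + e -/
def QYp (th : Nat) (vm vj vk vTlo vThi vslo vshi vuhi velo vehi vGhi vrn vrc vwc : E) : C :=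
  let vkm : E := (.sub vk (.cst 1))
  let vwU : E := (.max (.div th (.sub vThi (.cst 1)) vkm) vwc)
  let vwl : E := (.div th (.sub vTlo (.cst 1)) vkm)
  let vyL : E := (.sub vm (.add vwU (.cst 1)))
  let vyH : E := (.sub vm (.add vwl (.cst 1)))
  let vjs : E := (.sub vj vshi)
  let vrp : E := (.add (.div th (.mul vyL vrn) (.cst 16)) vrc)
  let vro : E := (.mul (.cst 2) vrp)
  let vGs : E := (.sub vGhi (.mul (.mul (.div th vslo vk) vrp) vkm))
  let vL : E := (.add (.add (.mul (.sub vyL vro) vshi) vehi) (.mul vro vkm))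
  let vL2 : E := (.add vL vshi)
  let vkG : E := (.mul vk vGs)
  let vkk : E := (.add (.mul vwU vkm) (.cst 1))
  let vA1 : E := (.mul vjs (.sub (.mul vk (.add vm (.cst 1))) vThi))
  let vA2 : E := (.mul vjs (.sub (.mul vk (.sub vm (.cst 1))) vThi))
  let vB1 : E := (.mul vjs (.add (.add (.mul vk (.add vyL (.cst 2))) vwl) (.cst 1)))
  let vB2 : E := (.mul vjs (.add (.add (.mul vk vyL) vwl) (.cst 1)))
  (.and (.le (.cst 2) vk)
    (.and (.le (.cst 1) vTlo)
    (.and (.le (.add vwU (.cst 2)) vm)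
    (.and (.le (.add vshi (.cst 1)) vj)
    (.and (.le (.add vshi vehi) (.add vTlo vk))
    (.and (.le vuhi vslo)
    (.and (.le (.add vro (.cst 1)) vyL)
    (.and (.or (.le (.add vshi (.cst 1)) vk)
    (.or (.le (.add vuhi vk) vslo)
    (.and (.or (.le vuhi vk)
    (.le (.add vuhi vk) (.add vslo (.cst 1))))
    (.le (.add vro (.cst 2)) vyL))))
    (.and (.le (.cst 2) vyL)
    (.and (.le (.add (.add (.add (.mul vyH (.sub vk vslo)) (.mul vro vshi)) vuhi) vk) (.add (.add (.add (.mul vjs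
      vTlo) (.mul vyL (.sub vslo vk))) velo) (.cst 1)))
    (.and (.le (.add vL (.mul (.cst 2) vkG)) vA1)
    (.and (.or (.and (.le vGs vjs)
    (.le vL vA2))
    (.le (.add vL vkG) vA2))
    (.or (.le vkk vTlo)
    (.and (.le vshi (.mul vk vjs))
    (.and (.le (.add vL2 (.mul (.cst 2) vkG)) vB1)
    (.or (.and (.le vGs vjs)
    (.le vL2 vB2))
    (.le (.add vL2 vkG) vB2)))))))))))))))))

/-- the same for blocks with T < k and s + e < k -/
def QOp (th : Nat) (vm vj vk vTlo vslo vshi vuhi velo vehi vGhi : E) : C :=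
  let vy : E := (.sub vm (.cst 1))
  let vjs : E := (.sub vj vshi)
  let vL : E := (.add (.mul vy vshi) vehi)
  let vkG : E := (.mul vk vGhi)
  let vA2 : E := (.mul vjs (.add (.mul vk (.sub vm (.cst 2))) (.cst 1)))
  (.and (.le (.cst 2) vk)
    (.and (.le (.cst 1) vTlo)
    (.and (.le (.cst 3) vm)
    (.and (.le (.add vshi (.cst 1)) vj)
    (.and (.le vuhi vslo)
    (.and (.le (.mul vk vk) (.add (.mul (.mul vslo vslo) (.add vTlo (.cst 1))) (.mul vk velo)))
    (.and (.le vk (.add (.add (.mul (.sub vy (.cst 1)) vslo) velo) (.cst 1)))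
    (.and (.le (.add (.add (.mul vy (.sub vk vslo)) vuhi) vk) (.add (.add (.mul vjs vTlo) velo) (.cst 1)))
    (.and (.le (.add vL (.mul (.cst 2) vkG)) (.mul vjs (.add (.mul vk vm) (.cst 1))))
    (.or (.and (.le vGhi vjs)
    (.le vL vA2))
    (.le (.add vL vkG) vA2)))))))))))

/-- sufficient condition for the grid leaf, all counts in ranges -/
def GRp (th : Nat) (vm vj vk vTlo vThi vslo vshi vuhi vehi vGhi vXlo vXhi : E) : C :=
  let vw : E := (.div th vTlo vk)
  (.and (.le (.add vshi vehi) vk)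
    (.and (.le (.add vshi vGhi) vj)
    (.and (.le vuhi vslo)
    (.and (.le (.add vw (.cst 2)) vm)
    (.and (.le vXhi (.mul (.add vw (.cst 1)) vj))
    (.or (.and (.le vw (.cst 0))
    (.le vm vXlo))
    (.and (.le (.add (.add (.mul vw vj) (.mul (.cst 2) (.sub vm (.add vw (.cst 1))))) (.cst 1)) vXlo)
    (.le (.add (.add vThi (.mul (.cst 2) vw)) (.cst 1)) (.mul (.add vw (.cst 1)) vk)))))))))

/-- cases k <= s + e; s + e < k and wc k <= T (grid leaf); s + e < k and T < wc k -/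
def SRp (th : Nat) (vm vj vk vTlo vThi vslo vshi vuhi velo vehi vGhi vXlo vXhi vrn vrc vwc : E) : C :=
  let vs1 : E := (.max vslo (.sub vk vehi))
  let vs2 : E := (.min vshi vk)
  let vy : E := (.sub vm (.add vwc (.cst 1)))
  let vwk : E := (.mul vwc vk)
  (.and (.or (.le (.add vThi (.cst 1)) vwk)
    (.and (.le vuhi vslo)
    (.and (.le (.add vs2 vGhi) vj)
    (.and (.le (.add vwc (.cst 2)) vm)
    (.and (.le vXhi (.mul (.add vwc (.cst 1)) vj))
    (.or (.and (.le (.add (.add (.mul vwc vj) vy) (.cst 2)) vXlo)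
    (.le (.add vThi (.mul (.add vy (.cst 2)) vwc)) (.add vwk vk)))
    (.and (.le (.add (.add (.mul vwc vj) (.mul (.cst 2) vy)) (.cst 1)) vXlo)
    (.le (.add (.add vThi (.mul (.cst 2) vwc)) (.cst 1)) (.add vwk vk)))))))))
    (.and (.or (.le vwk vTlo)
    (.and (.le vwc (.cst 1))
    (QOp th vm vj vk vTlo vslo vs2 vuhi velo vehi vGhi)))
    (.or (.le (.add (.add vshi vehi) (.cst 1)) vk)
    (QYp th vm vj vk vTlo vThi vs1 vshi vuhi velo vehi vGhi vrn vrc (.cst 0)))))

/-- one of the two leaves -/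
def LFp (th : Nat) (vm vj vk vTlo vThi vslo vshi vuhi velo vehi vGhi vXlo vXhi vrn vrc vwc : E) : C :=
  (.or (QRp th vm vj vk vTlo vThi vslo vshi vuhi velo vehi vGhi vrn vrc (.cst 0))
    (.or (GRp th vm vj vk vTlo vThi vslo vshi vuhi vehi vGhi vXlo vXhi)
    (.and (.le (.cst 1) vwc)
    (SRp th vm vj vk vTlo vThi vslo vshi vuhi velo vehi vGhi vXlo vXhi vrn vrc vwc))))

/-- one chunk of the range of the deviation of the number of B-points -/
def CHp (th : Nat) (vm vj vk vnj vmn vnjb vCl vDh vCh vDl vSl vSh vnP vuhi velo vehi vGhi vXlo vXhi vg0 vg1 vrn vrc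
      vwc : E) : C :=
  let va0 : E := (.mul vnj vg0)
  let va1 : E := (.mul vnj vg1)
  let vT1 : E := (.div th (.sub (.add (.add vCl va0) vnj) (.add (.add vDh vnjb) (.ite vg0 (.cst 0) (.cst 1)))) vnj)
  let vT2 : E := (.div th (.sub (.add vCh va1) (.add (.add vDl vnjb) (.cst 1))) vnj)
  let vs1 : E := (.div th (.sub (.add vSl vnjb) (.add vnP va1)) vmn)
  let vs2 : E := (.div th (.sub (.add vSh vnjb) (.add va0 (.cst 1))) vmn)
  (.or (.le (.add vT2 (.cst 1)) vT1)
    (LFp th vm vj vk vT1 vT2 vs1 vs2 vuhi velo vehi vGhi vXlo vXhi vrn vrc vwc))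

/-- a part cut into n blocks of widths k and k + 1 -/
def PTp (th : Nat) (vm vj vTlo vThi vslo vshi vXlo vXhi vn vk vrho vPhi vUl vUh vgh vb vc vrn vrc vwc vrn2 vrc2 vwc2
      : E) : C :=
  let vaU : E := (.div th (.sub vPhi (.cst 1)) (.cst 2))
  let vaE : E := (.div th vPhi (.cst 2))
  let vql : E := (.div th vUl vn)
  let vqh : E := (.div th (.sub (.add vUh vn) (.cst 1)) vn)
  let vuhi : E := (.add vqh vaU)
  let velo : E := (.sub vql vaE)
  let vehi : E := (.add vqh vaE)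
  let vGhi : E := (.sub vgh (.sub vql vaU))
  let vnj : E := (.mul vn vj)
  let vmn : E := (.mul vm vn)
  let vnjb : E := (.mul vnj vb)
  let vnP : E := (.mul vn (.add vPhi (.cst 2)))
  let vSl : E := (.add (.mul vm vslo) vmn)
  let vSh : E := (.add (.mul vm vshi) vnP)
  let vCl : E := (.mul vj vTlo)
  let vCh : E := (.mul vj vThi)
  let vDl : E := (.mul vrho vXlo)
  let vDh : E := (.mul vrho vXhi)
  let vk1 : E := (.add vk (.cst 1))
  let vnr : E := (.sub vn vrho)
  let vCl1 : E := (.add vCl (.mul vnr vXlo))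
  let vCh1 : E := (.add vCh (.mul vnr vXhi))
  let vz : E := (.cst 0)
  (.and (.le (.cst 1) vc)
    (.and (.le (.add vDh vnjb) (.add vCl vnj))
    (.and (.le (.add vnjb vnP) vSl)
    (.and (allP vc (fun i => (CHp th vm vj vk vnj vmn vnjb vCl vDh vCh vDl vSl vSh vnP vuhi velo vehi vGhi vXlo vXhi
      (.div th (.mul (.mul (.cst 2) vb) (.cst i)) vc) (.div th (.mul (.mul (.cst 2) vb) (.add (.cst i) (.cst 1))) vc)
      vrn vrc vwc)) 24 0)
    (.or (.le vrho (.cst 0))
    (allP vc (fun i => (CHp th vm vj vk1 vnj vmn vnjb vCl1 vz vCh1 vz vSl vSh vnP vuhi velo vehi vGhi vXlo vXhi (.div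
      th (.mul (.mul (.cst 2) vb) (.cst i)) vc) (.div th (.mul (.mul (.cst 2) vb) (.add (.cst i) (.cst 1))) vc) vrn2
      vrc2 vwc2)) 24 0))))))

/-- the root is cut into two parts joined by pairs -/
def PPp (th : Nat) (vm vJ vom vr vK vf4 vcm vcJ vcd vpc vpk vaA vbA vkcA vncA vndA vnnA vcA vrnA vrcA vwcA vrn2A
      vrc2A vwc2A vaB vbB vkcB vncB vndB vnnB vcB vrnB vrcB vwcB vrn2B vrc2B vwc2B : E) : C :=
  let vtau : E := (.add vJ vm)
  let vX : E := (.add vom vm)
  let vjA : E := (.mul (.cst 2) (.div th (.add (.mul vcJ vJ) (.mul vcm vm)) (.mul (.cst 2) vcd)))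
  let vjB : E := (.sub vJ vjA)
  let vTlo : E := (.div th (.add (.mul vK vom) (.sub vtau (.cst 1))) vtau)
  let vThi : E := (.div th (.add (.mul vK vom) (.sub (.add vom vtau) (.cst 1))) vtau)
  let vqA : E := (.div th (.mul vjA vr) vJ)
  let vxA : E := (.div th (.mul vjA vX) vJ)
  let vsloA : E := (.sub vqA (.cst 1))
  let vshiA : E := (.add vqA (.cst 2))
  let vXloA : E := (.sub vxA (.cst 1))
  let vXhiA : E := (.add vxA (.cst 2))
  let vnA : E := (.ite vkcA (.add (.div th (.mul vr vndA) (.mul vJ vnnA)) vncA) (.div th vK vkcA))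
  let vkA : E := (.ite vkcA (.div th vK vnA) vkcA)
  let vrhoA : E := (.min (.sub vK (.mul vnA vkA)) (.ite vkcA (.sub vnA (.cst 1)) (.sub vkcA (.cst 1))))
  let vPhiA : E := (.div th (.add (.add vm (.mul (.add (.sub (.mul vbA vjA) (.mul vaA vm)) (.sub (.mul vaA vm) (.mul
      vbA vjA))) (.sub vbA (.cst 1)))) (.sub vbA (.cst 1))) vbA)
  let vqB : E := (.div th (.mul vjB vr) vJ)
  let vxB : E := (.div th (.mul vjB vX) vJ)
  let vsloB : E := (.sub vqB (.cst 1))
  let vshiB : E := (.add vqB (.cst 2))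
  let vXloB : E := (.sub vxB (.cst 1))
  let vXhiB : E := (.add vxB (.cst 2))
  let vnB : E := (.ite vkcB (.add (.div th (.mul vr vndB) (.mul vJ vnnB)) vncB) (.div th vK vkcB))
  let vkB : E := (.ite vkcB (.div th vK vnB) vkcB)
  let vrhoB : E := (.min (.sub vK (.mul vnB vkB)) (.ite vkcB (.sub vnB (.cst 1)) (.sub vkcB (.cst 1))))
  let vPhiB : E := (.div th (.add (.add vm (.mul (.add (.sub (.mul vbB vjB) (.mul vaB vm)) (.sub (.mul vaB vm) (.mul
      vbB vjB))) (.sub vbB (.cst 1)))) (.sub vbB (.cst 1))) vbB)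
  let vp0 : E := (.add (.add (.max (.max (.div th (.add (.mul vnA (.div th vPhiA (.cst 2))) (.cst 1)) (.cst 2)) (.div
      th (.sub (.mul vnA (.add (.div th vPhiA (.cst 2)) (.cst 1))) (.cst 3)) (.sub vnA (.cst 2)))) (.max (.div th
      (.add (.mul vnB (.div th vPhiB (.cst 2))) (.cst 1)) (.cst 2)) (.div th (.sub (.mul vnB (.add (.div th vPhiB
      (.cst 2)) (.cst 1))) (.cst 3)) (.sub vnB (.cst 2))))) (.div th (.mul vK vpk) (.cst 16))) vpc)
  let vpm : E := (.ite vf4 (.div th (.add (.add vK vm) (.cst 1)) (.cst 2)) (.add (.div th (.add vK vm) (.cst 4))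
      (.cst 1)))
  let vUl : E := (.mul (.cst 2) vp0)
  let vgh : E := (.add vp0 vpm)
  let vUh : E := (.mul (.cst 2) vgh)
  (.and (.le (.cst 1) vm)
    (.and (.le (.add vjA (.cst 1)) vJ)
    (.and (.le vkcA vnA)
    (.and (.and (.le (.cst 1) vbA)
    (copP 7 vaA vbA))
    (.and (.le (.cst 3) vnA)
    (.and (.le (.cst 1) vqA)
    (.and (.le (.cst 1) vxA)
    (.and (.le vkcB vnB)
    (.and (.and (.le (.cst 1) vbB)
    (copP 7 vaB vbB))
    (.and (.le (.cst 3) vnB)
    (.and (.le (.cst 1) vqB)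
    (.and (.le (.cst 1) vxB)
    (.and (PTp th vm vjA vTlo vThi vsloA vshiA vXloA vXhiA vnA vkA vrhoA vPhiA vUl vUh vgh vbA vcA vrnA vrcA vwcA
      vrn2A vrc2A vwc2A)
    (PTp th vm vjB vTlo vThi vsloB vshiB vXloB vXhiB vnB vkB vrhoB vPhiB vUl vUh vgh vbB vcB vrnB vrcB vwcB vrn2B
      vrc2B vwc2B))))))))))))))

/-- exact cut of a root without slack -/
def PEp (th : Nat) (vm vJ vom vr vK vj vpc vpk vkcA vncA vndA vnnA vcA vrnA vrcA vwcA vrn2A vrc2A vwc2A vkcB vncB
      vndB vnnB vcB vrnB vrcB vwcB vrn2B vrc2B vwc2B : E) : C :=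
  let vtau : E := (.add vJ vm)
  let vT : E := (.div th (.mul vK vom) vtau)
  let vjB : E := (.sub vJ vj)
  let vsA : E := (.div th (.mul vj vr) vJ)
  let vXA : E := (.div th (.mul vj (.add vom vm)) vJ)
  let vnA : E := (.ite vkcA (.add (.div th (.mul vr vndA) (.mul vJ vnnA)) vncA) (.div th vK vkcA))
  let vkA : E := (.ite vkcA (.div th vK vnA) vkcA)
  let vrhoA : E := (.min (.sub vK (.mul vnA vkA)) (.ite vkcA (.sub vnA (.cst 1)) (.sub vkcA (.cst 1))))
  let vsB : E := (.div th (.mul vjB vr) vJ)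
  let vXB : E := (.div th (.mul vjB (.add vom vm)) vJ)
  let vnB : E := (.ite vkcB (.add (.div th (.mul vr vndB) (.mul vJ vnnB)) vncB) (.div th vK vkcB))
  let vkB : E := (.ite vkcB (.div th vK vnB) vkcB)
  let vrhoB : E := (.min (.sub vK (.mul vnB vkB)) (.ite vkcB (.sub vnB (.cst 1)) (.sub vkcB (.cst 1))))
  let vp0 : E := (.add (.add (.max (.max (.div th (.add (.mul vnA (.div th vm (.cst 2))) (.cst 1)) (.cst 2)) (.div th
      (.sub (.mul vnA (.add (.div th vm (.cst 2)) (.cst 1))) (.cst 3)) (.sub vnA (.cst 2)))) (.max (.div th (.add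
      (.mul vnB (.div th vm (.cst 2))) (.cst 1)) (.cst 2)) (.div th (.sub (.mul vnB (.add (.div th vm (.cst 2)) (.cst
      1))) (.cst 3)) (.sub vnB (.cst 2))))) (.div th (.mul vK vpk) (.cst 16))) vpc)
  let vU : E := (.mul (.cst 2) vp0)
  (.and (.le (.cst 1) vm)
    (.and (.le vkcA vnA)
    (.and (.le (.cst 3) vnA)
    (.and (.le vkcB vnB)
    (.and (.le (.cst 3) vnB)
    (.and (PTp th vm vj vT vT vsA vsA vXA vXA vnA vkA vrhoA vm vU vU vp0 (.cst 1) vcA vrnA vrcA vwcA vrn2A vrc2A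
      vwc2A)
    (PTp th vm vjB vT vT vsB vsB vXB vXB vnB vkB vrhoB vm vU vU vp0 (.cst 1) vcB vrnB vrcB vwcB vrn2B vrc2B
      vwc2B)))))))

/-- a block with free C-points is cut into two parts -/
def MTp (th : Nat) (vm vJ vom vK vf vfp vcm vcJ vcd vpc vpk voneA voneB vaA vbA vkcA vncA vndA vnnA vcA vrnA vrcA
      vwcA vrn2A vrc2A vwc2A vaB vbB vkcB vncB vndB vnnB vcB vrnB vrcB vwcB vrn2B vrc2B vwc2B : E) : C :=
  let vt : E := (.div th (.add (.mul vom vK) (.sub (.add vJ vm) (.cst 1))) (.add vJ vm))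
  let vX : E := (.add vom vm)
  let vB : E := (.add vK vt)
  let vjA : E := (.div th (.add (.mul vcJ vJ) (.mul vcm vm)) vcd)
  let vjB : E := (.sub vJ vjA)
  let vD : E := (.mul vJ (.add (.add vK vm) (.cst 2)))
  let vJ2 : E := (.mul (.cst 2) vJ)
  let vmJ : E := (.mul vm vJ2)
  let vxA : E := (.mul (.mul (.cst 2) vX) vjA)
  let vqA : E := (.mul (.mul (.mul (.cst 2) vm) vB) vjA)
  let vsloA : E := (.div th (.sub (.add vqA (.sub vmJ (.cst 1))) vD) vmJ)
  let vshiA : E := (.div th (.add vqA vD) vmJ)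
  let vXloA : E := (.div th (.add vxA (.sub vJ (.cst 1))) vJ2)
  let vXhiA : E := (.div th (.add vxA vJ) vJ2)
  let vnA : E := (.ite vkcA (.add (.div th (.mul vB vndA) (.mul vJ vnnA)) vncA) (.div th vK vkcA))
  let vkA : E := (.ite vkcA (.div th vK vnA) vkcA)
  let vrhoA : E := (.min (.sub vK (.mul vnA vkA)) (.ite vkcA (.sub vnA (.cst 1)) (.sub vkcA (.cst 1))))
  let vPhiA : E := (.div th (.add (.add vm (.mul (.add (.sub (.mul vbA vjA) (.mul vaA vm)) (.sub (.mul vaA vm) (.mul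
      vbA vjA))) (.sub vbA (.cst 1)))) (.sub vbA (.cst 1))) vbA)
  let vneedA : E := (.ite voneA (.ite vfp (.mul vnA (.div th vPhiA (.cst 2))) (.max (.div th (.add (.mul vnA (.div th
      vPhiA (.cst 2))) (.cst 1)) (.cst 2)) (.div th (.sub (.mul vnA (.add (.div th vPhiA (.cst 2)) (.cst 1))) (.cst
      3)) (.sub vnA (.cst 2))))) (.cst 0))
  let vxB : E := (.mul (.mul (.cst 2) vX) vjB)
  let vqB : E := (.mul (.mul (.mul (.cst 2) vm) vB) vjB)
  let vsloB : E := (.div th (.sub (.add vqB (.sub vmJ (.cst 1))) vD) vmJ)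
  let vshiB : E := (.div th (.add vqB vD) vmJ)
  let vXloB : E := (.div th (.add vxB (.sub vJ (.cst 1))) vJ2)
  let vXhiB : E := (.div th (.add vxB vJ) vJ2)
  let vnB : E := (.ite vkcB (.add (.div th (.mul vB vndB) (.mul vJ vnnB)) vncB) (.div th vK vkcB))
  let vkB : E := (.ite vkcB (.div th vK vnB) vkcB)
  let vrhoB : E := (.min (.sub vK (.mul vnB vkB)) (.ite vkcB (.sub vnB (.cst 1)) (.sub vkcB (.cst 1))))
  let vPhiB : E := (.div th (.add (.add vm (.mul (.add (.sub (.mul vbB vjB) (.mul vaB vm)) (.sub (.mul vaB vm) (.mul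
      vbB vjB))) (.sub vbB (.cst 1)))) (.sub vbB (.cst 1))) vbB)
  let vneedB : E := (.ite voneB (.ite vfp (.mul vnB (.div th vPhiB (.cst 2))) (.max (.div th (.add (.mul vnB (.div th
      vPhiB (.cst 2))) (.cst 1)) (.cst 2)) (.div th (.sub (.mul vnB (.add (.div th vPhiB (.cst 2)) (.cst 1))) (.cst
      3)) (.sub vnB (.cst 2))))) (.cst 0))
  let vgl : E := (.add (.add (.max vneedA vneedB) (.div th (.mul vK vpk) (.cst 16))) vpc)
  let vm2 : E := (.div th vm (.cst 2))
  let vUl : E := (.ite vfp vgl (.mul (.cst 2) vgl))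
  let vUh : E := (.add vUl vm2)
  let vgh : E := (.add vgl vm2)
  let vhh : E := (.ite vfp vgh vm2)
  let vz : E := (.cst 0)
  let vE : E := (.add (.add vD (.mul vm vJ)) (.mul vmJ vhh))
  (.and (.le (.cst 1) vm)
    (.and (.le (.cst 1) vjA)
    (.and (.le (.add vjA (.cst 1)) vJ)
    (.and (.le vD vqA)
    (.and (.ite voneA (.and (.le vkcA vnA)
    (.and (.and (.le (.cst 1) vbA)
    (copP 7 vaA vbA))
    (.le (.ite vfp (.cst 2) (.cst 3)) vnA))) (.le (.cst 0) (.cst 0)))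
    (.and (.le vD vqB)
    (.and (.ite voneB (.and (.le vkcB vnB)
    (.and (.and (.le (.cst 1) vbB)
    (copP 7 vaB vbB))
    (.le (.ite vfp (.cst 2) (.cst 3)) vnB))) (.le (.cst 0) (.cst 0)))
    (.and (.le vE (.mul (.mul (.mul (.cst 2) vm) vf) vjA))
    (.and (.le vE (.mul (.mul (.mul (.cst 2) vm) vf) vjB))
    (.and (.ite voneA (PTp th vm vjA vt vt vsloA vshiA vXloA vXhiA vnA vkA vrhoA vPhiA vUl vUh vgh vbA vcA vrnA vrcA
      vwcA vrn2A vrc2A vwc2A)
    (.and (.le vfp (.cst 0))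
    (LFp th vm vjA vK vt vt vsloA vshiA vUh vUl vUh vz vXloA vXhiA vrnA vrcA vwcA)))
    (.ite voneB (PTp th vm vjB vt vt vsloB vshiB vXloB vXhiB vnB vkB vrhoB vPhiB vUl vUh vgh vbB vcB vrnB vrcB vwcB
      vrn2B vrc2B vwc2B)
    (.and (.le vfp (.cst 0))
    (LFp th vm vjB vK vt vt vsloB vshiB vUh vUl vUh vz vXloB vXhiB vrnB vrcB vwcB)))))))))))))

/-- a narrow block is a leaf -/
def DQp (th : Nat) (vm vJ vom vK vrn vrc vwc : E) : C :=
  let vt : E := (.div th (.add (.mul vom vK) (.sub (.add vJ vm) (.cst 1))) (.add vJ vm))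
  let vB : E := (.add vK vt)
  let vz : E := (.cst 0)
  (QZp th vm vJ vK vt vt vB vB vz vz vz vz vrn vrc vwc)

/-- the condition SLr of the slice design -/
def SLp (th : Nat) (vN vR vC vy vkap : E) : C :=
  let vy1 : E := (.add vy (.cst 1))
  let vy2 : E := (.mul (.cst 2) vy1)
  let vD : E := (.mul (.cst 2) (.div th (.add vN (.sub vR (.add vy (.cst 2)))) (.sub vR vy1)))
  let vhy : E := (.div th vy (.cst 2))
  let vh : E := (.div th (.add vy (.cst 2)) (.cst 2))
  let vyh : E := (.add vy1 vh)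
  (.or (.and (.le (.add (.add (.add vR vC) (.max (.max (.sub (.mul (.cst 7) vkap) (.cst 17)) (.sub (.mul (.cst 13)
      vkap) (.cst 53))) (.sub (.mul (.cst 17) vkap) (.cst 105)))) (.cst 1)) (.add (.mul (.sub vkap (.cst 1)) vy)
      (.cst 2)))
    (.and (.le vy2 vR)
    (.or (.le (.add (.add (.add vy2 vkap) (.cst 2)) vD) vC)
    (.and (.le (.add vy2 vkap) vR)
    (.le (.add (.add vy2 (.cst 3)) vD) vC)))))
    (.and (.le (.add (.add (.add (.div th (.add vR vC) (.cst 2)) vhy) (.max (.max (.sub (.mul (.cst 7) vkap) (.cst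
      17)) (.sub (.mul (.cst 13) vkap) (.cst 53))) (.sub (.mul (.cst 17) vkap) (.cst 105)))) (.cst 1)) (.mul (.sub
      vkap (.cst 1)) (.add vhy (.cst 1))))
    (.or (.and (.le (.mul (.cst 3) vy1) vR)
    (.and (.le (.add (.add vyh vkap) (.cst 2)) vC)
    (.le (.add (.add vyh (.cst 2)) (.mul (.cst 2) (.div th (.add vN vy) vy1))) vC)))
    (.and (.le (.add (.mul (.cst 3) vy1) vh) vR)
    (.and (.le (.add vyh (.cst 2)) vC)
    (.le (.add (.add (.add vy1 (.mul (.cst 2) vkap)) (.cst 2)) (.mul (.cst 2) (.div th (.add vN vhy) vh))) vC))))))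

/-- slices along one of the three factors (o = 0: I, else p = 0: J, else K) -/
def SXp (th : Nat) (vm vJ vr vK vkap vo vp vsw : E) : C :=
  let vI : E := (.add vm (.cst 2))
  let vN : E := (.ite vo vI (.ite vp vJ vK))
  let vP : E := (.ite vo vJ vI)
  let vQ : E := (.ite vo vK (.ite vp vK vJ))
  let vR : E := (.ite vsw vP vQ)
  let vC : E := (.ite vsw vQ vP)
  let vy : E := (.div th vr vN)
  (.and (.le (.cst 8) vN)
    (.and (.le (.cst 4) vkap)
    (.and (.le vkap (.cst 19))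
    (.and (.le (.cst 3) vy)
    (SLp th vN vR vC vy vkap)))))

/-- regions that are not needed or settled elsewhere (K = r (J + m) / (J + m + om)) -/
def EXp (th : Nat) (vm vJ vom vr vK : E) : C :=
  let vI : E := (.add vm (.cst 2))
  let vS : E := (.add vI vJ)
  let vW : E := (.add vS vK)
  let vQ : E := (.mul vI vJ)
  (.or (.le (.add vK (.cst 1)) vJ)
    (.or (.le vJ (.add vm (.cst 1)))
    (.or (.and (.le (.cst 28) vm)
    (.and (.le (.cst 100) vJ)
    (.or (.le (.add vom (.cst 1)) (.mul (.cst 3) vm))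
    (.le (.mul (.cst 9) (.add (.add vJ vm) vom)) vQ))))
    (.or (.and (.le (.add vom vm) vJ)
    (.le (.add (.mul (.cst 3) vm) (.cst 50)) vJ))
    (.or (.and (.le vom vm)
    (.le (.add vm (.cst 5)) vJ))
    (.or (.le (.mul (.mul (.cst 16) vS) (.mul vW vW)) (.mul vQ vQ))
    (.or (.and (.le vm (.cst 4))
    (.and (.le (.cst 320) vJ)
    (.le (.mul (.cst 4) vr) (.mul (.cst 13) vJ))))
    (.or (.and (.le (.cst 5) vm)
    (.and (.le vm (.cst 5))
    (.and (.le (.cst 600) vJ)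
    (.le (.mul (.cst 4) vr) (.mul (.cst 15) vJ)))))
    (.or (.and (.le vm (.cst 4))
    (.and (.le (.cst 320) vJ)
    (.le (.mul (.cst 12) vom) (.mul (.cst 13) vJ))))
    (.and (.le (.cst 5) vm)
    (.and (.le vm (.cst 5))
    (.and (.le (.cst 600) vJ)
    (.le (.mul (.cst 24) vom) (.mul (.cst 25) vJ))))))))))))))

/-- a root: settled elsewhere, or cut with pairs, or exact blocks and a last block -/
def RTp (th : Nat) (vm vJ vom vsx vso vsp vsw vsl vfz vcm vcJ vcd vpc vpk voneA voneB vaA vbA vkcA vncA vndA vnnA vcA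
      vrnA vrcA vwcA vrn2A vrc2A vwc2A vaB vbB vkcB vncB vndB vnnB vcB vrnB vrcB vwcB vrn2B vrc2B vwc2B : E) : C :=
  let vtau : E := (.add vJ vm)
  let vv : E := (.add vtau vom)
  let vr : E := (.sub (.mul (.add vm (.cst 1)) vJ) (.add vm vom))
  let vK : E := (.div th (.mul vr vtau) vv)
  let vK1 : E := (.add (.div th vtau (.cst 16)) (.cst 1))
  let vfr : E := (.sub vr vv)
  (.or (EXp th vm vJ vom vr vK)
    (.or (.and (.le (.cst 1) vsx)
    (SXp th vm vJ vr vK vsx vso vsp vsw))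
    (.ite vsl (.and (.or (.le vfz (.cst 0))
    (.and (.le (.add (.add vK vm) (.cst 1)) (.mul (.cst 3) vJ))
    (.and (.le (.mul (.cst 8) vK) (.mul (.cst 9) vtau))
    (.le vm (.cst 19)))))
    (PPp th vm vJ vom vr vK vfz vcm vcJ vcd vpc vpk vaA vbA vkcA vncA vndA vnnA vcA vrnA vrcA vwcA vrn2A vrc2A vwc2A
      vaB vbB vkcB vncB vndB vnnB vcB vrnB vrcB vwcB vrn2B vrc2B vwc2B))
    (.and (.le (.add vK1 vtau) vK)
    (.and (.le vv vr)
    (MTp th vm vJ vom vtau vfr vfz vcm vcJ vcd vpc vpk voneA voneB vaA vbA vkcA vncA vndA vnnA vcA vrnA vrcA vwcA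
      vrn2A vrc2A vwc2A vaB vbB vkcB vncB vndB vnnB vcB vrnB vrcB vwcB vrn2B vrc2B vwc2B))))))

/-- the last block, after a exact blocks -/
def BKp (th : Nat) (vm vJ vom vsx vso vsp vsw va vsl vfz vcm vcJ vcd vpc vpk voneA voneB vaA vbA vkcA vncA vndA vnnA
      vcA vrnA vrcA vwcA vrn2A vrc2A vwc2A vaB vbB vkcB vncB vndB vnnB vcB vrnB vrcB vwcB vrn2B vrc2B vwc2B : E) : C
      :=
  let vtau : E := (.add vJ vm)
  let vv : E := (.add vtau vom)
  let vr : E := (.sub (.mul (.add vm (.cst 1)) vJ) (.add vm vom))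
  let vK : E := (.div th (.mul vr vtau) vv)
  let vK1 : E := (.add (.div th vtau (.cst 16)) (.cst 1))
  let vaT : E := (.mul va vtau)
  let vL : E := (.sub vK vaT)
  let vf : E := (.mul va vv)
  (.or (EXp th vm vJ vom vr vK)
    (.or (.le (.add vK (.cst 1)) (.add vK1 vtau))
    (.or (.and (.le (.cst 5) vm)
    (.and (.le vm (.cst 5))
    (.and (.le (.cst 600) vJ)
    (.and (.le (.mul (.cst 19) vJ) (.mul (.cst 10) vom))
    (.le (.mul (.cst 10) vom) (.mul (.cst 21) vJ))))))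
    (.or (.and (.le (.cst 1) vsx)
    (SXp th vm vJ vr vK vsx vso vsp vsw))
    (.ite va (PPp th vm vJ vom vr vK (.cst 0) vcm vcJ vcd vpc vpk vaA vbA vkcA vncA vndA vnnA vcA vrnA vrcA vwcA
      vrn2A vrc2A vwc2A vaB vbB vkcB vncB vndB vnnB vcB vrnB vrcB vwcB vrn2B vrc2B vwc2B)
    (.and (.le (.add vaT (.cst 1)) vK)
    (.ite vsl (DQp th vm vJ vom vL vrnA vrcA vwcA)
    (MTp th vm vJ vom vL vf vfz vcm vcJ vcd vpc vpk voneA voneB vaA vbA vkcA vncA vndA vnnA vcA vrnA vrcA vwcA vrn2A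
      vrc2A vwc2A vaB vbB vkcB vncB vndB vnnB vcB vrnB vrcB vwcB vrn2B vrc2B vwc2B))))))))

/-- a root without slack near the diagonal -/
def PXp (th : Nat) (vm vJ vom vj vpc vpk vkcA vncA vndA vnnA vcA vrnA vrcA vwcA vrn2A vrc2A vwc2A vkcB vncB vndB vnnB
      vcB vrnB vrcB vwcB vrn2B vrc2B vwc2B : E) : C :=
  let vtau : E := (.add vJ vm)
  let vv : E := (.add vtau vom)
  let vr : E := (.sub (.mul (.add vm (.cst 1)) vJ) (.add vm vom))
  let vK : E := (.div th (.mul vr vtau) vv)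
  (.or (EXp th vm vJ vom vr vK)
    (.or (.le (.add (.mul (.cst 9) vtau) (.cst 1)) (.mul (.cst 8) vK))
    (.or (.le (.add (.mul (.cst 3) vj) (.cst 1)) vJ)
    (.or (.le (.add vJ (.cst 1)) (.mul (.cst 2) vj))
    (PEp th vm vJ vom vr vK vj vpc vpk vkcA vncA vndA vnnA vcA vrnA vrcA vwcA vrn2A vrc2A vwc2A vkcB vncB vndB vnnB
      vcB vrnB vrcB vwcB vrn2B vrc2B vwc2B)))))

end Pool.Agent.Work.MP_f4b644_ag.Mid
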