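import Pool.Agent.Work.MP_f4b644_ag.Mid.HX

/-!
First dimension 7, X = J + x for small x: tall blocks, in four cases also strips.
-/

set_option autoImplicit false

namespace Pool.Agent.Work.MP_f4b644_ag.Mid

open Big Thin Multiset Big.Gad

theorem hx5_1 (i K : ℕ) (hi : 560 ≤ i)
    (hK : K * (i + 40 + (i + 41)) ≤ (5 * i + 199) * (i + 40 + 5)) :
    S (5 + 2) (i + 40) K (replicate (5 * i + 199) (T 0 0)) := by
  obtain ⟨K0, K01, K02⟩ : ∃ z, 2 * z ≤ 5 * i + 221 ∧ 5 * i + 221 < 2 * z + 2 := ⟨(5 * i + 221) / 2, by omega, by omega⟩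
  refine S_of_V (X := i + 41) (K0 := K0) (T0 := (K0 - 22)) (by omega) (K_le hK (by
    have := Nat.mul_le_mul_right (i + 40 + (i + 41)) K02
    nlinarith)) ?_
  obtain ⟨a, a1, a2⟩ : ∃ z, 22 * z ≤ 4 * K0 ∧ 4 * K0 < 22 * z + 22 := ⟨(4 * K0) / 22, by omega, by omega⟩
  obtain ⟨c, c1, c2⟩ : ∃ z, 22 * z ≤ 3 * K0 ∧ 3 * K0 < 22 * z + 22 := ⟨(3 * K0) / 22, by omega, by omega⟩
  obtain ⟨b, b0⟩ : ∃ z, K0 = 4 * a + z := ⟨K0 - (4 * a), by omega⟩
  obtain ⟨d, d0⟩ : ∃ z, b = 1 * c + z := ⟨b - (1 * c), by omega⟩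
  exact V_cutC0 4 a (a - 4) (a + (a - 4)) b (b - 6) (b + (b - 6)) (by omega) (by omega) (by omega) (by omega)
    (tl _ _ _ _ _ _ (1) (4) (by omega) (by omega) (by omega) (by omega) (by omega) (by omega) (by omega) (by omega) (by omega) (by omega))
    (V_cutC0 1 c (c - 3) (c + (c - 3)) d (d - 3) (d + (d - 3)) (by omega) (by omega) (by omega) (by omega)
    (tl _ _ _ _ _ _ (1) (3) (by omega) (by omega) (by omega) (by omega) (by omega) (by omega) (by omega) (by omega) (by omega) (by omega))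
    (tl _ _ _ _ _ _ (1) (3) (by omega) (by omega) (by omega) (by omega) (by omega) (by omega) (by omega) (by omega) (by omega) (by omega)))

theorem hx5_2 (i K : ℕ) (hi : 560 ≤ i)
    (hK : K * (i + 40 + (i + 42)) ≤ (5 * i + 198) * (i + 40 + 5)) :
    S (5 + 2) (i + 40) K (replicate (5 * i + 198) (T 0 0)) := by
  obtain ⟨K0, K01, K02⟩ : ∃ z, 2 * z ≤ 5 * i + 217 ∧ 5 * i + 217 < 2 * z + 2 := ⟨(5 * i + 217) / 2, by omega, by omega⟩
  refine S_of_V (X := i + 42) (K0 := K0) (T0 := (K0 - 19)) (by omega) (K_le hK (by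
    have := Nat.mul_le_mul_right (i + 40 + (i + 42)) K02
    nlinarith)) ?_
  obtain ⟨a, a1, a2⟩ : ∃ z, 19 * z ≤ 3 * K0 ∧ 3 * K0 < 19 * z + 19 := ⟨(3 * K0) / 19, by omega, by omega⟩
  obtain ⟨b, b0⟩ : ∃ z, K0 = 6 * a + z := ⟨K0 - (6 * a), by omega⟩
  exact V_cutC0 6 a (a - 3) (a + (a - 3)) b (b - 1) (b + (b - 1)) (by omega) (by omega) (by omega) (by omega)
    (tl _ _ _ _ _ _ (2) (3) (by omega) (by omega) (by omega) (by omega) (by omega) (by omega) (by omega) (by omega) (by omega) (by omega))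
    (tl _ _ _ _ _ _ (2) (1) (by omega) (by omega) (by omega) (by omega) (by omega) (by omega) (by omega) (by omega) (by omega) (by omega))

theorem hx5_3 (i K : ℕ) (hi : 560 ≤ i)
    (hK : K * (i + 40 + (i + 43)) ≤ (5 * i + 197) * (i + 40 + 5)) :
    S (5 + 2) (i + 40) K (replicate (5 * i + 197) (T 0 0)) := by
  obtain ⟨K0, K01, K02⟩ : ∃ z, 2 * z ≤ 5 * i + 214 ∧ 5 * i + 214 < 2 * z + 2 := ⟨(5 * i + 214) / 2, by omega, by omega⟩
  refine S_of_V (X := i + 43) (K0 := K0) (T0 := (K0 - 17)) (by omega) (K_le hK (by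
    have := Nat.mul_le_mul_right (i + 40 + (i + 43)) K02
    nlinarith)) ?_
  obtain ⟨a, a1, a2⟩ : ∃ z, 17 * z ≤ 3 * K0 ∧ 3 * K0 < 17 * z + 17 := ⟨(3 * K0) / 17, by omega, by omega⟩
  obtain ⟨b, b0⟩ : ∃ z, K0 = 5 * a + z := ⟨K0 - (5 * a), by omega⟩
  exact V_cutC0 5 a (a - 3) (a + (a - 3)) b (b - 2) (b + (b - 2)) (by omega) (by omega) (by omega) (by omega)
    (tl _ _ _ _ _ _ (3) (3) (by omega) (by omega) (by omega) (by omega) (by omega) (by omega) (by omega) (by omega) (by omega) (by omega))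
    (tl _ _ _ _ _ _ (3) (2) (by omega) (by omega) (by omega) (by omega) (by omega) (by omega) (by omega) (by omega) (by omega) (by omega))

theorem hx5_4 (i K : ℕ) (hi : 560 ≤ i)
    (hK : K * (i + 40 + (i + 44)) ≤ (5 * i + 196) * (i + 40 + 5)) :
    S (5 + 2) (i + 40) K (replicate (5 * i + 196) (T 0 0)) := by
  obtain ⟨K0, K01, K02⟩ : ∃ z, 2 * z ≤ 5 * i + 210 ∧ 5 * i + 210 < 2 * z + 2 := ⟨(5 * i + 210) / 2, by omega, by omega⟩
  refine S_of_V (X := i + 44) (K0 := K0) (T0 := (K0 - 14)) (by omega) (K_le hK (by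
    have := Nat.mul_le_mul_right (i + 40 + (i + 44)) K02
    nlinarith)) ?_
  obtain ⟨a, a1, a2⟩ : ∃ z, 14 * z ≤ 2 * K0 ∧ 2 * K0 < 14 * z + 14 := ⟨(2 * K0) / 14, by omega, by omega⟩
  obtain ⟨b, b0⟩ : ∃ z, K0 = 6 * a + z := ⟨K0 - (6 * a), by omega⟩
  exact V_cutC0 6 a (a - 2) (a + (a - 2)) b (b - 2) (b + (b - 2)) (by omega) (by omega) (by omega) (by omega)
    (tl _ _ _ _ _ _ (4) (2) (by omega) (by omega) (by omega) (by omega) (by omega) (by omega) (by omega) (by omega) (by omega) (by omega))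
    (tl _ _ _ _ _ _ (4) (2) (by omega) (by omega) (by omega) (by omega) (by omega) (by omega) (by omega) (by omega) (by omega) (by omega))

theorem hx5_5 (i K : ℕ) (hi : 560 ≤ i)
    (hK : K * (i + 40 + (i + 45)) ≤ (5 * i + 195) * (i + 40 + 5)) :
    S (5 + 2) (i + 40) K (replicate (5 * i + 195) (T 0 0)) := by
  obtain ⟨K0, K01, K02⟩ : ∃ z, 2 * z ≤ 5 * i + 207 ∧ 5 * i + 207 < 2 * z + 2 := ⟨(5 * i + 207) / 2, by omega, by omega⟩
  refine S_of_V (X := i + 45) (K0 := K0) (T0 := (K0 - 12)) (by omega) (K_le hK (by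
    have := Nat.mul_le_mul_right (i + 40 + (i + 45)) K02
    nlinarith)) ?_
  obtain ⟨a, a1, a2⟩ : ∃ z, 12 * z ≤ 2 * K0 ∧ 2 * K0 < 12 * z + 12 := ⟨(2 * K0) / 12, by omega, by omega⟩
  obtain ⟨b, b0⟩ : ∃ z, K0 = 5 * a + z := ⟨K0 - (5 * a), by omega⟩
  exact V_cutC0 5 a (a - 2) (a + (a - 2)) b (b - 2) (b + (b - 2)) (by omega) (by omega) (by omega) (by omega)
    (tl _ _ _ _ _ _ (5) (2) (by omega) (by omega) (by omega) (by omega) (by omega) (by omega) (by omega) (by omega) (by omega) (by omega))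
    (tl _ _ _ _ _ _ (5) (2) (by omega) (by omega) (by omega) (by omega) (by omega) (by omega) (by omega) (by omega) (by omega) (by omega))

theorem hx5_6 (i K : ℕ) (hi : 560 ≤ i)
    (hK : K * (i + 40 + (i + 46)) ≤ (5 * i + 194) * (i + 40 + 5)) :
    S (5 + 2) (i + 40) K (replicate (5 * i + 194) (T 0 0)) := by
  obtain ⟨K0, K01, K02⟩ : ∃ z, 2 * z ≤ 5 * i + 203 ∧ 5 * i + 203 < 2 * z + 2 := ⟨(5 * i + 203) / 2, by omega, by omega⟩
  refine S_of_V (X := i + 46) (K0 := K0) (T0 := (K0 - 9)) (by omega) (K_le hK (by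
    have := Nat.mul_le_mul_right (i + 40 + (i + 46)) K02
    nlinarith)) ?_
  obtain ⟨a, a1, a2⟩ : ∃ z, 9 * z ≤ 1 * K0 ∧ 1 * K0 < 9 * z + 9 := ⟨(1 * K0) / 9, by omega, by omega⟩
  obtain ⟨b, b0⟩ : ∃ z, K0 = 8 * a + z := ⟨K0 - (8 * a), by omega⟩
  exact V_cutC0 8 a (a - 1) (a + (a - 1)) b (b - 1) (b + (b - 1)) (by omega) (by omega) (by omega) (by omega)
    (tl _ _ _ _ _ _ (6) (1) (by omega) (by omega) (by omega) (by omega) (by omega) (by omega) (by omega) (by omega) (by omega) (by omega))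
    (tl _ _ _ _ _ _ (6) (1) (by omega) (by omega) (by omega) (by omega) (by omega) (by omega) (by omega) (by omega) (by omega) (by omega))

theorem hx5_7 (i K : ℕ) (hi : 560 ≤ i)
    (hK : K * (i + 40 + (i + 47)) ≤ (5 * i + 193) * (i + 40 + 5)) :
    S (5 + 2) (i + 40) K (replicate (5 * i + 193) (T 0 0)) := by
  obtain ⟨K0, K01, K02⟩ : ∃ z, 2 * z ≤ 5 * i + 200 ∧ 5 * i + 200 < 2 * z + 2 := ⟨(5 * i + 200) / 2, by omega, by omega⟩
  refine S_of_V (X := i + 47) (K0 := K0) (T0 := (K0 - 7)) (by omega) (K_le hK (by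
    have := Nat.mul_le_mul_right (i + 40 + (i + 47)) K02
    nlinarith)) ?_
  obtain ⟨a, a1, a2⟩ : ∃ z, 7 * z ≤ 1 * K0 ∧ 1 * K0 < 7 * z + 7 := ⟨(1 * K0) / 7, by omega, by omega⟩
  obtain ⟨b, b0⟩ : ∃ z, K0 = 6 * a + z := ⟨K0 - (6 * a), by omega⟩
  exact V_cutC0 6 a (a - 1) (a + (a - 1)) b (b - 1) (b + (b - 1)) (by omega) (by omega) (by omega) (by omega)
    (tl _ _ _ _ _ _ (7) (1) (by omega) (by omega) (by omega) (by omega) (by omega) (by omega) (by omega) (by omega) (by omega) (by omega))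
    (tl _ _ _ _ _ _ (7) (1) (by omega) (by omega) (by omega) (by omega) (by omega) (by omega) (by omega) (by omega) (by omega) (by omega))

theorem bb5_8 (i k : ℕ) (hi : 560 ≤ i) (h1 : i + 78 ≤ 2 * k) (h2 : 2 * k ≤ i + 80) :
    V 5 (i + 40) (i + 48) k (k - 1) (k + (k - 1)) 0 0 0 := by
  obtain ⟨j, j1, j2⟩ : ∃ z, 2 * z ≤ i + 40 ∧ i + 40 < 2 * z + 2 := ⟨(i + 40) / 2, by omega, by omega⟩
  obtain ⟨g, g0⟩ : ∃ z, i + 40 = j + z := ⟨i + 40 - (j), by omega⟩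
  obtain ⟨c, c1, c2⟩ : ∃ z, 20 * z ≤ i + 40 ∧ i + 40 < 20 * z + 20 := ⟨(i + 40) / 20, by omega, by omega⟩
  obtain ⟨l, l0⟩ : ∃ z, k = 5 * c + z := ⟨k - (5 * c), by omega⟩
  obtain ⟨s, s1, s2⟩ : ∃ z, 5 * z ≤ 4 * l + j + 4 ∧ 4 * l + j + 4 < 5 * z + 5 := ⟨(4 * l + j + 4) / 5, by omega, by omega⟩
  obtain ⟨u, u0⟩ : ∃ z, k + (k - 1) = 8 * c + s + z := ⟨k + (k - 1) - (8 * c + s), by omega⟩
  exact V_cutB0 j (j + 4) (4 * c + s) g (g + 4) (4 * c + u) (by omega) (by omega) (by omega) le_rfl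
    (V_cutC0 1 (5 * c) (5 * c) (4 * c) l (l - 1) s (by omega) (by omega) (by omega) (by omega)
      (tl _ _ _ _ _ _ (4) (0) (by omega) (by omega) (by omega) (by omega) (by omega) (by omega) (by omega) (by omega) (by omega) (by omega))
      (tl _ _ _ _ _ _ (4) (1) (by omega) (by omega) (by omega) (by omega) (by omega) (by omega) (by omega) (by omega) (by omega) (by omega)))
    (V_cutC0 1 (5 * c) (5 * c) (4 * c) l (l - 1) u (by omega) (by omega) (by omega) (by omega)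
      (tl _ _ _ _ _ _ (4) (0) (by omega) (by omega) (by omega) (by omega) (by omega) (by omega) (by omega) (by omega) (by omega) (by omega))
      (tl _ _ _ _ _ _ (4) (1) (by omega) (by omega) (by omega) (by omega) (by omega) (by omega) (by omega) (by omega) (by omega) (by omega)))

theorem hx5_8 (i K : ℕ) (hi : 560 ≤ i)
    (hK : K * (i + 40 + (i + 48)) ≤ (5 * i + 192) * (i + 40 + 5)) :
    S (5 + 2) (i + 40) K (replicate (5 * i + 192) (T 0 0)) := by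
  obtain ⟨K0, K01, K02⟩ : ∃ z, 2 * z ≤ 5 * i + 196 ∧ 5 * i + 196 < 2 * z + 2 := ⟨(5 * i + 196) / 2, by omega, by omega⟩
  refine S_of_V (X := i + 48) (K0 := K0) (T0 := (K0 - 4)) (by omega) (K_le hK (by
    have := Nat.mul_le_mul_right (i + 40 + (i + 48)) K02
    nlinarith)) ?_
  obtain ⟨a, a1, a2⟩ : ∃ z, 2 * z ≤ 1 * (i + 40) + 40 ∧ 1 * (i + 40) + 40 < 2 * z + 2 := ⟨(1 * (i + 40) + 40) / 2, by omega, by omega⟩
  obtain ⟨b, b0⟩ : ∃ z, K0 = 4 * a + z := ⟨K0 - (4 * a), by omega⟩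
  exact V_cutC0 4 a (a - 1) (a + (a - 1)) b b (b + b) (by omega) (by omega) (by omega) (by omega)
    (bb5_8 i _ hi (by omega) (by omega))
    (tl _ _ _ _ _ _ (8) (0) (by omega) (by omega) (by omega) (by omega) (by omega) (by omega) (by omega) (by omega) (by omega) (by omega))

theorem bb5_9 (i k : ℕ) (hi : 560 ≤ i) (h1 : i + 55 ≤ k) (h2 : k ≤ i + 55) :
    V 5 (i + 40) (i + 49) k (k - 1) (k + (k - 1)) 0 0 0 := by
  obtain ⟨j, j1, j2⟩ : ∃ z, 2 * z ≤ i + 40 ∧ i + 40 < 2 * z + 2 := ⟨(i + 40) / 2, by omega, by omega⟩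
  obtain ⟨g, g0⟩ : ∃ z, i + 40 = j + z := ⟨i + 40 - (j), by omega⟩
  obtain ⟨c, c1, c2⟩ : ∃ z, 19 * z ≤ i + 40 ∧ i + 40 < 19 * z + 19 := ⟨(i + 40) / 19, by omega, by omega⟩
  obtain ⟨l, l0⟩ : ∃ z, k = 15 * c + z := ⟨k - (15 * c), by omega⟩
  obtain ⟨s, s1, s2⟩ : ∃ z, 5 * z ≤ 4 * l + j + 4 ∧ 4 * l + j + 4 < 5 * z + 5 := ⟨(4 * l + j + 4) / 5, by omega, by omega⟩
  obtain ⟨u, u0⟩ : ∃ z, k + (k - 1) = 27 * c + s + z := ⟨k + (k - 1) - (27 * c + s), by omega⟩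
  exact V_cutB0 j (j + 4) (12 * c + s) g (g + 5) (15 * c + u) (by omega) (by omega) (by omega) le_rfl
    (V_cutC0 3 (5 * c) (5 * c) (4 * c) l (l - 1) s (by omega) (by omega) (by omega) (by omega)
      (tl _ _ _ _ _ _ (4) (0) (by omega) (by omega) (by omega) (by omega) (by omega) (by omega) (by omega) (by omega) (by omega) (by omega))
      (tl _ _ _ _ _ _ (4) (1) (by omega) (by omega) (by omega) (by omega) (by omega) (by omega) (by omega) (by omega) (by omega) (by omega)))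
    (V_cutC0 3 (5 * c) (5 * c) (5 * c) l (l - 1) u (by omega) (by omega) (by omega) (by omega)
      (tl _ _ _ _ _ _ (5) (0) (by omega) (by omega) (by omega) (by omega) (by omega) (by omega) (by omega) (by omega) (by omega) (by omega))
      (tl _ _ _ _ _ _ (5) (1) (by omega) (by omega) (by omega) (by omega) (by omega) (by omega) (by omega) (by omega) (by omega) (by omega)))

theorem hx5_9 (i K : ℕ) (hi : 560 ≤ i)
    (hK : K * (i + 40 + (i + 49)) ≤ (5 * i + 191) * (i + 40 + 5)) :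
    S (5 + 2) (i + 40) K (replicate (5 * i + 191) (T 0 0)) := by
  obtain ⟨K0, K01, K02⟩ : ∃ z, 2 * z ≤ 5 * i + 193 ∧ 5 * i + 193 < 2 * z + 2 := ⟨(5 * i + 193) / 2, by omega, by omega⟩
  refine S_of_V (X := i + 49) (K0 := K0) (T0 := (K0 - 2)) (by omega) (K_le hK (by
    have := Nat.mul_le_mul_right (i + 40 + (i + 49)) K02
    nlinarith)) ?_
  obtain ⟨a, a1, a2⟩ : ∃ z, 1 * z ≤ 1 * (i + 40) + 15 ∧ 1 * (i + 40) + 15 < 1 * z + 1 := ⟨(1 * (i + 40) + 15) / 1, by omega, by omega⟩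
  obtain ⟨b, b0⟩ : ∃ z, K0 = 2 * a + z := ⟨K0 - (2 * a), by omega⟩
  exact V_cutC0 2 a (a - 1) (a + (a - 1)) b b (b + b) (by omega) (by omega) (by omega) (by omega)
    (bb5_9 i _ hi (by omega) (by omega))
    (tl _ _ _ _ _ _ (9) (0) (by omega) (by omega) (by omega) (by omega) (by omega) (by omega) (by omega) (by omega) (by omega) (by omega))

theorem hx5_10 (i K : ℕ) (hi : 560 ≤ i)
    (hK : K * (i + 40 + (i + 50)) ≤ (5 * i + 190) * (i + 40 + 5)) :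
    S (5 + 2) (i + 40) K (replicate (5 * i + 190) (T 0 0)) := by
  obtain ⟨K0, K01, K02⟩ : ∃ z, 2 * z ≤ 5 * i + 190 ∧ 5 * i + 190 < 2 * z + 2 := ⟨(5 * i + 190) / 2, by omega, by omega⟩
  refine S_of_V (X := i + 50) (K0 := K0) (T0 := K0) (by omega) (K_le hK (by
    have := Nat.mul_le_mul_right (i + 40 + (i + 50)) K02
    nlinarith)) ?_
  obtain ⟨a, a1, a2⟩ : ∃ z, 6 * z ≤ K0 ∧ K0 < 6 * z + 6 := ⟨(K0) / 6, by omega, by omega⟩
  obtain ⟨b, b0⟩ : ∃ z, K0 = 5 * a + z := ⟨K0 - (5 * a), by omega⟩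
  exact V_cutC0 5 a a (a + a) b b (b + b) (by omega) (by omega) (by omega) (by omega)
    (tl _ _ _ _ _ _ (10) (0) (by omega) (by omega) (by omega) (by omega) (by omega) (by omega) (by omega) (by omega) (by omega) (by omega))
    (tl _ _ _ _ _ _ (10) (0) (by omega) (by omega) (by omega) (by omega) (by omega) (by omega) (by omega) (by omega) (by omega) (by omega))

theorem bb5_11 (i k : ℕ) (hi : 560 ≤ i) (h1 : 4 * i ≤ 5 * k) (h2 : 6 * k ≤ 5 * i + 210) :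
    V 5 (i + 40) (i + 51) k (k + 1) (k + (k + 1)) 0 0 0 := by
  obtain ⟨b, b1, b2⟩ : ∃ z, 25 * z ≤ i + 40 ∧ i + 40 < 25 * z + 25 := ⟨(i + 40) / 25, by omega, by omega⟩
  obtain ⟨j, j0⟩ : ∃ z, i + 40 = 5 * b + z := ⟨i + 40 - (5 * b), by omega⟩
  obtain ⟨s, s0⟩ : ∃ z, k = b + z := ⟨k - (b), by omega⟩
  obtain ⟨c, c1, c2⟩ : ∃ z, 15 * z ≤ i + 40 ∧ i + 40 < 15 * z + 15 := ⟨(i + 40) / 15, by omega, by omega⟩
  obtain ⟨l, l0⟩ : ∃ z, k = 5 * c + z := ⟨k - (5 * c), by omega⟩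
  obtain ⟨u, u0⟩ : ∃ z, k + 1 + b = 6 * c + z := ⟨k + 1 + b - (6 * c), by omega⟩
  exact V_cutB0 (5 * b) (5 * b + 5) s j (j + 6) (k + 1 + b) (by omega) (by omega) (by omega) le_rfl
    (V_SA 5 _ _ _ _ _ (by omega) (by omega) (by omega) (by omega) (by omega) (by omega))
    (V_cutC0 1 (5 * c) (5 * c) (6 * c) l (l + 1) u (by omega) (by omega) (by omega) (by omega)
      (tl _ _ _ _ _ _ (6) (0) (by omega) (by omega) (by omega) (by omega) (by omega) (by omega) (by omega) (by omega) (by omega) (by omega))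
      (V_SA 5 _ _ _ _ _ (by omega) (by omega) (by omega) (by omega) (by omega) (by omega)))

theorem hx5_11 (i K : ℕ) (hi : 560 ≤ i)
    (hK : K * (i + 40 + (i + 51)) ≤ (5 * i + 189) * (i + 40 + 5)) :
    S (5 + 2) (i + 40) K (replicate (5 * i + 189) (T 0 0)) := by
  obtain ⟨K0, K01, K02⟩ : ∃ z, 2 * z ≤ 5 * i + 186 ∧ 5 * i + 186 < 2 * z + 2 := ⟨(5 * i + 186) / 2, by omega, by omega⟩
  refine S_of_V (X := i + 51) (K0 := K0) (T0 := (K0 + 3)) (by omega) (K_le hK (by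
    have := Nat.mul_le_mul_right (i + 40 + (i + 51)) K02
    nlinarith)) ?_
  obtain ⟨a, a1, a2⟩ : ∃ z, 3 * z ≤ K0 ∧ K0 < 3 * z + 3 := ⟨(K0) / 3, by omega, by omega⟩
  obtain ⟨b, b0⟩ : ∃ z, K0 = 2 * a + z := ⟨K0 - (2 * a), by omega⟩
  exact V_cutC0 2 a (a + 1) (a + (a + 1)) b (b + 1) (b + (b + 1)) (by omega) (by omega) (by omega) (by omega)
    (bb5_11 i _ hi (by omega) (by omega))
    (bb5_11 i _ hi (by omega) (by omega))

theorem bb5_12 (i k : ℕ) (hi : 560 ≤ i) (h1 : i ≤ 2 * k) (h2 : 2 * k ≤ i + 45) :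
    V 5 (i + 40) (i + 52) k (k + 1) (k + (k + 1)) 0 0 0 := by
  obtain ⟨b, b1, b2⟩ : ∃ z, 25 * z ≤ i + 40 ∧ i + 40 < 25 * z + 25 := ⟨(i + 40) / 25, by omega, by omega⟩
  obtain ⟨j, j0⟩ : ∃ z, i + 40 = 5 * b + z := ⟨i + 40 - (5 * b), by omega⟩
  obtain ⟨s, s0⟩ : ∃ z, k = b + z := ⟨k - (b), by omega⟩
  exact V_cutB0 (5 * b) (5 * b + 5) s j (j + 7) (k + 1 + b) (by omega) (by omega) (by omega) le_rfl
    (V_SA 5 _ _ _ _ _ (by omega) (by omega) (by omega) (by omega) (by omega) (by omega))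
    (tl _ _ _ _ _ _ (7) (-1) (by omega) (by omega) (by omega) (by omega) (by omega) (by omega) (by omega) (by omega) (by omega) (by omega))

theorem hx5_12 (i K : ℕ) (hi : 560 ≤ i)
    (hK : K * (i + 40 + (i + 52)) ≤ (5 * i + 188) * (i + 40 + 5)) :
    S (5 + 2) (i + 40) K (replicate (5 * i + 188) (T 0 0)) := by
  obtain ⟨K0, K01, K02⟩ : ∃ z, 2 * z ≤ 5 * i + 183 ∧ 5 * i + 183 < 2 * z + 2 := ⟨(5 * i + 183) / 2, by omega, by omega⟩
  refine S_of_V (X := i + 52) (K0 := K0) (T0 := (K0 + 5)) (by omega) (K_le hK (by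
    have := Nat.mul_le_mul_right (i + 40 + (i + 52)) K02
    nlinarith)) ?_
  obtain ⟨a, a1, a2⟩ : ∃ z, 5 * z ≤ K0 ∧ K0 < 5 * z + 5 := ⟨(K0) / 5, by omega, by omega⟩
  obtain ⟨b, b0⟩ : ∃ z, K0 = 4 * a + z := ⟨K0 - (4 * a), by omega⟩
  exact V_cutC0 4 a (a + 1) (a + (a + 1)) b (b + 1) (b + (b + 1)) (by omega) (by omega) (by omega) (by omega)
    (bb5_12 i _ hi (by omega) (by omega))
    (bb5_12 i _ hi (by omega) (by omega))

theorem hx5_13 (i K : ℕ) (hi : 560 ≤ i)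
    (hK : K * (i + 40 + (i + 53)) ≤ (5 * i + 187) * (i + 40 + 5)) :
    S (5 + 2) (i + 40) K (replicate (5 * i + 187) (T 0 0)) := by
  obtain ⟨K0, K01, K02⟩ : ∃ z, 2 * z ≤ 5 * i + 179 ∧ 5 * i + 179 < 2 * z + 2 := ⟨(5 * i + 179) / 2, by omega, by omega⟩
  refine S_of_V (X := i + 53) (K0 := K0) (T0 := (K0 + 8)) (by omega) (K_le hK (by
    have := Nat.mul_le_mul_right (i + 40 + (i + 53)) K02
    nlinarith)) ?_
  obtain ⟨a, a1, a2⟩ : ∃ z, 8 * z ≤ 1 * K0 ∧ 1 * K0 < 8 * z + 8 := ⟨(1 * K0) / 8, by omega, by omega⟩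
  obtain ⟨b, b0⟩ : ∃ z, K0 = 7 * a + z := ⟨K0 - (7 * a), by omega⟩
  exact V_cutC0 7 a (a + 1) (a + (a + 1)) b (b + 1) (b + (b + 1)) (by omega) (by omega) (by omega) (by omega)
    (tl _ _ _ _ _ _ (13) (-1) (by omega) (by omega) (by omega) (by omega) (by omega) (by omega) (by omega) (by omega) (by omega) (by omega))
    (tl _ _ _ _ _ _ (13) (-1) (by omega) (by omega) (by omega) (by omega) (by omega) (by omega) (by omega) (by omega) (by omega) (by omega))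

theorem hx5_14 (i K : ℕ) (hi : 560 ≤ i)
    (hK : K * (i + 40 + (i + 54)) ≤ (5 * i + 186) * (i + 40 + 5)) :
    S (5 + 2) (i + 40) K (replicate (5 * i + 186) (T 0 0)) := by
  obtain ⟨K0, K01, K02⟩ : ∃ z, 2 * z ≤ 5 * i + 176 ∧ 5 * i + 176 < 2 * z + 2 := ⟨(5 * i + 176) / 2, by omega, by omega⟩
  refine S_of_V (X := i + 54) (K0 := K0) (T0 := (K0 + 10)) (by omega) (K_le hK (by
    have := Nat.mul_le_mul_right (i + 40 + (i + 54)) K02
    nlinarith)) ?_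
  obtain ⟨a, a1, a2⟩ : ∃ z, 4 * z ≤ 1 * (i + 45) ∧ 1 * (i + 45) < 4 * z + 4 := ⟨(1 * (i + 45)) / 4, by omega, by omega⟩
  obtain ⟨b, b0⟩ : ∃ z, K0 = 9 * a + z := ⟨K0 - (9 * a), by omega⟩
  exact V_cutC0 9 a (a + 1) (a + (a + 1)) b (b + 1) (b + (b + 1)) (by omega) (by omega) (by omega) (by omega)
    (tl _ _ _ _ _ _ (14) (-1) (by omega) (by omega) (by omega) (by omega) (by omega) (by omega) (by omega) (by omega) (by omega) (by omega))
    (tl _ _ _ _ _ _ (14) (-1) (by omega) (by omega) (by omega) (by omega) (by omega) (by omega) (by omega) (by omega) (by omega) (by omega))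

theorem hx5_15 (i K : ℕ) (hi : 560 ≤ i)
    (hK : K * (i + 40 + (i + 55)) ≤ (5 * i + 185) * (i + 40 + 5)) :
    S (5 + 2) (i + 40) K (replicate (5 * i + 185) (T 0 0)) := by
  obtain ⟨K0, K01, K02⟩ : ∃ z, 2 * z ≤ 5 * i + 172 ∧ 5 * i + 172 < 2 * z + 2 := ⟨(5 * i + 172) / 2, by omega, by omega⟩
  refine S_of_V (X := i + 55) (K0 := K0) (T0 := (K0 + 13)) (by omega) (K_le hK (by
    have := Nat.mul_le_mul_right (i + 40 + (i + 55)) K02
    nlinarith)) ?_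
  obtain ⟨a, a1, a2⟩ : ∃ z, 13 * z ≤ 2 * K0 ∧ 2 * K0 < 13 * z + 13 := ⟨(2 * K0) / 13, by omega, by omega⟩
  obtain ⟨b, b0⟩ : ∃ z, K0 = 6 * a + z := ⟨K0 - (6 * a), by omega⟩
  exact V_cutC0 6 a (a + 2) (a + (a + 2)) b (b + 1) (b + (b + 1)) (by omega) (by omega) (by omega) (by omega)
    (tl _ _ _ _ _ _ (15) (-2) (by omega) (by omega) (by omega) (by omega) (by omega) (by omega) (by omega) (by omega) (by omega) (by omega))
    (tl _ _ _ _ _ _ (15) (-1) (by omega) (by omega) (by omega) (by omega) (by omega) (by omega) (by omega) (by omega) (by omega) (by omega))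

theorem hx5 (J x r K : ℕ) (hJ : 600 ≤ J) (h1 : 1 ≤ x) (h2 : x ≤ 15) (hr : r + x = 5 * J)
    (hK : K * (J + (J + x)) ≤ r * (J + 5)) : S (5 + 2) J K (replicate r (T 0 0)) := by
  obtain ⟨i, rfl⟩ : ∃ i, J = i + 40 := ⟨J - 40, by omega⟩
  interval_cases x
  · obtain rfl : r = 5 * i + 199 := by omega
    exact hx5_1 i K (by omega) hK
  · obtain rfl : r = 5 * i + 198 := by omega
    exact hx5_2 i K (by omega) hK
  · obtain rfl : r = 5 * i + 197 := by omega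
    exact hx5_3 i K (by omega) hK
  · obtain rfl : r = 5 * i + 196 := by omega
    exact hx5_4 i K (by omega) hK
  · obtain rfl : r = 5 * i + 195 := by omega
    exact hx5_5 i K (by omega) hK
  · obtain rfl : r = 5 * i + 194 := by omega
    exact hx5_6 i K (by omega) hK
  · obtain rfl : r = 5 * i + 193 := by omega
    exact hx5_7 i K (by omega) hK
  · obtain rfl : r = 5 * i + 192 := by omega
    exact hx5_8 i K (by omega) hK
  · obtain rfl : r = 5 * i + 191 := by omega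
    exact hx5_9 i K (by omega) hK
  · obtain rfl : r = 5 * i + 190 := by omega
    exact hx5_10 i K (by omega) hK
  · obtain rfl : r = 5 * i + 189 := by omega
    exact hx5_11 i K (by omega) hK
  · obtain rfl : r = 5 * i + 188 := by omega
    exact hx5_12 i K (by omega) hK
  · obtain rfl : r = 5 * i + 187 := by omega
    exact hx5_13 i K (by omega) hK
  · obtain rfl : r = 5 * i + 186 := by omega
    exact hx5_14 i K (by omega) hK
  · obtain rfl : r = 5 * i + 185 := by omega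
    exact hx5_15 i K (by omega) hK

end Pool.Agent.Work.MP_f4b644_ag.Mid
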