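import Pool.Agent.Work.MP_f4b644_ag.Mid.HX6
import Pool.Agent.Work.MP_f4b644_ag.Mid.HX7
import Pool.Agent.Work.MP_f4b644_ag.Dag.Lem2

/-!
First dimension 6 and 7, the roots with X = ω + m slightly above J.
-/

set_option autoImplicit false

namespace Pool.Agent.Work.MP_f4b644_ag.Mid

open Big Thin

theorem H67_fin {τ e B k Tt : ℕ} (hτ : 0 < τ) (h3 : (τ + e) * k ≤ τ * Tt) (h4 : τ * Tt < (τ + e) * k + τ)
    (h1 : k * (τ + (τ + e)) ≤ B * τ) (hB : B ≤ τ + (τ + e)) :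
    ∃ ρ, Tt = k + ρ ∧ k * e ≤ τ * ρ ∧ τ * ρ < e * k + τ ∧ k ≤ τ := by
  have e1 : (τ + e) * k = τ * k + k * e := by ring
  have a1 : k ≤ Tt := Nat.le_of_mul_le_mul_left (c := τ) (by omega) hτ
  obtain ⟨ρ, rfl⟩ := Nat.exists_eq_add_of_le a1
  have e2 : τ * (k + ρ) = τ * k + τ * ρ := by ring
  refine ⟨ρ, rfl, by omega, by rw [mul_comm e]; omega, ?_⟩
  exact Nat.le_of_mul_le_mul_right (h1.trans (by rw [mul_comm]; exact Nat.mul_le_mul_left _ hB)) (by omega)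

theorem root6_one (J ω r : ℕ) (hJ : 320 ≤ J) (h1 : J < ω + 4) (h2 : 12 * ω ≤ 13 * J)
    (hr : r + (J + 4 + ω) = 6 * J) : Dag.Root 6 J r := by
  intro K hK _
  obtain ⟨x, hx⟩ : ∃ x, ω + 4 = J + x := ⟨ω + 4 - J, by omega⟩
  rw [show 6 * J - r = J + (J + x) by omega, show J + 6 - 2 = J + 4 by omega] at hK
  by_cases c : x ≤ 20
  · exact hx4 J x r K hJ (by omega) c (by omega) hK
  obtain ⟨e, rfl⟩ : ∃ e, x = e + 8 := ⟨x - 8, by omega⟩
  obtain rfl : ω = J + 4 + e := by omega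
  obtain ⟨B, hB⟩ : ∃ B, B + 2 * e + 16 = 2 * J := ⟨2 * J - 2 * e - 16, by omega⟩
  refine S_tau 4 J (J + 4 + e) r K 1 B (by omega) (by omega) (by omega)
    (by rwa [show J + 4 + (J + 4 + e) = J + (J + (e + 8)) by omega]) ?_ fun k Tt h _ => ?_
  · rw [hx]
    exact blk4L J _ _ e e hJ rfl (by omega) (by omega) (by omega) le_rfl le_rfl le_rfl
  obtain ⟨f1, f2, f3, f4, -⟩ := h
  obtain ⟨ρ, rfl, g1, g2, g3⟩ := H67_fin (B := B) (by omega) f3 f4 f1 (by omega)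
  rw [hx]
  refine blk4L J _ k ρ e hJ rfl (by omega) (by omega) (by_contra fun d => ?_) g3 g1 ?_
  · have d1 := Nat.mul_le_mul_right (J + 4 + (J + 4 + e)) (show 7 * (k + 1) ≤ 6 * J + 6 by omega)
    have d2 := Nat.mul_le_mul_right J (show 12 * e + 48 ≤ J by omega)
    have d3 := Nat.mul_le_mul_right J hJ
    have d4 : B * J + 2 * e * J + 16 * J = 2 * J * J := by rw [← hB]; ring
    nlinarith
  · have d1 := Nat.mul_le_mul_left e g3
    exact Nat.lt_succ_iff.1 (Nat.lt_of_mul_lt_mul_left (a := J + 4) (by nlinarith))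

theorem root7_one (J ω r : ℕ) (hJ : 600 ≤ J) (h1 : J < ω + 5) (h2 : 24 * ω ≤ 25 * J)
    (hr : r + (J + 5 + ω) = 7 * J) : Dag.Root 7 J r := by
  intro K hK _
  obtain ⟨x, hx⟩ : ∃ x, ω + 5 = J + x := ⟨ω + 5 - J, by omega⟩
  rw [show 7 * J - r = J + (J + x) by omega, show J + 7 - 2 = J + 5 by omega] at hK
  by_cases c : x ≤ 15
  · exact hx5 J x r K hJ (by omega) c (by omega) hK
  obtain ⟨e, rfl⟩ : ∃ e, x = e + 10 := ⟨x - 10, by omega⟩
  obtain rfl : ω = J + 5 + e := by omega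
  obtain ⟨B, hB⟩ : ∃ B, B + 3 * e + 30 = J := ⟨J - 3 * e - 30, by omega⟩
  refine S_tau 5 J (J + 5 + e) r K 2 B (by omega) (by omega) (by omega)
    (by rwa [show J + 5 + (J + 5 + e) = J + (J + (e + 10)) by omega]) ?_ fun k Tt h _ => ?_
  · rw [hx]
    exact blk5L J _ e hJ rfl (by omega) (by omega)
  obtain ⟨f1, f2, f3, f4, f5⟩ := h
  obtain ⟨ρ, rfl, g1, g2, g3⟩ := H67_fin (B := B) (by omega) f3 f4 f1 (by omega)
  have d1 : 4 ≤ k := by_contra fun d => by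
    have d1 := Nat.mul_le_mul_right (J + 5 + (J + 5 + e)) (show k + 1 ≤ 4 by omega)
    have d2 := Nat.mul_le_mul_right (J + 5) (show 12 ≤ B by omega)
    omega
  have d2 : 4 * ρ < k + 4 := by
    have d3 := Nat.mul_le_mul_right k (show 4 * e ≤ J + 5 by omega)
    exact Nat.lt_of_mul_lt_mul_left (a := J + 5) (by nlinarith)
  exact V_tn 5 J _ k _ _ (Or.inr rfl) d1 (by omega) (by omega) (by omega) le_rfl (by omega) (by nlinarith)

end Pool.Agent.Work.MP_f4b644_ag.Mid
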