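import Pool.Agent.Work.MP_f4b644_ag.Fat.Low

/-!
The top level. τ = J + m, v = τ + ω = (m + 2) J - r, K0 = r τ / v.

`root_of_V`: `Blk_of_V`, `Blk.toS` for K0, then `Dag.S_proj` for K ≤ K0 (if r = 0 then K = 0, `S_zeroC`; compare `Dag.Root_of`).
`root_win`: compare `Fat.root_half`. It suffices to treat K0 (`S_proj`; r ≥ v ≥ 1). K0 = a τ + K' with K1 ≤ K' < K1 + τ and a ≥ 1
(a = (K0 - K1) / τ), t = the ceiling of ω K' / τ; `Top_fin`: a v + (K' + t) ≤ r, so K' + t + f ≤ r. The exact block is H τ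
(there t = ω, and v + f ≤ r). `Fat.Low_blk`, `Blk.mul`, `Blk.toS`.
-/

set_option autoImplicit false

namespace Pool.Agent.Work.MP_f4b644_ag.Mid

open Big Thin Multiset Big.Gad

/-- a block with `K` columns, provided that at least `f` of the points are not tangents -/
def BlkF (m J ω K f : ℕ) : Prop :=
  K + (ω * K + (J + m - 1)) / (J + m) + f + (ω + m) ≤ (m + 1) * J →
    V m J (ω + m) K ((ω * K + (J + m - 1)) / (J + m)) (K + (ω * K + (J + m - 1)) / (J + m)) 0 0 0

theorem L0_root {m J ω r : ℕ} (hr : r + (J + m + ω) = (m + 2) * J)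
    (h : S (m + 2) J (r * (J + m) / (J + m + ω)) (replicate r (T 0 0))) : Dag.Root (m + 2) J r := by
  apply Dag.Root_of
  rw [show J + (m + 2) - 2 = J + m by omega, show (m + 2) * J - r = J + m + ω by omega]
  exact h.of_eq (by simp only [replicate_zero, add_zero])

theorem root_of_V (m J ω r K T : ℕ) (hJ : 1 ≤ J) (hr : r + (J + m + ω) = (m + 2) * J)
    (hK : K = r * (J + m) / (J + m + ω)) (hT : K + T = r) (h : V m J (ω + m) K T r 0 0 0) :
    Dag.Root (m + 2) J r := by
  subst hT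
  rw [add_comm ω m] at h
  exact L0_root hr (hK ▸ (Fat.Low_blk hr h).toS)

theorem root_win (m J ω r K1 f : ℕ) (hJ : 1 ≤ J) (hr : r + (J + m + ω) = (m + 2) * J)
    (h1 : 1 ≤ K1) (h2 : K1 ≤ J + m) (h3 : K1 + (J + m) ≤ r * (J + m) / (J + m + ω))
    (hf1 : f + (J + m + ω) ≤ r) (hf2 : f ≤ J + m + ω)
    (H : ∀ K, K1 ≤ K → K < K1 + (J + m) → BlkF m J ω K f) : Dag.Root (m + 2) J r := by
  have e : (m + 2) * J = (m + 1) * J + J := by ring
  have hτ : 0 < J + m := by omega
  have B : ∀ K t, K1 ≤ K → K < K1 + (J + m) → t = (ω * K + (J + m - 1)) / (J + m) →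
      K + t + f ≤ r → Blk (m + 2) J r K (K + t) := fun K t a b c d => by
    subst c
    exact Fat.Low_blk hr (add_comm ω m ▸ H K a b (by omega))
  have E := B (J + m) ω h2 (by omega) (by
    rw [add_comm (ω * _), Nat.add_mul_div_right _ _ hτ, Nat.div_eq_of_lt (by omega), zero_add])
    (by omega)
  apply L0_root hr
  have h4 := Nat.div_mul_le_self (r * (J + m)) (J + m + ω)
  generalize r * (J + m) / (J + m + ω) = K0 at h3 h4
  obtain ⟨n, rfl⟩ := Nat.exists_eq_add_of_le h3
  have h5 := Nat.div_add_mod n (J + m)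
  have h6 := Nat.mod_lt n hτ
  have h7 : K1 + (J + m) + n = (n / (J + m) + 1) * (J + m) + (K1 + n % (J + m)) := by
    rw [add_mul, mul_comm]
    omega
  have h8 := Nat.div_mul_le_self (ω * (K1 + n % (J + m)) + (J + m - 1)) (J + m)
  have hf := Top_fin _ _ ω _ ((ω * (K1 + n % (J + m)) + (J + m - 1)) / (J + m)) _ _ r hτ rfl h7
    (by omega) ((mul_comm _ _).trans_le h4)
  rw [h7]
  exact (Blk.mul _ hf E (B _ _ (by omega) (by omega) rfl (by rw [add_mul] at hf; omega))).toS

end Pool.Agent.Work.MP_f4b644_ag.Mid
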