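import Pool.Agent.Work.MP_f4b644_ag.Mid.HX
import Pool.Agent.Work.MP_f4b644_ag.Mid.L0

/-!
First dimension 7, the last block for X close to 2 J. One strip has 5 b rows and X = 5 c, so its blocks have no remainder;
the other strip is a grid.
-/

set_option autoImplicit false

namespace Pool.Agent.Work.MP_f4b644_ag.Mid

open Big Thin

theorem V_t2 (j X k Tt s : ℕ) (hk : 6 ≤ k) (h1 : k ≤ Tt) (h2 : 2 * Tt ≤ 5 * k) (h3 : s + 6 ≤ j)
    (h4 : k ≤ s) (hB : s ≤ k + Tt) (hD : k * X ≤ j * Tt + 5 * s) : V 5 j X k Tt s 0 0 0 := by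
  by_cases c : Tt + 2 ≤ 2 * k
  · exact V_tallG 5 j X k Tt s 1 3 6 rfl (by omega) (by omega) (by omega) (by omega) h4 hB h3 (by omega)
      (by omega) (by omega) hD
  · exact V_tallG 5 j X k Tt s 2 2 6 rfl (by omega) (by omega) (by omega) (by omega) h4 hB h3 (by omega)
      (by omega) (by omega) hD

theorem AB7_core (J k t Tt X z g j b D : ℕ) (hJ : J = j + 5 * b) (hT : Tt + t = 2 * k) (ht : 5 ≤ t)
    (hX : X + 5 * g + z = 2 * J + 15) (hg : 1 ≤ g) (hg' : 5 * g ≤ 3 * t + 1) (hD : D + k * z = j * t)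
    (h1 : 5 * g ≤ D) (h2 : D < 5 * g + 5 * t) (h3 : (J + 5) * t ≤ k * (5 * g + z))
    (h4 : k * (5 * g + z) < (J + 5) * t + k) (c1 : 17 * t ≤ 2 * k) (c2 : g + t ≤ j) (c3 : z + 5 ≤ j)
    (c4 : 9 * k + 45 ≤ 25 * b) (c5 : 100 ≤ k) : V 5 J X k Tt (k + Tt) 0 0 0 := by
  have e1 : (J + 5) * t = j * t + 5 * ((b + 1) * t) := by
    rw [hJ]
    ring
  have e2 : k * (5 * g + z) = 5 * (k * g) + k * z := by ring
  obtain ⟨s, s1, s2⟩ : ∃ s, D ≤ 5 * s ∧ 5 * s ≤ D + 4 := ⟨(D + 4) / 5, by omega, by omega⟩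
  obtain ⟨t1, t2, rfl, u1, u2⟩ : ∃ t1 t2, t = t1 + t2 ∧ t2 ≤ t1 ∧ t1 ≤ t2 + 1 :=
    ⟨(t + 1) / 2, t / 2, by omega, by omega, by omega⟩
  obtain ⟨k1, p1, p2⟩ := Top_ceil ((b + 1) * t1) g hg
  have e3 : (b + 1) * (t1 + t2) = (b + 1) * t1 + (b + 1) * t2 := by ring
  have b1 : 5 * k1 < 3 * k + 5 := by
    refine Nat.lt_of_mul_lt_mul_right (a := g * (t1 + t2)) ?_
    have d1 := Nat.mul_lt_mul_of_pos_right p2 (show 0 < 5 * (t1 + t2) by omega)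
    have d2 := Nat.mul_le_mul_right (5 * t1) (show (b + 1) * (t1 + t2) ≤ k * g by omega)
    have d3 := Nat.mul_le_mul_left (k * g) (show 5 * t1 ≤ 3 * (t1 + t2) by omega)
    nlinarith
  have b2 : 2 * k ≤ 5 * k1 := by
    refine Nat.le_of_mul_le_mul_right (c := g) ?_ hg
    have d1 := Nat.mul_le_mul_left (b + 1) (show 2 * t2 + 3 ≤ 3 * t1 by omega)
    have d2 : (b + 1) * (2 * t2 + 3) = 2 * ((b + 1) * t2) + 3 * b + 3 := by ring
    have d3 : (b + 1) * (3 * t1) = 3 * ((b + 1) * t1) := by ring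
    have d4 : 2 * k * g = 2 * (k * g) := by ring
    have d5 : 5 * k1 * g = 5 * (k1 * g) := by ring
    omega
  obtain ⟨k2, rfl⟩ : ∃ k2, k = k1 + k2 := ⟨k - k1, by omega⟩
  obtain ⟨ρ, hρ⟩ := Nat.exists_eq_add_of_le p1
  obtain ⟨c, hc⟩ : ∃ c, c + g = 2 * b + 3 := ⟨2 * b + 3 - g, by omega⟩
  obtain ⟨T1, hT1⟩ : ∃ T1, T1 + t1 = 2 * k1 := ⟨2 * k1 - t1, by omega⟩
  obtain ⟨T2, hT2⟩ : ∃ T2, T2 + t2 = 2 * k2 := ⟨2 * k2 - t2, by omega⟩
  obtain ⟨XA, hA⟩ : ∃ XA, XA + z = 2 * j := ⟨2 * j - z, by omega⟩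
  have e4 : (k1 + k2) * g = k1 * g + k2 * g := by ring
  have f : ∀ κ τ Θ : ℕ, Θ + τ = 2 * κ → κ * (5 * c) + 5 * (κ * g) + 5 * τ = 5 * b * Θ + 5 * ((b + 1) * τ) + 15 * κ :=
    fun κ τ Θ h => by
      zify at h hc ⊢
      linear_combination 5 * (κ : ℤ) * hc - 5 * (b : ℤ) * h
  have f1 := f k1 t1 T1 hT1
  have f2 := f k2 t2 T2 hT2
  have f3 : (k1 + k2) * XA + (k1 + k2) * z = j * Tt + j * (t1 + t2) := by
    rw [← Nat.mul_add, ← Nat.mul_add, hA, hT]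
    ring
  refine V_cutB0 j XA s (5 * b) (5 * c) (k1 + k2 + Tt - s) hJ (by omega) (by omega) le_rfl
    (V_H 5 j XA _ Tt s 0 0 0 1 3 rfl (by omega) (by omega) (by omega) (by omega) (by omega) (by omega)
      (by omega) (by omega) (by omega))
    (V_cutC0 1 k1 T1 (k1 + T1 - ρ) k2 T2 (k2 + T2 + ρ - s) (by omega) (by omega) (by omega) (by omega)
      (V_t2 _ _ _ _ _ (by omega) (by omega) (by omega) (by omega) (by omega) (by omega) (by omega))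
      (V_t2 _ _ _ _ _ (by omega) (by omega) (by omega) (by omega) (by omega) (by omega) (by omega)))

theorem AB7 (J k t Tt X : ℕ) (hJ : 600 ≤ J) (h1 : J ≤ 3 * k + 2) (h2 : 3 * k + 20 ≤ J + 7 * t)
    (h3 : 12 * k ≤ 5 * J) (h4 : 17 * t ≤ 2 * k) (ht : 5 ≤ t) (hT : Tt + t = 2 * k)
    (hD : k * X ≤ J * Tt + 5 * (k + Tt)) : V 5 J X k Tt (k + Tt) 0 0 0 := by
  obtain ⟨E, p1, p2⟩ := Top_ceil ((J + 5) * t) k (by omega)
  have a1 : E ≤ 3 * t + 1 := by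
    refine Nat.lt_succ_iff.1 (Nat.lt_of_mul_lt_mul_right (a := k) ?_)
    have := Nat.mul_le_mul_right t (show J + 5 ≤ 3 * k + 7 by omega)
    nlinarith
  have a2 : 12 * t ≤ 5 * E := by
    refine Nat.le_of_mul_le_mul_right (c := k) ?_ (by omega)
    have := Nat.mul_le_mul_right t (show 12 * k ≤ 5 * (J + 5) by omega)
    nlinarith
  obtain ⟨X', hX⟩ : ∃ X', X' + E = 2 * J + 15 := ⟨2 * J + 15 - E, by omega⟩
  have a3 : X ≤ X' := by
    refine Nat.lt_succ_iff.1 (Nat.lt_of_mul_lt_mul_right (a := k) ?_)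
    have d1 : X' * k + E * k = (2 * J + 15) * k := by rw [← Nat.add_mul, hX]
    have d2 : (J + 5) * Tt + (J + 5) * t = (J + 5) * (2 * k) := by rw [← Nat.mul_add, hT]
    nlinarith
  refine V_mono a3 ?_
  obtain ⟨z, g, p, q, l, rfl, z1, z2, z3⟩ : ∃ z g p q l, E = 5 * g + z ∧ t ≤ l * z ∧ q * z ≤ p * t ∧
      ((l = 10 ∧ z ≤ 5 ∧ ((t = 5 ∧ p = 1 ∧ q = 1) ∨ (t ≤ 10 ∧ p = 5 ∧ q = 6))) ∨
        (l = 5 ∧ 5 * z ≤ t + 24 ∧ ((t ≤ 15 ∧ p = 7 ∧ q = 11) ∨ (p = 1 ∧ q = 2)))) := by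
    by_cases c1 : t = 5
    · exact ⟨1 + (E - 1) % 5, (E - 1) / 5, 1, 1, 10, by omega, by omega, by omega, by omega⟩
    by_cases c2 : t ≤ 10
    · exact ⟨1 + (E - 1) % 5, (E - 1) / 5, 5, 6, 10, by omega, by omega, by omega, by omega⟩
    by_cases c3 : t ≤ 15
    · exact ⟨3 + (E - 3) % 5, (E - 3) / 5, 7, 11, 5, by omega, by omega, by omega, by omega⟩
    · exact ⟨(t + 4) / 5 + (E - (t + 4) / 5) % 5, (E - (t + 4) / 5) / 5, 1, 2, 5, by omega, by omega, by omega,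
        by omega⟩
  obtain ⟨j0, q1, q2⟩ := Top_ceil (k * z + 5 * g) t (by omega)
  have b1 : k ≤ l * j0 := by
    refine Nat.le_of_mul_le_mul_right (c := t) ?_ (by omega)
    have d1 := Nat.mul_le_mul_left k z1
    have d2 := Nat.mul_le_mul_left l q1
    nlinarith [Nat.zero_le (l * g)]
  have b2 : q * j0 ≤ p * k + 5 * q := by
    refine Nat.le_of_mul_le_mul_right (c := t) ?_ (by omega)
    have d1 := Nat.mul_le_mul_left k z2
    have d2 := Nat.mul_le_mul_left q (show j0 * t ≤ k * z + 5 * t by omega)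
    nlinarith
  clear z1 z2
  obtain ⟨ρ, b, r1, r2⟩ : ∃ ρ b, J = j0 + ρ + 5 * b ∧ ρ ≤ 4 := by
    refine ⟨(J - j0) % 5, (J - j0) / 5, ?_, by omega⟩
    rcases z3 with ⟨rfl, -, ⟨-, rfl, rfl⟩ | ⟨-, rfl, rfl⟩⟩ | ⟨rfl, -, ⟨-, rfl, rfl⟩ | ⟨rfl, rfl⟩⟩ <;> omega
  have e1 : (j0 + ρ) * t = j0 * t + ρ * t := by ring
  have e2 := Nat.mul_le_mul_right t r2
  rw [mul_comm _ k] at p1 p2
  rcases z3 with ⟨rfl, z4, ⟨z5, rfl, rfl⟩ | ⟨z5, rfl, rfl⟩⟩ | ⟨rfl, z4, ⟨z5, rfl, rfl⟩ | ⟨rfl, rfl⟩⟩ <;>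
  exact AB7_core J k t Tt X' z g (j0 + ρ) b ((j0 + ρ) * t - k * z) r1 hT ht (by omega) (by omega) (by omega)
    (by omega) (by omega) (by omega) p1 p2 h4 (by omega) (by omega) (by omega) (by omega)

theorem blk7b (J ω k Tt B : ℕ) (hJ : 600 ≤ J) (h1 : 19 * J ≤ 10 * ω) (h2 : 10 * ω ≤ 21 * J)
    (hB : B + 2 * ω + 10 = 5 * J) (f1 : k * (J + 5 + ω) ≤ B * (J + 5)) (f2 : B * (J + 5) < (k + 1) * (J + 5 + ω))
    (f3 : ω * k ≤ (J + 5) * Tt) (f4 : (J + 5) * Tt < ω * k + (J + 5)) (f5 : k + Tt ≤ B) :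
    V 5 J (ω + 5) k Tt (k + Tt) 0 0 0 := by
  have hD : k * (ω + 5) ≤ J * Tt + 5 * (k + Tt) := by nlinarith
  have a0 : 100 ≤ k := by_contra fun d => by
    have d1 := Nat.mul_le_mul_right (J + 5 + ω) (show k + 1 ≤ 100 by omega)
    have d2 := Nat.mul_le_mul_right (J + 5) (show 400 ≤ B by omega)
    omega
  have a1 : k ≤ Tt := Nat.le_of_mul_le_mul_left (c := J + 5)
    ((Nat.mul_le_mul_right k (by omega)).trans f3) (by omega)
  have a2 : 10 * Tt < 21 * k + 10 := by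
    have d1 := Nat.mul_le_mul_right k (show 10 * ω ≤ 21 * (J + 5) by omega)
    exact Nat.lt_of_mul_lt_mul_left (a := J + 5) (by nlinarith)
  by_cases c : 2 * J ≤ ω + 2
  · exact V_t2 J _ k Tt _ (by omega) a1 (by omega) (by omega) (by omega) le_rfl hD
  obtain ⟨E, hE⟩ : ∃ E, ω + E = 2 * (J + 5) := ⟨2 * (J + 5) - ω, by omega⟩
  have e1 : ω * k + E * k = 2 * (J + 5) * k := by rw [← Nat.add_mul, hE]
  have a3 : J ≤ 3 * k + 2 := by_contra fun d => by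
    have d1 := Nat.mul_le_mul_right (J + 5 + ω) (show 3 * (k + 1) ≤ J by omega)
    have d2 := Nat.mul_le_mul_right (J + 5) (show J + 5 + ω ≤ 3 * B + 14 by omega)
    nlinarith
  have a4 : 12 * k ≤ 5 * J := by_contra fun d => by
    have d1 := Nat.mul_le_mul (show 5 * J ≤ 12 * k by omega) (show 29 * J ≤ 10 * (J + 5 + ω) by omega)
    have d2 := Nat.mul_le_mul_right (J + 5) (show 5 * B + 50 ≤ 6 * J by omega)
    nlinarith
  have a5 : Tt + 4 ≤ 2 * k := by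
    have d1 := Nat.mul_le_mul_right k (show 13 ≤ E by omega)
    refine Nat.lt_succ_iff.1 (Nat.lt_of_mul_lt_mul_left (a := J + 5) ?_)
    nlinarith
  obtain ⟨t, hT⟩ : ∃ t, Tt + t = 2 * k := ⟨2 * k - Tt, by omega⟩
  have e2 : (J + 5) * Tt + (J + 5) * t = 2 * (J + 5) * k := by
    rw [← Nat.mul_add, hT]
    ring
  by_cases c2 : t = 4
  · have g : ∀ κ, k ≤ 2 * κ + 1 → 2 * κ ≤ k + 1 → V 5 J (ω + 5) κ (2 * κ - 2) (κ + (2 * κ - 2)) 0 0 0 := fun κ g1 g2 => by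
      refine V_t2 J _ κ _ _ (by omega) (by omega) (by omega) (by omega) (by omega) le_rfl ?_
      obtain ⟨n, rfl⟩ : ∃ n, κ = n + 1 := ⟨κ - 1, by omega⟩
      rw [show 2 * (n + 1) - 2 = 2 * n by omega]
      have d1 := Nat.mul_le_mul_left (n + 1) (show ω + 3 ≤ 2 * J by omega)
      nlinarith
    exact V_cutC0 1 (k / 2) _ _ (k - k / 2) _ _ (by omega) (by omega) (by omega) (by omega)
      (g _ (by omega) (by omega)) (g _ (by omega) (by omega))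
  have a6 : 17 * t ≤ 2 * k := by
    refine Nat.le_of_mul_le_mul_left (c := J + 5) ?_ (by omega)
    have d2 := Nat.mul_le_mul_right k (show 17 * E ≤ 2 * (J + 5) by omega)
    clear * - d2 e1 e2 f3
    nlinarith
  have a7 : E < 3 * t + 5 := by
    refine Nat.lt_of_mul_lt_mul_right (a := k) ?_
    have d2 := Nat.mul_le_mul_right (t + 1) (show J + 5 ≤ 3 * k + 7 by omega)
    clear * - d2 e1 e2 f4 a6 a0
    nlinarith
  exact AB7 J k t Tt _ hJ a3 (by omega) a4 a6 (by omega) hT hD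

theorem blkF7b (J ω r : ℕ) (hJ : 600 ≤ J) (h1 : 19 * J ≤ 10 * ω) (h2 : 10 * ω ≤ 21 * J)
    (hr : r + (J + 5 + ω) = 7 * J) :
    BlkF 5 J ω (r * (J + 5) / (J + 5 + ω) - (J + 5)) (J + 5 + ω) := by
  intro h
  obtain ⟨B, rfl⟩ : ∃ B, r = B + (J + 5 + ω) := ⟨r - (J + 5 + ω), by omega⟩
  rw [Nat.add_mul, Nat.add_mul_div_left _ _ (show 0 < J + 5 + ω by omega), Nat.add_sub_cancel] at h ⊢
  have f1 := Nat.div_mul_le_self (B * (J + 5)) (J + 5 + ω)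
  have f2 := Nat.lt_div_mul_add (a := B * (J + 5)) (show 0 < J + 5 + ω by omega)
  generalize B * (J + 5) / (J + 5 + ω) = k at h f1 f2 ⊢
  have f3 := Nat.div_add_mod (ω * k + (J + 5 - 1)) (J + 5)
  have f4 := Nat.mod_lt (ω * k + (J + 5 - 1)) (show 0 < J + 5 by omega)
  generalize (ω * k + (J + 5 - 1)) / (J + 5) = Tt at h f3 ⊢
  exact blk7b J ω k Tt B hJ h1 h2 (by omega) f1 (by rw [Nat.add_mul]; omega) (by omega) (by omega) (by omega)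

end Pool.Agent.Work.MP_f4b644_ag.Mid
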