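import Pool.Agent.Work.MP_f4b644_ag.Mid.MT
import Pool.Agent.Work.MP_f4b644_ag.Fat.Top
import Pool.Agent.Work.MP_f4b644_ag.Thin.W0
import Pool.Agent.Work.MP_f4b644_ag.Thin.S67
import Pool.Agent.Work.MP_f4b644_ag.Fin.Asm
import Pool.Agent.Work.MP_f4b644_ag.Mid.H67
import Pool.Agent.Work.MP_f4b644_ag.Mid.H7b
import Pool.Agent.Work.MP_f4b644_ag.Sl.Root

/-!
A root follows from the conditions `RTc`, `BKc`, `PXc`.
-/

set_option autoImplicit false

namespace Pool.Agent.Work.MP_f4b644_ag.Mid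

open Big Thin

/-- `RTc` holds for some hints -/
def RTe (m J om : ℕ) : Prop :=
  ∃ sx so sp sw sl fz cm cJ cd pc pk oneA oneB aA bA kcA ncA ndA nnA cA rnA rcA wcA rn2A rc2A wc2A aB bB kcB ncB ndB nnB cB
    rnB rcB wcB rn2B rc2B wc2B : ℕ,
    RTc m J om sx so sp sw sl fz cm cJ cd pc pk oneA oneB aA bA kcA ncA ndA nnA cA rnA rcA wcA rn2A rc2A wc2A aB bB kcB ncB
      ndB nnB cB rnB rcB wcB rn2B rc2B wc2B

/-- `BKc` holds for some hints -/
def BKe (m J om : ℕ) : Prop :=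
  ∃ sx so sp sw a sl fz cm cJ cd pc pk oneA oneB aA bA kcA ncA ndA nnA cA rnA rcA wcA rn2A rc2A wc2A aB bB kcB ncB ndB nnB cB
    rnB rcB wcB rn2B rc2B wc2B : ℕ,
    BKc m J om sx so sp sw a sl fz cm cJ cd pc pk oneA oneB aA bA kcA ncA ndA nnA cA rnA rcA wcA rn2A rc2A wc2A aB bB kcB
      ncB ndB nnB cB rnB rcB wcB rn2B rc2B wc2B

/-- `PXc` holds for some hints -/
def PXe (m J om j : ℕ) : Prop :=
  ∃ pc pk kcA ncA ndA nnA cA rnA rcA wcA rn2A rc2A wc2A kcB ncB ndB nnB cB rnB rcB wcB rn2B rc2B wc2B : ℕ,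
    PXc m J om j pc pk kcA ncA ndA nnA cA rnA rcA wcA rn2A rc2A wc2A kcB ncB ndB nnB cB rnB rcB wcB rn2B rc2B
      wc2B

theorem root_win3 (m J ω r a L : ℕ) (hJ : 1 ≤ J) (hr : r + (J + m + ω) = (m + 2) * J)
    (h3 : r * (J + m) / (J + m + ω) = a * (J + m) + L) (hv : J + m + ω ≤ r)
    (H0 : BlkF m J ω (J + m) (r - (J + m + ω))) (H : BlkF m J ω L (a * (J + m + ω))) :
    Dag.Root (m + 2) J r := by
  have e : (m + 2) * J = (m + 1) * J + J := by ring
  have hτ : 0 < J + m := by omega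
  have B : ∀ K t f, BlkF m J ω K f → t = (ω * K + (J + m - 1)) / (J + m) →
      K + t + f ≤ r → Blk (m + 2) J r K (K + t) := fun K t f a c d => by
    subst c
    exact Fat.Low_blk hr (add_comm ω m ▸ a (by omega))
  have E := B (J + m) ω _ H0 (by
    rw [add_comm (ω * _), Nat.add_mul_div_right _ _ hτ, Nat.div_eq_of_lt (by omega), zero_add])
    (by omega)
  apply L0_root hr
  have h4 := Nat.div_mul_le_self (r * (J + m)) (J + m + ω)
  have h8 := Nat.div_mul_le_self (ω * L + (J + m - 1)) (J + m)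
  have hf := Top_fin _ _ ω _ ((ω * L + (J + m - 1)) / (J + m)) _ _ r hτ rfl h3
    (by omega) ((mul_comm _ _).trans_le h4)
  rw [h3]
  exact (Blk.mul _ hf E (B _ _ _ H rfl (by omega))).toS

theorem root_EX {m J om r K : ℕ} (H : EXc m J om r K) (hm : 4 ≤ m) (hJ : m + 2 ≤ J)
    (hr : r + (J + m + om) = (m + 2) * J) (hK : K = r * (J + m) / (J + m + om)) (hJK : J ≤ K)
    (hA : Fin.NotA (m + 2) J r) : Dag.Root (m + 2) J r := by
  obtain ⟨I, S, W, Q, rfl, rfl, rfl, rfl, H⟩ := H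
  have W : om + m ≤ J → 3 * m + 50 ≤ J → Dag.Root (m + 2) J r := fun a b => by
    by_cases c : om ≤ m
    · exact Fat.root_fat_low m J om r (Or.inl ⟨hm, by omega, c⟩) hr
    · exact root_w0 m J om r hm b (by omega) a hr
  have hN : J * (J + m + om) ≤ r * (J + m) :=
    (Nat.mul_le_mul_right _ hJK).trans (hK ▸ Nat.div_mul_le_self _ _)
  rcases H with h | h | ⟨a, b, h⟩ | ⟨a, b⟩ | ⟨a, b⟩ | h | ⟨a, b, c⟩ | ⟨a, a', b, c⟩ | ⟨a, b, c⟩ | ⟨a, a', b, c⟩
  · omega
  · omega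
  · exact Fat.root_fat m J om r a b hJ (h.imp_left fun h => h) hr
  · exact W a b
  · exact Fat.root_fat_low m J om r (Or.inl ⟨hm, b, a⟩) hr
  · rw [Fin.NotA, show J + (m + 2) - 2 = J + m by omega, show (m + 2) * J - r = J + m + om by omega, ← hK,
      sq, sq] at hA
    exact absurd h hA.not_ge
  · obtain rfl : m = 4 := by omega
    refine root6_diag J r b c (by_contra fun d => ?_)
    have d1 := Nat.mul_le_mul_right (J + 4) (show r + 6 ≤ 3 * J by omega)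
    have d2 := Nat.mul_le_mul_left J (show 3 * J + 6 ≤ J + 4 + om by omega)
    nlinarith
  · obtain rfl : m = 5 := by omega
    refine root7_diag J r b c (by_contra fun d => ?_)
    have d1 := Nat.mul_le_mul_right (J + 5) (show 2 * r + 18 ≤ 7 * J by omega)
    have d2 := Nat.mul_le_mul_left J (show 7 * J + 18 ≤ 2 * (J + 5 + om) by omega)
    nlinarith
  · obtain rfl : m = 4 := by omega
    by_cases d : J < om + 4
    · exact root6_one J om r b d c hr
    · exact W (by omega) (by omega)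
  · obtain rfl : m = 5 := by omega
    by_cases d : J < om + 5
    · exact root7_one J om r b d c hr
    · exact W (by omega) (by omega)

theorem SL_of {N R C y kap : ℕ} (h : SLc N R C y kap) : Sl.SLr N R C y kap := by
  obtain ⟨_, _, _, _, _, _, rfl, rfl, rfl, rfl, rfl, rfl, h⟩ := h
  exact h

theorem root_SX {m J om r K kap o p sw : ℕ} (H : SXc m J r K kap o p sw)
    (hr : r + (J + m + om) = (m + 2) * J) (hK : K = r * (J + m) / (J + m + om)) : Dag.Root (m + 2) J r := by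
  obtain ⟨I, N, P, Q, R, C, y, rfl, d1, d2, d3, d4, d5, rfl, c1, c2, c3, c4, H⟩ := H
  have H1 : Sl.SLc N P Q r kap := by
    refine ⟨c1, c2, c3, c4, ?_⟩
    by_cases h : sw = 0
    · rw [if_pos h] at d4 d5
      exact Or.inl (d4 ▸ d5 ▸ SL_of H)
    · rw [if_neg h] at d4 d5
      exact Or.inr (d4 ▸ d5 ▸ SL_of H)
  refine Sl.root_slicex (κ := kap) (by omega) ?_
  rw [show J + (m + 2) - 2 = J + m by omega, show (m + 2) * J - r = J + m + om by omega, ← hK]
  by_cases h : o = 0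
  · rw [if_pos h] at d1 d2 d3
    exact Or.inl (d1 ▸ d2 ▸ d3 ▸ H1)
  · rw [if_neg h] at d1 d2 d3
    by_cases g : p = 0
    · rw [if_pos g] at d1 d3
      exact Or.inr (Or.inl (d1 ▸ d2 ▸ d3 ▸ H1))
    · rw [if_neg g] at d1 d3
      exact Or.inr (Or.inr (d1 ▸ d2 ▸ d3 ▸ H1))

theorem root_mid (m J om r : ℕ) (hm : 4 ≤ m) (hJ : m + 2 ≤ J) (hr : r + (J + m + om) = (m + 2) * J)
    (hN : J * (J + m + om) ≤ r * (J + m)) (hA : Fin.NotA (m + 2) J r) (hRT : RTe m J om)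
    (hBK : BKe m J om ∨ (m = 5 ∧ 600 ≤ J ∧ 19 * J ≤ 10 * om ∧ 10 * om ≤ 21 * J)) (hPX : m ≤ 19 → ∀ j, 1 ≤ j → PXe m J om j) :
    Dag.Root (m + 2) J r := by
  have er : (m + 1) * J - (m + om) = r := by
    have : (m + 2) * J = (m + 1) * J + J := by ring
    omega
  obtain ⟨K, hK⟩ : ∃ K, K = r * (J + m) / (J + m + om) := ⟨_, rfl⟩
  have hJK : J ≤ K := hK ▸ (Nat.le_div_iff_mul_le (by omega)).2 hN
  have EX := fun h : EXc m J om r K => root_EX h hm hJ hr hK hJK hA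
  obtain ⟨sx, so, sp, sw, sl, fz, cm, cJ, cd, pc, pk, oneA, oneB, aA, bA, kcA, ncA, ndA, nnA, cA, rnA, rcA, wcA, rn2A, rc2A, wc2A,
    aB, bB, kcB, ncB, ndB, nnB, cB, rnB, rcB, wcB, rn2B, rc2B, wc2B, tau, v, r', K', K1, fr, rfl, rfl, d3, d4,
    d5, rfl, H⟩ := hRT
  obtain rfl : r = r' := (d3.trans er).symm
  obtain rfl : K = K' := hK.trans d4.symm
  rcases H with h | ⟨-, h⟩ | ⟨-, h0, h⟩ | ⟨-, h1, h2, h⟩
  · exact EX h
  · exact root_SX h hr hK
  · by_cases c : fz = 0 ∨ K * (J + m + om) ≠ r * (J + m) ∨ (K + m) % 2 = 0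
    · exact root_PP h hr hK (by omega) c
    obtain ⟨b1, b2, b3⟩ := h0.resolve_left fun h => c (Or.inl h)
    have c1 : K * (J + m + om) = r * (J + m) := by_contra fun h => c (Or.inr (Or.inl h))
    obtain ⟨T, hT, -, -⟩ := PP_T (by omega) hK
    have e1 : K * (om + m) + r * (J + m) = J * T + m * r + K * (J + m + om) := by rw [← hT]; ring
    obtain ⟨j1, j2, a1, a2, a3, a4, a5⟩ := pe_data m J K T r (om + m) (by omega) (by omega) hT (by omega)
      (by omega) (by omega) hJK (by omega)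
    obtain ⟨pc, pk, kcA, ncA, ndA, nnA, cA, rnA, rcA, wcA, rn2A, rc2A, wc2A, kcB, ncB, ndB, nnB, cB, rnB, rcB,
      wcB, rn2B, rc2B, wc2B, tau, v, r', K', rfl, rfl, g3, g4, H⟩ := hPX b3 j1 (by omega)
    obtain rfl : r = r' := (g3.trans er).symm
    obtain rfl : K = K' := hK.trans g4.symm
    rcases H with h | h | h | h | h
    · exact EX h
    · omega
    · omega
    · omega
    · exact root_PE h hr hK c1 (by omega) (by omega) a4 (by rwa [show J - j1 = j2 by omega])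
  · by_cases c : EXc m J om r K
    · exact EX c
    have HB : m = 5 ∧ 600 ≤ J ∧ 19 * J ≤ 10 * om ∧ 10 * om ≤ 21 * J → Dag.Root (m + 2) J r := by
      rintro ⟨rfl, b1, b2, b3⟩
      exact root_win3 5 J om r 1 (r * (J + 5) / (J + 5 + om) - (J + 5)) (by omega) hr (by omega) h2 (blkF_MT h)
        (by rw [Nat.one_mul]; exact blkF7b J om r b1 b2 b3 hr)
    refine hBK.elim (fun hBK => ?_) HB
    obtain ⟨sx, so, sp, sw, a, sl, fz, cm, cJ, cd, pc, pk, oneA, oneB, aA, bA, kcA, ncA, ndA, nnA, cA, rnA, rcA, wcA, rn2A, rc2A,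
      wc2A, aB, bB, kcB, ncB, ndB, nnB, cB, rnB, rcB, wcB, rn2B, rc2B, wc2B, tau, v, r', K', K1', aT, L, f, rfl,
      rfl, g3, g4, g5, rfl, g7, rfl, H⟩ := hBK
    obtain rfl : r = r' := (g3.trans er).symm
    obtain rfl : K = K' := hK.trans g4.symm
    obtain rfl : K1 = K1' := d5.trans g5.symm
    rcases H with g | g | g | ⟨-, g⟩ | ⟨-, g⟩ | ⟨-, g1, g⟩
    · exact absurd g c
    · omega
    · exact HB ⟨by omega, g.2.2⟩
    · exact root_SX g hr hK
    · exact root_PP g hr hK (by omega) (Or.inl rfl)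
    refine root_win3 m J om r a L (by omega) hr (by omega) h2 (blkF_MT h) ?_
    rcases g with ⟨-, g⟩ | ⟨-, g⟩
    · exact blkF_DQ g (by omega) _
    · exact blkF_MT g

/-- the form used in the final assembly -/
theorem root_mid' (I J r : ℕ) (hI : 6 ≤ I) (hJ : I ≤ J) (hN : Fin.Need I J r) (hA : Fin.NotA I J r)
    (H : ∀ om, 1 ≤ om → RTe (I - 2) J om ∧ BKe (I - 2) J om ∧
      (I - 2 ≤ 19 → ∀ j, 1 ≤ j → PXe (I - 2) J om j)) : Dag.Root I J r := by
  obtain ⟨m, rfl⟩ : ∃ m, I = m + 2 := ⟨I - 2, by omega⟩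
  obtain ⟨h1, h2⟩ := hN
  rw [show J + (m + 2) - 2 = J + m by omega] at h1 h2
  obtain ⟨om, hom⟩ : ∃ om, r + (J + m + om) = (m + 2) * J := ⟨(m + 2) * J - (r + (J + m)), by omega⟩
  rcases Nat.eq_zero_or_pos om with h0 | h0
  · exact Fat.root_zero _ J r (by omega) (by omega) (by omega)
  rw [show (m + 2) * J - r = J + m + om by omega] at h2
  obtain ⟨a, b, c⟩ := H om h0
  exact root_mid m J om r (by omega) hJ hom h2 hA a (Or.inl b) c

/-- the same with the regions settled by hand -/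
theorem root_mid2 (I J r : ℕ) (hI : 6 ≤ I) (hJ : I ≤ J) (hN : Fin.Need I J r) (hA : Fin.NotA I J r)
    (H : ∀ om, 1 ≤ om → r + (J + (I - 2) + om) = I * J → Dag.Root I J r ∨
      (I = 6 ∧ 320 ≤ J ∧ J < om + 4 ∧ 12 * om ≤ 13 * J) ∨ (I = 7 ∧ 600 ≤ J ∧ J < om + 5 ∧ 24 * om ≤ 25 * J) ∨
      (RTe (I - 2) J om ∧ (BKe (I - 2) J om ∨ (I = 7 ∧ 600 ≤ J ∧ 19 * J ≤ 10 * om ∧ 10 * om ≤ 21 * J)) ∧
        (I - 2 ≤ 19 → ∀ j, 1 ≤ j → PXe (I - 2) J om j))) : Dag.Root I J r := by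
  obtain ⟨m, rfl⟩ : ∃ m, I = m + 2 := ⟨I - 2, by omega⟩
  obtain ⟨h1, h2⟩ := hN
  rw [show J + (m + 2) - 2 = J + m by omega] at h1 h2
  obtain ⟨om, hom⟩ : ∃ om, r + (J + m + om) = (m + 2) * J := ⟨(m + 2) * J - (r + (J + m)), by omega⟩
  rcases Nat.eq_zero_or_pos om with h0 | h0
  · exact Fat.root_zero _ J r (by omega) (by omega) (by omega)
  rw [show (m + 2) * J - r = J + m + om by omega] at h2
  rcases H om h0 hom with h | ⟨a, b, c, d⟩ | ⟨a, b, c, d⟩ | ⟨a, b, c⟩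
  · exact h
  · obtain rfl : m = 4 := by omega
    exact root6_one J om r b c d hom
  · obtain rfl : m = 5 := by omega
    exact root7_one J om r b c d hom
  · exact root_mid m J om r (by omega) hJ hom h2 hA a (b.imp_right fun h => ⟨by omega, h.2⟩) c

end Pool.Agent.Work.MP_f4b644_ag.Mid
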