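import Pool.Agent.Work.MP_f4b644_ag.Mid.Cov
import Pool.Agent.Work.MP_f4b644_ag.Mid.ProgS
import Pool.Agent.Work.MP_f4b644_ag.Mid.Top

/-!
From the root boxes of the charts to all values of `ω` and `j`.
-/

namespace Pool.Agent.Work.MP_f4b644_ag.Mid

theorem RTe_of {ρ : ℕ → ℕ} (H : ∃ g h, pRT.sem ρ g h) : RTe (ρ 0) (ρ 1) (ρ 2) :=
  let ⟨_, _, H⟩ := H
  ⟨_, _, _, _, _, _, _, _, _, _, _, _, _, _, _, _, _, _, _, _, _, _, _, _, _, _, _, _, _, _, _, _, _, _, _,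
   _, _, _, _, RTp_s H⟩

theorem BKe_of {ρ : ℕ → ℕ} (H : ∃ g h, pBK.sem ρ g h) : BKe (ρ 0) (ρ 1) (ρ 2) :=
  let ⟨_, _, H⟩ := H
  ⟨_, _, _, _, _, _, _, _, _, _, _, _, _, _, _, _, _, _, _, _, _, _, _, _, _, _, _, _, _, _, _, _, _, _, _,
   _, _, _, _, _, BKp_s H⟩

theorem PXe_of {ρ : ℕ → ℕ} (H : ∃ g h, pPX.sem ρ g h) : PXe (ρ 0) (ρ 1) (ρ 2) (ρ 3) :=
  let ⟨_, _, H⟩ := H
  ⟨_, _, _, _, _, _, _, _, _, _, _, _, _, _, _, _, _, _, _, _, _, _, _, _, PXp_s H⟩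

/-- the exclusion at the values of `r` and `K` of a root -/
def EX0 (m J om : ℕ) : Prop :=
  EXc m J om ((m + 1) * J - (m + om)) (((m + 1) * J - (m + om)) * (J + m) / (J + m + om))

theorem RTe_EX {m J om : ℕ} (h : EX0 m J om) : RTe m J om :=
  ⟨0, 0, 0, 0, 0, 0, 0, 0, 0, 0, 0, 0, 0, 0, 0, 0, 0, 0, 0, 0, 0, 0, 0, 0, 0, 0, 0, 0, 0, 0, 0, 0, 0, 0, 0,
   0, 0, 0, 0, _, _, _, _, _, _, rfl, rfl, rfl, rfl, rfl, rfl,
    Or.inl h⟩

theorem BKe_EX {m J om : ℕ} (h : EX0 m J om) : BKe m J om :=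
  ⟨0, 0, 0, 0, 0, 0, 0, 0, 0, 0, 0, 0, 0, 0, 0, 0, 0, 0, 0, 0, 0, 0, 0, 0, 0, 0, 0, 0, 0, 0, 0, 0, 0, 0, 0,
   0, 0, 0, 0, 0, _, _, _, _, _, _, _, _, rfl, rfl, rfl, rfl, rfl, rfl, rfl, rfl,
    Or.inl h⟩

theorem PXe_or {m J om j : ℕ} (h : EX0 m J om ∨ 3 * j + 1 ≤ J ∨ J + 1 ≤ 2 * j) : PXe m J om j :=
  ⟨0, 0, 0, 0, 0, 0, 0, 0, 0, 0, 0, 0, 0, 0, 0, 0, 0, 0, 0, 0, 0, 0, 0, 0, _, _, _, _, rfl, rfl, rfl, rfl,
    h.elim Or.inl fun k => k.elim (fun k => Or.inr (Or.inr (Or.inl k)))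
      fun k => Or.inr (Or.inr (Or.inr (Or.inl k)))⟩

theorem EX_hi {m J om : ℕ} (hm : 1 ≤ m) (hJ : 1 ≤ J) (h : m * J ≤ om) : EX0 m J om := by
  refine ⟨_, _, _, _, rfl, rfl, rfl, rfl, Or.inl ?_⟩
  have e : (m + 1) * J = m * J + J := by ring
  have h1 : ((m + 1) * J - (m + om)) * (J + m) / (J + m + om) ≤ (m + 1) * J - (m + om) :=
    Nat.div_le_of_le_mul (by rw [Nat.mul_comm]; exact Nat.mul_le_mul_right _ (by omega))
  omega

theorem EX_lo0 {m J om : ℕ} (hJ : 3 * m + 50 ≤ J) (h : 2 * om ≤ J) : EX0 m J om := by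
  refine ⟨_, _, _, _, rfl, rfl, rfl, rfl, ?_⟩
  repeat (first | (left; omega) | right)

theorem EX_lo1 {m J om : ℕ} (hm : 28 ≤ m) (hJ : 100 ≤ J) (h : 20 * om ≤ m * J) : EX0 m J om := by
  refine ⟨_, _, _, _, rfl, rfl, rfl, rfl, ?_⟩
  have h1 : 28 * J ≤ m * J := Nat.mul_le_mul_right _ hm
  have h2 : m * 100 ≤ m * J := Nat.mul_le_mul_left _ hJ
  have e : 9 * (J + m + om) ≤ (m + 2) * J := by
    have e : (m + 2) * J = m * J + 2 * J := by ring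
    omega
  repeat (first | (left; omega) | right)

/-- first chart: either the exclusion holds or the program holds -/
theorem all0 {p : C} {l0 h0 l1 l2 h2 l3 h3 : ℕ}
    (H : Cov ce0 p ⟨l0, h0, l1, 0, l2, h2, l3, h3, 4294967296, 4294967296, 0⟩) (m J om j : ℕ) (hm : 1 ≤ m)
    (ho : 1 ≤ om) (hj : 1 ≤ j) (k0 : l0 ≤ m * 4294967296) (k0' : m * 4294967296 ≤ h0) (k1 : l1 ≤ J * 4294967296)
    (hlo : l2 * J ≤ om * 4294967296 ∨ EX0 m J om) (hh : h0 ≤ h2) (hJ : 1 ≤ J) (k3 : IQ l3 h3 j J) :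
    EX0 m J om ∨ ∃ g h, p.sem (rho5 m J om j 0) g h := by
  rcases hlo with hlo | hlo
  · rcases Nat.le_total (m * J) om with c | c
    · exact Or.inl (EX_hi hm hJ c)
    · refine Or.inr (ch0 H m J om j hm hJ ho hj ⟨by omega, fun _ => by omega⟩ ⟨by omega, fun k => absurd rfl k⟩
        ⟨hlo, fun _ => ?_⟩ k3)
      calc om * 4294967296 ≤ m * J * 4294967296 := Nat.mul_le_mul_right _ c
        _ = m * 4294967296 * J := by ring
        _ ≤ h2 * J := Nat.mul_le_mul_right _ (k0'.trans hh)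
  · exact Or.inl hlo

theorem lo_0 {m J om l2 : ℕ} (hJ : 3 * m + 50 ≤ J) (h : 2 * l2 ≤ 4294967296) :
    l2 * J ≤ om * 4294967296 ∨ EX0 m J om := by
  rcases Nat.le_total (2 * om) J with c | c
  · exact Or.inr (EX_lo0 hJ c)
  · left
    calc l2 * J ≤ l2 * (2 * om) := Nat.mul_le_mul_left _ c
      _ = om * (2 * l2) := by ring
      _ ≤ _ := Nat.mul_le_mul_left _ h

theorem lo_1 {m J om l0 l2 : ℕ} (hm : 28 ≤ m) (hJ : 100 ≤ J) (k0 : l0 ≤ m * 4294967296) (h : 20 * l2 ≤ l0) :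
    l2 * J ≤ om * 4294967296 ∨ EX0 m J om := by
  rcases Nat.le_total (20 * om) (m * J) with c | c
  · exact Or.inr (EX_lo1 hm hJ c)
  · left
    apply Nat.le_of_mul_le_mul_left _ (show 0 < 20 by norm_num)
    calc 20 * (l2 * J) = 20 * l2 * J := by ring
      _ ≤ m * 4294967296 * J := Nat.mul_le_mul_right _ (h.trans k0)
      _ = m * J * 4294967296 := by ring
      _ ≤ 20 * om * 4294967296 := Nat.mul_le_mul_right _ c
      _ = _ := by ring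

/-- second chart: either the exclusion holds or the program holds -/
theorem all1 {p : C} {l0 h0 l1 h1 l2 h2 l3 h3 : ℕ}
    (H : Cov ce1 p ⟨l0, h0, l1, h1, l2, h2, l3, h3, 4294967296, 4294967296, 0⟩) (m J om j : ℕ) (hm : 28 ≤ m)
    (hJ : 100 ≤ J) (ho : 1 ≤ om) (hj : 1 ≤ j) (k0 : IQ l0 h0 m 1) (k1 : IQ l1 h1 J m) (hl : 20 * l2 ≤ 4294967296)
    (hh : 4294967296 ≤ h2) (k3 : IQ l3 h3 j J) : EX0 m J om ∨ ∃ g h, p.sem (rho5 m J om j 0) g h := by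
  rcases Nat.le_total (m * J) om with c | c
  · exact Or.inl (EX_hi (by omega) (by omega) c)
  rcases Nat.le_total (20 * om) (m * J) with c' | c'
  · exact Or.inl (EX_lo1 hm hJ c')
  refine Or.inr (ch1 H m J om j (by omega) (by omega) ho hj k0 k1 ⟨?_, fun _ => ?_⟩ k3)
  · calc l2 * (m * J) ≤ l2 * (20 * om) := Nat.mul_le_mul_left _ c'
      _ = om * (20 * l2) := by ring
      _ ≤ _ := Nat.mul_le_mul_left _ hl
  · calc om * 4294967296 ≤ m * J * h2 := Nat.mul_le_mul c hh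
      _ = _ := Nat.mul_comm _ _

theorem IQ_one (J : ℕ) : IQ 4294967296 4294967296 J J := ⟨by omega, fun _ => by omega⟩

theorem RT_of {m J om : ℕ} (h : EX0 m J om ∨ ∃ g h, pRT.sem (rho5 m J om J 0) g h) : RTe m J om :=
  h.elim RTe_EX RTe_of

theorem BK_of {m J om : ℕ} (h : EX0 m J om ∨ ∃ g h, pBK.sem (rho5 m J om J 0) g h) : BKe m J om :=
  h.elim BKe_EX BKe_of

theorem PX_of {m J om j l3 h3 : ℕ} (hJ : 2 ≤ J) (hl : 3 * l3 ≤ 4294967296) (hh : 4294967296 ≤ 2 * h3)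
    (h : IQ l3 h3 j J → EX0 m J om ∨ ∃ g h, pPX.sem (rho5 m J om j 0) g h) : PXe m J om j := by
  by_cases c : 3 * j + 1 ≤ J ∨ J + 1 ≤ 2 * j
  · exact PXe_or (Or.inr c)
  refine (h ⟨?_, fun _ => ?_⟩).elim (fun k => PXe_or (Or.inl k)) PXe_of
  · calc l3 * J ≤ l3 * (3 * j) := Nat.mul_le_mul_left _ (by omega)
      _ = j * (3 * l3) := by ring
      _ ≤ _ := Nat.mul_le_mul_left _ hl
  · calc j * 4294967296 ≤ j * (2 * h3) := Nat.mul_le_mul_left _ hh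
      _ = h3 * (2 * j) := by ring
      _ ≤ _ := Nat.mul_le_mul_left _ (by omega)

end Pool.Agent.Work.MP_f4b644_ag.Mid
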