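import Pool.Agent.Work.MP_f4b644_ag.Mid.Cov2

/-!
The three conditions for all values of `ω` and `j`, from the root boxes.
-/

namespace Pool.Agent.Work.MP_f4b644_ag.Mid

/-- the hypothesis of the root theorem -/
def HH (m J : ℕ) : Prop :=
  ∀ om, 1 ≤ om → RTe m J om ∧ BKe m J om ∧ (m ≤ 19 → ∀ j, 1 ≤ j → PXe m J om j)

theorem HH.root {I J r : ℕ} (H : HH (I - 2) J) (hI : 6 ≤ I) (hJ : I ≤ J) (hN : Fin.Need I J r)
    (hA : Fin.NotA I J r) : Dag.Root I J r := root_mid' I J r hI hJ hN hA H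

theorem EX_lo2 {m J om : ℕ} (hJ : m + 5 ≤ J) (h : om ≤ m) : EX0 m J om := by
  refine ⟨_, _, _, _, rfl, rfl, rfl, rfl, ?_⟩
  repeat (first | (left; omega) | right)

/-- the point lies in the root box of the first chart, up to excluded values of `ω` -/
def In0 (l0 h0 l1 h1 l2 h2 m J : ℕ) : Prop :=
  1 ≤ m ∧ 1 ≤ J ∧ l0 ≤ m * 4294967296 ∧ (h0 = 0 ∨ m * 4294967296 ≤ h0) ∧ l1 ≤ J * 4294967296 ∧
    (h1 = 0 ∨ J * 4294967296 ≤ h1) ∧ (h2 = 0 ∨ m * 4294967296 ≤ h2) ∧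
    ((3 * m + 50 ≤ J ∧ 2 * l2 ≤ 4294967296) ∨ (28 ≤ m ∧ 100 ≤ J ∧ 20 * l2 ≤ m * 4294967296) ∨
      (m + 5 ≤ J ∧ l2 * J ≤ (m + 1) * 4294967296))

theorem in0 {p : C} {l0 h0 l1 h1 l2 h2 l3 h3 m J : ℕ}
    (H : Cov ce0 p ⟨l0, h0, l1, h1, l2, h2, l3, h3, 4294967296, 4294967296, 0⟩) (k : In0 l0 h0 l1 h1 l2 h2 m J)
    {om j : ℕ} (ho : 1 ≤ om) (hj : 1 ≤ j) (k3 : IQ l3 h3 j J) :
    EX0 m J om ∨ ∃ g h, p.sem (rho5 m J om j 0) g h := by
  obtain ⟨hm, hJ, a0, a1, a2, a3, a4, a5⟩ := k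
  have hlo : l2 * J ≤ om * 4294967296 ∨ EX0 m J om := by
    rcases a5 with a | a | a
    · exact lo_0 a.1 a.2
    · exact lo_1 a.1 a.2.1 le_rfl a.2.2
    · rcases Nat.lt_or_ge m om with c | c
      · exact Or.inl (a.2.trans (Nat.mul_le_mul_right _ c))
      · exact Or.inr (EX_lo2 a.1 c)
  rcases hlo with hlo | hlo
  · rcases Nat.le_total (m * J) om with c | c
    · exact Or.inl (EX_hi hm hJ c)
    · refine Or.inr (ch0 H m J om j hm hJ ho hj ⟨by omega, fun _ => by omega⟩ ⟨by omega, fun _ => by omega⟩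
        ⟨hlo, fun k => ?_⟩ k3)
      calc om * 4294967296 ≤ m * J * 4294967296 := Nat.mul_le_mul_right _ c
        _ = m * 4294967296 * J := by ring
        _ ≤ h2 * J := Nat.mul_le_mul_right _ (a4.resolve_left k)
  · exact Or.inl hlo

theorem EX_dense {m J om : ℕ} (hm : 28 ≤ m) (hJ : 100 ≤ J) (h : 10368 * J ≤ (m + 2) * (m + 2)) : EX0 m J om := by
  refine ⟨_, _, _, _, rfl, rfl, rfl, rfl, ?_⟩
  by_cases c : J ≤ m + 1 ∨ 9 * (J + m + om) ≤ (m + 2) * J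
  · rcases c with c | c <;> repeat (first | (left; omega) | right)
  have e : (m + 2) * J = (m + 1) * J + J := by ring
  have h1 : ((m + 1) * J - (m + om)) * (J + m) / (J + m + om) ≤ 8 * (J + m) := by
    refine Nat.div_le_of_le_mul ?_
    calc ((m + 1) * J - (m + om)) * (J + m) ≤ (J + m + om) * 8 * (J + m) := Nat.mul_le_mul_right _ (by omega)
      _ = _ := by ring
  generalize ((m + 1) * J - (m + om)) * (J + m) / (J + m + om) = K at h1 ⊢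
  have h2 : 16 * (m + 2 + J) * ((m + 2 + J + K) * (m + 2 + J + K)) ≤ (m + 2) * J * ((m + 2) * J) :=
    calc 16 * (m + 2 + J) * ((m + 2 + J + K) * (m + 2 + J + K)) ≤ 16 * (2 * J) * ((18 * J) * (18 * J)) := by
          gcongr <;> omega
      _ = 10368 * J * (J * J) := by ring
      _ ≤ (m + 2) * (m + 2) * (J * J) := Nat.mul_le_mul_right _ h
      _ = _ := by ring
  repeat (first | (left; exact h2) | right)

/-- the point lies in the root box of the second chart, up to excluded values of `ω` -/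
def In1 (l0 h0 l1 h1 l2 h2 m J : ℕ) : Prop :=
  28 ≤ m ∧ 100 ≤ J ∧ l0 ≤ m * 4294967296 ∧ (h0 = 0 ∨ m * 4294967296 ≤ h0) ∧
    (l1 * m ≤ J * 4294967296 ∨ 10368 * l1 ≤ l0) ∧ (h1 = 0 ∨ J * 4294967296 ≤ h1 * m) ∧ 20 * l2 ≤ 4294967296 ∧ 4294967296 ≤ h2

theorem in1 {p : C} {l0 h0 l1 h1 l2 h2 l3 h3 m J : ℕ}
    (H : Cov ce1 p ⟨l0, h0, l1, h1, l2, h2, l3, h3, 4294967296, 4294967296, 0⟩) (k : In1 l0 h0 l1 h1 l2 h2 m J)
    {om j : ℕ} (ho : 1 ≤ om) (hj : 1 ≤ j) (k3 : IQ l3 h3 j J) :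
    EX0 m J om ∨ ∃ g h, p.sem (rho5 m J om j 0) g h := by
  obtain ⟨hm, hJ, a0, a1, a2, a3, a4, a5⟩ := k
  rcases Nat.le_total (10368 * J) ((m + 2) * (m + 2)) with c | c
  · exact Or.inl (EX_dense hm hJ c)
  refine all1 H m J om j hm hJ ho hj ⟨by omega, fun _ => by omega⟩ ⟨a2.elim id fun a => ?_,
    fun c => a3.resolve_left c⟩ a4 a5 k3
  apply Nat.le_of_mul_le_mul_left _ (show 0 < 10368 by norm_num)
  calc 10368 * (l1 * m) = 10368 * l1 * m := by ring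
    _ ≤ m * 4294967296 * m := Nat.mul_le_mul_right _ (a.trans a0)
    _ = m * m * 4294967296 := by ring
    _ ≤ (m + 2) * (m + 2) * 4294967296 := by gcongr <;> omega
    _ ≤ 10368 * J * 4294967296 := Nat.mul_le_mul_right _ c
    _ = _ := by ring

/-- the first condition for all `ω` -/
def RA (m J : ℕ) : Prop := ∀ om, 1 ≤ om → RTe m J om
/-- the second condition for all `ω` -/
def BA (m J : ℕ) : Prop := ∀ om, 1 ≤ om → BKe m J om
/-- the third condition for all `ω` and `j` -/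
def PA (m J : ℕ) : Prop := ∀ om, 1 ≤ om → ∀ j, 1 ≤ j → PXe m J om j

theorem HH.of {m J : ℕ} (a : RA m J) (b : BA m J) (c : m ≤ 19 → PA m J) : HH m J :=
  fun om h => ⟨a om h, b om h, fun k => c k om h⟩

theorem RA0 {l0 h0 l1 h1 l2 h2 m J : ℕ}
    (H : Cov ce0 pRT ⟨l0, h0, l1, h1, l2, h2, 4294967296, 4294967296, 4294967296, 4294967296, 0⟩)
    (k : In0 l0 h0 l1 h1 l2 h2 m J) : RA m J := fun _ ho => RT_of (in0 H k ho k.2.1 (IQ_one J))

theorem BA0 {l0 h0 l1 h1 l2 h2 m J : ℕ}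
    (H : Cov ce0 pBK ⟨l0, h0, l1, h1, l2, h2, 4294967296, 4294967296, 4294967296, 4294967296, 0⟩)
    (k : In0 l0 h0 l1 h1 l2 h2 m J) : BA m J := fun _ ho => BK_of (in0 H k ho k.2.1 (IQ_one J))

theorem PA0 {l0 h0 l1 h1 l2 h2 l3 h3 m J : ℕ}
    (H : Cov ce0 pPX ⟨l0, h0, l1, h1, l2, h2, l3, h3, 4294967296, 4294967296, 0⟩)
    (k : In0 l0 h0 l1 h1 l2 h2 m J ∧ 2 ≤ J ∧ 3 * l3 ≤ 4294967296 ∧ 4294967296 ≤ 2 * h3) : PA m J :=
  fun _ ho _ hj => PX_of k.2.1 k.2.2.1 k.2.2.2 fun k3 => in0 H k.1 ho hj k3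

theorem RA1 {l0 h0 l1 h1 l2 h2 m J : ℕ}
    (H : Cov ce1 pRT ⟨l0, h0, l1, h1, l2, h2, 4294967296, 4294967296, 4294967296, 4294967296, 0⟩)
    (k : In1 l0 h0 l1 h1 l2 h2 m J) : RA m J :=
  fun _ ho => RT_of (in1 H k ho (le_trans (by norm_num) k.2.1) (IQ_one J))

theorem BA1 {l0 h0 l1 h1 l2 h2 m J : ℕ}
    (H : Cov ce1 pBK ⟨l0, h0, l1, h1, l2, h2, 4294967296, 4294967296, 4294967296, 4294967296, 0⟩)
    (k : In1 l0 h0 l1 h1 l2 h2 m J) : BA m J :=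
  fun _ ho => BK_of (in1 H k ho (le_trans (by norm_num) k.2.1) (IQ_one J))

end Pool.Agent.Work.MP_f4b644_ag.Mid
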