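import Pool.Agent.Work.MP_f4b644_ag.Mid.PTop
import Pool.Agent.Work.MP_f4b644_ag.Mid.Prog2

/-!
The two programs for fat formats.
-/

namespace Pool.Agent.Work.MP_f4b644_ag.Mid

/-- fat roots -/
def pRU : C := RUp 32 (.var 0) (.var 1) (.var 2)
    (.hint 0) (.hint 1) (.hint 2) (.hint 3) (.hint 4) (.hint 5) (.hint 6) (.hint 7) (.hint 8) (.hint 9)
    (.hint 10) (.hint 11) (.hint 12) (.hint 13) (.hint 14) (.hint 15) (.hint 16) (.hint 17) (.hint 18)
    (.hint 19) (.hint 20) (.hint 21) (.hint 22) (.hint 23) (.hint 24) (.hint 25) (.hint 26) (.hint 27)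
    (.hint 28) (.hint 29) (.hint 30) (.hint 31) (.hint 32) (.hint 33) (.hint 34) (.hint 35) (.hint 36)
    (.hint 37) (.hint 38) (.hint 39) (.hint 40) (.hint 41) (.hint 42) (.hint 43) (.hint 44) (.hint 45)
    (.hint 46) (.hint 47) (.hint 48)

/-- last blocks of fat roots -/
def pBU : C := BUp 32 (.var 0) (.var 1) (.var 2)
    (.hint 0) (.hint 1) (.hint 2) (.hint 3) (.hint 4) (.hint 5) (.hint 6) (.hint 7) (.hint 8) (.hint 9)
    (.hint 10) (.hint 11) (.hint 12) (.hint 13) (.hint 14) (.hint 15) (.hint 16) (.hint 17) (.hint 18)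
    (.hint 19) (.hint 20) (.hint 21) (.hint 22) (.hint 23) (.hint 24) (.hint 25) (.hint 26) (.hint 27)
    (.hint 28) (.hint 29) (.hint 30) (.hint 31) (.hint 32) (.hint 33) (.hint 34) (.hint 35) (.hint 36)
    (.hint 37) (.hint 38) (.hint 39) (.hint 40) (.hint 41) (.hint 42) (.hint 43) (.hint 44) (.hint 45)
    (.hint 46) (.hint 47) (.hint 48) (.hint 49)

end Pool.Agent.Work.MP_f4b644_ag.Mid
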