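import Pool.Agent.Work.MP_f4b644_ag.Mid.Cond2
import Pool.Agent.Work.MP_f4b644_ag.Mid.ProgS
import Pool.Agent.Work.MP_f4b644_ag.Mid.Prog2

/-!
The programs imply the conditions (generated).
-/

namespace Pool.Agent.Work.MP_f4b644_ag.Mid

variable {ρ : ℕ → ℕ} {g h th : ℕ}

theorem TBp_s {vN vC vR vv vta vte vtz vtc vtd vtb vts : E} (H : (TBp th vN vC vR vv vta vte vtz vtc vtd vtb vts).sem
      ρ g h) :
    TBc (vN.ev ρ g h) (vC.ev ρ g h) (vR.ev ρ g h) (vv.ev ρ g h) (vta.ev ρ g h) (vte.ev ρ g h) (vtz.ev ρ g h) (vtc.ev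
      ρ g h) (vtd.ev ρ g h) (vtb.ev ρ g h) (vts.ev ρ g h) := by
  let vmm : E := (.sub vta vte)
  let vg : E := (.mul (.sub (.cst 1) vte) vtd)
  let vmd : E := (.mul vmm vtd)
  let vbm : E := (.add (.div th (.mul vC vtb) (.cst 256)) vts)
  let vw : E := (.mul (.sub vmm (.cst 1)) vbm)
  let vc : E := (.div th vv vN)
  let vu : E := (.div th (.add vc (.cst 1)) (.cst 2))
  let vsm : E := (.mul (.sub vtd (.cst 1)) vmm)
  have K : ((.and (.le vte (.cst 1))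
    (.and (.le (.add vte (.cst 1)) vta)
    (.and (.le (.add vta (.cst 4)) vN)
    (.and (.le (.add vtd (.cst 3)) vc)
    (.and (.le (.add (.mul (.add vta (.cst 3)) vv) (.mul (.cst 4) vN)) (.mul vR vN))
    (.and (.ite vtz (.and (.le (.cst 1) vtc)
    (.and (.le (.add (.mul (.cst 2) (.add vtc vg)) (.cst 3)) vc)
    (.and (.le (.add (.add (.mul (.cst 2) vc) vw) (.add (.add (.cst 2) (.mul (.cst 2) vtc)) vtd)) vC)
    (.and (.le (.add vC (.add (.add (.cst 3) vte) vtd)) (.add (.add (.add (.mul (.add (.cst 3) vte) vc) vu) vw) vtc))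
    (.le vR (.add (.mul vmd vc) vtc))))))
    (.and (.le (.add (.mul (.cst 2) vg) (.cst 5)) vc)
    (.and (.le (.add (.add (.mul (.cst 3) vc) vw) vtd) (.add vC (.add (.cst 1) (.mul (.cst 2) vg))))
    (.and (.le (.add vC (.add (.add (.add (.cst 5) vte) vtd) vg)) (.add (.mul (.add (.cst 4) vte) vc) vw))
    (.le (.add vR (.add (.cst 2) vg)) (.add (.mul vmd vc) vu))))))
    (.or (.le vmm (.cst 1))
    (.and (.le vtd vbm)
    (.or (.le (.add vbm (.add vtd (.cst 1))) vc)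
    (.and (.le (.add vbm vtd) vc)
    (.and (.le (.cst 1) vsm)
    (.le (.add vmd (.cst 1)) (.mul vc (.sub vsm (.cst 1))))))))))))))) : C).sem ρ g h := H
  exact ⟨vmm.ev ρ g h, vg.ev ρ g h, vmd.ev ρ g h, vbm.ev ρ g h, vw.ev ρ g h, vc.ev ρ g h, vu.ev ρ g h, vsm.ev ρ g h,
      rfl, rfl, rfl, rfl, rfl, rfl, rfl, rfl, (And.imp id (And.imp id (And.imp id (And.imp id (And.imp id (And.imp
      (ite_nz id id) id)))))) K⟩

theorem LBp_s {vN vC vR vv vL vB vta vte vtz vtc vtd vtb vts : E} (H : (LBp th vN vC vR vv vL vB vta vte vtz vtc vtd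
      vtb vts).sem ρ g h) :
    LBc (vN.ev ρ g h) (vC.ev ρ g h) (vR.ev ρ g h) (vv.ev ρ g h) (vL.ev ρ g h) (vB.ev ρ g h) (vta.ev ρ g h) (vte.ev ρ
      g h) (vtz.ev ρ g h) (vtc.ev ρ g h) (vtd.ev ρ g h) (vtb.ev ρ g h) (vts.ev ρ g h) := by
  let vmm : E := (.sub vta vte)
  let vg : E := (.mul (.sub (.cst 1) vte) vtd)
  let vmd : E := (.mul vmm vtd)
  let vbm : E := (.add (.div th (.mul vC vtb) (.cst 256)) vts)
  let vw : E := (.mul (.sub vmm (.cst 1)) vbm)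
  let vc : E := (.div th (.sub vv (.cst 1)) vN)
  let vy : E := (.div th vB vN)
  let vh : E := (.div th vy (.cst 2))
  let vu : E := (.div th (.add vy (.cst 1)) (.cst 2))
  let vW : E := (.mul vN vR)
  let vng : E := (.mul (.cst 2) (.sub vy vc))
  let vA : E := (.add (.add vC vbm) vmd)
  let vAL : E := (.add vA vL)
  let vx1 : E := (.add vw (.cst 1))
  let vx2 : E := (.add (.mul (.cst 2) vc) vx1)
  let vsm : E := (.mul (.sub vc (.add vbm (.cst 1))) vmm)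
  let vsn : E := (.add vsm vmm)
  have K : ((.and (.le vte (.cst 1))
    (.and (.le (.add vte (.cst 1)) vta)
    (.and (.le (.cst 1) vtd)
    (.and (.le (.add vta (.cst 4)) vN)
    (.and (.le (.add vtd (.cst 3)) vc)
    (.and (.le (.cst 1) vy)
    (.and (.or (.le (.add (.mul (.add vta (.cst 3)) vB) (.mul (.cst 4) vN)) (.mul vL vN))
    (.le (.mul (.add (.mul (.cst 4) vN) (.add vta (.cst 3))) vR) (.mul vL (.sub vW (.mul (.add vta (.cst 3)) vv)))))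
    (.and (.ite vtz (.and (.le (.cst 1) vtc)
    (.and (.le (.add vh (.add (.add vtc vg) (.cst 2))) vc)
    (.and (.le (.add (.add (.add vy vc) vw) (.add (.add (.cst 2) (.mul (.cst 2) vtc)) vtd)) vC)
    (.le (.add vC (.add (.add (.cst 3) vte) vtd)) (.add (.add (.add (.mul (.add (.cst 3) vte) vc) vu) vw) vtc)))))
    (.and (.le (.add vh (.add vg (.cst 3))) vc)
    (.and (.le (.add (.add (.mul (.cst 3) vc) vw) vtd) (.add vC (.add (.cst 1) (.mul (.cst 2) vg))))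
    (.le (.add vC (.add (.add (.add (.cst 5) vte) vtd) vg)) (.add (.mul (.add (.cst 4) vte) vc) vw)))))
    (.and (.or (.le (.add (.add vL vC) vng) (.add (.mul (.sub vmd (.cst 1)) vy) (.cst 3)))
    (.le (.mul vW (.add (.add vC vng) vmd)) (.mul vL (.sub (.mul (.sub vmd (.cst 1)) vv) vW))))
    (.or (.le vmm (.cst 1))
    (.and (.le vtd vbm)
    (.or (.le (.add vbm (.add vtd (.cst 1))) vc)
    (.and (.le (.cst 3) vsm)
    (.and (.le vA (.add (.mul vy (.sub vsm (.cst 1))) vx1))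
    (.and (.le vA (.add (.mul vy (.sub vsm (.cst 3))) vx2))
    (.or (.le (.add vbm vtd) vc)
    (.and (.le vAL (.add (.mul vy (.sub vsn (.cst 1))) vx1))
    (.le vAL (.add (.mul vy (.sub vsn (.cst 3))) vx2))))))))))))))))))) : C).sem ρ g h := H
  exact ⟨vmm.ev ρ g h, vg.ev ρ g h, vmd.ev ρ g h, vbm.ev ρ g h, vw.ev ρ g h, vc.ev ρ g h, vy.ev ρ g h, vh.ev ρ g h,
      vu.ev ρ g h, vW.ev ρ g h, vng.ev ρ g h, vA.ev ρ g h, vAL.ev ρ g h, vx1.ev ρ g h, vx2.ev ρ g h, vsm.ev ρ g h,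
      vsn.ev ρ g h, rfl, rfl, rfl, rfl, rfl, rfl, rfl, rfl, rfl, rfl, rfl, rfl, rfl, rfl, rfl, rfl, rfl, (And.imp id
      (And.imp id (And.imp id (And.imp id (And.imp id (And.imp id (And.imp id (And.imp (ite_nz id id) id)))))))) K⟩

theorem RVp_s {vm vJ vom vtq vta vte vtz vtc vtd vtb vts : E} (H : (RVp th vm vJ vom vtq vta vte vtz vtc vtd vtb
      vts).sem ρ g h) :
    RVc (vm.ev ρ g h) (vJ.ev ρ g h) (vom.ev ρ g h) (vtq.ev ρ g h) (vta.ev ρ g h) (vte.ev ρ g h) (vtz.ev ρ g h)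
      (vtc.ev ρ g h) (vtd.ev ρ g h) (vtb.ev ρ g h) (vts.ev ρ g h) := by
  let vtau : E := (.add vJ vm)
  let vv : E := (.add vtau vom)
  let vr : E := (.sub (.mul (.add vm (.cst 1)) vJ) (.add vm vom))
  let vK : E := (.div th (.mul vr vtau) vv)
  let vK1 : E := (.add (.div th vtau (.cst 16)) (.cst 1))
  let vI : E := (.add vm (.cst 2))
  let vN : E := (.ite vtq vI vJ)
  let vC : E := (.ite vtq vJ vI)
  have K : ((.and (.le (.add vK1 vtau) vK)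
    (.and (.le vv vr)
    (TBp th vN vC vtau vv vta vte vtz vtc vtd vtb vts))) : C).sem ρ g h := H
  exact ⟨vtau.ev ρ g h, vv.ev ρ g h, vr.ev ρ g h, vK.ev ρ g h, vK1.ev ρ g h, vI.ev ρ g h, vN.ev ρ g h, vC.ev ρ g h,
      rfl, rfl, rfl, rfl, rfl, rfl, rfl, rfl, (And.imp id (And.imp id TBp_s)) K⟩

theorem LVp_s {vm vJ vom vsa vtq vta vte vtz vtc vtd vtb vts : E} (H : (LVp th vm vJ vom vsa vtq vta vte vtz vtc vtd
      vtb vts).sem ρ g h) :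
    LVc (vm.ev ρ g h) (vJ.ev ρ g h) (vom.ev ρ g h) (vsa.ev ρ g h) (vtq.ev ρ g h) (vta.ev ρ g h) (vte.ev ρ g h)
      (vtz.ev ρ g h) (vtc.ev ρ g h) (vtd.ev ρ g h) (vtb.ev ρ g h) (vts.ev ρ g h) := by
  let vtau : E := (.add vJ vm)
  let vv : E := (.add vtau vom)
  let vI : E := (.add vm (.cst 2))
  let vN : E := (.ite vtq vI vJ)
  let vC : E := (.ite vtq vJ vI)
  let vra : E := (.sub (.mul vI vJ) (.mul (.add vsa (.cst 1)) vv))
  let vL : E := (.div th (.mul vra vtau) vv)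
  let vB : E := (.max (.min (.div th (.add (.mul vL vv) (.sub vtau (.cst 1))) vtau) vra) (.sub vra (.add (.div th vv
      vtau) (.cst 1))))
  have K : ((.and (.le (.cst 1) vL)
    (LBp th vN vC vtau vv vL vB vta vte vtz vtc vtd vtb vts)) : C).sem ρ g h := H
  exact ⟨vtau.ev ρ g h, vv.ev ρ g h, vI.ev ρ g h, vN.ev ρ g h, vC.ev ρ g h, vra.ev ρ g h, vL.ev ρ g h, vB.ev ρ g h,
      rfl, rfl, rfl, rfl, rfl, rfl, rfl, rfl, (And.imp id LBp_s) K⟩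

theorem HBp_s {vm vJ vom vtq vta vte vtz vtc vtd vtb vts : E} (H : (HBp th vm vJ vom vtq vta vte vtz vtc vtd vtb
      vts).sem ρ g h) :
    HBc (vm.ev ρ g h) (vJ.ev ρ g h) (vom.ev ρ g h) (vtq.ev ρ g h) (vta.ev ρ g h) (vte.ev ρ g h) (vtz.ev ρ g h)
      (vtc.ev ρ g h) (vtd.ev ρ g h) (vtb.ev ρ g h) (vts.ev ρ g h) := by
  let vtau : E := (.add vJ vm)
  let vv : E := (.add vtau vom)
  let vr : E := (.sub (.mul (.add vm (.cst 1)) vJ) (.add vm vom))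
  let vK : E := (.div th (.mul vr vtau) vv)
  let vI : E := (.add vm (.cst 2))
  let vN : E := (.ite vtq vI vJ)
  let vC : E := (.ite vtq vJ vI)
  let vL1 : E := (.div th vK (.cst 2))
  let vL2 : E := (.div th (.add vK (.cst 1)) (.cst 2))
  let vB1 : E := (.div th (.add (.mul vL1 vv) (.sub vtau (.cst 1))) vtau)
  let vB2 : E := (.div th (.add (.mul vL2 vv) (.sub vtau (.cst 1))) vtau)
  have K : ((.and (.le (.add (.mul vK vv) vtau) (.add (.mul vr vtau) (.cst 1)))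
    (.and (LBp th vN vC vtau vv vL1 vB1 vta vte vtz vtc vtd vtb vts)
    (LBp th vN vC vtau vv vL2 vB2 vta vte vtz vtc vtd vtb vts))) : C).sem ρ g h := H
  exact ⟨vtau.ev ρ g h, vv.ev ρ g h, vr.ev ρ g h, vK.ev ρ g h, vI.ev ρ g h, vN.ev ρ g h, vC.ev ρ g h, vL1.ev ρ g h,
      vL2.ev ρ g h, vB1.ev ρ g h, vB2.ev ρ g h, rfl, rfl, rfl, rfl, rfl, rfl, rfl, rfl, rfl, rfl, rfl, (And.imp id
      (And.imp LBp_s LBp_s)) K⟩

theorem RUp_s {vm vJ vom vst vhb vtq vta vte vtz vtc vtd vtb vts vsx vso vsp vsw vsl vfz vcm vcJ vcd vpc vpk voneA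
      voneB vaA vbA vkcA vncA vndA vnnA vcA vrnA vrcA vwcA vrn2A vrc2A vwc2A vaB vbB vkcB vncB vndB vnnB vcB vrnB
      vrcB vwcB vrn2B vrc2B vwc2B : E} (H : (RUp th vm vJ vom vst vhb vtq vta vte vtz vtc vtd vtb vts vsx vso vsp vsw
      vsl vfz vcm vcJ vcd vpc vpk voneA voneB vaA vbA vkcA vncA vndA vnnA vcA vrnA vrcA vwcA vrn2A vrc2A vwc2A vaB
      vbB vkcB vncB vndB vnnB vcB vrnB vrcB vwcB vrn2B vrc2B vwc2B).sem ρ g h) :
    RUc (vm.ev ρ g h) (vJ.ev ρ g h) (vom.ev ρ g h) (vst.ev ρ g h) (vhb.ev ρ g h) (vtq.ev ρ g h) (vta.ev ρ g h)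
      (vte.ev ρ g h) (vtz.ev ρ g h) (vtc.ev ρ g h) (vtd.ev ρ g h) (vtb.ev ρ g h) (vts.ev ρ g h) (vsx.ev ρ g h)
      (vso.ev ρ g h) (vsp.ev ρ g h) (vsw.ev ρ g h) (vsl.ev ρ g h) (vfz.ev ρ g h) (vcm.ev ρ g h) (vcJ.ev ρ g h)
      (vcd.ev ρ g h) (vpc.ev ρ g h) (vpk.ev ρ g h) (voneA.ev ρ g h) (voneB.ev ρ g h) (vaA.ev ρ g h) (vbA.ev ρ g h)
      (vkcA.ev ρ g h) (vncA.ev ρ g h) (vndA.ev ρ g h) (vnnA.ev ρ g h) (vcA.ev ρ g h) (vrnA.ev ρ g h) (vrcA.ev ρ g h)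
      (vwcA.ev ρ g h) (vrn2A.ev ρ g h) (vrc2A.ev ρ g h) (vwc2A.ev ρ g h) (vaB.ev ρ g h) (vbB.ev ρ g h) (vkcB.ev ρ g
      h) (vncB.ev ρ g h) (vndB.ev ρ g h) (vnnB.ev ρ g h) (vcB.ev ρ g h) (vrnB.ev ρ g h) (vrcB.ev ρ g h) (vwcB.ev ρ g
      h) (vrn2B.ev ρ g h) (vrc2B.ev ρ g h) (vwc2B.ev ρ g h) := by
  have K : ((.ite vst (.ite vhb (RTp th vm vJ vom vsx vso vsp vsw vsl vfz vcm vcJ vcd vpc vpk voneA voneB vaA vbA
      vkcA vncA vndA vnnA vcA vrnA vrcA vwcA vrn2A vrc2A vwc2A vaB vbB vkcB vncB vndB vnnB vcB vrnB vrcB vwcB vrn2B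
      vrc2B vwc2B)
    (HBp th vm vJ vom vtq vta vte vtz vtc vtd vtb vts))
    (RVp th vm vJ vom vtq vta vte vtz vtc vtd vtb vts)) : C).sem ρ g h := H
  exact (ite_nz (ite_nz RTp_s HBp_s) RVp_s) K

theorem BUp_s {vm vJ vom vsa vhb vtq vta vte vtz vtc vtd vtb vts vsx vso vsp vsw va vsl vfz vcm vcJ vcd vpc vpk voneA
      voneB vaA vbA vkcA vncA vndA vnnA vcA vrnA vrcA vwcA vrn2A vrc2A vwc2A vaB vbB vkcB vncB vndB vnnB vcB vrnB
      vrcB vwcB vrn2B vrc2B vwc2B : E} (H : (BUp th vm vJ vom vsa vhb vtq vta vte vtz vtc vtd vtb vts vsx vso vsp vsw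
      va vsl vfz vcm vcJ vcd vpc vpk voneA voneB vaA vbA vkcA vncA vndA vnnA vcA vrnA vrcA vwcA vrn2A vrc2A vwc2A vaB
      vbB vkcB vncB vndB vnnB vcB vrnB vrcB vwcB vrn2B vrc2B vwc2B).sem ρ g h) :
    BUc (vm.ev ρ g h) (vJ.ev ρ g h) (vom.ev ρ g h) (vsa.ev ρ g h) (vhb.ev ρ g h) (vtq.ev ρ g h) (vta.ev ρ g h)
      (vte.ev ρ g h) (vtz.ev ρ g h) (vtc.ev ρ g h) (vtd.ev ρ g h) (vtb.ev ρ g h) (vts.ev ρ g h) (vsx.ev ρ g h)
      (vso.ev ρ g h) (vsp.ev ρ g h) (vsw.ev ρ g h) (va.ev ρ g h) (vsl.ev ρ g h) (vfz.ev ρ g h) (vcm.ev ρ g h) (vcJ.ev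
      ρ g h) (vcd.ev ρ g h) (vpc.ev ρ g h) (vpk.ev ρ g h) (voneA.ev ρ g h) (voneB.ev ρ g h) (vaA.ev ρ g h) (vbA.ev ρ
      g h) (vkcA.ev ρ g h) (vncA.ev ρ g h) (vndA.ev ρ g h) (vnnA.ev ρ g h) (vcA.ev ρ g h) (vrnA.ev ρ g h) (vrcA.ev ρ
      g h) (vwcA.ev ρ g h) (vrn2A.ev ρ g h) (vrc2A.ev ρ g h) (vwc2A.ev ρ g h) (vaB.ev ρ g h) (vbB.ev ρ g h) (vkcB.ev
      ρ g h) (vncB.ev ρ g h) (vndB.ev ρ g h) (vnnB.ev ρ g h) (vcB.ev ρ g h) (vrnB.ev ρ g h) (vrcB.ev ρ g h) (vwcB.ev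
      ρ g h) (vrn2B.ev ρ g h) (vrc2B.ev ρ g h) (vwc2B.ev ρ g h) := by
  have K : ((.ite vsa (.ite vhb (BKp th vm vJ vom vsx vso vsp vsw va vsl vfz vcm vcJ vcd vpc vpk voneA voneB vaA vbA
      vkcA vncA vndA vnnA vcA vrnA vrcA vwcA vrn2A vrc2A vwc2A vaB vbB vkcB vncB vndB vnnB vcB vrnB vrcB vwcB vrn2B
      vrc2B vwc2B)
    (HBp th vm vJ vom vtq vta vte vtz vtc vtd vtb vts))
    (LVp th vm vJ vom vsa vtq vta vte vtz vtc vtd vtb vts)) : C).sem ρ g h := H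
  exact (ite_nz (ite_nz BKp_s HBp_s) LVp_s) K

end Pool.Agent.Work.MP_f4b644_ag.Mid
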