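import Pool.Agent.Work.MP_f4b644_ag.Mid.Top
import Pool.Agent.Work.MP_f4b644_ag.Sl.Auto
import Pool.Agent.Work.MP_f4b644_ag.Sl.Box

/-!
A root follows from the conditions `RUc`, `BUc`.
-/

set_option autoImplicit false

namespace Pool.Agent.Work.MP_f4b644_ag.Mid

open Big Thin

/-- `RUc` holds for some hints -/
def RUe (m J om : ℕ) : Prop :=
  ∃ st hb tq ta te tz tc td tb ts sx so sp sw sl fz cm cJ cd pc pk oneA oneB aA bA kcA ncA ndA nnA cA rnA rcA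
  wcA rn2A rc2A wc2A aB bB kcB ncB ndB nnB cB rnB rcB wcB rn2B rc2B wc2B : ℕ,
    RUc m J om st hb tq ta te tz tc td tb ts sx so sp sw sl fz cm cJ cd pc pk oneA oneB aA bA kcA ncA ndA nnA cA
    rnA rcA wcA rn2A rc2A wc2A aB bB kcB ncB ndB nnB cB rnB rcB wcB rn2B rc2B wc2B

/-- `BUc` holds for some hints -/
def BUe (m J om : ℕ) : Prop :=
  ∃ sa hb tq ta te tz tc td tb ts sx so sp sw a sl fz cm cJ cd pc pk oneA oneB aA bA kcA ncA ndA nnA cA rnA rcA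
  wcA rn2A rc2A wc2A aB bB kcB ncB ndB nnB cB rnB rcB wcB rn2B rc2B wc2B : ℕ,
    BUc m J om sa hb tq ta te tz tc td tb ts sx so sp sw a sl fz cm cJ cd pc pk oneA oneB aA bA kcA ncA ndA nnA
    cA rnA rcA wcA rn2A rc2A wc2A aB bB kcB ncB ndB nnB cB rnB rcB wcB rn2B rc2B wc2B

theorem RUe_of_RTe {m J om : ℕ} (h : RTe m J om) : RUe m J om :=
  let ⟨_, _, _, _, _, _, _, _, _, _, _, _, _, _, _, _, _, _, _, _, _, _, _, _, _, _, _, _, _, _, _, _, _, _, _,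
  _, _, _, _, h⟩ := h
  ⟨0, 0, 0, 0, 0, 0, 0, 0, 0, 0, _, _, _, _, _, _, _, _, _, _, _, _, _, _, _, _, _, _, _, _, _, _, _, _, _, _,
  _, _, _, _, _, _, _, _, _, _, _, _, _,
    Or.inr ⟨rfl, Or.inr ⟨rfl, h⟩⟩⟩

theorem BUe_of_BKe {m J om : ℕ} (h : BKe m J om) : BUe m J om :=
  let ⟨_, _, _, _, _, _, _, _, _, _, _, _, _, _, _, _, _, _, _, _, _, _, _, _, _, _, _, _, _, _, _, _, _, _, _,
  _, _, _, _, _, h⟩ := h
  ⟨0, 0, 0, 0, 0, 0, 0, 0, 0, 0, _, _, _, _, _, _, _, _, _, _, _, _, _, _, _, _, _, _, _, _, _, _, _, _, _, _,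
  _, _, _, _, _, _, _, _, _, _, _, _, _, _,
    Or.inr ⟨rfl, Or.inr ⟨rfl, h⟩⟩⟩

theorem blk_LB {m J v r N C L B tq ta te tz tc td tb ts : ℕ} (hJ : 1 ≤ J) (hr : r + v = (m + 2) * J)
    (hN : N = if tq = 0 then m + 2 else J) (hC : C = if tq = 0 then J else m + 2)
    (hB : B = (L * v + (J + m - 1)) / (J + m)) (H : LBc N C (J + m) v L B ta te tz tc td tb ts) :
    Blk (m + 2) J r L B := by
  split_ifs at hN hC <;> subst hN hC
  · obtain ⟨_, _, _, h⟩ := Sl.LBc_sbc H (by omega) hr hB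
    subst hB
    exact Sl.blk_last (by omega) (by omega) hr (Or.inl h)
  · obtain ⟨_, _, _, h⟩ := Sl.LBc_sbc H (by omega) (hr.trans (mul_comm _ _)) hB
    subst hB
    exact Sl.blk_last (by omega) (by omega) hr (Or.inr h)

theorem root_HB {m J om r tq ta te tz tc td tb ts : ℕ} (H : HBc m J om tq ta te tz tc td tb ts) (hJ : 1 ≤ J)
    (hr : r + (J + m + om) = (m + 2) * J) : Dag.Root (m + 2) J r := by
  obtain ⟨tau, v, r', K, I, N, C, L1, L2, B1, B2, rfl, rfl, d3, d4, rfl, d6, d7, d8, d9, d10, d11, c1, c2, c3⟩ := H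
  obtain rfl : r = r' := by
    have : (m + 2) * J = (m + 1) * J + J := by ring
    omega
  apply L0_root hr
  have h1 : B1 * (J + m) ≤ L1 * (J + m + om) + (J + m - 1) := d10 ▸ Nat.div_mul_le_self _ _
  have h2 : B2 * (J + m) ≤ L2 * (J + m + om) + (J + m - 1) := d11 ▸ Nat.div_mul_le_self _ _
  have h3 : K = L1 + L2 := by omega
  rw [← d4, h3]
  refine (Blk.add (Nat.lt_succ_iff.1 (lt_of_mul_lt_mul_right (a := J + m) ?_ (Nat.zero_le _)))
    (blk_LB hJ hr d6 d7 d10 c2) (blk_LB hJ hr d6 d7 d11 c3)).toS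
  rw [h3, add_mul] at c1
  rw [add_mul, Nat.succ_mul]
  omega

theorem blkF_RV {m J om r tq ta te tz tc td tb ts : ℕ} (H : RVc m J om tq ta te tz tc td tb ts) (hJ : 1 ≤ J)
    (hr : r + (J + m + om) = (m + 2) * J) :
    (J + m) / 16 + 1 + (J + m) ≤ r * (J + m) / (J + m + om) ∧ J + m + om ≤ r ∧
      BlkF m J om (J + m) (r - (J + m + om)) := by
  obtain ⟨tau, v, r', K, K1, I, N, C, rfl, rfl, d3, rfl, rfl, rfl, d7, d8, c1, c2, c3⟩ := H
  obtain rfl : r = r' := by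
    have : (m + 2) * J = (m + 1) * J + J := by ring
    omega
  refine ⟨c1, c2, ?_⟩
  split_ifs at d7 d8 <;> subst d7 d8 <;> obtain ⟨_, _, _, h⟩ := Sl.TBc_stc c3 (by omega) (by omega)
  · exact Sl.blkF_ST hJ hr (Or.inl h)
  · exact Sl.blkF_ST hJ hr (Or.inr h)

theorem blkF_LV {m J om r a tq ta te tz tc td tb ts : ℕ} (H : LVc m J om a tq ta te tz tc td tb ts) (hJ : 1 ≤ J)
    (hr : r + (J + m + om) = (m + 2) * J) :
    ∃ L, r * (J + m) / (J + m + om) = a * (J + m) + L ∧ BlkF m J om L (a * (J + m + om)) := by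
  obtain ⟨tau, v, I, N, C, ra, L, B, e1, e2, rfl, d4, d5, d6, d7, d8, c1, c2⟩ := H
  have hτ : 0 < tau := by omega
  have hv : 0 < v := by omega
  have h0 : 1 ≤ ra := by
    rcases Nat.eq_zero_or_pos ra with h | h
    · simp [h] at d7
      omega
    · exact h
  have h1 : r = ra + a * v := by
    rw [add_mul a, one_mul] at d6
    omega
  have h2 : L * v ≤ ra * tau := d7 ▸ Nat.div_mul_le_self _ _
  have h3 : ra * tau < L * v + v := by
    rw [d7, mul_comm _ v]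
    exact Nat.lt_mul_div_succ _ hv
  have h4 : v < (v / tau + 1) * tau := by
    rw [mul_comm]
    exact Nat.lt_mul_div_succ _ hτ
  have h5 : (L * v + (tau - 1)) / tau ≤ ra :=
    Nat.le_of_lt_succ ((Nat.div_lt_iff_lt_mul hτ).2 (by rw [Nat.succ_mul]; omega))
  have h6 : ra - (v / tau + 1) ≤ (L * v + (tau - 1)) / tau :=
    (Nat.le_div_iff_mul_le hτ).2 (by rw [Nat.sub_mul]; omega)
  rw [min_eq_left h5, max_eq_left h6] at d8
  subst e1 e2
  refine ⟨L, ?_, Sl.blkF_of_Blk hJ hr (d8 ▸ blk_LB hJ hr d4 d5 d8 c2)⟩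
  rw [d7, h1, add_mul, mul_right_comm a, Nat.add_mul_div_right _ _ hv, add_comm]

theorem root_fat2 (m J om r : ℕ) (hm : 20 ≤ m) (hJ : m + 2 ≤ J) (hr : r + (J + m + om) = (m + 2) * J)
    (hN : J * (J + m + om) ≤ r * (J + m)) (hA : Fin.NotA (m + 2) J r) (hR : RUe m J om) (hB : BUe m J om) :
    Dag.Root (m + 2) J r := by
  have er : (m + 1) * J - (m + om) = r := by
    have : (m + 2) * J = (m + 1) * J + J := by ring
    omega
  obtain ⟨K, hK⟩ : ∃ K, K = r * (J + m) / (J + m + om) := ⟨_, rfl⟩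
  have hJK : J ≤ K := hK ▸ (Nat.le_div_iff_mul_le (by omega)).2 hN
  have EX := fun h : EXc m J om r K => root_EX h (by omega) hJ hr hK hJK hA
  have key : (J + m) / 16 + 1 + (J + m) ≤ K ∧ J + m + om ≤ r ∧ BlkF m J om (J + m) (r - (J + m + om)) →
      Dag.Root (m + 2) J r := fun ⟨h1, h2, h⟩ => by
    obtain ⟨sa, hb, tq, ta, te, tz, tc, td, tb, ts, sx, so, sp, sw, a, sl, fz, cm, cJ, cd, pc, pk, oneA, oneB,
    aA, bA, kcA, ncA, ndA, nnA, cA, rnA, rcA, wcA, rn2A, rc2A, wc2A, aB, bB, kcB, ncB, ndB, nnB, cB, rnB, rcB,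
    wcB, rn2B, rc2B, wc2B, H⟩ := hB
    rcases H with ⟨-, g⟩ | ⟨-, ⟨-, g⟩ | ⟨-, g⟩⟩
    · obtain ⟨L, g1, g2⟩ := blkF_LV g (by omega) hr
      exact root_win3 m J om r sa L (by omega) hr g1 h2 h g2
    · exact root_HB g (by omega) hr
    obtain ⟨tau, v, r', K', K1, aT, L, f, rfl, rfl, g3, g4, rfl, rfl, g7, rfl, H⟩ := g
    obtain rfl : r = r' := (g3.trans er).symm
    obtain rfl : K = K' := hK.trans g4.symm
    rcases H with g | g | g | ⟨-, g⟩ | ⟨-, g⟩ | ⟨-, g1, g⟩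
    · exact EX g
    · omega
    · omega
    · exact root_SX g hr hK
    · exact root_PP g hr hK (by omega) (Or.inl rfl)
    refine root_win3 m J om r a L (by omega) hr (by omega) h2 h ?_
    rcases g with ⟨-, g⟩ | ⟨-, g⟩
    · exact blkF_DQ g (by omega) _
    · exact blkF_MT g
  obtain ⟨st, hb, tq, ta, te, tz, tc, td, tb, ts, sx, so, sp, sw, sl, fz, cm, cJ, cd, pc, pk, oneA, oneB, aA,
  bA, kcA, ncA, ndA, nnA, cA, rnA, rcA, wcA, rn2A, rc2A, wc2A, aB, bB, kcB, ncB, ndB, nnB, cB, rnB, rcB, wcB,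
  rn2B, rc2B, wc2B, H⟩ := hR
  rcases H with ⟨-, g⟩ | ⟨-, ⟨-, g⟩ | ⟨-, g⟩⟩
  · exact key (hK ▸ blkF_RV g (by omega) hr)
  · exact root_HB g (by omega) hr
  obtain ⟨tau, v, r', K', K1, fr, rfl, rfl, d3, d4, rfl, rfl, H⟩ := g
  obtain rfl : r = r' := (d3.trans er).symm
  obtain rfl : K = K' := hK.trans d4.symm
  rcases H with h | ⟨-, h⟩ | ⟨-, h0, h⟩ | ⟨-, h1, h2, h⟩
  · exact EX h
  · exact root_SX h hr hK
  · exact root_PP h hr hK (by omega) (Or.inl (by omega))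
  · exact key ⟨h1, h2, blkF_MT h⟩

/-- the hypothesis of the root theorem for fat formats -/
def HU (m J : ℕ) : Prop := ∀ om, 1 ≤ om → RUe m J om ∧ BUe m J om

theorem HU.root {I J r : ℕ} (H : HU (I - 2) J) (hI : 22 ≤ I) (hJ : I ≤ J) (hN : Fin.Need I J r)
    (hA : Fin.NotA I J r) : Dag.Root I J r := by
  obtain ⟨m, rfl⟩ : ∃ m, I = m + 2 := ⟨I - 2, by omega⟩
  obtain ⟨h1, h2⟩ := hN
  rw [show J + (m + 2) - 2 = J + m by omega] at h1 h2
  obtain ⟨om, hom⟩ : ∃ om, r + (J + m + om) = (m + 2) * J := ⟨(m + 2) * J - (r + (J + m)), by omega⟩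
  rcases Nat.eq_zero_or_pos om with h0 | h0
  · exact Fat.root_zero _ J r (by omega) (by omega) (by omega)
  rw [show (m + 2) * J - r = J + m + om by omega] at h2
  obtain ⟨a, b⟩ := H om h0
  exact root_fat2 m J om r (by omega) hJ hom h2 hA a b

end Pool.Agent.Work.MP_f4b644_ag.Mid
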