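import Pool.Agent.Work.MP_f4b644_ag.Mid.Cov3
import Pool.Agent.Work.MP_f4b644_ag.Mid.Top2
import Pool.Agent.Work.MP_f4b644_ag.Mid.PTop2
import Pool.Agent.Work.MP_f4b644_ag.Mid.ProgS2

/-!
The two conditions for fat formats for all values of `ω`, from the root boxes.
-/

namespace Pool.Agent.Work.MP_f4b644_ag.Mid

theorem RUe_of {ρ : ℕ → ℕ} (H : ∃ g h, pRU.sem ρ g h) : RUe (ρ 0) (ρ 1) (ρ 2) :=
  let ⟨_, _, H⟩ := H
  ⟨_, _, _, _, _, _, _, _, _, _, _, _, _, _, _, _, _, _, _, _, _, _, _, _, _, _, _, _, _, _, _, _, _, _, _,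
   _, _, _, _, _, _, _, _, _, _, _, _, _, _, RUp_s H⟩

theorem BUe_of {ρ : ℕ → ℕ} (H : ∃ g h, pBU.sem ρ g h) : BUe (ρ 0) (ρ 1) (ρ 2) :=
  let ⟨_, _, H⟩ := H
  ⟨_, _, _, _, _, _, _, _, _, _, _, _, _, _, _, _, _, _, _, _, _, _, _, _, _, _, _, _, _, _, _, _, _, _, _,
   _, _, _, _, _, _, _, _, _, _, _, _, _, _, _, BUp_s H⟩

theorem RU_of {m J om : ℕ} (h : EX0 m J om ∨ ∃ g h, pRU.sem (rho5 m J om J 0) g h) : RUe m J om :=
  h.elim (fun k => RUe_of_RTe (RTe_EX k)) RUe_of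

theorem BU_of {m J om : ℕ} (h : EX0 m J om ∨ ∃ g h, pBU.sem (rho5 m J om J 0) g h) : BUe m J om :=
  h.elim (fun k => BUe_of_BKe (BKe_EX k)) BUe_of

/-- the first condition for all `ω` -/
def RW (m J : ℕ) : Prop := ∀ om, 1 ≤ om → RUe m J om
/-- the second condition for all `ω` -/
def BW (m J : ℕ) : Prop := ∀ om, 1 ≤ om → BUe m J om

theorem HU.of {m J : ℕ} (a : RW m J) (b : BW m J) : HU m J := fun om h => ⟨a om h, b om h⟩

theorem RA.rw {m J : ℕ} (a : RA m J) : RW m J := fun om h => RUe_of_RTe (a om h)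

theorem BA.bw {m J : ℕ} (a : BA m J) : BW m J := fun om h => BUe_of_BKe (a om h)

theorem HH.hu {m J : ℕ} (a : HH m J) : HU m J := fun om h => ⟨RUe_of_RTe (a om h).1, BUe_of_BKe (a om h).2.1⟩

theorem RW0 {l0 h0 l1 h1 l2 h2 m J : ℕ}
    (H : Cov ce0 pRU ⟨l0, h0, l1, h1, l2, h2, 4294967296, 4294967296, 4294967296, 4294967296, 0⟩)
    (k : In0 l0 h0 l1 h1 l2 h2 m J) : RW m J := fun _ ho => RU_of (in0 H k ho k.2.1 (IQ_one J))

theorem BW0 {l0 h0 l1 h1 l2 h2 m J : ℕ}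
    (H : Cov ce0 pBU ⟨l0, h0, l1, h1, l2, h2, 4294967296, 4294967296, 4294967296, 4294967296, 0⟩)
    (k : In0 l0 h0 l1 h1 l2 h2 m J) : BW m J := fun _ ho => BU_of (in0 H k ho k.2.1 (IQ_one J))

theorem RW1 {l0 h0 l1 h1 l2 h2 m J : ℕ}
    (H : Cov ce1 pRU ⟨l0, h0, l1, h1, l2, h2, 4294967296, 4294967296, 4294967296, 4294967296, 0⟩)
    (k : In1 l0 h0 l1 h1 l2 h2 m J) : RW m J :=
  fun _ ho => RU_of (in1 H k ho (le_trans (by norm_num) k.2.1) (IQ_one J))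

theorem BW1 {l0 h0 l1 h1 l2 h2 m J : ℕ}
    (H : Cov ce1 pBU ⟨l0, h0, l1, h1, l2, h2, 4294967296, 4294967296, 4294967296, 4294967296, 0⟩)
    (k : In1 l0 h0 l1 h1 l2 h2 m J) : BW m J :=
  fun _ ho => BU_of (in1 H k ho (le_trans (by norm_num) k.2.1) (IQ_one J))

end Pool.Agent.Work.MP_f4b644_ag.Mid
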