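import Mathlib

/-!
The cover lemma. `Cover m j b Φ`: every class modulo `m` is of the form `j w + φ` with `w < b`, `φ < Φ`.

`cover_one`: `w = 0`, `φ = c % m`.
`cover_of`: work in ℤ, ε = b j - a m, |ε| ≤ η. For an integer i let w ∈ [0, b) and q ∈ ℤ with a w = i + b q
(a, b coprime: `Int.exists_mul_emod_eq_one_of_coprime` or Bezout, `Nat.gcd_eq_gcd_ab`). Then P = j w - q m satisfies
b P = i m + ε w, and ε w ∈ [lo, hi] with lo = min 0 (ε (b - 1)), hi = max 0 (ε (b - 1)), hi - lo ≤ η (b - 1).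
Given c take i = (b c - hi) / m (floor division in ℤ, m ≥ 1): i m + hi ≤ b c < (i + 1) m + hi. Hence
0 ≤ b (c - P) < m + hi - lo ≤ Φ b; φ = c - P, and j w + φ = c + q m.
-/

set_option autoImplicit false

namespace Pool.Agent.Work.MP_f4b644_ag.Mid

/-- every class modulo `m` is of the form `j w + φ` with `w < b`, `φ < Φ` -/
def Cover (m j b Φ : ℕ) : Prop := ∀ c : ℕ, ∃ w φ : ℕ, w < b ∧ φ < Φ ∧ (j * w + φ) % m = c % m

theorem cover_one (m j : ℕ) (hm : 1 ≤ m) : Cover m j 1 m := by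
  exact fun c => ⟨0, c % m, one_pos, Nat.mod_lt _ hm, by simp⟩

theorem cover_of (m j a b η Φ : ℕ) (hm : 1 ≤ m) (hb : 1 ≤ b) (hab : Nat.Coprime a b)
    (h1 : b * j ≤ a * m + η) (h2 : a * m ≤ b * j + η) (hΦ : m + η * (b - 1) ≤ Φ * b) :
    Cover m j b Φ := by
  intro c
  obtain ⟨d, rfl⟩ : ∃ d, b = d + 1 := ⟨b - 1, by omega⟩
  rw [Nat.add_sub_cancel] at hΦ
  obtain ⟨u, v, huv⟩ := Nat.isCoprime_iff_coprime.2 hab
  zify at h1 h2 hΦ hm
  push_cast at huv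
  obtain ⟨ε, hε⟩ : ∃ ε : ℤ, ε = (d + 1) * j - a * m := ⟨_, rfl⟩
  have d0 : (0 : ℤ) ≤ d := Int.natCast_nonneg d
  obtain ⟨lo, hi, k1, k2⟩ : ∃ lo hi : ℤ, hi - lo = η * d ∧
      ∀ w : ℤ, 0 ≤ w → w ≤ d → lo ≤ ε * w ∧ ε * w ≤ hi := by
    rcases le_total 0 ε with h | h
    · exact ⟨0, η * d, sub_zero _, fun w h0 h3 => ⟨mul_nonneg h h0,
        mul_le_mul (by linarith) h3 h0 (Int.natCast_nonneg η)⟩⟩
    · refine ⟨-(η * d), 0, by ring, fun w h0 h3 => ⟨?_, mul_nonpos_of_nonpos_of_nonneg h h0⟩⟩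
      have := mul_le_mul (show -ε ≤ η by linarith) h3 h0 (Int.natCast_nonneg η)
      linarith
  have r1 := Int.mul_ediv_add_emod ((d + 1) * c - hi) m
  have r2 := Int.emod_nonneg ((d + 1) * c - hi) (show (m : ℤ) ≠ 0 by omega)
  have r3 := Int.emod_lt_of_pos ((d + 1) * c - hi) (show (0 : ℤ) < m by omega)
  generalize ((d + 1) * c - hi) / (m : ℤ) = i at r1
  generalize ((d + 1) * c - hi) % (m : ℤ) = r at r1 r2 r3
  have w1 := Int.mul_ediv_add_emod (u * i) (d + 1)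
  have w2 := Int.emod_nonneg (u * i) (show (d + 1 : ℤ) ≠ 0 by omega)
  have w3 := Int.emod_lt_of_pos (u * i) (show (0 : ℤ) < d + 1 by omega)
  generalize u * i / (d + 1 : ℤ) = s at w1
  generalize u * i % (d + 1 : ℤ) = w at w1 w2 w3
  obtain ⟨k3, k4⟩ := k2 w w2 (by omega)
  obtain ⟨φ, hφ⟩ : ∃ φ : ℤ, φ = c - j * w - (v * i + a * s) * m := ⟨_, rfl⟩
  have e : (d + 1) * φ = hi + r - ε * w := by
    rw [hφ, hε]
    linear_combination -r1 - (a * m : ℤ) * w1 - (i * m : ℤ) * huv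
  have p0 : 0 ≤ φ := le_of_mul_le_mul_left (a := (d : ℤ) + 1) (by linarith) (by omega)
  have p1 : φ < Φ := lt_of_mul_lt_mul_left (a := (d : ℤ) + 1) (by linarith) (by omega)
  lift w to ℕ using w2
  lift φ to ℕ using p0
  refine ⟨w, φ, by omega, by omega, (Nat.modEq_iff_dvd.2 ⟨v * i + a * s, ?_⟩ : _ ≡ _ [MOD m])⟩
  push_cast
  linear_combination -hφ

end Pool.Agent.Work.MP_f4b644_ag.Mid
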