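import Pool.Agent.Work.MP_f4b644_ag.Mid.Cover
import Pool.Agent.Work.MP_f4b644_ag.Thin.L2

/-!
Cumulative rounding: a part with K columns is cut into n blocks of widths K / n and K / n + 1.

`cum_data` (pure arithmetic). For i = 0, ..., n define the cumulative values
κc i = K i / n, Dc i = δ i / n, τc i = (i j T - ((K i) % n) X) / (n j) (the difference is ≥ 0, since
(K i) % n ≤ i (K % n) and hT), and for 0 < i < n choose by `Cover` (for the class of the integer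
κc i X + U i / n + Dc i - j τc i - E i / n; add a multiple of m to make it a natural number) w i < b and φ < Φ, split
φ = φU + φE with φU ≤ aU, φE ≤ aE; for i = 0 and i = n take w = φU = φE = 0.
Tc i = τc i + w i, Uc i = U i / n - φU, Ec i = E i / n + φE; then κc i X + Uc i + Dc i = j Tc i + m Sc i + Ec i with an
INTEGER Sc i (Sc 0 = 0, Sc n = s by hδ; τc n = T). The blocks are the differences of consecutive values (do it in ℤ, then
`Int.toNat`); telescoping gives the sums (`Finset.sum_range_succ` induction or `Finset.sum_range_sub`).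
Bounds: ⌊x (i+1) / n⌋ - ⌊x i / n⌋ ∈ {x / n, x / n + 1}, the larger value only if x % n > 0, so it is ≤ (x + n - 1) / n, and
|n (difference) - x| < n. With C = j T + (n κ - K) X one has n j (ideal increment of τ) = C, so |n j Tb - C| < n j b, and
Tb ≥ 0 by hT (C ≥ j T - (K % n) X ≥ n j (b - 1)). From hδ and the block equation:
m n sb = m s + (C - n j Tb) + (n u - U) - (n e - E) + (n D - δ), each of the last three is less than n (aU + 1), n (aE + 1), n
in absolute value; this gives the two bounds for sb, and sb ≥ 0 by hS (m n sb > - m n).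

`PV_cum`: `PV_cut` with the data of `cum_data` (U = 2 p + h, E = 2 p' + h').
-/

set_option autoImplicit false

namespace Pool.Agent.Work.MP_f4b644_ag.Mid

open Thin

/-- what is known about one block (κ columns, κ + Tb B-fibres, sb tangents, u mates, e tokens) -/
def CumB (m j X K T s U E n b aU aE κ Tb sb u e : ℕ) : Prop :=
  (κ = K / n ∨ (κ = K / n + 1 ∧ 0 < K % n)) ∧ κ * X + u ≤ j * Tb + m * sb + e ∧
    n * j * Tb + K * X < j * T + n * κ * X + n * j * b ∧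
    j * T + n * κ * X < n * j * Tb + K * X + n * j * b ∧
    m * n * sb + n * j * Tb + K * X < m * s + j * T + n * κ * X + n * (aU + aE + 3) ∧
    m * s + j * T + n * κ * X < m * n * sb + n * j * Tb + K * X + n * (aU + aE + 3) ∧
    U / n ≤ u + aU ∧ u ≤ (U + n - 1) / n + aU ∧ E / n ≤ e + aE ∧ e ≤ (E + n - 1) / n + aE

theorem cum_fl (x i n : ℕ) (hn : 1 ≤ n) : ∃ d : ℕ, x * (i + 1) / n = x * i / n + d ∧
    (d = x / n ∨ (d = x / n + 1 ∧ 0 < x % n)) ∧ n * d + x * (i + 1) % n = x + x * i % n ∧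
    x / n ≤ d ∧ d ≤ (x + n - 1) / n ∧ n * d < x + n ∧ x < n * d + n := by
  have h1 := Nat.add_div (a := x * i) (b := x) hn
  have h2 := Nat.div_add_mod (x * (i + 1)) n
  have h3 := Nat.div_add_mod (x * i) n
  have h4 := Nat.div_add_mod x n
  have h5 := Nat.mod_lt (x * (i + 1)) hn
  have h6 := Nat.mod_lt (x * i) hn
  have h7 : x * (i + 1) = x * i + x := by ring
  rw [← h7] at h1
  obtain ⟨d, hd, hd'⟩ : ∃ d : ℕ, x * (i + 1) / n = x * i / n + d ∧
      (d = x / n ∨ (d = x / n + 1 ∧ 0 < x % n)) := by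
    split_ifs at h1 with h
    · exact ⟨x / n + 1, by omega, Or.inr ⟨rfl, by omega⟩⟩
    · exact ⟨x / n, by omega, Or.inl rfl⟩
  have h8 : n * d + x * (i + 1) % n = x + x * i % n := by
    rw [hd, mul_add] at h2
    omega
  refine ⟨d, hd, hd', h8, by omega, ?_, by omega, by omega⟩
  rw [Nat.le_div_iff_mul_le hn, mul_comm]
  rcases hd' with rfl | ⟨rfl, h⟩
  · omega
  · rw [mul_add]
    omega

theorem cum_pick {m j b Φ aU aE n s : ℕ} (hm : 1 ≤ m) (hn : 1 ≤ n) (hb : 1 ≤ b)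
    (hcov : Cover m j b Φ) (hΦ : Φ ≤ aU + aE + 1) (c : ℕ → ℤ) (h0 : c 0 = 0) (h1 : c n = m * s)
    (i : ℕ) : ∃ (w p q : ℕ) (S : ℤ), w < b ∧ p ≤ aU ∧ q ≤ aE ∧ c i = j * w + p + q + m * S ∧
      (i = 0 → w = 0 ∧ p = 0 ∧ q = 0 ∧ S = 0) ∧ (i = n → w = 0 ∧ p = 0 ∧ q = 0 ∧ S = s) := by
  by_cases e0 : i = 0
  · exact ⟨0, 0, 0, 0, hb, Nat.zero_le _, Nat.zero_le _, by simp [e0, h0], by simp,
      fun h => by omega⟩
  by_cases e1 : i = n
  · exact ⟨0, 0, 0, s, hb, Nat.zero_le _, Nat.zero_le _, by simp [e1, h1], fun h => by omega,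
      by simp⟩
  have hm' : (m : ℤ) ≠ 0 := by omega
  obtain ⟨c', hc'⟩ := Int.eq_ofNat_of_zero_le (Int.emod_nonneg (c i) hm')
  obtain ⟨w, φ, h2, h3, h4⟩ := hcov c'
  have h5 : ((j * w + φ : ℕ) : ℤ) ≡ c i [ZMOD m] := by
    have h6 : ((j * w + φ : ℕ) : ℤ) ≡ c' [ZMOD m] := Int.natCast_modEq_iff.2 h4
    exact h6.trans (hc' ▸ Int.mod_modEq _ _)
  obtain ⟨S, hS⟩ := h5.dvd
  obtain ⟨p, q, hp, hq, rfl⟩ : ∃ p q, p ≤ aU ∧ q ≤ aE ∧ φ = p + q :=
    ⟨min φ aU, φ - min φ aU, by omega, by omega, by omega⟩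
  refine ⟨w, p, q, S, h2, hp, hq, ?_, fun h => absurd h e0, fun h => absurd h e1⟩
  push_cast at hS
  linarith

theorem cum_tel {n x : ℕ} (f : ℕ → ℤ) (d : ℕ → ℕ) (h : ∀ i < n, f (i + 1) - f i = d i)
    (h0 : f 0 = 0) (h1 : f n = x) : ∑ i ∈ Finset.range n, d i = x := by
  have h2 := Finset.sum_range_sub f n
  rw [h0, h1, sub_zero, Finset.sum_congr rfl fun i hi => h i (Finset.mem_range.1 hi)] at h2
  exact_mod_cast h2

theorem cum_nn {a x : ℤ} (ha : 0 < a) (h : 0 < a * x + a) : 0 ≤ x := by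
  have : 0 < a * (x + 1) := by linarith
  have := (mul_pos_iff_of_pos_left ha).1 this
  omega

theorem cum_data (m j X K T s U E n b Φ aU aE δ : ℕ) (hm : 1 ≤ m) (hj : 1 ≤ j) (hn : 1 ≤ n)
    (hb : 1 ≤ b) (hcov : Cover m j b Φ) (hΦ : Φ ≤ aU + aE + 1)
    (hδ : K * X + U + δ = j * T + m * s + E) (haU : aU ≤ U / n) (haE : aE ≤ E / n)
    (hT : n * j * b + K % n * X ≤ j * T + n * j)
    (hS : n * j * b + n * (aU + aE + 3) ≤ m * s + m * n) :
    ∃ κ Tb sb u e : ℕ → ℕ, ∑ i ∈ Finset.range n, κ i = K ∧ ∑ i ∈ Finset.range n, Tb i = T ∧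
      ∑ i ∈ Finset.range n, sb i = s ∧ ∑ i ∈ Finset.range n, u i = U ∧
      ∑ i ∈ Finset.range n, e i = E ∧
      ∀ i < n, CumB m j X K T s U E n b aU aE (κ i) (Tb i) (sb i) (u i) (e i) := by
  have hnj : (0 : ℤ) < n * j := by positivity
  have hmn : (0 : ℤ) < m * n := by positivity
  obtain ⟨τ, hτ⟩ : ∃ τ : ℕ → ℤ, ∀ i : ℕ, τ i = (i * j * T - (K * i % n : ℕ) * X) / (n * j) :=
    ⟨_, fun _ => rfl⟩
  have hτ0 : τ 0 = 0 := by simp [hτ]
  have hτn : τ n = T := by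
    rw [hτ, Nat.mul_mod_left, Nat.cast_zero, zero_mul, sub_zero, Int.mul_ediv_cancel_left _ hnj.ne']
  have hτb : ∀ i : ℕ, n * j * τ i ≤ i * j * T - (K * i % n : ℕ) * X ∧
      (i * j * T - (K * i % n : ℕ) * X : ℤ) < n * j * τ i + n * j := fun i => by
    rw [hτ]
    have h1 := Int.mul_ediv_add_emod (i * j * T - (K * i % n : ℕ) * X) (n * j)
    have h2 := Int.emod_nonneg (i * j * T - (K * i % n : ℕ) * X) hnj.ne'
    have h3 := Int.emod_lt_of_pos (i * j * T - (K * i % n : ℕ) * X) hnj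
    constructor <;> linarith
  clear hτ
  have hdv : ∀ x : ℕ, x * n / n = x := fun x => Nat.mul_div_cancel x hn
  have hδ' : (K * X + U + δ : ℤ) = j * T + m * s + E := by exact_mod_cast hδ
  choose w p q S hw hp hq hc c0 c1 using cum_pick (s := s) hm hn hb hcov hΦ
    (fun i => (K * i / n : ℕ) * X + (U * i / n : ℕ) + (δ * i / n : ℕ) - j * τ i - (E * i / n : ℕ))
    (by simp [hτ0]) (by simp only [hdv, hτn]; linarith)
  have key : ∀ i, ∃ κ Tb sb u e : ℕ, ((K * (i + 1) / n : ℕ) : ℤ) - (K * i / n : ℕ) = κ ∧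
      τ (i + 1) + w (i + 1) - (τ i + w i) = Tb ∧ S (i + 1) - S i = sb ∧
      ((U * (i + 1) / n : ℕ) : ℤ) - p (i + 1) - ((U * i / n : ℕ) - p i) = u ∧
      ((E * (i + 1) / n : ℕ) : ℤ) + q (i + 1) - ((E * i / n : ℕ) + q i) = e ∧
      CumB m j X K T s U E n b aU aE κ Tb sb u e := fun i => by
    obtain ⟨κ, k1, k2, k3, -, -, k6, -⟩ := cum_fl K i n hn
    obtain ⟨dU, u1, -, -, u4, u5, u6, u7⟩ := cum_fl U i n hn
    obtain ⟨dE, e1, -, -, e4, e5, e6, e7⟩ := cum_fl E i n hn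
    obtain ⟨D, d1, -, -, -, -, d6, d7⟩ := cum_fl δ i n hn
    obtain ⟨t1, t2⟩ := hτb i
    obtain ⟨t3, t4⟩ := hτb (i + 1)
    have c2 := hc i
    have c3 := hc (i + 1)
    have p0 := hp i
    have p1 := hp (i + 1)
    have q0 := hq i
    have q1 := hq (i + 1)
    have w0 := hw i
    have w1 := hw (i + 1)
    have k7 : K ≤ n * κ + K % n := by
      have h4 := Nat.div_add_mod K n
      rcases k2 with rfl | ⟨rfl, -⟩
      · omega
      · rw [mul_add]
        omega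
    rw [k1, u1, e1, d1] at c3
    rw [k1, u1, e1]
    obtain ⟨u, hu⟩ : ∃ u : ℕ, u + p (i + 1) = dU + p i := ⟨dU + p i - p (i + 1), by omega⟩
    obtain ⟨e, he⟩ : ∃ e : ℕ, e + q i = dE + q (i + 1) := ⟨dE + q (i + 1) - q i, by omega⟩
    generalize K * (i + 1) % n = r1 at *
    generalize K * i % n = r0 at *
    generalize K * i / n = K0 at *
    generalize U * i / n = U0 at *
    generalize E * i / n = E0 at *
    generalize δ * i / n = D0 at *
    generalize p i = p₀, p (i + 1) = p₁, q i = q₀, q (i + 1) = q₁, w i = w₀, w (i + 1) = w₁,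
      τ i = τ₀, τ (i + 1) = τ₁, S i = S₀, S (i + 1) = S₁ at *
    have a1 : (n * κ * X + r1 * X : ℤ) = K * X + r0 * X := by
      have : (n * κ + r1 : ℤ) = K + r0 := by exact_mod_cast k3
      linear_combination X * this
    have a2 : (K * X : ℤ) ≤ n * κ * X + (K % n : ℕ) * X := by
      exact_mod_cast (Nat.mul_le_mul_right X k7).trans_eq (add_mul _ _ _)
    have a3 : ∀ y : ℕ, y < b → (0 : ℤ) ≤ n * j * y ∧ (n * j * y + n * j : ℤ) ≤ n * j * b :=
      fun y hy => ⟨by positivity, by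
        exact_mod_cast (mul_add_one _ _).ge.trans (Nat.mul_le_mul_left (n * j) hy)⟩
    obtain ⟨a4, a5⟩ := a3 _ w0
    obtain ⟨a6, a7⟩ := a3 _ w1
    have a8 : ∀ y a : ℕ, y ≤ a → (0 : ℤ) ≤ n * y ∧ (n * y : ℤ) ≤ n * a :=
      fun y a hy => ⟨by positivity, by exact_mod_cast Nat.mul_le_mul_left n hy⟩
    obtain ⟨b1, b2⟩ := a8 _ _ p0
    obtain ⟨b3, b4⟩ := a8 _ _ p1
    obtain ⟨b5, b6⟩ := a8 _ _ q0
    obtain ⟨b7, b8⟩ := a8 _ _ q1
    have hT' : (n * j * b + (K % n : ℕ) * X : ℤ) ≤ j * T + n * j := by exact_mod_cast hT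
    have hS' : (n * j * b + n * (aU + aE + 3) : ℤ) ≤ m * s + m * n := by exact_mod_cast hS
    have hu' : (u : ℤ) = dU + p₀ - p₁ := by omega
    have he' : (e : ℤ) = dE + q₁ - q₀ := by omega
    have u6' : (n * dU : ℤ) < U + n := by exact_mod_cast u6
    have u7' : (U : ℤ) < n * dU + n := by exact_mod_cast u7
    have e6' : (n * dE : ℤ) < E + n := by exact_mod_cast e6
    have e7' : (E : ℤ) < n * dE + n := by exact_mod_cast e7
    have d6' : (n * D : ℤ) < δ + n := by exact_mod_cast d6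
    have d7' : (δ : ℤ) < n * D + n := by exact_mod_cast d7
    push_cast at t3 t4 c3
    obtain ⟨Tz, hTz⟩ : ∃ Tz : ℤ, τ₁ + w₁ - (τ₀ + w₀) = Tz := ⟨_, rfl⟩
    obtain ⟨Sz, hSz⟩ : ∃ Sz : ℤ, S₁ - S₀ = Sz := ⟨_, rfl⟩
    have g0 : (n * j * Tz : ℤ) = n * j * τ₁ + n * j * w₁ - n * j * τ₀ - n * j * w₀ := by
      rw [← hTz]
      ring
    have g1 : (n * j * Tz + K * X : ℤ) < j * T + n * κ * X + n * j * b := by linarith
    have g2 : (j * T + n * κ * X : ℤ) < n * j * Tz + K * X + n * j * b := by linarith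
    have g3 : (κ * X + u + D : ℤ) = j * Tz + m * Sz + e := by
      rw [← hTz, ← hSz, hu', he']
      linear_combination c3 - c2
    have g4 : (n * κ * X + (n * dU + n * p₀ - n * p₁) + n * D : ℤ) =
        n * j * Tz + m * n * Sz + (n * dE + n * q₁ - n * q₀) := by
      rw [hu', he'] at g3
      linear_combination n * g3
    have g5 : (m * n * Sz + n * j * Tz + K * X : ℤ) <
        m * s + j * T + n * κ * X + n * (aU + aE + 3) := by linarith
    have g6 : (m * s + j * T + n * κ * X : ℤ) <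
        m * n * Sz + n * j * Tz + K * X + n * (aU + aE + 3) := by linarith
    obtain ⟨Tb, rfl⟩ := Int.eq_ofNat_of_zero_le (cum_nn (x := Tz) hnj (by linarith))
    obtain ⟨sb, rfl⟩ := Int.eq_ofNat_of_zero_le (cum_nn (x := Sz) hmn (by linarith))
    refine ⟨κ, Tb, sb, u, e, by push_cast; ring, hTz, hSz, by push_cast; linarith,
      by push_cast; linarith, k2, ?_, by exact_mod_cast g1, by exact_mod_cast g2,
      by exact_mod_cast g5, by exact_mod_cast g6, by omega, by omega, by omega, by omega⟩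
    have g7 : κ * X + u + D = j * Tb + m * sb + e := by exact_mod_cast g3
    omega
  choose κ Tb sb u e h1 h2 h3 h4 h5 h6 using key
  obtain ⟨z1, z2, z3, z4⟩ := c0 0 rfl
  obtain ⟨y1, y2, y3, y4⟩ := c1 n rfl
  exact ⟨κ, Tb, sb, u, e,
    cum_tel (fun i => ((K * i / n : ℕ) : ℤ)) κ (fun i _ => h1 i) (by simp) (by simp only [hdv]),
    cum_tel (fun i => τ i + w i) Tb (fun i _ => h2 i) (by simp [hτ0, z1]) (by simp [hτn, y1]),
    cum_tel S sb (fun i _ => h3 i) z4 y4,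
    cum_tel (fun i => ((U * i / n : ℕ) : ℤ) - p i) u (fun i _ => h4 i) (by simp [z2])
      (by simp only [hdv, y2]; simp),
    cum_tel (fun i => ((E * i / n : ℕ) : ℤ) + q i) e (fun i _ => h5 i) (by simp [z3])
      (by simp only [hdv, y3]; simp), fun i _ => h6 i⟩

theorem PV_cum (m j X K T s p h p' h' n b Φ aU aE : ℕ) (hm : 1 ≤ m) (hj : 1 ≤ j) (hn : 1 ≤ n)
    (hb : 1 ≤ b) (hcov : Cover m j b Φ) (hΦ : Φ ≤ aU + aE + 1)
    (hD : K * X + (2 * p + h) ≤ j * T + m * s + (2 * p' + h'))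
    (haU : aU ≤ (2 * p + h) / n) (haE : aE ≤ (2 * p' + h') / n)
    (hcU : (2 * p + h + n - 1) / n + aU ≤ p + h) (hcE : (2 * p' + h' + n - 1) / n + aE ≤ p' + h')
    (hT : n * j * b + K % n * X ≤ j * T + n * j)
    (hS : n * j * b + n * (aU + aE + 3) ≤ m * s + m * n) (hC : s + h + X ≤ (m + 1) * j)
    (H : ∀ κ Tb sb u e, CumB m j X K T s (2 * p + h) (2 * p' + h') n b aU aE κ Tb sb u e →
      V m j X κ Tb sb u e (p + h - u)) :
    PV m j X K T s h h' p p' := by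
  obtain ⟨δ, hδ⟩ := Nat.exists_eq_add_of_le hD
  obtain ⟨κ, Tb, sb, u, e, e1, e2, e3, e4, e5, hB⟩ :=
    cum_data m j X K T s (2 * p + h) (2 * p' + h') n b Φ aU aE δ hm hj hn hb hcov hΦ hδ.symm haU haE
      hT hS
  have key := PV_cut (m := m) (j := j) (X := X) (p := p) (h := h) (p' := p') (h' := h') n hn κ Tb sb u e
    (fun i hi => le_trans (hB i hi).2.2.2.2.2.2.2.1 hcU) e4
    (fun i hi => le_trans (hB i hi).2.2.2.2.2.2.2.2.2 hcE) e5 (fun i hi => H _ _ _ _ _ (hB i hi))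
    (by rw [e3]; exact hC)
  rw [e1, e2, e3] at key
  exact key

end Pool.Agent.Work.MP_f4b644_ag.Mid
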