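import Pool.Agent.Work.MP_f4b644_ag.Mid.Dom

/-!
Check of a tree of cuts with a table of compiled conditions.
-/

namespace Pool.Agent.Work.MP_f4b644_ag.Mid

open Pool.Agent.Lib.KLA

noncomputable section

/-- a new entry of the table -/
def upd (F : Nat → Bx → Bool) (i : Nat) (f : Bx → Bool) : Nat → Bx → Bool :=
  fun k => cnd (Nat.beq k i) f (F k)

/-- Check of a tree; `F` is the table. Leaf word: entry + 256 * free hints. Nodes as before. `comp u w t` compiles
on the current box with `u` = mask + 32 * i and free hints `w`: entry `i` is the result, entry `i + 1` is the result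
with the hints `w`. `setw w t` with `w` = i + 256 * k + 65536 * v: entry `i` is entry `k` with the hints `v`. -/
def Tr.chk2 (ce : Nat) (p : C) (t : Tr) : (Nat → Bx → Bool) → Bx → Bool :=
  Tr.rec (motive := fun _ => (Nat → Bx → Bool) → Bx → Bool)
    (fun w F b => strict (Nat.mod w 256) fun k => strict (Nat.shiftRight w 8) fun v => setW b v (F k))
    (fun w _ _ l r F b => strict (Nat.mod w 8) fun i => strict (Nat.shiftRight w 4) fun θ => bnd (nz θ)
      (cnd (Nat.beq (Nat.mod (Nat.shiftRight w 3) 2) 0)
        (bnd (setH b i θ (l F)) (setL b i θ (r F)))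
        (bnd (bnd (Nat.ble i 4) (Nat.beq (ceOf ce i) (Nat.add 559240 (Nat.shiftLeft 1 (Nat.mul 4 i)))))
          (strict (Nat.shiftLeft θ 32) fun v => bnd (setH b i v (l F))
            (strict (Nat.add v 4294967296) fun v' => setL b i v' (r F))))))
    (fun u w _ l F b => strict (Nat.mod u 32) fun mask => strict (Nat.shiftRight u 5) fun i =>
      strict (Nat.add i 1) fun j => setW b w fun z => CV.rec (motive := fun _ => Bool)
        (fun f => l (upd (upd F j fun d => setW d w f) i f) z) (cmpC p ⟨z, ce, mask, 0⟩ z))
    (fun _ _ => false)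
    (fun w _ l F b => strict (Nat.mod w 256) fun i => strict (Nat.mod (Nat.shiftRight w 8) 256) fun k =>
      strict (Nat.shiftRight w 16) fun v => l (upd F i fun d => setW d v (F k)) b) t

/-- check of a tree on a box -/
def Tr.run2 (ce : Nat) (p : C) (t : Tr) (b : Bx) : Bool := t.chk2 ce p (fun _ _ => false) b

end

end Pool.Agent.Work.MP_f4b644_ag.Mid
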