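import Pool.Agent.Lib.KLA.Defs

/-!
Scaled intervals. A natural number `v` is described by a monomial `M` in five positive real coordinates (a word
`e` whose hexadecimal digits minus eight are the exponents) and two functions `lo`, `hi` of a box of coordinates:
`lo * M ≤ v * S`, and `v * S ≤ hi * M` if the flag `fin` is set, with `S = 2 ^ 32`. A condition is first compiled
with the help of a reference box (choice of the monomials); the result is a function of the box, which is then
evaluated on many boxes. Written with recursors for kernel evaluation; the soundness proof is in `DomS`.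
-/

namespace Pool.Agent.Work.MP_f4b644_ag.Mid

open Pool.Agent.Lib.KLA

/-- expressions with values in the natural numbers -/
inductive E : Type
  | cst (n : Nat)
  | var (i : Nat)
  | hint (i : Nat)
  | shint (i : Nat)
  | add (a b : E)
  | mul (a b : E)
  | sub (a b : E)
  | div (th : Nat) (a b : E)
  | min (a b : E)
  | max (a b : E)
  | mod (a b : E)
  | sel (i : Nat) (a b : E)
  | ite (c a b : E)

/-- conditions -/
inductive C : Type
  | le (a b : E)
  | and (p q : C)
  | or (p q : C)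
  | sel (i : Nat) (p q : C)
  | ite (c : E) (p q : C)

/-- the hint number `i` of a word -/
def hintOf (h i : Nat) : Nat := Nat.mod (Nat.shiftRight h (Nat.mul 16 i)) 65536

/-- value of an expression; `g` is the word of the fixed hints, `h` the word of the free hints -/
def E.ev (ρ : Nat → Nat) (g h : Nat) : E → Nat
  | .cst n => n
  | .var i => ρ i
  | .hint i => hintOf h i
  | .shint i => hintOf g i
  | .add a b => a.ev ρ g h + b.ev ρ g h
  | .mul a b => a.ev ρ g h * b.ev ρ g h
  | .sub a b => a.ev ρ g h - b.ev ρ g h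
  | .div _ a b => a.ev ρ g h / b.ev ρ g h
  | .min a b => Min.min (a.ev ρ g h) (b.ev ρ g h)
  | .max a b => Max.max (a.ev ρ g h) (b.ev ρ g h)
  | .mod a b => a.ev ρ g h % b.ev ρ g h
  | .sel i a b => if hintOf g i = 0 then a.ev ρ g h else b.ev ρ g h
  | .ite c a b => if c.ev ρ g h = 0 then a.ev ρ g h else b.ev ρ g h

/-- meaning of a condition -/
def C.sem (ρ : Nat → Nat) (g h : Nat) : C → Prop
  | .le a b => a.ev ρ g h ≤ b.ev ρ g h
  | .and p q => p.sem ρ g h ∧ q.sem ρ g h
  | .or p q => p.sem ρ g h ∨ q.sem ρ g h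
  | .sel i p q => if hintOf g i = 0 then p.sem ρ g h else q.sem ρ g h
  | .ite c p q => if c.ev ρ g h = 0 then p.sem ρ g h else q.sem ρ g h

/-- boxes: bounds of the coordinates times `S` (an upper bound `0` means no upper bound), and the free hints -/
structure Bx : Type where
  l0 : Nat
  h0 : Nat
  l1 : Nat
  h1 : Nat
  l2 : Nat
  h2 : Nat
  l3 : Nat
  h3 : Nat
  l4 : Nat
  h4 : Nat
  w : Nat

/-- compiled values; the bounds hold on the boxes with `tr = true` or `ok d = true` -/
structure SV : Type where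
  e : Nat
  fin : Bool
  lo : Bx → Nat
  hi : Bx → Nat
  tr : Bool
  ok : Bx → Bool

/-- compiled bounds of a monomial -/
structure RS : Type where
  lo : Bx → Nat
  hi : Bx → Nat

/-- compiled conditions -/
structure CV : Type where
  f : Bx → Bool

/-- contexts: reference box, monomials of the variables (20 bits each), mask of the plain coordinates, fixed hints -/
structure Cx : Type where
  b : Bx
  ce : Nat
  mask : Nat
  g : Nat

/-- trees of cuts -/
inductive Tr : Type
  | leaf (w : Nat)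
  | node (w : Nat) (l r : Tr)
  | comp (u w : Nat) (t : Tr)
  | keep
  | setw (w : Nat) (t : Tr)

noncomputable section

/-- hexadecimal digit -/
def dg (e i : Nat) : Nat := Nat.mod (Nat.shiftRight e (Nat.mul 4 i)) 16

/-- five digits -/
def pack5 (a0 a1 a2 a3 a4 : Nat) : Nat :=
  Nat.add a0 (Nat.mul 16 (Nat.add a1 (Nat.mul 16 (Nat.add a2 (Nat.mul 16 (Nat.add a3 (Nat.mul 16 a4)))))))

/-- `8 ≤ t ≤ 23` -/
def okD (t : Nat) : Bool := bnd (Nat.ble 8 t) (Nat.ble t 23)

/-- the word with digits `t i - 8`, or `0` -/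
def mkE (t0 t1 t2 t3 t4 : Nat) : Nat :=
  cnd (bnd (bnd (bnd (okD t0) (okD t1)) (bnd (okD t2) (okD t3))) (okD t4))
    (pack5 (Nat.sub t0 8) (Nat.sub t1 8) (Nat.sub t2 8) (Nat.sub t3 8) (Nat.sub t4 8)) 0

/-- product of monomials (`0`: overflow) -/
def eMul (a b : Nat) : Nat :=
  mkE (Nat.add (dg a 0) (dg b 0)) (Nat.add (dg a 1) (dg b 1)) (Nat.add (dg a 2) (dg b 2))
    (Nat.add (dg a 3) (dg b 3)) (Nat.add (dg a 4) (dg b 4))

/-- quotient of monomials (`0`: overflow) -/
def eDiv (a b : Nat) : Nat :=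
  mkE (Nat.sub (Nat.add (dg a 0) 16) (dg b 0)) (Nat.sub (Nat.add (dg a 1) 16) (dg b 1))
    (Nat.sub (Nat.add (dg a 2) 16) (dg b 2)) (Nat.sub (Nat.add (dg a 3) 16) (dg b 3))
    (Nat.sub (Nat.add (dg a 4) 16) (dg b 4))

/-- a digit, or `8` if the bit of the mask is set -/
def mD (e mask i : Nat) : Nat := cnd (Nat.beq (Nat.mod (Nat.shiftRight mask i) 2) 0) (dg e i) 8

/-- the monomial without the coordinates of the mask -/
def eMask (e mask : Nat) : Nat := pack5 (mD e mask 0) (mD e mask 1) (mD e mask 2) (mD e mask 3) (mD e mask 4)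

/-- multiplication by a power -/
def pf (k : Nat) (get acc : Bx → Nat) (κ : (Bx → Nat) → RS) : RS :=
  cnd (Nat.beq k 0) (κ acc)
    (cnd (Nat.beq k 1) (κ fun d => Nat.mul (acc d) (get d)) (κ fun d => Nat.mul (acc d) (Nat.pow (get d) k)))

/-- `c` times a product of five powers -/
def pf5 (c k0 k1 k2 k3 k4 : Nat) (g0 g1 g2 g3 g4 : Bx → Nat) (κ : (Bx → Nat) → RS) : RS :=
  pf k0 g0 (fun _ => c) fun a => pf k1 g1 a fun a => pf k2 g2 a fun a => pf k3 g3 a fun a => pf k4 g4 a κ

/-- bounds of a quotient of products of powers -/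
def rS1 (p0 p1 p2 p3 p4 n0 n1 n2 n3 n4 A B : Nat) : RS :=
  pf5 A p0 p1 p2 p3 p4 Bx.l0 Bx.l1 Bx.l2 Bx.l3 Bx.l4 fun xl =>
  pf5 A p0 p1 p2 p3 p4 Bx.h0 Bx.h1 Bx.h2 Bx.h3 Bx.h4 fun xh =>
  pf5 B n0 n1 n2 n3 n4 Bx.l0 Bx.l1 Bx.l2 Bx.l3 Bx.l4 fun yl =>
  pf5 B n0 n1 n2 n3 n4 Bx.h0 Bx.h1 Bx.h2 Bx.h3 Bx.h4 fun yh =>
  RS.mk (fun d => Nat.div (xl d) (yh d)) (fun d => Nat.div (Nat.add (xh d) (Nat.sub (yl d) 1)) (yl d))

/-- sum of five numbers -/
def sum5 (a0 a1 a2 a3 a4 : Nat) : Nat := Nat.add (Nat.add (Nat.add a0 a1) (Nat.add a2 a3)) a4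

def rS2 (p0 p1 p2 p3 p4 n0 n1 n2 n3 n4 : Nat) : RS :=
  strict (Nat.pow 4294967296 (Nat.sub (Nat.add (sum5 n0 n1 n2 n3 n4) 1) (sum5 p0 p1 p2 p3 p4))) fun A =>
  strict (Nat.pow 4294967296 (Nat.sub (sum5 p0 p1 p2 p3 p4) (Nat.add (sum5 n0 n1 n2 n3 n4) 1))) fun B =>
  rS1 p0 p1 p2 p3 p4 n0 n1 n2 n3 n4 A B

/-- bounds of a monomial on a box, times `S`; the upper bound `0` means no bound -/
def rS (q : Nat) : RS :=
  rS2 (Nat.sub (dg q 0) 8) (Nat.sub (dg q 1) 8) (Nat.sub (dg q 2) 8) (Nat.sub (dg q 3) 8) (Nat.sub (dg q 4) 8)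
    (Nat.sub 8 (dg q 0)) (Nat.sub 8 (dg q 1)) (Nat.sub 8 (dg q 2)) (Nat.sub 8 (dg q 3)) (Nat.sub 8 (dg q 4))

/-- `x * y / S` rounded down -/
def md (x y : Nat) : Nat := Nat.shiftRight (Nat.mul x y) 32

/-- a value, rounded to whole numbers if it is plain -/
def mkR (e : Nat) (f : Bool) (lo hi : Bx → Nat) (t : Bool) (o : Bx → Bool) : SV :=
  cnd (Nat.beq e 559240)
    (SV.mk 559240 f (fun d => Nat.shiftLeft (Nat.shiftRight (Nat.add (lo d) 4294967295) 32) 32)
      (fun d => Nat.shiftLeft (Nat.shiftRight (hi d) 32) 32) t o)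
    (SV.mk e f lo hi t o)

/-- nothing known -/
def top : SV := SV.mk 559240 false (fun _ => 0) (fun _ => 0) true (fun _ => true)

/-- a value with one more side condition -/
def mkG (e : Nat) (f : Bool) (lo hi : Bx → Nat) (t : Bool) (o gd : Bx → Bool) : SV :=
  cnd t (SV.mk e f lo hi false gd)
    (SV.mk e f lo hi false (fun d => Bool.rec (motive := fun _ => Bool) false (gd d) (o d)))

/-- conjunction of the side conditions -/
def okAnd {α : Type} (ta : Bool) (oa : Bx → Bool) (tb : Bool) (ob : Bx → Bool) (κ : Bool → (Bx → Bool) → α) : α :=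
  cnd ta (κ tb ob) (cnd tb (κ false oa) (κ false fun d => Bool.rec (motive := fun _ => Bool) false (ob d) (oa d)))

/-- a binary operation -/
def bin {α : Type} (op : Nat → Bool → (Bx → Nat) → (Bx → Nat) → Nat → Bool → (Bx → Nat) → (Bx → Nat) → Bool →
    (Bx → Bool) → α) (x y : SV) : α :=
  SV.rec (motive := fun _ => α) (fun ea fa la ha ta oa => SV.rec (motive := fun _ => α) (fun eb fb lb hb tb ob =>
    okAnd ta oa tb ob (op ea fa la ha eb fb lb hb)) y) x

/-- nonzero -/
def nz (a : Nat) : Bool := Nat.ble 1 a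

/-- a constant -/
def sCst (n : Nat) : SV :=
  strict (Nat.shiftLeft n 32) fun v => SV.mk 559240 true (fun _ => v) (fun _ => v) true (fun _ => true)

/-- a free hint -/
def sHint (i : Nat) : SV :=
  strict (Nat.mul 16 i) fun s =>
    SV.mk 559240 true (fun d => Nat.shiftLeft (Nat.mod (Nat.shiftRight (Bx.w d) s) 65536) 32)
      (fun d => Nat.shiftLeft (Nat.mod (Nat.shiftRight (Bx.w d) s) 65536) 32) true (fun _ => true)

/-- the monomial itself -/
def sMon (e : Nat) : SV := SV.mk e true (fun _ => 4294967296) (fun _ => 4294967296) true (fun _ => true)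

/-- a variable equal to the monomial `e` (`e = 0`: unknown) -/
def sVar (z : Bx) (mask e : Nat) : SV :=
  cnd (nz e) (strict (eMask e mask) fun e' => strict (eDiv e e') fun q =>
    cnd (cnd (Nat.beq q 559240) false (nz q))
      (RS.rec (motive := fun _ => SV) (fun rl rh =>
        cnd (nz (rh z)) (mkR e' true rl rh true (fun _ => true)) (sMon e)) (rS q)) (sMon e)) top

/-- is the first value the larger one? -/
def dom (fa fb : Bool) (la ha lb hb rl rh rh' : Nat) : Bool :=
  cnd (bnd (bnd fa fb) (nz (Nat.add rh rh')))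
    (bnd (nz rh) (cnd (nz rh') (Nat.ble (Nat.mul (Nat.mul hb hb) (Nat.mul rl rh)) (Nat.shiftLeft (Nat.mul ha ha) 64))
      true))
    (Nat.ble (md lb rl) la)

/-- the case of different monomials for sums and maxima; `to` builds the result in the first monomial -/
def mix (z : Bx) (to : Nat → Bool → (Bx → Nat) → (Bx → Nat) → Bool → (Bx → Nat) → (Bx → Nat) → (Bx → Nat) →
      (Bx → Nat) → Bool → (Bx → Bool) → SV)
    (ea : Nat) (fa : Bool) (la ha : Bx → Nat) (eb : Nat) (fb : Bool) (lb hb : Bx → Nat) (t : Bool)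
    (o : Bx → Bool) : SV :=
  strict (eDiv eb ea) fun q => strict (eDiv ea eb) fun q' =>
    cnd (nz (Nat.mul q q'))
      (RS.rec (motive := fun _ => SV) (fun rl rh => RS.rec (motive := fun _ => SV) (fun rl' rh' =>
        cnd (bnd fb (Nat.beq (Nat.add (rh z) (hb z)) 0)) (mkG ea fa la ha t o fun d => Nat.beq (hb d) 0)
          (cnd (bnd fa (Nat.beq (Nat.add (rh' z) (ha z)) 0)) (mkG eb fb lb hb t o fun d => Nat.beq (ha d) 0)
            (cnd (dom fa fb (la z) (ha z) (lb z) (hb z) (rl z) (rh z) (rh' z))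
              (to ea fa la ha (bnd fb (nz (rh z))) lb hb rl rh t o)
              (to eb fb lb hb (bnd fa (nz (rh' z))) la ha rl' rh' t o)))) (rS q')) (rS q))
      top

def addTo (ea : Nat) (fa : Bool) (la ha : Bx → Nat) (fb : Bool) (lb hb rl rh : Bx → Nat) (t : Bool)
    (o : Bx → Bool) : SV :=
  mkR ea (bnd fa fb) (fun d => Nat.add (la d) (Nat.shiftRight (Nat.mul (lb d) (rl d)) 32))
    (fun d => Nat.add (ha d) (Nat.shiftRight (Nat.add (Nat.mul (hb d) (rh d)) 4294967295) 32)) t o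

def sAdd (z : Bx) (ea : Nat) (fa : Bool) (la ha : Bx → Nat) (eb : Nat) (fb : Bool) (lb hb : Bx → Nat) (t : Bool)
    (o : Bx → Bool) : SV :=
  cnd (Nat.beq ea eb) (SV.mk ea (bnd fa fb) (fun d => Nat.add (la d) (lb d)) (fun d => Nat.add (ha d) (hb d)) t o)
    (mix z addTo ea fa la ha eb fb lb hb t o)

def sMul (z : Bx) (ea : Nat) (fa : Bool) (la ha : Bx → Nat) (eb : Nat) (fb : Bool) (lb hb : Bx → Nat) (t : Bool)
    (o : Bx → Bool) : SV :=
  cnd (bnd fa fb)
    (strict (eMul ea eb) fun e => cnd (nz e)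
      (cnd (Nat.beq ea 559240)
        (SV.mk e true (fun d => Nat.shiftRight (Nat.mul (la d) (lb d)) 32)
          (fun d => Nat.shiftRight (Nat.add (Nat.mul (ha d) (hb d)) 4294967295) 32) t o)
        (mkR e true (fun d => Nat.shiftRight (Nat.mul (la d) (lb d)) 32)
          (fun d => Nat.shiftRight (Nat.add (Nat.mul (ha d) (hb d)) 4294967295) 32) t o)) top)
    (cnd (bnd fa (Nat.beq (ha z) 0)) (mkG 559240 true (fun _ => 0) (fun _ => 0) t o fun d => Nat.beq (ha d) 0)
      (cnd (bnd fb (Nat.beq (hb z) 0)) (mkG 559240 true (fun _ => 0) (fun _ => 0) t o fun d => Nat.beq (hb d) 0)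
        (strict (eMul ea eb) fun e => cnd (nz e)
          (SV.mk e false (fun d => Nat.shiftRight (Nat.mul (la d) (lb d)) 32) (fun _ => 0) t o) top)))

def sSub (z : Bx) (ea : Nat) (fa : Bool) (la ha : Bx → Nat) (eb : Nat) (fb : Bool) (lb hb : Bx → Nat) (t : Bool)
    (o : Bx → Bool) : SV :=
  cnd (Nat.beq ea eb)
    (cnd fb (SV.mk ea fa (fun d => Nat.sub (la d) (hb d)) (fun d => Nat.sub (ha d) (lb d)) t o)
      (SV.mk ea fa (fun _ => 0) (fun d => Nat.sub (ha d) (lb d)) t o))
    (strict (eDiv eb ea) fun q => cnd (nz q)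
      (RS.rec (motive := fun _ => SV) (fun rl rh => cnd (bnd fb (nz (rh z)))
        (mkR ea fa (fun d => Nat.sub (la d) (Nat.shiftRight (Nat.add (Nat.mul (hb d) (rh d)) 4294967295) 32))
          (fun d => Nat.sub (ha d) (Nat.shiftRight (Nat.mul (lb d) (rl d)) 32)) t o)
        (cnd (bnd fb (Nat.beq (hb z) 0)) (mkG ea fa la ha t o fun d => Nat.beq (hb d) 0)
          (mkR ea fa (fun _ => 0) (fun d => Nat.sub (ha d) (Nat.shiftRight (Nat.mul (lb d) (rl d)) 32)) t o))) (rS q))
      (SV.mk ea fa (fun _ => 0) ha t o))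

/-- the quotient in the monomial `e` -/
def divM (z : Bx) (e : Nat) (fa : Bool) (la ha : Bx → Nat) (fb : Bool) (lb hb : Bx → Nat) (t : Bool)
    (o : Bx → Bool) : SV :=
  strict (eDiv 559240 e) fun q => RS.rec (motive := fun _ => SV) (fun _ rh =>
    cnd (bnd (bnd fb (nz q)) (nz (rh z)))
      (mkG e fa (fun d => Nat.sub (Nat.div (Nat.shiftLeft (la d) 32) (hb d)) (rh d))
        (fun d => Nat.add (Nat.div (Nat.shiftLeft (ha d) 32) (lb d)) 1) t o fun d => Nat.ble 1 (lb d))
      (mkG e fa (fun _ => 0)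
        (fun d => Nat.add (Nat.div (Nat.shiftLeft (ha d) 32) (lb d)) 1) t o fun d => Nat.ble 1 (lb d))) (rS q)

/-- the plain quotient -/
def divP (fa : Bool) (la ha : Bx → Nat) (fb : Bool) (lb hb : Bx → Nat) (t : Bool) (o : Bx → Bool) : SV :=
  cnd fb
    (mkG 559240 fa (fun d => Nat.shiftLeft (Nat.div (la d) (hb d)) 32)
      (fun d => Nat.shiftLeft (Nat.div (ha d) (lb d)) 32) t o fun d => Nat.ble 1 (lb d))
    (mkG 559240 fa (fun _ => 0) (fun d => Nat.shiftLeft (Nat.div (ha d) (lb d)) 32) t o fun d => Nat.ble 1 (lb d))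

def sDiv (z : Bx) (th : Nat) (ea : Nat) (fa : Bool) (la ha : Bx → Nat) (eb : Nat) (fb : Bool) (lb hb : Bx → Nat)
    (t : Bool) (o : Bx → Bool) : SV :=
  strict (eDiv ea eb) fun e => cnd (nz (Nat.mul e (lb z)))
    (cnd (Nat.beq e 559240) (divP fa la ha fb lb hb t o)
      (RS.rec (motive := fun _ => SV) (fun rl rh =>
        cnd (bnd (bnd fa (nz (rh z))) (Nat.ble (Nat.div (md (ha z) (rh z)) (lb z)) th))
          (divP fa (fun d => Nat.shiftRight (Nat.mul (la d) (rl d)) 32)
            (fun d => Nat.shiftRight (Nat.mul (ha d) (rh d)) 32) fb lb hb t o)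
          (divM z e fa la ha fb lb hb t o)) (rS e)))
    (SV.mk ea fa (fun _ => 0) ha t o)

/-- minimum of two values in the same monomial -/
def minS (e : Nat) (fa : Bool) (la ha : Bx → Nat) (fb : Bool) (lb hb : Bx → Nat) (t : Bool) (o : Bx → Bool) : SV :=
  cnd fa
    (cnd fb
      (SV.mk e true (fun d => Bool.rec (motive := fun _ => Nat) (lb d) (la d) (Nat.ble (la d) (lb d)))
        (fun d => Bool.rec (motive := fun _ => Nat) (hb d) (ha d) (Nat.ble (ha d) (hb d))) t o)
      (SV.mk e true (fun d => Bool.rec (motive := fun _ => Nat) (lb d) (la d) (Nat.ble (la d) (lb d))) ha t o))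
    (SV.mk e fb (fun d => Bool.rec (motive := fun _ => Nat) (lb d) (la d) (Nat.ble (la d) (lb d))) hb t o)

/-- conversion of bounds to another monomial, rounded if plain -/
def conv (e : Nat) (lb hb rl rh : Bx → Nat) (κ : (Bx → Nat) → (Bx → Nat) → SV) : SV :=
  cnd (Nat.beq e 559240)
    (κ (fun d => Nat.shiftLeft (Nat.shiftRight (Nat.add (Nat.mul (lb d) (rl d)) 18446744073709551615) 64) 32)
      (fun d => Nat.shiftLeft (Nat.shiftRight (Nat.mul (hb d) (rh d)) 64) 32))
    (κ (fun d => Nat.shiftRight (Nat.mul (lb d) (rl d)) 32)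
      (fun d => Nat.shiftRight (Nat.add (Nat.mul (hb d) (rh d)) 4294967295) 32))

/-- is the first value the smaller one? -/
def low1 (fa fb : Bool) (la ha lb hb rl rh rl' rh' : Nat) : Bool :=
  cnd fa (cnd fb (cnd (Nat.ble ha (md lb rl)) true (cnd (Nat.ble hb (md la rl')) false (cnd (nz rh) (bnd (nz rh')
    (Nat.ble (Nat.shiftLeft (Nat.mul ha ha) 64) (Nat.mul (Nat.mul hb hb) (Nat.mul rl rh)))) true))) true)
    (cnd fb false true)

def sMin (z : Bx) (ea : Nat) (fa : Bool) (la ha : Bx → Nat) (eb : Nat) (fb : Bool) (lb hb : Bx → Nat) (t : Bool)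
    (o : Bx → Bool) : SV :=
  cnd (Nat.beq ea eb) (minS ea fa la ha fb lb hb t o)
    (strict (eDiv eb ea) fun q => strict (eDiv ea eb) fun q' =>
      cnd (nz (Nat.mul q q'))
        (RS.rec (motive := fun _ => SV) (fun rl rh => RS.rec (motive := fun _ => SV) (fun rl' rh' =>
          cnd (low1 fa fb (la z) (ha z) (lb z) (hb z) (rl z) (rh z) (rl' z) (rh' z))
            (conv ea lb hb rl rh fun l h => minS ea fa la ha (bnd fb (nz (rh z))) l h t o)
            (conv eb la ha rl' rh' fun l h => minS eb fb lb hb (bnd fa (nz (rh' z))) l h t o)) (rS q')) (rS q))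
        top)

/-- maximum of two values in the same monomial -/
def maxS (e : Nat) (fa : Bool) (la ha : Bx → Nat) (fb : Bool) (lb hb : Bx → Nat) (t : Bool) (o : Bx → Bool) : SV :=
  SV.mk e (bnd fa fb) (fun d => Bool.rec (motive := fun _ => Nat) (la d) (lb d) (Nat.ble (la d) (lb d)))
    (fun d => Bool.rec (motive := fun _ => Nat) (ha d) (hb d) (Nat.ble (ha d) (hb d))) t o

def maxTo (ea : Nat) (fa : Bool) (la ha : Bx → Nat) (fb : Bool) (lb hb rl rh : Bx → Nat) (t : Bool)
    (o : Bx → Bool) : SV :=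
  conv ea lb hb rl rh fun l h => maxS ea fa la ha fb l h t o

def sMax (z : Bx) (ea : Nat) (fa : Bool) (la ha : Bx → Nat) (eb : Nat) (fb : Bool) (lb hb : Bx → Nat) (t : Bool)
    (o : Bx → Bool) : SV :=
  cnd (Nat.beq ea eb) (maxS ea fa la ha fb lb hb t o) (mix z maxTo ea fa la ha eb fb lb hb t o)

def sMod (z : Bx) (ea : Nat) (fa : Bool) (la ha : Bx → Nat) (eb : Nat) (fb : Bool) (lb hb : Bx → Nat) (t : Bool)
    (o : Bx → Bool) : SV :=
  cnd (nz (lb z))
    (cnd (bnd fb (Nat.beq eb 559240))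
      (cnd (bnd fa (Nat.beq ea 559240))
        (mkG 559240 true
          (fun d => Bool.rec (motive := fun _ => Nat) 0 (Nat.sub (la d) (Nat.mul (Nat.div (la d) (hb d)) (hb d)))
            (Nat.beq (Nat.div (la d) (hb d)) (Nat.div (ha d) (lb d))))
          (fun d => Bool.rec (motive := fun _ => Nat) (Nat.sub (hb d) 4294967296)
            (Nat.sub (ha d) (Nat.mul (Nat.div (la d) (hb d)) (lb d)))
            (Nat.beq (Nat.div (la d) (hb d)) (Nat.div (ha d) (lb d)))) t o fun d => Nat.ble 1 (lb d))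
        (mkG 559240 true (fun _ => 0) (fun d => Nat.sub (hb d) 4294967296) t o fun d => Nat.ble 1 (lb d)))
      (mkG eb fb (fun _ => 0) hb t o fun d => Nat.ble 1 (lb d)))
    (SV.mk ea fa (fun _ => 0) ha t o)

/-- a test with the side conditions -/
def mkC (t : Bool) (o f : Bx → Bool) : CV :=
  cnd t (CV.mk f) (CV.mk fun d => Bool.rec (motive := fun _ => Bool) false (o d) (f d))

def sLe (ea : Nat) (fa : Bool) (_la ha : Bx → Nat) (eb : Nat) (_fb : Bool) (lb _hb : Bx → Nat) (t : Bool)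
    (o : Bx → Bool) : CV :=
  cnd fa
    (cnd (Nat.beq ea eb) (mkC t o fun d => Nat.ble (ha d) (lb d))
      (strict (eDiv eb ea) fun q => cnd (nz q)
        (RS.rec (motive := fun _ => CV) (fun rl _ =>
          mkC t o fun d => Nat.ble (Nat.shiftLeft (ha d) 32) (Nat.mul (lb d) (rl d))) (rS q))
        (CV.mk fun _ => false)))
    (CV.mk fun _ => false)

/-- a value with one more side condition -/
def addG (gd : Bx → Bool) (s : SV) : SV :=
  SV.rec (motive := fun _ => SV) (fun e f lo hi t o => mkG e f lo hi t o gd) s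

/-- a test with one more side condition -/
def addC (gd : Bx → Bool) (s : CV) : CV :=
  CV.rec (motive := fun _ => CV) (fun f => CV.mk fun d => Bool.rec (motive := fun _ => Bool) false (f d) (gd d)) s

/-- case distinction: is the value `c` zero? -/
def sIte {α : Type} (z : Bx) (add : (Bx → Bool) → α → α) (no : α) (c : SV) (x y : α) : α :=
  SV.rec (motive := fun _ => α) (fun _ f lo hi t o =>
    cnd (bnd f (Nat.beq (hi z) 0))
      (cnd t (add (fun d => Nat.beq (hi d) 0) x)
        (add (fun d => Bool.rec (motive := fun _ => Bool) false (o d) (Nat.beq (hi d) 0)) x))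
      (cnd (nz (lo z))
        (cnd t (add (fun d => Nat.ble 1 (lo d)) y)
          (add (fun d => Bool.rec (motive := fun _ => Bool) false (o d) (Nat.ble 1 (lo d))) y)) no)) c

/-- the monomial of the variable `i` -/
def ceOf (ce i : Nat) : Nat := Nat.mod (Nat.shiftRight ce (Nat.mul 20 i)) 1048576

/-- compilation of an expression -/
def cmp (t : E) : Cx → Bx → SV :=
  E.rec (motive := fun _ => Cx → Bx → SV) (fun n _ _ => sCst n)
    (fun i c z => strict (ceOf c.ce i) (sVar z c.mask)) (fun i _ _ => sHint i) (fun i c _ => sCst (hintOf c.g i))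
    (fun _ _ x y c z => bin (sAdd z) (x c z) (y c z)) (fun _ _ x y c z => bin (sMul z) (x c z) (y c z))
    (fun _ _ x y c z => bin (sSub z) (x c z) (y c z)) (fun th _ _ x y c z => bin (sDiv z th) (x c z) (y c z))
    (fun _ _ x y c z => bin (sMin z) (x c z) (y c z)) (fun _ _ x y c z => bin (sMax z) (x c z) (y c z))
    (fun _ _ x y c z => bin (sMod z) (x c z) (y c z))
    (fun i _ _ x y c z => cnd (Nat.beq (hintOf c.g i) 0) (x c z) (y c z))
    (fun _ _ _ u x y c z => sIte z addG top (u c z) (x c z) (y c z)) t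

/-- compilation of a condition -/
def cmpC (p : C) : Cx → Bx → CV :=
  C.rec (motive := fun _ => Cx → Bx → CV) (fun x y c z => bin sLe (cmp x c z) (cmp y c z))
    (fun _ _ x y c z => CV.rec (motive := fun _ => CV) (fun f => CV.rec (motive := fun _ => CV) (fun f' =>
      CV.mk fun d => Bool.rec (motive := fun _ => Bool) false (f' d) (f d)) (y c z)) (x c z))
    (fun _ _ x y c z => CV.rec (motive := fun _ => CV) (fun f =>
      CV.mk fun d => Bool.rec (motive := fun _ => Bool) (CV.f (y c z) d) true (f d)) (x c z))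
    (fun i _ _ x y c z => cnd (Nat.beq (hintOf c.g i) 0) (x c z) (y c z))
    (fun u _ _ x y c z => sIte z addC (CV.mk fun _ => false) (cmp u c z) (x c z) (y c z)) p

/-- choice among five -/
def sel5 {α : Type} (i : Nat) (a0 a1 a2 a3 a4 : α) : α :=
  cnd (Nat.ble i 1) (cnd (Nat.beq i 0) a0 a1) (cnd (Nat.ble i 3) (cnd (Nat.beq i 2) a2 a3) a4)

/-- new upper bound for the coordinate `i` -/
def setH (b : Bx) (i v : Nat) (k : Bx → Bool) : Bool :=
  Bx.rec (motive := fun _ => Bool) (fun l0 h0 l1 h1 l2 h2 l3 h3 l4 h4 w =>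
    sel5 i (k ⟨l0, v, l1, h1, l2, h2, l3, h3, l4, h4, w⟩) (k ⟨l0, h0, l1, v, l2, h2, l3, h3, l4, h4, w⟩)
      (k ⟨l0, h0, l1, h1, l2, v, l3, h3, l4, h4, w⟩) (k ⟨l0, h0, l1, h1, l2, h2, l3, v, l4, h4, w⟩)
      (k ⟨l0, h0, l1, h1, l2, h2, l3, h3, l4, v, w⟩)) b

/-- new lower bound for the coordinate `i` -/
def setL (b : Bx) (i v : Nat) (k : Bx → Bool) : Bool :=
  Bx.rec (motive := fun _ => Bool) (fun l0 h0 l1 h1 l2 h2 l3 h3 l4 h4 w =>
    sel5 i (k ⟨v, h0, l1, h1, l2, h2, l3, h3, l4, h4, w⟩) (k ⟨l0, h0, v, h1, l2, h2, l3, h3, l4, h4, w⟩)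
      (k ⟨l0, h0, l1, h1, v, h2, l3, h3, l4, h4, w⟩) (k ⟨l0, h0, l1, h1, l2, h2, v, h3, l4, h4, w⟩)
      (k ⟨l0, h0, l1, h1, l2, h2, l3, h3, v, h4, w⟩)) b

/-- new free hints -/
def setW (b : Bx) (w : Nat) (k : Bx → Bool) : Bool :=
  Bx.rec (motive := fun _ => Bool) (fun l0 h0 l1 h1 l2 h2 l3 h3 l4 h4 _ =>
    k ⟨l0, h0, l1, h1, l2, h2, l3, h3, l4, h4, w⟩) b

/-- Check of a tree; `f` is the compiled condition. Leaf: the free hints. Node word: coordinate + 8 * kind + 16 * θ
with `θ ≥ 1`; kind `0` cuts at `θ / S`; kind `1` cuts a coordinate which is a variable between the whole numbers `θ`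
and `θ + 1`. `comp u w t` compiles on the current box with `u` = mask + 32 * fixed hints and free hints `w`;
`keep` is a leaf with the current free hints, `setw` changes them. -/
def Tr.chk (ce : Nat) (p : C) (t : Tr) : (Bx → Bool) → Bx → Bool :=
  Tr.rec (motive := fun _ => (Bx → Bool) → Bx → Bool)
    (fun w f b => setW b w f)
    (fun w _ _ l r f b => strict (Nat.mod w 8) fun i => strict (Nat.shiftRight w 4) fun θ => bnd (nz θ)
      (cnd (Nat.beq (Nat.mod (Nat.shiftRight w 3) 2) 0)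
        (bnd (setH b i θ (l f)) (setL b i θ (r f)))
        (bnd (bnd (Nat.ble i 4) (Nat.beq (ceOf ce i) (Nat.add 559240 (Nat.shiftLeft 1 (Nat.mul 4 i)))))
          (strict (Nat.shiftLeft θ 32) fun v => bnd (setH b i v (l f))
            (strict (Nat.add v 4294967296) fun v' => setL b i v' (r f))))))
    (fun u w _ l _ b => strict (Nat.mod u 32) fun mask => strict (Nat.shiftRight u 5) fun g =>
      setW b w fun z => CV.rec (motive := fun _ => Bool) (fun f => l f z) (cmpC p ⟨z, ce, mask, g⟩ z))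
    (fun f b => f b) (fun w _ l f b => setW b w (l f)) t

/-- check of a tree on a box -/
def Tr.run (ce : Nat) (p : C) (t : Tr) (b : Bx) : Bool := t.chk ce p (fun _ => false) b

end

end Pool.Agent.Work.MP_f4b644_ag.Mid
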