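import Mathlib.Data.Real.Basic
import Mathlib.Algebra.Order.Field.Power
import Mathlib.Algebra.Order.Field.Basic
import Mathlib.Data.Nat.Cast.Order.Field
import Mathlib.Tactic.Linarith
import Mathlib.Tactic.Positivity
import Mathlib.Tactic.FieldSimp
import Mathlib.Tactic.Ring
import Mathlib.Tactic.NormNum
import Mathlib.Tactic.GCongr
import Pool.Agent.Work.MP_f4b644_ag.Mid.Dom

/-!
Monomials and boxes: the meaning of the words of exponents and the soundness of the bounds `rS`.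
-/

namespace Pool.Agent.Work.MP_f4b644_ag.Mid

open Pool.Agent.Lib.KLA

theorem strict_eq' {α : Type} (e : ℕ) (f : ℕ → α) : strict e f = f e := by
  cases e <;> rfl

theorem cnd_t {α : Type} (x y : α) : cnd true x y = x := rfl

theorem cnd_f {α : Type} (x y : α) : cnd false x y = y := rfl

theorem cnd_ind {α : Type} (P : α → Prop) {b : Bool} {x y : α} (hx : b = true → P x) (hy : b = false → P y) :
    P (cnd b x y) := by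
  cases b
  · exact hy rfl
  · exact hx rfl

theorem bnd_t {a b : Bool} (h : bnd a b = true) : a = true ∧ b = true := by
  cases a
  · exact absurd h (by simp [bnd])
  · exact ⟨rfl, h⟩

theorem nz_t {a : ℕ} (h : nz a = true) : a ≠ 0 := by
  have := Nat.le_of_ble_eq_true h
  omega

/-- points with positive coordinates -/
structure Pt where
  x0 : ℝ
  x1 : ℝ
  x2 : ℝ
  x3 : ℝ
  x4 : ℝ
  p0 : 0 < x0
  p1 : 0 < x1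
  p2 : 0 < x2
  p3 : 0 < x3
  p4 : 0 < x4

/-- the monomial described by a word -/
noncomputable def mon (x : Pt) (e : ℕ) : ℝ :=
  x.x0 ^ ((dg e 0 : ℤ) - 8) * x.x1 ^ ((dg e 1 : ℤ) - 8) * x.x2 ^ ((dg e 2 : ℤ) - 8) * x.x3 ^ ((dg e 3 : ℤ) - 8) *
    x.x4 ^ ((dg e 4 : ℤ) - 8)

/-- a coordinate lies between the bounds -/
def I1 (l h : ℕ) (t : ℝ) : Prop := (l : ℝ) ≤ t * 4294967296 ∧ (h ≠ 0 → t * 4294967296 ≤ (h : ℝ))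

/-- a point lies in a box -/
def InBox (b : Bx) (x : Pt) : Prop :=
  I1 b.l0 b.h0 x.x0 ∧ I1 b.l1 b.h1 x.x1 ∧ I1 b.l2 b.h2 x.x2 ∧ I1 b.l3 b.h3 x.x3 ∧ I1 b.l4 b.h4 x.x4

/-- the bounds which are not zero for `z` are not zero for `d` -/
def NZ (d z : Bx) : Prop :=
  ((z.l0 ≠ 0 → d.l0 ≠ 0) ∧ (z.h0 ≠ 0 → d.h0 ≠ 0)) ∧ ((z.l1 ≠ 0 → d.l1 ≠ 0) ∧ (z.h1 ≠ 0 → d.h1 ≠ 0)) ∧
    ((z.l2 ≠ 0 → d.l2 ≠ 0) ∧ (z.h2 ≠ 0 → d.h2 ≠ 0)) ∧ ((z.l3 ≠ 0 → d.l3 ≠ 0) ∧ (z.h3 ≠ 0 → d.h3 ≠ 0)) ∧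
    ((z.l4 ≠ 0 → d.l4 ≠ 0) ∧ (z.h4 ≠ 0 → d.h4 ≠ 0))

theorem mon_pos (x : Pt) (e : ℕ) : 0 < mon x e := by
  have := x.p0
  have := x.p1
  have := x.p2
  have := x.p3
  have := x.p4
  unfold mon
  positivity

theorem dg_eq (e i : ℕ) : dg e i = e / 2 ^ (4 * i) % 16 := by
  unfold dg
  show (e >>> (4 * i)) % 16 = _
  rw [Nat.shiftRight_eq_div_pow]

theorem dg_lt (e i : ℕ) : dg e i < 16 := by
  rw [dg_eq]
  exact Nat.mod_lt _ (by norm_num)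

theorem dg_pack {a0 a1 a2 a3 a4 : ℕ} (h0 : a0 < 16) (h1 : a1 < 16) (h2 : a2 < 16) (h3 : a3 < 16) (h4 : a4 < 16) :
    dg (pack5 a0 a1 a2 a3 a4) 0 = a0 ∧ dg (pack5 a0 a1 a2 a3 a4) 1 = a1 ∧ dg (pack5 a0 a1 a2 a3 a4) 2 = a2 ∧
      dg (pack5 a0 a1 a2 a3 a4) 3 = a3 ∧ dg (pack5 a0 a1 a2 a3 a4) 4 = a4 := by
  have e : pack5 a0 a1 a2 a3 a4 = a0 + 16 * (a1 + 16 * (a2 + 16 * (a3 + 16 * a4))) := rfl
  simp only [dg_eq, e]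
  norm_num
  omega

theorem mon_one (x : Pt) : mon x 559240 = 1 := by
  have h0 : dg 559240 0 = 8 := rfl
  have h1 : dg 559240 1 = 8 := rfl
  have h2 : dg 559240 2 = 8 := rfl
  have h3 : dg 559240 3 = 8 := rfl
  have h4 : dg 559240 4 = 8 := rfl
  simp [mon, h0, h1, h2, h3, h4]

theorem okD_t {t : ℕ} (h : okD t = true) : 8 ≤ t ∧ t ≤ 23 :=
  ⟨Nat.le_of_ble_eq_true (bnd_t h).1, Nat.le_of_ble_eq_true (bnd_t h).2⟩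

theorem mkE_dg {t0 t1 t2 t3 t4 : ℕ} (h : mkE t0 t1 t2 t3 t4 ≠ 0) :
    dg (mkE t0 t1 t2 t3 t4) 0 + 8 = t0 ∧ dg (mkE t0 t1 t2 t3 t4) 1 + 8 = t1 ∧ dg (mkE t0 t1 t2 t3 t4) 2 + 8 = t2 ∧
      dg (mkE t0 t1 t2 t3 t4) 3 + 8 = t3 ∧ dg (mkE t0 t1 t2 t3 t4) 4 + 8 = t4 := by
  revert h
  unfold mkE
  refine cnd_ind (fun e => e ≠ 0 → dg e 0 + 8 = t0 ∧ dg e 1 + 8 = t1 ∧ dg e 2 + 8 = t2 ∧ dg e 3 + 8 = t3 ∧
    dg e 4 + 8 = t4) (fun h _ => ?_) (fun _ h => absurd rfl h)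
  have a := bnd_t h
  have b := bnd_t a.1
  have k0 := okD_t (bnd_t b.1).1
  have k1 := okD_t (bnd_t b.1).2
  have k2 := okD_t (bnd_t b.2).1
  have k3 := okD_t (bnd_t b.2).2
  have k4 := okD_t a.2
  have := @dg_pack (t0 - 8) (t1 - 8) (t2 - 8) (t3 - 8) (t4 - 8) (by omega) (by omega) (by omega) (by omega) (by omega)
  simp only [Nat.sub_eq]
  omega

theorem zp_add {t : ℝ} (ht : 0 < t) {a b c : ℕ} (h : c + 8 = a + b) :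
    t ^ ((c : ℤ) - 8) = t ^ ((a : ℤ) - 8) * t ^ ((b : ℤ) - 8) := by
  rw [← zpow_add₀ ht.ne']
  congr 1
  omega

theorem mon_mul' (x : Pt) {a b c : ℕ} (h0 : dg c 0 + 8 = dg a 0 + dg b 0) (h1 : dg c 1 + 8 = dg a 1 + dg b 1)
    (h2 : dg c 2 + 8 = dg a 2 + dg b 2) (h3 : dg c 3 + 8 = dg a 3 + dg b 3) (h4 : dg c 4 + 8 = dg a 4 + dg b 4) :
    mon x c = mon x a * mon x b := by
  unfold mon
  rw [zp_add x.p0 h0, zp_add x.p1 h1, zp_add x.p2 h2, zp_add x.p3 h3, zp_add x.p4 h4]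
  ring

theorem mon_eMul (x : Pt) {a b : ℕ} (h : eMul a b ≠ 0) : mon x (eMul a b) = mon x a * mon x b := by
  obtain ⟨h0, h1, h2, h3, h4⟩ := mkE_dg h
  exact mon_mul' x h0 h1 h2 h3 h4

theorem mon_eDiv (x : Pt) {a b : ℕ} (h : eDiv a b ≠ 0) : mon x a = mon x (eDiv a b) * mon x b := by
  obtain ⟨h0, h1, h2, h3, h4⟩ := mkE_dg h
  have := dg_lt b 0
  have := dg_lt b 1
  have := dg_lt b 2
  have := dg_lt b 3
  have := dg_lt b 4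
  simp only [Nat.sub_eq, Nat.add_eq] at h0 h1 h2 h3 h4
  unfold eDiv
  simp only [Nat.sub_eq, Nat.add_eq]
  apply mon_mul' x <;> omega

theorem pf_eq (k : ℕ) (get acc : Bx → ℕ) (κ : (Bx → ℕ) → RS) :
    pf k get acc κ = κ fun d => acc d * get d ^ k := by
  unfold pf
  rcases k with _ | _ | k
  · simp [cnd_t]
  · simp only [Nat.zero_add, pow_one]
    rfl
  · rfl

/-- product of five powers -/
def p5 (k0 k1 k2 k3 k4 a0 a1 a2 a3 a4 : ℕ) : ℕ := a0 ^ k0 * a1 ^ k1 * a2 ^ k2 * a3 ^ k3 * a4 ^ k4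

theorem pf5_eq (c k0 k1 k2 k3 k4 : ℕ) (g0 g1 g2 g3 g4 : Bx → ℕ) (κ : (Bx → ℕ) → RS) :
    pf5 c k0 k1 k2 k3 k4 g0 g1 g2 g3 g4 κ = κ fun d => c * p5 k0 k1 k2 k3 k4 (g0 d) (g1 d) (g2 d) (g3 d) (g4 d) := by
  unfold pf5 p5
  simp only [pf_eq]
  congr 1
  funext d
  ring

theorem pw_lo {l h : ℕ} {t : ℝ} (hI : I1 l h t) (k : ℕ) : ((l ^ k : ℕ) : ℝ) ≤ t ^ k * 4294967296 ^ k := by
  rw [← mul_pow, Nat.cast_pow]
  exact pow_le_pow_left₀ (Nat.cast_nonneg _) hI.1 k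

theorem pw_hi {l h : ℕ} {t : ℝ} (ht : 0 < t) (hI : I1 l h t) (k : ℕ) (hk : h ^ k ≠ 0) :
    t ^ k * 4294967296 ^ k ≤ ((h ^ k : ℕ) : ℝ) := by
  rcases Nat.eq_zero_or_pos k with rfl | hk0
  · simp
  · have h0 : h ≠ 0 := by
      rintro rfl
      exact hk (zero_pow hk0.ne')
    rw [← mul_pow, Nat.cast_pow]
    exact pow_le_pow_left₀ (by positivity) (hI.2 h0) k

/-- product of five real powers -/
noncomputable def q5 (x : Pt) (k0 k1 k2 k3 k4 : ℕ) : ℝ := x.x0 ^ k0 * x.x1 ^ k1 * x.x2 ^ k2 * x.x3 ^ k3 * x.x4 ^ k4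

theorem q5_pos (x : Pt) (k0 k1 k2 k3 k4 : ℕ) : 0 < q5 x k0 k1 k2 k3 k4 := by
  have := x.p0
  have := x.p1
  have := x.p2
  have := x.p3
  have := x.p4
  unfold q5
  positivity

theorem p5_lo {d : Bx} {x : Pt} (hb : InBox d x) (k0 k1 k2 k3 k4 : ℕ) :
    ((p5 k0 k1 k2 k3 k4 d.l0 d.l1 d.l2 d.l3 d.l4 : ℕ) : ℝ) ≤
      q5 x k0 k1 k2 k3 k4 * 4294967296 ^ sum5 k0 k1 k2 k3 k4 := by
  obtain ⟨h0, h1, h2, h3, h4⟩ := hb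
  have e : q5 x k0 k1 k2 k3 k4 * 4294967296 ^ sum5 k0 k1 k2 k3 k4 = (x.x0 ^ k0 * 4294967296 ^ k0) *
      (x.x1 ^ k1 * 4294967296 ^ k1) * (x.x2 ^ k2 * 4294967296 ^ k2) * (x.x3 ^ k3 * 4294967296 ^ k3) *
      (x.x4 ^ k4 * 4294967296 ^ k4) := by
    simp only [q5, sum5, Nat.add_eq, pow_add]
    ring
  have := x.p0
  have := x.p1
  have := x.p2
  have := x.p3
  have := x.p4
  rw [e, p5, Nat.cast_mul, Nat.cast_mul, Nat.cast_mul, Nat.cast_mul]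
  gcongr
  · exact pw_lo h0 _
  · exact pw_lo h1 _
  · exact pw_lo h2 _
  · exact pw_lo h3 _
  · exact pw_lo h4 _

theorem p5_hi {d : Bx} {x : Pt} (hb : InBox d x) (k0 k1 k2 k3 k4 : ℕ)
    (hn : p5 k0 k1 k2 k3 k4 d.h0 d.h1 d.h2 d.h3 d.h4 ≠ 0) :
    q5 x k0 k1 k2 k3 k4 * 4294967296 ^ sum5 k0 k1 k2 k3 k4 ≤
      ((p5 k0 k1 k2 k3 k4 d.h0 d.h1 d.h2 d.h3 d.h4 : ℕ) : ℝ) := by
  obtain ⟨h0, h1, h2, h3, h4⟩ := hb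
  have e : q5 x k0 k1 k2 k3 k4 * 4294967296 ^ sum5 k0 k1 k2 k3 k4 = (x.x0 ^ k0 * 4294967296 ^ k0) *
      (x.x1 ^ k1 * 4294967296 ^ k1) * (x.x2 ^ k2 * 4294967296 ^ k2) * (x.x3 ^ k3 * 4294967296 ^ k3) *
      (x.x4 ^ k4 * 4294967296 ^ k4) := by
    simp only [q5, sum5, Nat.add_eq, pow_add]
    ring
  have := x.p0
  have := x.p1
  have := x.p2
  have := x.p3
  have := x.p4
  simp only [p5, ne_eq, Nat.mul_eq_zero, not_or] at hn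
  obtain ⟨⟨⟨⟨n0, n1⟩, n2⟩, n3⟩, n4⟩ := hn
  rw [e, p5, Nat.cast_mul, Nat.cast_mul, Nat.cast_mul, Nat.cast_mul]
  gcongr
  · exact pw_hi x.p0 h0 _ n0
  · exact pw_hi x.p1 h1 _ n1
  · exact pw_hi x.p2 h2 _ n2
  · exact pw_hi x.p3 h3 _ n3
  · exact pw_hi x.p4 h4 _ n4

theorem pw_nz {a b k : ℕ} (h : b ≠ 0 → a ≠ 0) (hb : b ^ k ≠ 0) : a ^ k ≠ 0 := by
  rcases Nat.eq_zero_or_pos k with rfl | hk0
  · simp
  · apply pow_ne_zero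
    apply h
    rintro rfl
    exact hb (zero_pow hk0.ne')

theorem p5_nz {a0 a1 a2 a3 a4 b0 b1 b2 b3 b4 : ℕ} (k0 k1 k2 k3 k4 : ℕ) (h0 : b0 ≠ 0 → a0 ≠ 0) (h1 : b1 ≠ 0 → a1 ≠ 0)
    (h2 : b2 ≠ 0 → a2 ≠ 0) (h3 : b3 ≠ 0 → a3 ≠ 0) (h4 : b4 ≠ 0 → a4 ≠ 0)
    (hn : p5 k0 k1 k2 k3 k4 b0 b1 b2 b3 b4 ≠ 0) : p5 k0 k1 k2 k3 k4 a0 a1 a2 a3 a4 ≠ 0 := by
  simp only [p5, ne_eq, Nat.mul_eq_zero, not_or] at hn ⊢
  obtain ⟨⟨⟨⟨n0, n1⟩, n2⟩, n3⟩, n4⟩ := hn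
  exact ⟨⟨⟨⟨pw_nz h0 n0, pw_nz h1 n1⟩, pw_nz h2 n2⟩, pw_nz h3 n3⟩, pw_nz h4 n4⟩

theorem zp_split {t : ℝ} (ht : 0 < t) (g : ℕ) : t ^ ((g : ℤ) - 8) * t ^ (8 - g) = t ^ (g - 8) := by
  rw [← zpow_natCast, ← zpow_natCast, ← zpow_add₀ ht.ne']
  congr 1
  omega

theorem mon_q5 (x : Pt) (q : ℕ) :
    mon x q * q5 x (8 - dg q 0) (8 - dg q 1) (8 - dg q 2) (8 - dg q 3) (8 - dg q 4) =
      q5 x (dg q 0 - 8) (dg q 1 - 8) (dg q 2 - 8) (dg q 3 - 8) (dg q 4 - 8) := by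
  unfold mon q5
  rw [← zp_split x.p0, ← zp_split x.p1, ← zp_split x.p2, ← zp_split x.p3, ← zp_split x.p4]
  ring

/-- the bounds of a monomial -/
def RB (x : Pt) (d z : Bx) (q : ℕ) (r : RS) : Prop :=
  (r.lo d : ℝ) ≤ mon x q * 4294967296 ∧ (r.hi z ≠ 0 → mon x q * 4294967296 ≤ (r.hi d : ℝ))

theorem cdiv_le {a b : ℕ} (hb : b ≠ 0) : a ≤ (a + (b - 1)) / b * b := by
  have := Nat.div_add_mod (a + (b - 1)) b
  have := Nat.mod_lt (a + (b - 1)) (Nat.pos_of_ne_zero hb)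
  rw [Nat.mul_comm]
  omega

theorem rS_aux {M P Q : ℝ} {sp sn : ℕ} (hM : M * Q = P) :
    (P * 4294967296 ^ sp) * 4294967296 ^ (sn + 1 - sp) =
      (M * 4294967296) * ((Q * 4294967296 ^ sn) * 4294967296 ^ (sp - (sn + 1))) := by
  have e : sp + (sn + 1 - sp) = 1 + sn + (sp - (sn + 1)) := by omega
  have e2 : (4294967296 : ℝ) ^ sp * 4294967296 ^ (sn + 1 - sp) =
      4294967296 * 4294967296 ^ sn * 4294967296 ^ (sp - (sn + 1)) := by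
    rw [← pow_add, e, pow_add, pow_add, pow_one]
  rw [← hM, mul_assoc, e2]
  ring

theorem rS2_sound {x : Pt} {d z : Bx} (hb : InBox d x) (hz : NZ d z) {M : ℝ} (hM0 : 0 < M)
    (p0 p1 p2 p3 p4 n0 n1 n2 n3 n4 : ℕ) (hM : M * q5 x n0 n1 n2 n3 n4 = q5 x p0 p1 p2 p3 p4) :
    ((rS2 p0 p1 p2 p3 p4 n0 n1 n2 n3 n4).lo d : ℝ) ≤ M * 4294967296 ∧
      ((rS2 p0 p1 p2 p3 p4 n0 n1 n2 n3 n4).hi z ≠ 0 →
        M * 4294967296 ≤ ((rS2 p0 p1 p2 p3 p4 n0 n1 n2 n3 n4).hi d : ℝ)) := by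
  have key := @rS_aux M _ _ (sum5 p0 p1 p2 p3 p4) (sum5 n0 n1 n2 n3 n4) hM
  have hQ := q5_pos x n0 n1 n2 n3 n4
  unfold rS2 rS1
  simp only [strict_eq', pf5_eq, Nat.add_eq, Nat.sub_eq, Nat.pow_eq]
  generalize hA : sum5 n0 n1 n2 n3 n4 + 1 - sum5 p0 p1 p2 p3 p4 = A at key ⊢
  generalize hB : sum5 p0 p1 p2 p3 p4 - (sum5 n0 n1 n2 n3 n4 + 1) = B at key ⊢
  constructor
  · show (((4294967296 ^ A * p5 p0 p1 p2 p3 p4 d.l0 d.l1 d.l2 d.l3 d.l4) /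
      (4294967296 ^ B * p5 n0 n1 n2 n3 n4 d.h0 d.h1 d.h2 d.h3 d.h4) : ℕ) : ℝ) ≤ _
    by_cases hn : p5 n0 n1 n2 n3 n4 d.h0 d.h1 d.h2 d.h3 d.h4 = 0
    · rw [hn]
      simp only [mul_zero, Nat.div_zero, Nat.cast_zero]
      positivity
    · have u := p5_hi hb n0 n1 n2 n3 n4 hn
      have l := p5_lo hb p0 p1 p2 p3 p4
      refine le_trans Nat.cast_div_le ?_
      have hY : (0 : ℝ) < (p5 n0 n1 n2 n3 n4 d.h0 d.h1 d.h2 d.h3 d.h4 : ℕ) := by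
        exact_mod_cast Nat.pos_of_ne_zero hn
      push_cast
      rw [div_le_iff₀ (by positivity)]
      calc (4294967296 : ℝ) ^ A * (p5 p0 p1 p2 p3 p4 d.l0 d.l1 d.l2 d.l3 d.l4 : ℕ)
          ≤ 4294967296 ^ A * (q5 x p0 p1 p2 p3 p4 * 4294967296 ^ sum5 p0 p1 p2 p3 p4) := by gcongr
        _ = (M * 4294967296) * (4294967296 ^ B * (q5 x n0 n1 n2 n3 n4 * 4294967296 ^ sum5 n0 n1 n2 n3 n4)) := by
          rw [mul_comm, key]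
          ring
        _ ≤ _ := by gcongr
  · intro h
    have h' : (4294967296 ^ A * p5 p0 p1 p2 p3 p4 z.h0 z.h1 z.h2 z.h3 z.h4 +
      (4294967296 ^ B * p5 n0 n1 n2 n3 n4 z.l0 z.l1 z.l2 z.l3 z.l4 - 1)) /
      (4294967296 ^ B * p5 n0 n1 n2 n3 n4 z.l0 z.l1 z.l2 z.l3 z.l4) ≠ 0 := h
    have y0 : p5 n0 n1 n2 n3 n4 z.l0 z.l1 z.l2 z.l3 z.l4 ≠ 0 := by
      intro e
      rw [e] at h'
      simp at h'
    have x0 : p5 p0 p1 p2 p3 p4 z.h0 z.h1 z.h2 z.h3 z.h4 ≠ 0 := by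
      intro e
      rw [e] at h'
      apply h'
      apply Nat.div_eq_of_lt
      have : 0 < 4294967296 ^ B * p5 n0 n1 n2 n3 n4 z.l0 z.l1 z.l2 z.l3 z.l4 :=
        Nat.mul_pos (by positivity) (Nat.pos_of_ne_zero y0)
      omega
    obtain ⟨z0, z1, z2, z3, z4⟩ := hz
    have y1 := p5_nz n0 n1 n2 n3 n4 z0.1 z1.1 z2.1 z3.1 z4.1 y0
    have x1 := p5_nz p0 p1 p2 p3 p4 z0.2 z1.2 z2.2 z3.2 z4.2 x0
    have u := p5_hi hb p0 p1 p2 p3 p4 x1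
    have l := p5_lo hb n0 n1 n2 n3 n4
    have c := @cdiv_le (4294967296 ^ A * p5 p0 p1 p2 p3 p4 d.h0 d.h1 d.h2 d.h3 d.h4)
      (4294967296 ^ B * p5 n0 n1 n2 n3 n4 d.l0 d.l1 d.l2 d.l3 d.l4) (Nat.mul_ne_zero (by positivity) y1)
    show _ ≤ (((4294967296 ^ A * p5 p0 p1 p2 p3 p4 d.h0 d.h1 d.h2 d.h3 d.h4 +
      (4294967296 ^ B * p5 n0 n1 n2 n3 n4 d.l0 d.l1 d.l2 d.l3 d.l4 - 1)) /
      (4294967296 ^ B * p5 n0 n1 n2 n3 n4 d.l0 d.l1 d.l2 d.l3 d.l4) : ℕ) : ℝ)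
    generalize (4294967296 ^ A * p5 p0 p1 p2 p3 p4 d.h0 d.h1 d.h2 d.h3 d.h4 +
      (4294967296 ^ B * p5 n0 n1 n2 n3 n4 d.l0 d.l1 d.l2 d.l3 d.l4 - 1)) /
      (4294967296 ^ B * p5 n0 n1 n2 n3 n4 d.l0 d.l1 d.l2 d.l3 d.l4) = r at c ⊢
    have c' : (4294967296 : ℝ) ^ A * (p5 p0 p1 p2 p3 p4 d.h0 d.h1 d.h2 d.h3 d.h4 : ℕ) ≤
        r * (4294967296 ^ B * (p5 n0 n1 n2 n3 n4 d.l0 d.l1 d.l2 d.l3 d.l4 : ℕ)) := by exact_mod_cast c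
    have hW : (0 : ℝ) < 4294967296 ^ B * (q5 x n0 n1 n2 n3 n4 * 4294967296 ^ sum5 n0 n1 n2 n3 n4) := by positivity
    refine le_of_mul_le_mul_right ?_ hW
    calc (M * 4294967296) * (4294967296 ^ B * (q5 x n0 n1 n2 n3 n4 * 4294967296 ^ sum5 n0 n1 n2 n3 n4))
        = 4294967296 ^ A * (q5 x p0 p1 p2 p3 p4 * 4294967296 ^ sum5 p0 p1 p2 p3 p4) := by
          rw [mul_comm (4294967296 ^ A : ℝ), key]
          ring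
      _ ≤ 4294967296 ^ A * (p5 p0 p1 p2 p3 p4 d.h0 d.h1 d.h2 d.h3 d.h4 : ℕ) := by gcongr
      _ ≤ r * (4294967296 ^ B * (p5 n0 n1 n2 n3 n4 d.l0 d.l1 d.l2 d.l3 d.l4 : ℕ)) := c'
      _ ≤ _ := by gcongr

theorem rS_sound {x : Pt} {d z : Bx} (hb : InBox d x) (hz : NZ d z) (q : ℕ) : RB x d z q (rS q) :=
  rS2_sound hb hz (mon_pos x q) _ _ _ _ _ _ _ _ _ _ (mon_q5 x q)

end Pool.Agent.Work.MP_f4b644_ag.Mid
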