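import Pool.Agent.Work.MP_f4b644_ag.Mid.DomM

/-!
Numerical lemmas for scaled intervals: `Lo v l M` says `l * M ≤ v * S`, and `Hi v h M` says `v * S ≤ h * M`.
-/

namespace Pool.Agent.Work.MP_f4b644_ag.Mid

open Pool.Agent.Lib.KLA

/-- lower bound -/
def Lo (v l : ℕ) (M : ℝ) : Prop := (l : ℝ) * M ≤ (v : ℝ) * 4294967296

/-- upper bound -/
def Hi (v h : ℕ) (M : ℝ) : Prop := (v : ℝ) * 4294967296 ≤ (h : ℝ) * M

theorem shr32 (a : ℕ) : Nat.shiftRight a 32 = a / 4294967296 := by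
  show a >>> 32 = _
  rw [Nat.shiftRight_eq_div_pow]

theorem shr64 (a : ℕ) : Nat.shiftRight a 64 = a / 18446744073709551616 := by
  show a >>> 64 = _
  rw [Nat.shiftRight_eq_div_pow]

theorem shl32 (a : ℕ) : Nat.shiftLeft a 32 = a * 4294967296 := by
  show a <<< 32 = _
  rw [Nat.shiftLeft_eq]

theorem Lo_one {v l : ℕ} : Lo v l 1 ↔ l ≤ v * 4294967296 := by
  unfold Lo
  rw [mul_one]
  exact_mod_cast Iff.rfl

theorem Hi_one {v h : ℕ} : Hi v h 1 ↔ v * 4294967296 ≤ h := by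
  unfold Hi
  rw [mul_one]
  exact_mod_cast Iff.rfl

theorem Lo_zero (v : ℕ) (M : ℝ) : Lo v 0 M := by
  unfold Lo
  rw [Nat.cast_zero, zero_mul]
  positivity

theorem Hi.zero {v : ℕ} {M : ℝ} (h : Hi v 0 M) : v = 0 := by
  unfold Hi at h
  rw [Nat.cast_zero, zero_mul] at h
  have : (0 : ℝ) ≤ v := Nat.cast_nonneg v
  have : (v : ℝ) = 0 := by linarith
  exact_mod_cast this

theorem Lo.mono {v v' l : ℕ} {M : ℝ} (h : Lo v l M) (hv : v ≤ v') : Lo v' l M := by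
  unfold Lo at h ⊢
  have : (v : ℝ) ≤ v' := by exact_mod_cast hv
  linarith

theorem Hi.mono {v v' h : ℕ} {M : ℝ} (H : Hi v h M) (hv : v' ≤ v) : Hi v' h M := by
  unfold Hi at H ⊢
  have : (v' : ℝ) ≤ v := by exact_mod_cast hv
  linarith

theorem Lo.less {v l l' : ℕ} {M : ℝ} (hM : 0 < M) (h : Lo v l M) (hl : l' ≤ l) : Lo v l' M := by
  unfold Lo at h ⊢
  have : (l' : ℝ) ≤ l := by exact_mod_cast hl
  have := mul_le_mul_of_nonneg_right this hM.le
  linarith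

theorem Hi.more {v h h' : ℕ} {M : ℝ} (hM : 0 < M) (H : Hi v h M) (hl : h ≤ h') : Hi v h' M := by
  unfold Hi at H ⊢
  have : (h : ℝ) ≤ h' := by exact_mod_cast hl
  have := mul_le_mul_of_nonneg_right this hM.le
  linarith

theorem Lo.pos {v l : ℕ} {M : ℝ} (hM : 0 < M) (h : Lo v l M) (hl : l ≠ 0) : v ≠ 0 := by
  rintro rfl
  unfold Lo at h
  have : (0 : ℝ) < l := by exact_mod_cast Nat.pos_of_ne_zero hl
  have := mul_pos this hM
  rw [Nat.cast_zero, zero_mul] at h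
  linarith

theorem le_of_Hi_Lo {a b h l : ℕ} {M : ℝ} (hM : 0 < M) (ha : Hi a h M) (hb : Lo b l M) (hl : h ≤ l) : a ≤ b := by
  have := ha.more hM hl
  unfold Hi at this
  unfold Lo at hb
  have : (a : ℝ) ≤ b := by linarith
  exact_mod_cast this

theorem Lo.add {a b la lb : ℕ} {M : ℝ} (ha : Lo a la M) (hb : Lo b lb M) : Lo (a + b) (Nat.add la lb) M := by
  unfold Lo at ha hb ⊢
  rw [Nat.add_eq]
  push_cast
  linarith

theorem Hi.add {a b ha hb : ℕ} {M : ℝ} (Ha : Hi a ha M) (Hb : Hi b hb M) : Hi (a + b) (Nat.add ha hb) M := by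
  unfold Hi at Ha Hb ⊢
  rw [Nat.add_eq]
  push_cast
  linarith

theorem Lo.sub {a b la hb : ℕ} {M : ℝ} (ha : Lo a la M) (Hb : Hi b hb M) : Lo (a - b) (Nat.sub la hb) M := by
  rw [Nat.sub_eq]
  rcases Nat.le_total la hb with h | h
  · rw [Nat.sub_eq_zero_of_le h]
    exact Lo_zero _ _
  · unfold Lo at ha ⊢
    unfold Hi at Hb
    have e : (a : ℝ) ≤ ((a - b : ℕ) : ℝ) + b := by exact_mod_cast (by omega : a ≤ a - b + b)
    rw [Nat.cast_sub h]
    linarith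

theorem Hi.sub {a b ha lb : ℕ} {M : ℝ} (hM : 0 < M) (Ha : Hi a ha M) (hb : Lo b lb M) :
    Hi (a - b) (Nat.sub ha lb) M := by
  rw [Nat.sub_eq]
  unfold Hi at Ha ⊢
  unfold Lo at hb
  rcases Nat.le_total a b with h | h
  · rw [Nat.sub_eq_zero_of_le h, Nat.cast_zero, zero_mul]
    positivity
  · have e : (ha : ℝ) ≤ ((ha - lb : ℕ) : ℝ) + lb := by exact_mod_cast (by omega : ha ≤ ha - lb + lb)
    have := mul_le_mul_of_nonneg_right e hM.le
    rw [Nat.cast_sub h]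
    linarith

theorem dn_le (a : ℕ) : ((Nat.shiftRight a 32 : ℕ) : ℝ) * 4294967296 ≤ a := by
  rw [shr32]
  exact_mod_cast Nat.div_mul_le_self a 4294967296

theorem le_up (a : ℕ) : (a : ℝ) ≤ ((Nat.shiftRight (Nat.add a 4294967295) 32 : ℕ) : ℝ) * 4294967296 := by
  rw [shr32, Nat.add_eq]
  exact_mod_cast (by omega : a ≤ (a + 4294967295) / 4294967296 * 4294967296)

theorem Lo.mul {a b la lb : ℕ} {M N : ℝ} (hM : 0 < M) (hN : 0 < N) (ha : Lo a la M) (hb : Lo b lb N) :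
    Lo (a * b) (Nat.shiftRight (Nat.mul la lb) 32) (M * N) := by
  have e := dn_le (Nat.mul la lb)
  unfold Lo at ha hb ⊢
  generalize Nat.shiftRight (Nat.mul la lb) 32 = r at e ⊢
  rw [Nat.mul_eq, Nat.cast_mul] at e
  have h1 : (la * M) * (lb * N) ≤ ((a : ℝ) * 4294967296) * (b * 4294967296) :=
    mul_le_mul ha hb (by positivity) (by positivity)
  have h2 := mul_le_mul_of_nonneg_right e (mul_pos hM hN).le
  push_cast
  nlinarith

theorem Hi.mul {a b ha hb : ℕ} {M N : ℝ} (hM : 0 < M) (hN : 0 < N) (Ha : Hi a ha M) (Hb : Hi b hb N) :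
    Hi (a * b) (Nat.shiftRight (Nat.add (Nat.mul ha hb) 4294967295) 32) (M * N) := by
  have e := le_up (Nat.mul ha hb)
  unfold Hi at Ha Hb ⊢
  generalize Nat.shiftRight (Nat.add (Nat.mul ha hb) 4294967295) 32 = r at e ⊢
  rw [Nat.mul_eq, Nat.cast_mul] at e
  have h1 : ((a : ℝ) * 4294967296) * (b * 4294967296) ≤ (ha * M) * (hb * N) :=
    mul_le_mul Ha Hb (by positivity) (by positivity)
  have h2 := mul_le_mul_of_nonneg_right e (mul_pos hM hN).le
  push_cast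
  nlinarith

theorem Lo.cv0 {b lb rl : ℕ} {Q M : ℝ} (hM : 0 < M) (hb : Lo b lb (Q * M)) (hr : (rl : ℝ) ≤ Q * 4294967296) :
    ((lb : ℝ) * rl) * M ≤ (b : ℝ) * 4294967296 * 4294967296 := by
  unfold Lo at hb
  have h1 : (lb : ℝ) * rl * M ≤ lb * (Q * 4294967296) * M := by gcongr
  linarith

theorem Hi.cv0 {b hb rh : ℕ} {Q M : ℝ} (hM : 0 < M) (Hb : Hi b hb (Q * M)) (hr : Q * 4294967296 ≤ (rh : ℝ)) :
    (b : ℝ) * 4294967296 * 4294967296 ≤ ((hb : ℝ) * rh) * M := by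
  unfold Hi at Hb
  have h1 : (hb : ℝ) * (Q * 4294967296) * M ≤ hb * rh * M := by gcongr
  linarith

theorem Lo.cv {b lb rl : ℕ} {Q M : ℝ} (hM : 0 < M) (hb : Lo b lb (Q * M)) (hr : (rl : ℝ) ≤ Q * 4294967296) :
    Lo b (Nat.shiftRight (Nat.mul lb rl) 32) M := by
  have h := hb.cv0 hM hr
  have e := dn_le (Nat.mul lb rl)
  unfold Lo
  generalize Nat.shiftRight (Nat.mul lb rl) 32 = r at e ⊢
  rw [Nat.mul_eq, Nat.cast_mul] at e
  have h2 := mul_le_mul_of_nonneg_right e hM.le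
  linarith

theorem Hi.cv {b hb rh : ℕ} {Q M : ℝ} (hM : 0 < M) (Hb : Hi b hb (Q * M)) (hr : Q * 4294967296 ≤ (rh : ℝ)) :
    Hi b (Nat.shiftRight (Nat.add (Nat.mul hb rh) 4294967295) 32) M := by
  have h := Hb.cv0 hM hr
  have e := le_up (Nat.mul hb rh)
  unfold Hi
  generalize Nat.shiftRight (Nat.add (Nat.mul hb rh) 4294967295) 32 = r at e ⊢
  rw [Nat.mul_eq, Nat.cast_mul] at e
  have h2 := mul_le_mul_of_nonneg_right e hM.le
  linarith

theorem Lo.cvP {b lb rl : ℕ} {Q : ℝ} (hb : Lo b lb (Q * 1)) (hr : (rl : ℝ) ≤ Q * 4294967296) :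
    Lo b (Nat.shiftLeft (Nat.shiftRight (Nat.add (Nat.mul lb rl) 18446744073709551615) 64) 32) 1 := by
  have h := hb.cv0 one_pos hr
  rw [mul_one] at h
  have h' : lb * rl ≤ b * 4294967296 * 4294967296 := by exact_mod_cast h
  rw [Lo_one, shl32, shr64, Nat.add_eq, Nat.mul_eq]
  omega

theorem Hi.cvP {b hb rh : ℕ} {Q : ℝ} (Hb : Hi b hb (Q * 1)) (hr : Q * 4294967296 ≤ (rh : ℝ)) :
    Hi b (Nat.shiftLeft (Nat.shiftRight (Nat.mul hb rh) 64) 32) 1 := by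
  have h := Hb.cv0 one_pos hr
  rw [mul_one] at h
  have h' : b * 4294967296 * 4294967296 ≤ hb * rh := by exact_mod_cast h
  rw [Hi_one, shl32, shr64, Nat.mul_eq]
  apply Nat.mul_le_mul_right
  rw [Nat.le_div_iff_mul_le (by norm_num)]
  rw [Nat.mul_assoc] at h'
  exact h'

theorem Lo.rup {v l : ℕ} (h : Lo v l 1) : Lo v (Nat.shiftLeft (Nat.shiftRight (Nat.add l 4294967295) 32) 32) 1 := by
  rw [Lo_one] at h
  rw [Lo_one, shl32, shr32, Nat.add_eq]
  omega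

theorem Hi.rdn {v h : ℕ} (H : Hi v h 1) : Hi v (Nat.shiftLeft (Nat.shiftRight h 32) 32) 1 := by
  rw [Hi_one] at H
  rw [Hi_one, shl32, shr32]
  omega

theorem div_le_div_of {a b c e : ℕ} (hb : b ≠ 0) (he : e ≠ 0) (h : (a : ℝ) * e ≤ (c : ℝ) * b) : a / b ≤ c / e := by
  have h' : a * e ≤ c * b := by exact_mod_cast h
  rw [Nat.le_div_iff_mul_le (Nat.pos_of_ne_zero he)]
  apply Nat.le_of_mul_le_mul_right _ (Nat.pos_of_ne_zero hb)
  calc a / b * e * b = a / b * b * e := by ring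
    _ ≤ a * e := Nat.mul_le_mul_right _ (Nat.div_mul_le_self a b)
    _ ≤ _ := h'

theorem quo_lo {a b la hb : ℕ} {M : ℝ} (ha : Lo a la M) (Hb : Hi b hb M) (b0 : b ≠ 0) :
    la / hb ≤ a / b := by
  rcases Nat.eq_zero_or_pos hb with rfl | h0
  · simp
  · apply div_le_div_of h0.ne' b0
    unfold Lo at ha
    unfold Hi at Hb
    have h1 : (la : ℝ) * (b * 4294967296) ≤ la * (hb * M) := by gcongr
    have h2 : (hb : ℝ) * (la * M) ≤ hb * (a * 4294967296) := by gcongr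
    nlinarith

theorem quo_hi {a b ha lb : ℕ} {M : ℝ} (hM : 0 < M) (Ha : Hi a ha M) (hb : Lo b lb M) (l0 : lb ≠ 0) :
    a / b ≤ ha / lb := by
  apply div_le_div_of (hb.pos hM l0) l0
  unfold Lo at hb
  unfold Hi at Ha
  have h1 : (lb : ℝ) * (a * 4294967296) ≤ lb * (ha * M) := by gcongr
  have h2 : (ha : ℝ) * (lb * M) ≤ ha * (b * 4294967296) := by gcongr
  nlinarith

theorem quo_hi' {a b ha rh lb : ℕ} {Q M : ℝ} (hM : 0 < M) (Ha : Hi a ha (Q * M)) (hr : Q * 4294967296 ≤ (rh : ℝ))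
    (hb : Lo b lb M) (l0 : lb ≠ 0) : a / b ≤ Nat.shiftRight (Nat.mul ha rh) 32 / lb := by
  rw [shr32, Nat.div_div_eq_div_mul, Nat.mul_eq]
  apply div_le_div_of (hb.pos hM l0) (Nat.mul_ne_zero (by norm_num) l0)
  have h := Ha.cv0 hM hr
  unfold Lo at hb
  have h1 : (lb : ℝ) * (a * 4294967296 * 4294967296) ≤ lb * (ha * rh * M) := by gcongr
  have h2 : ((ha : ℝ) * rh) * (lb * M) ≤ (ha * rh) * (b * 4294967296) := by gcongr
  push_cast
  nlinarith

theorem Lo.quo {a b la hb rh : ℕ} {Q M P : ℝ} (hQ : 0 < Q) (hM : 0 < M) (ha : Lo a la (Q * M)) (Hb : Hi b hb M)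
    (b0 : b ≠ 0) (hP : 1 = P * Q) (hr : P * 4294967296 ≤ (rh : ℝ)) :
    Lo (a / b) (Nat.sub (Nat.div (Nat.shiftLeft la 32) hb) rh) Q := by
  rw [Nat.sub_eq, shl32]
  show Lo _ (la * 4294967296 / hb - rh) _
  have e : ((la * 4294967296 / hb : ℕ) : ℝ) * hb ≤ la * 4294967296 := by
    exact_mod_cast Nat.div_mul_le_self (la * 4294967296) hb
  generalize la * 4294967296 / hb = r at e ⊢
  rcases Nat.le_total r rh with h | h
  · rw [Nat.sub_eq_zero_of_le h]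
    exact Lo_zero _ _
  · unfold Lo at ha ⊢
    unfold Hi at Hb
    have bp : (0 : ℝ) < b := by exact_mod_cast Nat.pos_of_ne_zero b0
    have e2 : (a : ℝ) ≤ ((a / b : ℕ) + 1) * b := by
      have := Nat.div_add_mod a b
      have := Nat.mod_lt a (Nat.pos_of_ne_zero b0)
      have : a ≤ (a / b + 1) * b := by
        rw [Nat.add_mul, Nat.mul_comm]
        omega
      exact_mod_cast this
    generalize a / b = q at e2 ⊢
    have h1 : (r : ℝ) * Q * (b * 4294967296) ≤ r * Q * (hb * M) := by gcongr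
    have h2 : ((r : ℝ) * hb) * (Q * M) ≤ (la * 4294967296) * (Q * M) := by gcongr
    have h3 : (r : ℝ) * Q * b ≤ ((q + 1) * 4294967296) * b := by nlinarith
    have h4 : (r : ℝ) * Q ≤ (q + 1) * 4294967296 := le_of_mul_le_mul_right h3 bp
    have h5 : (P * 4294967296) * Q ≤ rh * Q := by gcongr
    rw [Nat.cast_sub h]
    nlinarith

theorem Hi.quo {a b ha lb : ℕ} {Q M : ℝ} (hQ : 0 < Q) (hM : 0 < M) (Ha : Hi a ha (Q * M)) (hb : Lo b lb M)
    (l0 : lb ≠ 0) : Hi (a / b) (Nat.add (Nat.div (Nat.shiftLeft ha 32) lb) 1) Q := by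
  rw [Nat.add_eq, shl32]
  show Hi _ (ha * 4294967296 / lb + 1) _
  have e : (ha : ℝ) * 4294967296 ≤ ((ha * 4294967296 / lb + 1 : ℕ) : ℝ) * lb := by
    have := Nat.div_add_mod (ha * 4294967296) lb
    have := Nat.mod_lt (ha * 4294967296) (Nat.pos_of_ne_zero l0)
    have : ha * 4294967296 ≤ (ha * 4294967296 / lb + 1) * lb := by
      rw [Nat.add_mul, Nat.mul_comm _ lb]
      omega
    exact_mod_cast this
  generalize ha * 4294967296 / lb + 1 = r at e ⊢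
  have e2 : ((a / b : ℕ) : ℝ) * b ≤ a := by exact_mod_cast Nat.div_mul_le_self a b
  generalize a / b = q at e2 ⊢
  unfold Hi at Ha ⊢
  unfold Lo at hb
  have lp : (0 : ℝ) < lb := by exact_mod_cast Nat.pos_of_ne_zero l0
  have h1 : (q : ℝ) * (lb * M) ≤ q * (b * 4294967296) := by gcongr
  have h2 : ((ha : ℝ) * 4294967296) * (Q * M) ≤ (r * lb) * (Q * M) := by gcongr
  have h3 : ((q : ℝ) * 4294967296) * (lb * M) ≤ (r * Q) * (lb * M) := by nlinarith
  exact le_of_mul_le_mul_right h3 (mul_pos lp hM)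

end Pool.Agent.Work.MP_f4b644_ag.Mid
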