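import Pool.Agent.Work.MP_f4b644_ag.Mid.DomN

/-!
Soundness of the compiled operations on scaled intervals.
-/

namespace Pool.Agent.Work.MP_f4b644_ag.Mid

open Pool.Agent.Lib.KLA

/-- the side conditions hold -/
def Ok (t : Bool) (o : Bx → Bool) (d : Bx) : Prop := t = true ∨ o d = true

/-- the bounds hold -/
def R (x : Pt) (v e : ℕ) (f : Bool) (l h : ℕ) : Prop := Lo v l (mon x e) ∧ (f = true → Hi v h (mon x e))

/-- a compiled value describes `v` on the box `d` -/
def RV (x : Pt) (d : Bx) (v : ℕ) (s : SV) : Prop := Ok s.tr s.ok d → R x v s.e s.fin (s.lo d) (s.hi d)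

variable {x : Pt} {d z : Bx} {a b ea eb : ℕ} {fa fb t : Bool} {la ha lb hb : Bx → ℕ} {o : Bx → Bool}

theorem RV.mk {v e : ℕ} {f : Bool} {lo hi : Bx → ℕ} (h : Ok t o d → R x v e f (lo d) (hi d)) :
    RV x d v (SV.mk e f lo hi t o) := h

theorem RV.cnd {v : ℕ} {c : Bool} {s s' : SV} (h : c = true → RV x d v s) (h' : c = false → RV x d v s') :
    RV x d v (cnd c s s') := cnd_ind (RV x d v) h h'

theorem RV.top (v : ℕ) : RV x d v top := fun _ => ⟨Lo_zero _ _, fun h => absurd h (by simp [Mid.top])⟩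

theorem beq_t {a b : ℕ} (h : Nat.beq a b = true) : a = b := Nat.eq_of_beq_eq_true h

theorem RV.mkR {v e : ℕ} {f : Bool} {lo hi : Bx → ℕ} (h : Ok t o d → R x v e f (lo d) (hi d)) :
    RV x d v (mkR e f lo hi t o) := by
  refine RV.cnd (fun he => RV.mk fun k => ?_) (fun _ => RV.mk h)
  have h := h k
  rw [beq_t he] at h
  unfold R at h ⊢
  rw [mon_one] at h ⊢
  exact ⟨h.1.rup, fun f => (h.2 f).rdn⟩

theorem brec_t {p q : Bool} (h : Bool.rec (motive := fun _ => Bool) false q p = true) : p = true ∧ q = true :=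
  bnd_t h

theorem RV.mkG {v e : ℕ} {f : Bool} {lo hi : Bx → ℕ} {gd : Bx → Bool}
    (h : Ok t o d → gd d = true → R x v e f (lo d) (hi d)) : RV x d v (mkG e f lo hi t o gd) := by
  refine RV.cnd (fun ht => RV.mk fun k => ?_) (fun _ => RV.mk fun k => ?_)
  · rcases k with k | k
    · exact absurd k (by simp)
    · exact h (Or.inl ht) k
  · rcases k with k | k
    · exact absurd k (by simp)
    · exact h (Or.inr (brec_t k).1) (brec_t k).2

theorem bin_ind {α : Type} (P : α → Prop) {op : ℕ → Bool → (Bx → ℕ) → (Bx → ℕ) → ℕ → Bool → (Bx → ℕ) → (Bx → ℕ) →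
      Bool → (Bx → Bool) → α} {s s' : SV} (hs : RV x d a s) (hs' : RV x d b s')
    (h : ∀ ea fa la ha eb fb lb hb t o, (Ok t o d → R x a ea fa (la d) (ha d)) →
      (Ok t o d → R x b eb fb (lb d) (hb d)) → P (op ea fa la ha eb fb lb hb t o)) : P (bin op s s') := by
  obtain ⟨ea, fa, la, ha, ta, oa⟩ := s
  obtain ⟨eb, fb, lb, hb, tb, ob⟩ := s'
  show P (okAnd ta oa tb ob (op ea fa la ha eb fb lb hb))
  refine cnd_ind P (fun h1 => h _ _ _ _ _ _ _ _ _ _ (fun _ => hs (Or.inl h1)) hs') (fun _ => cnd_ind P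
    (fun h2 => h _ _ _ _ _ _ _ _ _ _ (fun k => hs (Or.inr ?_)) (fun _ => hs' (Or.inl h2)))
    (fun _ => h _ _ _ _ _ _ _ _ _ _ (fun k => hs (Or.inr ?_)) (fun k => hs' (Or.inr ?_))))
  · exact k.resolve_left (by simp)
  · exact (brec_t (k.resolve_left (by simp))).1
  · exact (brec_t (k.resolve_left (by simp))).2

theorem RS_rec {α : Type} (F : (Bx → ℕ) → (Bx → ℕ) → α) (r : RS) : RS.rec (motive := fun _ => α) F r = F r.lo r.hi :=
  rfl

theorem rl_s (hb : InBox d x) (hz : NZ d z) (q : ℕ) : ((rS q).lo d : ℝ) ≤ mon x q * 4294967296 := (rS_sound hb hz q).1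

theorem rh_s (hb : InBox d x) (hz : NZ d z) (q : ℕ) :
    (rS q).hi z ≠ 0 → mon x q * 4294967296 ≤ ((rS q).hi d : ℝ) := (rS_sound hb hz q).2

attribute [local irreducible] rS eMul eDiv eMask dom low1

theorem R_cst (n : ℕ) : R x n 559240 true (Nat.shiftLeft n 32) (Nat.shiftLeft n 32) := by
  unfold R
  rw [mon_one, Lo_one, Hi_one, shl32]
  exact ⟨le_rfl, fun _ => le_rfl⟩

theorem sCst_s (n : ℕ) : RV x d n (sCst n) := by
  unfold sCst
  rw [strict_eq']
  exact RV.mk fun _ => R_cst n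

theorem sHint_s (i : ℕ) : RV x d (hintOf d.w i) (sHint i) := by
  unfold sHint
  rw [strict_eq']
  exact RV.mk fun _ => R_cst (hintOf d.w i)

theorem sMon_s {v e : ℕ} (h : (v : ℝ) = mon x e) : RV x d v (sMon e) := by
  refine RV.mk fun _ => ?_
  unfold R Lo Hi
  rw [h]
  push_cast
  exact ⟨by linarith, fun _ => by linarith⟩

theorem sVar_s (hb : InBox d x) (hz : NZ d z) {v e : ℕ} (mask : ℕ) (h : e ≠ 0 → (v : ℝ) = mon x e) :
    RV x d v (sVar z mask e) := by
  unfold sVar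
  simp only [strict_eq']
  refine RV.cnd (fun he => ?_) (fun _ => RV.top _)
  have h := h (nz_t he)
  refine RV.cnd (fun hq => ?_) (fun _ => sMon_s h)
  have hq : eDiv e (eMask e mask) ≠ 0 := by
    revert hq
    exact cnd_ind (fun c => c = true → eDiv e (eMask e mask) ≠ 0) (fun _ k => absurd k (by simp)) (fun _ k => nz_t k)
  refine RV.cnd (fun k => RV.mkR fun _ => ?_) (fun _ => sMon_s h)
  have hM := mon_pos x (eMask e mask)
  have hl := rl_s hb hz (eDiv e (eMask e mask))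
  have hh := rh_s hb hz _ (nz_t k)
  unfold R Lo Hi
  rw [h, mon_eDiv x hq]
  exact ⟨by nlinarith, fun _ => by nlinarith⟩

theorem mul_nz {p q : ℕ} (h : nz (Nat.mul p q) = true) : p ≠ 0 ∧ q ≠ 0 := by
  have := nz_t h
  rw [Nat.mul_eq] at this
  exact ⟨left_ne_zero_of_mul this, right_ne_zero_of_mul this⟩

theorem conv_s {v e q : ℕ} {rl rh : Bx → ℕ} {κ : (Bx → ℕ) → (Bx → ℕ) → SV} (hq : mon x eb = mon x q * mon x e)
    (hl : (rl d : ℝ) ≤ mon x q * 4294967296) (f : Bool) (hh : f = true → fb = true ∧ mon x q * 4294967296 ≤ (rh d : ℝ))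
    (h : ∀ l u : Bx → ℕ, (R x b eb fb (lb d) (hb d) → R x b e f (l d) (u d)) → RV x d v (κ l u)) :
    RV x d v (conv e lb hb rl rh κ) := by
  refine RV.cnd (fun he => h _ _ fun k => ?_) (fun _ => h _ _ fun k => ?_)
  · rw [beq_t he] at hq ⊢
    unfold R at k ⊢
    rw [mon_one] at hq ⊢
    rw [hq] at k
    exact ⟨k.1.cvP hl, fun f => (k.2 (hh f).1).cvP (hh f).2⟩
  · unfold R at k ⊢
    rw [hq] at k
    exact ⟨k.1.cv (mon_pos _ _) hl, fun f => (k.2 (hh f).1).cv (mon_pos _ _) (hh f).2⟩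

theorem fin_s {q : ℕ} {rh : Bx → ℕ} (hh : rh z ≠ 0 → mon x q * 4294967296 ≤ (rh d : ℝ)) :
    bnd fb (nz (rh z)) = true → fb = true ∧ mon x q * 4294967296 ≤ (rh d : ℝ) :=
  fun k => ⟨(bnd_t k).1, hh (nz_t (bnd_t k).2)⟩

theorem R.zero (h : R x b eb fb (lb d) (hb d)) (f : fb = true) (k : Nat.beq (hb d) 0 = true) : b = 0 := by
  have := h.2 f
  rw [beq_t k] at this
  exact this.zero

theorem mix_s (hb' : InBox d x) (hz : NZ d z) {φ : ℕ → ℕ → ℕ} (hc : ∀ a b, φ a b = φ b a) (h0 : ∀ a, φ a 0 = a)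
    {op : ℕ → Bool → (Bx → ℕ) → (Bx → ℕ) → Bool → (Bx → ℕ) → (Bx → ℕ) → (Bx → ℕ) → (Bx → ℕ) → Bool → (Bx → Bool) → SV}
    (hto : ∀ (a b ea eb q : ℕ) (fa fb f : Bool) (la ha lb hb rl rh : Bx → ℕ), mon x eb = mon x q * mon x ea →
      (rl d : ℝ) ≤ mon x q * 4294967296 → (f = true → fb = true ∧ mon x q * 4294967296 ≤ (rh d : ℝ)) →
      (Ok t o d → R x a ea fa (la d) (ha d)) → (Ok t o d → R x b eb fb (lb d) (hb d)) →
      RV x d (φ a b) (op ea fa la ha f lb hb rl rh t o))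
    (A : Ok t o d → R x a ea fa (la d) (ha d)) (B : Ok t o d → R x b eb fb (lb d) (hb d)) :
    RV x d (φ a b) (mix z op ea fa la ha eb fb lb hb t o) := by
  unfold mix
  simp only [strict_eq']
  refine RV.cnd (fun hq => ?_) (fun _ => RV.top _)
  have hq := mul_nz hq
  have hl := rl_s hb' hz (eDiv eb ea)
  have hh := rh_s hb' hz (eDiv eb ea)
  have hl' := rl_s hb' hz (eDiv ea eb)
  have hh' := rh_s hb' hz (eDiv ea eb)
  refine RV.cnd (fun k => RV.mkG fun K g => ?_) fun _ => RV.cnd (fun k => RV.mkG fun K g => ?_) fun _ =>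
    RV.cnd (fun _ => hto _ _ _ _ _ _ _ _ _ _ _ _ _ _ (mon_eDiv x hq.1) hl (fin_s hh) A B) fun _ => ?_
  · rw [(B K).zero (bnd_t k).1 g, h0]
    exact A K
  · rw [(A K).zero (bnd_t k).1 g, hc, h0]
    exact B K
  · rw [hc]
    exact hto _ _ _ _ _ _ _ _ _ _ _ _ _ _ (mon_eDiv x hq.2) hl' (fin_s hh') B A

theorem sAdd_s (hb' : InBox d x) (hz : NZ d z) (A : Ok t o d → R x a ea fa (la d) (ha d))
    (B : Ok t o d → R x b eb fb (lb d) (hb d)) : RV x d (a + b) (sAdd z ea fa la ha eb fb lb hb t o) := by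
  refine RV.cnd (fun he => RV.mk fun K => ?_) fun _ => mix_s (φ := fun a b => a + b) hb' hz Nat.add_comm Nat.add_zero
    (fun a b ea eb q fa fb f la ha lb hb rl rh hq hl hh A B => RV.mkR fun K => ?_) A B
  · have B := B K
    rw [← beq_t he] at B
    exact ⟨(A K).1.add B.1, fun f => ((A K).2 (bnd_t f).1).add (B.2 (bnd_t f).2)⟩
  · have B := B K
    unfold R at B
    rw [hq] at B
    exact ⟨(A K).1.add (B.1.cv (mon_pos _ _) hl), fun f => ((A K).2 (bnd_t f).1).add
      ((B.2 (hh (bnd_t f).2).1).cv (mon_pos _ _) (hh (bnd_t f).2).2)⟩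

theorem R.mul {e : ℕ} {f : Bool} (he : mon x e = mon x ea * mon x eb) (hf : f = true → fa = true ∧ fb = true)
    (A : R x a ea fa (la d) (ha d)) (B : R x b eb fb (lb d) (hb d)) :
    R x (a * b) e f (Nat.shiftRight (Nat.mul (la d) (lb d)) 32)
      (Nat.shiftRight (Nat.add (Nat.mul (ha d) (hb d)) 4294967295) 32) := by
  unfold R
  rw [he]
  exact ⟨A.1.mul (mon_pos _ _) (mon_pos _ _) B.1,
    fun k => (A.2 (hf k).1).mul (mon_pos _ _) (mon_pos _ _) (B.2 (hf k).2)⟩

theorem R_zero (e : ℕ) (f : Bool) : R x 0 e f 0 0 := ⟨Lo_zero _ _, fun _ => by simp [Hi]⟩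

theorem sMul_s (A : Ok t o d → R x a ea fa (la d) (ha d)) (B : Ok t o d → R x b eb fb (lb d) (hb d)) :
    RV x d (a * b) (sMul z ea fa la ha eb fb lb hb t o) := by
  unfold sMul
  simp only [strict_eq']
  refine RV.cnd (fun f => RV.cnd (fun he => RV.cnd (fun _ => RV.mk fun K => ?_) fun _ => RV.mkR fun K => ?_)
    fun _ => RV.top _) fun _ => RV.cnd (fun k => RV.mkG fun K g => ?_) fun _ =>
      RV.cnd (fun k => RV.mkG fun K g => ?_) fun _ => RV.cnd (fun he => RV.mk fun K => ?_) fun _ => RV.top _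
  · exact R.mul (mon_eMul x (nz_t he)) (fun _ => bnd_t f) (A K) (B K)
  · exact R.mul (mon_eMul x (nz_t he)) (fun _ => bnd_t f) (A K) (B K)
  · rw [(A K).zero (bnd_t k).1 g, Nat.zero_mul]
    exact R_zero _ _
  · rw [(B K).zero (bnd_t k).1 g, Nat.mul_zero]
    exact R_zero _ _
  · exact ⟨(R.mul (f := false) (mon_eMul x (nz_t he)) (by simp) (A K) (B K)).1, by simp⟩

theorem sSub_s (hb' : InBox d x) (hz : NZ d z) (A : Ok t o d → R x a ea fa (la d) (ha d))
    (B : Ok t o d → R x b eb fb (lb d) (hb d)) : RV x d (a - b) (sSub z ea fa la ha eb fb lb hb t o) := by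
  unfold sSub
  simp only [strict_eq']
  have hl := rl_s hb' hz (eDiv eb ea)
  have hh := rh_s hb' hz (eDiv eb ea)
  refine RV.cnd (fun he => RV.cnd (fun f => RV.mk fun K => ?_) fun _ => RV.mk fun K => ?_) fun _ =>
    RV.cnd (fun hq => RV.cnd (fun k => RV.mkR fun K => ?_) fun _ =>
      RV.cnd (fun k => RV.mkG fun K g => ?_) fun _ => RV.mkR fun K => ?_) fun _ => RV.mk fun K => ?_
  · have B := B K
    rw [← beq_t he] at B
    exact ⟨(A K).1.sub (B.2 f), fun g => ((A K).2 g).sub (mon_pos _ _) B.1⟩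
  · have B := B K
    rw [← beq_t he] at B
    exact ⟨Lo_zero _ _, fun g => ((A K).2 g).sub (mon_pos _ _) B.1⟩
  · have B := B K
    unfold R at B
    rw [mon_eDiv x (nz_t hq)] at B
    exact ⟨(A K).1.sub ((B.2 (fin_s hh k).1).cv (mon_pos _ _) (fin_s hh k).2),
      fun g => ((A K).2 g).sub (mon_pos _ _) (B.1.cv (mon_pos _ _) hl)⟩
  · rw [(B K).zero (bnd_t k).1 g]
    exact A K
  · have B := B K
    unfold R at B
    rw [mon_eDiv x (nz_t hq)] at B
    exact ⟨Lo_zero _ _, fun g => ((A K).2 g).sub (mon_pos _ _) (B.1.cv (mon_pos _ _) hl)⟩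
  · exact ⟨Lo_zero _ _, fun g => ((A K).2 g).mono (Nat.sub_le _ _)⟩

theorem divP_s (B : Ok t o d → R x b eb fb (lb d) (hb d))
    (hl : Ok t o d → fb = true → b ≠ 0 → la d / hb d ≤ a / b)
    (hh : Ok t o d → fa = true → lb d ≠ 0 → a / b ≤ ha d / lb d) :
    RV x d (a / b) (divP fa la ha fb lb hb t o) := by
  refine RV.cnd (fun f => RV.mkG fun K g => ?_) fun _ => RV.mkG fun K g => ?_
  · unfold R
    rw [mon_one, Lo_one, Hi_one, shl32, shl32]
    exact ⟨Nat.mul_le_mul_right _ (hl K f ((B K).1.pos (mon_pos _ _) (nz_t g))),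
      fun f' => Nat.mul_le_mul_right _ (hh K f' (nz_t g))⟩
  · refine ⟨Lo_zero _ _, fun f' => ?_⟩
    rw [mon_one, Hi_one, shl32]
    exact Nat.mul_le_mul_right _ (hh K f' (nz_t g))

theorem divM_s (hb' : InBox d x) (hz : NZ d z) {e : ℕ} (he : mon x ea = mon x e * mon x eb)
    (A : Ok t o d → R x a ea fa (la d) (ha d)) (B : Ok t o d → R x b eb fb (lb d) (hb d)) :
    RV x d (a / b) (divM z e fa la ha fb lb hb t o) := by
  unfold R at A
  rw [he] at A
  unfold divM
  simp only [strict_eq']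
  have hh := rh_s hb' hz (eDiv 559240 e)
  refine RV.cnd (fun k => RV.mkG fun K g => ?_) fun _ => RV.mkG fun K g => ?_
  · have hq := mon_eDiv x (nz_t (bnd_t (bnd_t k).1).2)
    rw [mon_one] at hq
    exact ⟨(A K).1.quo (mon_pos _ _) (mon_pos _ _) ((B K).2 (bnd_t (bnd_t k).1).1)
      ((B K).1.pos (mon_pos _ _) (nz_t g)) hq (hh (nz_t (bnd_t k).2)),
      fun f => ((A K).2 f).quo (mon_pos _ _) (mon_pos _ _) (B K).1 (nz_t g)⟩
  · exact ⟨Lo_zero _ _, fun f => ((A K).2 f).quo (mon_pos _ _) (mon_pos _ _) (B K).1 (nz_t g)⟩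

theorem sDiv_s (hb' : InBox d x) (hz : NZ d z) (th : ℕ) (A : Ok t o d → R x a ea fa (la d) (ha d))
    (B : Ok t o d → R x b eb fb (lb d) (hb d)) : RV x d (a / b) (sDiv z th ea fa la ha eb fb lb hb t o) := by
  unfold sDiv
  simp only [strict_eq']
  have hl := rl_s hb' hz (eDiv ea eb)
  have hh := rh_s hb' hz (eDiv ea eb)
  refine RV.cnd (fun hq => ?_) fun _ => RV.mk fun K => ⟨Lo_zero _ _, fun g => ((A K).2 g).mono (Nat.div_le_self _ _)⟩
  have he := mon_eDiv x (mul_nz hq).1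
  refine RV.cnd (fun h1 => ?_) fun _ => RV.cnd (fun k => ?_) fun _ => divM_s hb' hz he A B
  · rw [beq_t h1, mon_one, one_mul] at he
    unfold R at A
    rw [he] at A
    exact divP_s B (fun K f b0 => quo_lo (A K).1 ((B K).2 f) b0)
      (fun K f l0 => quo_hi (mon_pos _ _) ((A K).2 f) (B K).1 l0)
  · unfold R at A
    rw [he] at A
    exact divP_s B (fun K f b0 => quo_lo ((A K).1.cv (mon_pos _ _) hl) ((B K).2 f) b0)
      (fun K f l0 => quo_hi' (mon_pos _ _) ((A K).2 f) (hh (nz_t (bnd_t (bnd_t k).1).2)) (B K).1 l0)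

theorem mn_eq (p q : ℕ) : Bool.rec (motive := fun _ => ℕ) q p (Nat.ble p q) = min p q := by
  rcases h : Nat.ble p q
  · have : ¬ p ≤ q := fun k => by simp [Nat.ble_eq.symm ▸ k] at h
    show q = _
    omega
  · have := Nat.le_of_ble_eq_true h
    show p = _
    omega

theorem mx_eq (p q : ℕ) : Bool.rec (motive := fun _ => ℕ) p q (Nat.ble p q) = max p q := by
  rcases h : Nat.ble p q
  · have : ¬ p ≤ q := fun k => by simp [Nat.ble_eq.symm ▸ k] at h
    show p = _
    omega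
  · have := Nat.le_of_ble_eq_true h
    show q = _
    omega

theorem Lo.min {a b l l' : ℕ} {M : ℝ} (hM : 0 < M) (A : Lo a l M) (B : Lo b l' M) :
    Lo (min a b) (Bool.rec (motive := fun _ => ℕ) l' l (Nat.ble l l')) M := by
  rw [mn_eq]
  rcases Nat.le_total a b with h | h
  · rw [Nat.min_eq_left h]
    exact A.less hM (Nat.min_le_left _ _)
  · rw [Nat.min_eq_right h]
    exact B.less hM (Nat.min_le_right _ _)

theorem Hi.min {a b l l' : ℕ} {M : ℝ} (A : Hi a l M) (B : Hi b l' M) :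
    Hi (min a b) (Bool.rec (motive := fun _ => ℕ) l' l (Nat.ble l l')) M := by
  rw [mn_eq]
  rcases Nat.le_total l l' with h | h
  · rw [Nat.min_eq_left h]
    exact A.mono (Nat.min_le_left _ _)
  · rw [Nat.min_eq_right h]
    exact B.mono (Nat.min_le_right _ _)

theorem Lo.max {a b l l' : ℕ} {M : ℝ} (A : Lo a l M) (B : Lo b l' M) :
    Lo (max a b) (Bool.rec (motive := fun _ => ℕ) l l' (Nat.ble l l')) M := by
  rw [mx_eq]
  rcases Nat.le_total l l' with h | h
  · rw [Nat.max_eq_right h]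
    exact B.mono (Nat.le_max_right _ _)
  · rw [Nat.max_eq_left h]
    exact A.mono (Nat.le_max_left _ _)

theorem Hi.max {a b l l' : ℕ} {M : ℝ} (hM : 0 < M) (A : Hi a l M) (B : Hi b l' M) :
    Hi (max a b) (Bool.rec (motive := fun _ => ℕ) l l' (Nat.ble l l')) M := by
  rw [mx_eq]
  rcases Nat.le_total a b with h | h
  · rw [Nat.max_eq_right h]
    exact B.more hM (Nat.le_max_right _ _)
  · rw [Nat.max_eq_left h]
    exact A.more hM (Nat.le_max_left _ _)

theorem minS_s (A : Ok t o d → R x a ea fa (la d) (ha d)) (B : Ok t o d → R x b ea fb (lb d) (hb d)) :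
    RV x d (min a b) (minS ea fa la ha fb lb hb t o) := by
  refine RV.cnd (fun f => RV.cnd (fun g => RV.mk fun K => ?_) fun _ => RV.mk fun K => ?_) fun _ => RV.mk fun K => ?_
  · exact ⟨(A K).1.min (mon_pos _ _) (B K).1, fun _ => ((A K).2 f).min ((B K).2 g)⟩
  · exact ⟨(A K).1.min (mon_pos _ _) (B K).1, fun _ => ((A K).2 f).mono (Nat.min_le_left _ _)⟩
  · exact ⟨(A K).1.min (mon_pos _ _) (B K).1, fun g => ((B K).2 g).mono (Nat.min_le_right _ _)⟩

theorem sMin_s (hb' : InBox d x) (hz : NZ d z) (A : Ok t o d → R x a ea fa (la d) (ha d))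
    (B : Ok t o d → R x b eb fb (lb d) (hb d)) : RV x d (min a b) (sMin z ea fa la ha eb fb lb hb t o) := by
  unfold sMin
  simp only [strict_eq']
  refine RV.cnd (fun he => minS_s A (by rw [beq_t he]; exact B)) fun _ => ?_
  refine RV.cnd (fun hq => ?_) (fun _ => RV.top _)
  have hq := mul_nz hq
  have hl := rl_s hb' hz (eDiv eb ea)
  have hh := rh_s hb' hz (eDiv eb ea)
  have hl' := rl_s hb' hz (eDiv ea eb)
  have hh' := rh_s hb' hz (eDiv ea eb)
  refine RV.cnd (fun _ => conv_s (mon_eDiv x hq.1) hl _ (fin_s hh) fun l u k => minS_s A fun K => k (B K)) fun _ => ?_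
  rw [Nat.min_comm]
  exact conv_s (mon_eDiv x hq.2) hl' _ (fin_s hh') fun l u k => minS_s B fun K => k (A K)

theorem maxS_s (A : Ok t o d → R x a ea fa (la d) (ha d)) (B : Ok t o d → R x b ea fb (lb d) (hb d)) :
    RV x d (max a b) (maxS ea fa la ha fb lb hb t o) :=
  RV.mk fun K => ⟨(A K).1.max (B K).1, fun f => ((A K).2 (bnd_t f).1).max (mon_pos _ _) ((B K).2 (bnd_t f).2)⟩

theorem sMax_s (hb' : InBox d x) (hz : NZ d z) (A : Ok t o d → R x a ea fa (la d) (ha d))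
    (B : Ok t o d → R x b eb fb (lb d) (hb d)) : RV x d (max a b) (sMax z ea fa la ha eb fb lb hb t o) :=
  RV.cnd (fun he => maxS_s A (by rw [beq_t he]; exact B)) fun _ =>
    mix_s (φ := fun a b => max a b) hb' hz Nat.max_comm Nat.max_zero
      (fun _ _ _ _ _ _ _ f _ _ _ _ _ _ hq hl hh A B => conv_s hq hl f hh fun _ _ k => maxS_s A fun K => k (B K)) A B

theorem mod_hi {a b h : ℕ} (B : Hi b h 1) (b0 : b ≠ 0) : Hi (a % b) (Nat.sub h 4294967296) 1 := by
  rw [Hi_one] at B ⊢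
  have h1 : (a % b + 1) * 4294967296 ≤ b * 4294967296 :=
    Nat.mul_le_mul_right _ (Nat.mod_lt a (Nat.pos_of_ne_zero b0))
  rw [Nat.add_mul, Nat.one_mul] at h1
  exact Nat.le_sub_of_add_le (h1.trans B)

theorem mod_both {a b l h l' h' : ℕ} (A : Lo a l 1) (A' : Hi a h 1) (B : Lo b l' 1) (B' : Hi b h' 1) (l0 : l' ≠ 0) :
    Lo (a % b) (Bool.rec (motive := fun _ => ℕ) 0 (Nat.sub l (Nat.mul (Nat.div l h') h'))
      (Nat.beq (Nat.div l h') (Nat.div h l'))) 1 ∧
    Hi (a % b) (Bool.rec (motive := fun _ => ℕ) (Nat.sub h' 4294967296) (Nat.sub h (Nat.mul (Nat.div l h') l'))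
      (Nat.beq (Nat.div l h') (Nat.div h l'))) 1 := by
  have b0 := B.pos one_pos l0
  rcases k : Nat.beq (Nat.div l h') (Nat.div h l')
  · exact ⟨Lo_zero _ _, mod_hi B' b0⟩
  · have k : l / h' = h / l' := beq_t k
    have h1 := quo_lo A B' b0
    have h2 := quo_hi one_pos A' B l0
    have hq : l / h' = a / b := by omega
    show Lo _ (l - l / h' * h') 1 ∧ Hi _ (h - l / h' * l') 1
    rw [hq]
    rw [Lo_one] at A B ⊢
    rw [Hi_one] at A' B' ⊢
    have e := Nat.div_add_mod a b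
    have m1 := Nat.mul_le_mul_left (a / b) B
    have m2 := Nat.mul_le_mul_left (a / b) B'
    rw [← Nat.mul_assoc, Nat.mul_comm (a / b) b] at m1 m2
    generalize b * (a / b) = p at e m1 m2
    omega

theorem sMod_s (A : Ok t o d → R x a ea fa (la d) (ha d)) (B : Ok t o d → R x b eb fb (lb d) (hb d)) :
    RV x d (a % b) (sMod z ea fa la ha eb fb lb hb t o) := by
  refine RV.cnd (fun _ => RV.cnd (fun k => RV.cnd (fun k' => RV.mkG fun K g => ?_) fun _ => RV.mkG fun K g => ?_)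
    fun _ => RV.mkG fun K g => ?_) fun _ => RV.mk fun K => ⟨Lo_zero _ _, fun g => ((A K).2 g).mono (Nat.mod_le _ _)⟩
  · have A := A K
    have B := B K
    rw [beq_t (bnd_t k').2] at A
    rw [beq_t (bnd_t k).2] at B
    unfold R at A B ⊢
    rw [mon_one] at A B ⊢
    have := mod_both A.1 (A.2 (bnd_t k').1) B.1 (B.2 (bnd_t k).1) (nz_t g)
    exact ⟨this.1, fun _ => this.2⟩
  · have B := B K
    rw [beq_t (bnd_t k).2] at B
    unfold R at B ⊢
    rw [mon_one] at B ⊢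
    exact ⟨Lo_zero _ _, fun _ => mod_hi (B.2 (bnd_t k).1) (B.1.pos one_pos (nz_t g))⟩
  · exact ⟨Lo_zero _ _, fun f => ((B K).2 f).mono
      (Nat.mod_lt a (Nat.pos_of_ne_zero ((B K).1.pos (mon_pos _ _) (nz_t g)))).le⟩

theorem mkC_s {p : Prop} {f : Bx → Bool} (h : Ok t o d → f d = true → p) : (mkC t o f).f d = true → p := by
  refine cnd_ind (fun c : CV => c.f d = true → p) (fun k g => h (Or.inl k) g) (fun _ g => ?_)
  exact h (Or.inr (brec_t g).2) (brec_t g).1

theorem sLe_s (hb' : InBox d x) (hz : NZ d z) (A : Ok t o d → R x a ea fa (la d) (ha d))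
    (B : Ok t o d → R x b eb fb (lb d) (hb d)) : (sLe ea fa la ha eb fb lb hb t o).f d = true → a ≤ b := by
  unfold sLe
  simp only [strict_eq']
  have hl := rl_s hb' hz (eDiv eb ea)
  refine cnd_ind (fun c : CV => c.f d = true → a ≤ b) (fun f => cnd_ind (fun c : CV => c.f d = true → a ≤ b)
    (fun he => mkC_s fun K g => ?_) fun _ => cnd_ind (fun c : CV => c.f d = true → a ≤ b)
      (fun hq => mkC_s fun K g => ?_)
      fun _ g => absurd g (by simp)) fun _ g => absurd g (by simp)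
  · have B := B K
    rw [← beq_t he] at B
    exact le_of_Hi_Lo (mon_pos _ _) ((A K).2 f) B.1 (Nat.le_of_ble_eq_true g)
  · have B := (B K).1
    rw [mon_eDiv x (nz_t hq)] at B
    have h1 := B.cv0 (mon_pos _ _) hl
    have h2 := (A K).2 f
    have g := Nat.le_of_ble_eq_true g
    rw [shl32, Nat.mul_eq] at g
    have g' : (ha d : ℝ) * 4294967296 ≤ lb d * (rS (eDiv eb ea)).lo d := by exact_mod_cast g
    have h3 := mul_le_mul_of_nonneg_right g' (mon_pos x ea).le
    unfold Hi at h2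
    have : (a : ℝ) ≤ b := by linarith
    exact_mod_cast this

theorem addG_s {v : ℕ} {gd : Bx → Bool} {s : SV} (h : gd d = true → RV x d v s) : RV x d v (addG gd s) := by
  obtain ⟨e, f, lo, hi, t, o⟩ := s
  exact RV.mkG fun K g => h g K

theorem addC_s {p : Prop} {gd : Bx → Bool} {s : CV} (h : gd d = true → s.f d = true → p) :
    (addC gd s).f d = true → p := by
  obtain ⟨f⟩ := s
  exact fun k => h (brec_t k).1 (brec_t k).2

theorem sIte_ind {α : Type} (P : α → Prop) {add : (Bx → Bool) → α → α} {no u v : α} {c : ℕ} {s : SV}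
    (hs : RV x d c s) (h0 : P no) (hu : ∀ gd : Bx → Bool, (gd d = true → c = 0) → P (add gd u))
    (hv : ∀ gd : Bx → Bool, (gd d = true → c ≠ 0) → P (add gd v)) : P (sIte z add no s u v) := by
  obtain ⟨e, f, lo, hi, t, o⟩ := s
  refine cnd_ind P (fun k => cnd_ind P (fun ht => hu _ fun g => ?_) fun _ => hu _ fun g => ?_) fun _ =>
    cnd_ind P (fun _ => cnd_ind P (fun ht => hv _ fun g => ?_) fun _ => hv _ fun g => ?_) fun _ => h0
  · exact R.zero (lb := lo) (hb := hi) (hs (Or.inl ht)) (bnd_t k).1 g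
  · exact R.zero (lb := lo) (hb := hi) (hs (Or.inr (brec_t g).2)) (bnd_t k).1 (brec_t g).1
  · exact (hs (Or.inl ht)).1.pos (mon_pos _ _) (nz_t g)
  · exact (hs (Or.inr (brec_t g).2)).1.pos (mon_pos _ _) (nz_t (brec_t g).1)

end Pool.Agent.Work.MP_f4b644_ag.Mid
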