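import Pool.Agent.Work.MP_f4b644_ag.Mid.DomO

/-!
Soundness of the compilation of expressions and conditions, and of the check of trees of boxes.
-/

namespace Pool.Agent.Work.MP_f4b644_ag.Mid

open Pool.Agent.Lib.KLA

/-- the variables are the monomials of the chart -/
def Vars (ce : ℕ) (ρ : ℕ → ℕ) (x : Pt) : Prop := ∀ i, ceOf ce i ≠ 0 → (ρ i : ℝ) = mon x (ceOf ce i)

variable {x : Pt} {d z : Bx} {ρ : ℕ → ℕ}

theorem cmp_s (hb : InBox d x) (hz : NZ d z) {c : Cx} (hρ : Vars c.ce ρ x) (t : E) :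
    RV x d (t.ev ρ c.g d.w) (cmp t c z) := by
  induction t with
  | cst n => exact sCst_s n
  | var i => exact sVar_s hb hz c.mask (hρ i)
  | hint i => exact sHint_s i
  | shint i => exact sCst_s _
  | add a b ia ib => exact bin_ind (RV x d _) ia ib fun _ _ _ _ _ _ _ _ _ _ A B => sAdd_s hb hz A B
  | mul a b ia ib => exact bin_ind (RV x d _) ia ib fun _ _ _ _ _ _ _ _ _ _ A B => sMul_s A B
  | sub a b ia ib => exact bin_ind (RV x d _) ia ib fun _ _ _ _ _ _ _ _ _ _ A B => sSub_s hb hz A B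
  | div th a b ia ib => exact bin_ind (RV x d _) ia ib fun _ _ _ _ _ _ _ _ _ _ A B => sDiv_s hb hz th A B
  | min a b ia ib => exact bin_ind (RV x d _) ia ib fun _ _ _ _ _ _ _ _ _ _ A B => sMin_s hb hz A B
  | max a b ia ib => exact bin_ind (RV x d _) ia ib fun _ _ _ _ _ _ _ _ _ _ A B => sMax_s hb hz A B
  | mod a b ia ib => exact bin_ind (RV x d _) ia ib fun _ _ _ _ _ _ _ _ _ _ A B => sMod_s A B
  | sel i a b ia ib =>
    refine RV.cnd (fun h => ?_) fun h => ?_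
    · rw [E.ev, if_pos (beq_t h)]
      exact ia
    · rw [E.ev, if_neg (Nat.ne_of_beq_eq_false h)]
      exact ib
  | ite u a b iu ia ib =>
    refine sIte_ind (RV x d _) iu (RV.top _) (fun gd h => addG_s fun g => ?_) fun gd h => addG_s fun g => ?_
    · rw [E.ev, if_pos (h g)]
      exact ia
    · rw [E.ev, if_neg (h g)]
      exact ib

theorem cmpC_s (hb : InBox d x) (hz : NZ d z) {c : Cx} (hρ : Vars c.ce ρ x) (p : C) :
    (cmpC p c z).f d = true → p.sem ρ c.g d.w := by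
  induction p with
  | le a b =>
    exact bin_ind (fun s : CV => s.f d = true → _) (cmp_s hb hz hρ a) (cmp_s hb hz hρ b)
      fun _ _ _ _ _ _ _ _ _ _ A B => sLe_s hb hz A B
  | and p q ip iq =>
    intro h
    have h' : Bool.rec (motive := fun _ => Bool) false ((cmpC q c z).f d) ((cmpC p c z).f d) = true := h
    exact ⟨ip (brec_t h').1, iq (brec_t h').2⟩
  | or p q ip iq =>
    intro h
    have h' : Bool.rec (motive := fun _ => Bool) ((cmpC q c z).f d) true ((cmpC p c z).f d) = true := h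
    rcases k : (cmpC p c z).f d
    · rw [k] at h'
      exact Or.inr (iq h')
    · exact Or.inl (ip k)
  | sel i p q ip iq =>
    refine cnd_ind (fun s : CV => s.f d = true → _) (fun h k => ?_) fun h k => ?_
    · rw [C.sem, if_pos (beq_t h)]
      exact ip k
    · rw [C.sem, if_neg (Nat.ne_of_beq_eq_false h)]
      exact iq k
  | ite u p q ip iq =>
    refine sIte_ind (fun s : CV => s.f d = true → _) (cmp_s hb hz hρ u) (fun k => absurd k (by simp))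
      (fun gd h => addC_s fun g k => ?_) fun gd h => addC_s fun g k => ?_
    · rw [C.sem, if_pos (h g)]
      exact ip k
    · rw [C.sem, if_neg (h g)]
      exact iq k

/-- the coordinate number `i` -/
noncomputable def Pt.get (x : Pt) (i : ℕ) : ℝ := sel5 i x.x0 x.x1 x.x2 x.x3 x.x4

theorem sel5_ind {α β : Type} (P : α → β → Prop) (i : ℕ) {a0 a1 a2 a3 a4 : α} {b0 b1 b2 b3 b4 : β} (h0 : P a0 b0)
    (h1 : P a1 b1) (h2 : P a2 b2) (h3 : P a3 b3) (h4 : P a4 b4) :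
    P (sel5 i a0 a1 a2 a3 a4) (sel5 i b0 b1 b2 b3 b4) := by
  unfold sel5
  cases Nat.ble i 1 <;> cases Nat.beq i 0 <;> cases Nat.ble i 3 <;> cases Nat.beq i 2 <;> assumption

theorem setH_s {b : Bx} {i v : ℕ} {k : Bx → Bool} (h : setH b i v k = true) (hv : v ≠ 0) (hb : InBox b x)
    (hx : x.get i * 4294967296 ≤ (v : ℝ)) : ∃ b', k b' = true ∧ InBox b' x ∧ NZ b' b := by
  obtain ⟨l0, h0, l1, h1, l2, h2, l3, h3, l4, h4, w⟩ := b
  obtain ⟨k0, k1, k2, k3, k4⟩ := hb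
  revert hx
  revert h
  refine sel5_ind (fun (c : Bool) (t : ℝ) => c = true → t * 4294967296 ≤ (v : ℝ) → ∃ b', k b' = true ∧ InBox b' x ∧
    NZ b' ⟨l0, h0, l1, h1, l2, h2, l3, h3, l4, h4, w⟩) i ?_ ?_ ?_ ?_ ?_
  · exact fun h hx => ⟨_, h, ⟨⟨k0.1, fun _ => hx⟩, k1, k2, k3, k4⟩, ⟨id, fun _ => hv⟩, ⟨id, id⟩, ⟨id, id⟩, ⟨id, id⟩, id, id⟩
  · exact fun h hx => ⟨_, h, ⟨k0, ⟨k1.1, fun _ => hx⟩, k2, k3, k4⟩, ⟨id, id⟩, ⟨id, fun _ => hv⟩, ⟨id, id⟩, ⟨id, id⟩, id, id⟩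
  · exact fun h hx => ⟨_, h, ⟨k0, k1, ⟨k2.1, fun _ => hx⟩, k3, k4⟩, ⟨id, id⟩, ⟨id, id⟩, ⟨id, fun _ => hv⟩, ⟨id, id⟩, id, id⟩
  · exact fun h hx => ⟨_, h, ⟨k0, k1, k2, ⟨k3.1, fun _ => hx⟩, k4⟩, ⟨id, id⟩, ⟨id, id⟩, ⟨id, id⟩, ⟨id, fun _ => hv⟩, id, id⟩
  · exact fun h hx => ⟨_, h, ⟨k0, k1, k2, k3, ⟨k4.1, fun _ => hx⟩⟩, ⟨id, id⟩, ⟨id, id⟩, ⟨id, id⟩, ⟨id, id⟩, id, fun _ => hv⟩

theorem setL_s {b : Bx} {i v : ℕ} {k : Bx → Bool} (h : setL b i v k = true) (hv : v ≠ 0) (hb : InBox b x)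
    (hx : (v : ℝ) ≤ x.get i * 4294967296) : ∃ b', k b' = true ∧ InBox b' x ∧ NZ b' b := by
  obtain ⟨l0, h0, l1, h1, l2, h2, l3, h3, l4, h4, w⟩ := b
  obtain ⟨k0, k1, k2, k3, k4⟩ := hb
  revert hx
  revert h
  refine sel5_ind (fun (c : Bool) (t : ℝ) => c = true → (v : ℝ) ≤ t * 4294967296 → ∃ b', k b' = true ∧ InBox b' x ∧
    NZ b' ⟨l0, h0, l1, h1, l2, h2, l3, h3, l4, h4, w⟩) i ?_ ?_ ?_ ?_ ?_
  · exact fun h hx => ⟨_, h, ⟨⟨hx, k0.2⟩, k1, k2, k3, k4⟩, ⟨fun _ => hv, id⟩, ⟨id, id⟩, ⟨id, id⟩, ⟨id, id⟩, id, id⟩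
  · exact fun h hx => ⟨_, h, ⟨k0, ⟨hx, k1.2⟩, k2, k3, k4⟩, ⟨id, id⟩, ⟨fun _ => hv, id⟩, ⟨id, id⟩, ⟨id, id⟩, id, id⟩
  · exact fun h hx => ⟨_, h, ⟨k0, k1, ⟨hx, k2.2⟩, k3, k4⟩, ⟨id, id⟩, ⟨id, id⟩, ⟨fun _ => hv, id⟩, ⟨id, id⟩, id, id⟩
  · exact fun h hx => ⟨_, h, ⟨k0, k1, k2, ⟨hx, k3.2⟩, k4⟩, ⟨id, id⟩, ⟨id, id⟩, ⟨id, id⟩, ⟨fun _ => hv, id⟩, id, id⟩
  · exact fun h hx => ⟨_, h, ⟨k0, k1, k2, k3, ⟨hx, k4.2⟩⟩, ⟨id, id⟩, ⟨id, id⟩, ⟨id, id⟩, ⟨id, id⟩, fun _ => hv, id⟩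

theorem setW_s {b : Bx} {w : ℕ} {k : Bx → Bool} (h : setW b w k = true) (hb : InBox b x) :
    ∃ b', k b' = true ∧ InBox b' x ∧ NZ b' b :=
  ⟨_, h, hb, ⟨id, id⟩, ⟨id, id⟩, ⟨id, id⟩, ⟨id, id⟩, id, id⟩

theorem NZ.refl (b : Bx) : NZ b b := ⟨⟨id, id⟩, ⟨id, id⟩, ⟨id, id⟩, ⟨id, id⟩, id, id⟩

theorem NZ.trans {a b c : Bx} (h : NZ a b) (k : NZ b c) : NZ a c :=
  ⟨⟨h.1.1 ∘ k.1.1, h.1.2 ∘ k.1.2⟩, ⟨h.2.1.1 ∘ k.2.1.1, h.2.1.2 ∘ k.2.1.2⟩,
    ⟨h.2.2.1.1 ∘ k.2.2.1.1, h.2.2.1.2 ∘ k.2.2.1.2⟩, ⟨h.2.2.2.1.1 ∘ k.2.2.2.1.1, h.2.2.2.1.2 ∘ k.2.2.2.1.2⟩,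
    h.2.2.2.2.1 ∘ k.2.2.2.2.1, h.2.2.2.2.2 ∘ k.2.2.2.2.2⟩

/-- the monomial with given exponents -/
theorem mon_of (x : Pt) (e : ℕ) (k0 k1 k2 k3 k4 : ℤ)
    (h : (dg e 0 : ℤ) - 8 = k0 ∧ (dg e 1 : ℤ) - 8 = k1 ∧ (dg e 2 : ℤ) - 8 = k2 ∧ (dg e 3 : ℤ) - 8 = k3 ∧
      (dg e 4 : ℤ) - 8 = k4) : mon x e = x.x0 ^ k0 * x.x1 ^ k1 * x.x2 ^ k2 * x.x3 ^ k3 * x.x4 ^ k4 := by
  obtain ⟨rfl, rfl, rfl, rfl, rfl⟩ := h
  rfl

theorem mon_unit (x : Pt) {i : ℕ} (hi : i ≤ 4) : mon x (Nat.add 559240 (Nat.shiftLeft 1 (Nat.mul 4 i))) = x.get i := by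
  have h : i = 0 ∨ i = 1 ∨ i = 2 ∨ i = 3 ∨ i = 4 := by omega
  rcases h with rfl | rfl | rfl | rfl | rfl
  · rw [mon_of x _ 1 0 0 0 0 (by decide)]
    simp only [zpow_zero, zpow_one, mul_one]
    rfl
  · rw [mon_of x _ 0 1 0 0 0 (by decide)]
    simp only [zpow_zero, zpow_one, mul_one, one_mul]
    rfl
  · rw [mon_of x _ 0 0 1 0 0 (by decide)]
    simp only [zpow_zero, zpow_one, mul_one, one_mul]
    rfl
  · rw [mon_of x _ 0 0 0 1 0 (by decide)]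
    simp only [zpow_zero, zpow_one, mul_one, one_mul]
    rfl
  · rw [mon_of x _ 0 0 0 0 1 (by decide)]
    simp only [zpow_zero, zpow_one, mul_one, one_mul]
    rfl

theorem chk_node (ce : ℕ) (p : C) (w : ℕ) (l r : Tr) (f : Bx → Bool) (b : Bx) : (Tr.node w l r).chk ce p f b =
    strict (Nat.mod w 8) fun i => strict (Nat.shiftRight w 4) fun θ => bnd (nz θ)
      (cnd (Nat.beq (Nat.mod (Nat.shiftRight w 3) 2) 0)
        (bnd (setH b i θ (l.chk ce p f)) (setL b i θ (r.chk ce p f)))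
        (bnd (bnd (Nat.ble i 4) (Nat.beq (ceOf ce i) (Nat.add 559240 (Nat.shiftLeft 1 (Nat.mul 4 i)))))
          (strict (Nat.shiftLeft θ 32) fun v => bnd (setH b i v (l.chk ce p f))
            (strict (Nat.add v 4294967296) fun v' => setL b i v' (r.chk ce p f))))) := rfl

theorem chk_comp (ce : ℕ) (p : C) (u w : ℕ) (t : Tr) (f : Bx → Bool) (b : Bx) : (Tr.comp u w t).chk ce p f b =
    strict (Nat.mod u 32) fun mask => strict (Nat.shiftRight u 5) fun g =>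
      setW b w fun z => t.chk ce p (cmpC p ⟨z, ce, mask, g⟩ z).f z := rfl

theorem chk_s {ce : ℕ} {p : C} (hρ : Vars ce ρ x) (t : Tr) : ∀ (f : Bx → Bool) (b : Bx), InBox b x →
    (∀ d, InBox d x → NZ d b → f d = true → ∃ g h, p.sem ρ g h) → t.chk ce p f b = true → ∃ g h, p.sem ρ g h := by
  induction t with
  | leaf w =>
    intro f b hb hf h
    obtain ⟨d, h1, h2, h3⟩ := setW_s (k := f) (w := w) h hb
    exact hf d h2 h3 h1
  | keep => exact fun f b hb hf h => hf b hb (NZ.refl b) h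
  | setw w t it =>
    intro f b hb hf h
    obtain ⟨d, h1, h2, h3⟩ := setW_s (k := t.chk ce p f) (w := w) h hb
    exact it f d h2 (fun d' hd hz => hf d' hd (hz.trans h3)) h1
  | comp u w t it =>
    intro f b hb _ h
    have h' := (chk_comp ce p u w t f b).symm.trans h
    simp only [strict_eq'] at h'
    obtain ⟨z, h1, h2, _⟩ := setW_s h' hb
    exact it _ z h2 (fun d hd hz k => ⟨_, _, cmpC_s (c := ⟨z, ce, Nat.mod u 32, Nat.shiftRight u 5⟩) hd hz hρ p k⟩) h1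
  | node w l r il ir =>
    intro f b hb hf h
    have sub : ∀ {t : Tr}, (∀ (f : Bx → Bool) (b : Bx), InBox b x →
        (∀ d, InBox d x → NZ d b → f d = true → ∃ g h, p.sem ρ g h) → t.chk ce p f b = true → ∃ g h, p.sem ρ g h) →
        (∃ b', t.chk ce p f b' = true ∧ InBox b' x ∧ NZ b' b) → ∃ g h, p.sem ρ g h :=
      fun it ⟨b', h1, h2, h3⟩ => it f b' h2 (fun d hd hz => hf d hd (hz.trans h3)) h1
    have h' := (chk_node ce p w l r f b).symm.trans h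
    simp only [strict_eq'] at h'
    clear h
    generalize Nat.mod w 8 = i at h'
    generalize Nat.shiftRight w 4 = θ at h'
    have hθ := nz_t (bnd_t h').1
    have h2 := (bnd_t h').2
    revert h2
    refine cnd_ind (fun c : Bool => c = true → _) (fun _ k => ?_) fun _ k => ?_
    · rcases le_total (x.get i * 4294967296) θ with c | c
      · exact sub il (setH_s (bnd_t k).1 hθ hb c)
      · exact sub ir (setL_s (bnd_t k).2 hθ hb c)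
    · have hi := Nat.le_of_ble_eq_true (bnd_t (bnd_t k).1).1
      have he := beq_t (bnd_t (bnd_t k).1).2
      have hv := hρ i (by rw [he, Nat.add_eq]; omega)
      rw [he, mon_unit x hi] at hv
      have k := (bnd_t k).2
      rw [shl32, Nat.add_eq] at k
      rcases Nat.lt_or_ge θ (ρ i) with c | c
      · refine sub ir (setL_s (bnd_t k).2 (by omega) hb ?_)
        rw [← hv]
        have : (θ : ℝ) + 1 ≤ ρ i := by exact_mod_cast c
        push_cast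
        linarith
      · refine sub il (setH_s (bnd_t k).1 (Nat.mul_ne_zero hθ (by norm_num)) hb ?_)
        rw [← hv]
        have : (ρ i : ℝ) ≤ θ := by exact_mod_cast c
        push_cast
        linarith

/-- Soundness of the check of a tree. -/
theorem Tr.run_s {ce : ℕ} {p : C} {t : Tr} {b : Bx} (h : t.run ce p b = true) (x : Pt) (ρ : ℕ → ℕ) (hb : InBox b x)
    (hρ : Vars ce ρ x) : ∃ g h, p.sem ρ g h :=
  chk_s hρ t _ b hb (fun _ _ _ k => absurd k (by simp)) h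

/-- The variables with number at least `n` are unused if the word has at most `20 * n` bits. -/
theorem vars_of {ce : ℕ} (n : ℕ) (hce : ce < 2 ^ (20 * n)) (h : ∀ i < n, (ρ i : ℝ) = mon x (ceOf ce i)) :
    Vars ce ρ x := by
  intro i hi
  by_contra k
  have hn : n ≤ i := Nat.le_of_not_lt fun c => k (h i c)
  apply hi
  show (ce >>> (20 * i)) % 1048576 = 0
  rw [Nat.shiftRight_eq_div_pow, Nat.div_eq_of_lt]
  exact lt_of_lt_of_le hce (Nat.pow_le_pow_right (by norm_num) (by omega))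

/-- a coordinate which is a quotient of natural numbers -/
theorem I1_div {l h a b : ℕ} (hb : 0 < b) (hl : l * b ≤ a * 4294967296) (hh : h ≠ 0 → a * 4294967296 ≤ h * b) :
    I1 l h ((a : ℝ) / (b : ℝ)) := by
  have hb' : (0 : ℝ) < b := by exact_mod_cast hb
  refine ⟨?_, fun k => ?_⟩
  · rw [div_mul_eq_mul_div, le_div_iff₀ hb']
    exact_mod_cast hl
  · rw [div_mul_eq_mul_div, div_le_iff₀ hb']
    exact_mod_cast hh k

/-- a coordinate which is a natural number -/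
theorem I1_nat {l h a : ℕ} (hl : l ≤ a * 4294967296) (hh : h ≠ 0 → a * 4294967296 ≤ h) : I1 l h (a : ℝ) :=
  ⟨by exact_mod_cast hl, fun k => by exact_mod_cast hh k⟩

/-- the point with coordinates `a i / b i` -/
noncomputable def ptQ (a0 b0 a1 b1 a2 b2 a3 b3 a4 b4 : ℕ) (h : 0 < a0 ∧ 0 < b0 ∧ 0 < a1 ∧ 0 < b1 ∧ 0 < a2 ∧ 0 < b2 ∧
    0 < a3 ∧ 0 < b3 ∧ 0 < a4 ∧ 0 < b4) : Pt where
  x0 := (a0 : ℝ) / b0
  x1 := (a1 : ℝ) / b1
  x2 := (a2 : ℝ) / b2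
  x3 := (a3 : ℝ) / b3
  x4 := (a4 : ℝ) / b4
  p0 := div_pos (Nat.cast_pos.2 h.1) (Nat.cast_pos.2 h.2.1)
  p1 := div_pos (Nat.cast_pos.2 h.2.2.1) (Nat.cast_pos.2 h.2.2.2.1)
  p2 := div_pos (Nat.cast_pos.2 h.2.2.2.2.1) (Nat.cast_pos.2 h.2.2.2.2.2.1)
  p3 := div_pos (Nat.cast_pos.2 h.2.2.2.2.2.2.1) (Nat.cast_pos.2 h.2.2.2.2.2.2.2.1)
  p4 := div_pos (Nat.cast_pos.2 h.2.2.2.2.2.2.2.2.1) (Nat.cast_pos.2 h.2.2.2.2.2.2.2.2.2)

/-- the function with five given values -/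
def rho5 (a0 a1 a2 a3 a4 : ℕ) : ℕ → ℕ
  | 0 => a0
  | 1 => a1
  | 2 => a2
  | 3 => a3
  | _ => a4

/-- five variables -/
theorem vars5 {ce a0 a1 a2 a3 a4 : ℕ} (hce : ce < 2 ^ 100) (h0 : (a0 : ℝ) = mon x (ceOf ce 0))
    (h1 : (a1 : ℝ) = mon x (ceOf ce 1)) (h2 : (a2 : ℝ) = mon x (ceOf ce 2)) (h3 : (a3 : ℝ) = mon x (ceOf ce 3))
    (h4 : (a4 : ℝ) = mon x (ceOf ce 4)) : Vars ce (rho5 a0 a1 a2 a3 a4) x := by
  refine vars_of 5 hce fun i hi => ?_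
  have h : i = 0 ∨ i = 1 ∨ i = 2 ∨ i = 3 ∨ i = 4 := by omega
  rcases h with rfl | rfl | rfl | rfl | rfl <;> assumption

end Pool.Agent.Work.MP_f4b644_ag.Mid
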