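import Pool.Agent.Work.MP_f4b644_ag.Mid.Dom2
import Pool.Agent.Work.MP_f4b644_ag.Mid.Cov

/-!
Soundness of the check of a tree with a table of compiled conditions.
-/

namespace Pool.Agent.Work.MP_f4b644_ag.Mid

open Pool.Agent.Lib.KLA

variable {x : Pt} {ρ : ℕ → ℕ}

theorem chk2_node (ce : ℕ) (p : C) (w : ℕ) (l r : Tr) (F : ℕ → Bx → Bool) (b : Bx) :
    (Tr.node w l r).chk2 ce p F b =
    strict (Nat.mod w 8) fun i => strict (Nat.shiftRight w 4) fun θ => bnd (nz θ)
      (cnd (Nat.beq (Nat.mod (Nat.shiftRight w 3) 2) 0)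
        (bnd (setH b i θ (l.chk2 ce p F)) (setL b i θ (r.chk2 ce p F)))
        (bnd (bnd (Nat.ble i 4) (Nat.beq (ceOf ce i) (Nat.add 559240 (Nat.shiftLeft 1 (Nat.mul 4 i)))))
          (strict (Nat.shiftLeft θ 32) fun v => bnd (setH b i v (l.chk2 ce p F))
            (strict (Nat.add v 4294967296) fun v' => setL b i v' (r.chk2 ce p F))))) := rfl

theorem chk2_comp (ce : ℕ) (p : C) (u w : ℕ) (t : Tr) (F : ℕ → Bx → Bool) (b : Bx) :
    (Tr.comp u w t).chk2 ce p F b =
    strict (Nat.mod u 32) fun mask => strict (Nat.shiftRight u 5) fun i => strict (Nat.add i 1) fun j =>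
      setW b w fun z => t.chk2 ce p (upd (upd F j fun d => setW d w (cmpC p ⟨z, ce, mask, 0⟩ z).f) i
        (cmpC p ⟨z, ce, mask, 0⟩ z).f) z := rfl

theorem chk2_leaf (ce : ℕ) (p : C) (w : ℕ) (F : ℕ → Bx → Bool) (b : Bx) : (Tr.leaf w).chk2 ce p F b =
    strict (Nat.mod w 256) fun k => strict (Nat.shiftRight w 8) fun v => setW b v (F k) := rfl

theorem chk2_setw (ce : ℕ) (p : C) (w : ℕ) (t : Tr) (F : ℕ → Bx → Bool) (b : Bx) : (Tr.setw w t).chk2 ce p F b =
    strict (Nat.mod w 256) fun i => strict (Nat.mod (Nat.shiftRight w 8) 256) fun k =>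
      strict (Nat.shiftRight w 16) fun v => t.chk2 ce p (upd F i fun d => setW d v (F k)) b := rfl

/-- a test which implies `Q` on the boxes below `b` -/
def Snd (x : Pt) (Q : Prop) (b : Bx) (f : Bx → Bool) : Prop := ∀ d, InBox d x → NZ d b → f d = true → Q

theorem Snd.mono {Q : Prop} {b c : Bx} {f : Bx → Bool} (h : Snd x Q b f) (k : NZ c b) : Snd x Q c f :=
  fun d hd hz => h d hd (hz.trans k)

theorem Snd.setW {Q : Prop} {b : Bx} {f : Bx → Bool} (h : Snd x Q b f) (v : ℕ) :
    Snd x Q b fun d => setW d v f := fun _ hd hz k =>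
  let ⟨e, h1, h2, h3⟩ := setW_s k hd
  h e h2 (h3.trans hz) h1

theorem Snd.upd {Q : Prop} {b : Bx} {F : ℕ → Bx → Bool} {f : Bx → Bool} (hF : ∀ k, Snd x Q b (F k))
    (hf : Snd x Q b f) (i k : ℕ) : Snd x Q b (upd F i f k) :=
  cnd_ind (Snd x Q b) (fun _ => hf) fun _ => hF k

theorem chk2_s {ce : ℕ} {p : C} (hρ : Vars ce ρ x) (t : Tr) : ∀ (F : ℕ → Bx → Bool) (b : Bx), InBox b x →
    (∀ k, Snd x (∃ g h, p.sem ρ g h) b (F k)) → t.chk2 ce p F b = true → ∃ g h, p.sem ρ g h := by
  induction t with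
  | leaf w =>
    intro F b hb hf h
    have h' := (chk2_leaf ce p w F b).symm.trans h
    simp only [strict_eq'] at h'
    exact (hf _).setW _ b hb (NZ.refl b) h'
  | keep => exact fun F b hb hf h => absurd h Bool.false_ne_true
  | setw w t it =>
    intro F b hb hf h
    have h' := (chk2_setw ce p w t F b).symm.trans h
    simp only [strict_eq'] at h'
    exact it _ b hb (Snd.upd hf ((hf _).setW _) _) h'
  | comp u w t it =>
    intro F b hb hf h
    have h' := (chk2_comp ce p u w t F b).symm.trans h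
    simp only [strict_eq'] at h'
    obtain ⟨z, h1, h2, h3⟩ := setW_s h' hb
    have s : Snd x (∃ g h, p.sem ρ g h) z (cmpC p ⟨z, ce, Nat.mod u 32, 0⟩ z).f :=
      fun d hd hz k => ⟨_, _, cmpC_s (c := ⟨z, ce, Nat.mod u 32, 0⟩) hd hz hρ p k⟩
    exact it _ z h2 (Snd.upd (Snd.upd (fun k => (hf k).mono h3) (s.setW _) _) s _) h1
  | node w l r il ir =>
    intro F b hb hf h
    have sub : ∀ {t : Tr}, (∀ (F : ℕ → Bx → Bool) (b : Bx), InBox b x →
        (∀ k, Snd x (∃ g h, p.sem ρ g h) b (F k)) → t.chk2 ce p F b = true → ∃ g h, p.sem ρ g h) →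
        (∃ b', t.chk2 ce p F b' = true ∧ InBox b' x ∧ NZ b' b) → ∃ g h, p.sem ρ g h :=
      fun it ⟨b', h1, h2, h3⟩ => it F b' h2 (fun k => (hf k).mono h3) h1
    have h' := (chk2_node ce p w l r F b).symm.trans h
    simp only [strict_eq'] at h'
    clear h
    generalize Nat.mod w 8 = i at h'
    generalize Nat.shiftRight w 4 = θ at h'
    have hθ := nz_t (bnd_t h').1
    have h2 := (bnd_t h').2
    revert h2
    refine cnd_ind (fun c : Bool => c = true → _) (fun _ k => ?_) fun _ k => ?_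
    · rcases le_total (x.get i * 4294967296) θ with c | c
      · exact sub il (setH_s (bnd_t k).1 hθ hb c)
      · exact sub ir (setL_s (bnd_t k).2 hθ hb c)
    · have hi := Nat.le_of_ble_eq_true (bnd_t (bnd_t k).1).1
      have he := beq_t (bnd_t (bnd_t k).1).2
      have hv := hρ i (by rw [he, Nat.add_eq]; omega)
      rw [he, mon_unit x hi] at hv
      have k := (bnd_t k).2
      rw [shl32, Nat.add_eq] at k
      rcases Nat.lt_or_ge θ (ρ i) with c | c
      · refine sub ir (setL_s (bnd_t k).2 (by omega) hb ?_)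
        rw [← hv]
        have : (θ : ℝ) + 1 ≤ ρ i := by exact_mod_cast c
        push_cast
        linarith
      · refine sub il (setH_s (bnd_t k).1 (Nat.mul_ne_zero hθ (by norm_num)) hb ?_)
        rw [← hv]
        have : (ρ i : ℝ) ≤ θ := by exact_mod_cast c
        push_cast
        linarith

theorem Cov.run2 {ce : ℕ} {p : C} {t : Tr} {b : Bx} (h : t.run2 ce p b = true) : Cov ce p b :=
  fun _ _ hb hρ => chk2_s hρ t _ b hb (fun _ _ _ _ k => absurd k Bool.false_ne_true) h

end Pool.Agent.Work.MP_f4b644_ag.Mid
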