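import Pool.Agent.Work.MP_f4b644_ag.Mid.QR
import Pool.Agent.Work.MP_f4b644_ag.Thin.Gen
import Pool.Agent.Work.MP_f4b644_ag.Thin.S5Zd

/-!
Leaves and strips for m = 4, 5 and X slightly above J.
-/

set_option autoImplicit false

namespace Pool.Agent.Work.MP_f4b644_ag.Mid

open Big Thin

/-- a tall block with T close to k -/
theorem V_tn (m j X k Tt s : ℕ) (hm : m = 4 ∨ m = 5) (hk : 4 ≤ k) (h1 : 3 * k ≤ 4 * Tt)
    (h2 : 2 * Tt ≤ 3 * k) (h3 : s + 8 ≤ j) (hB : s ≤ k + Tt)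
    (hc : Tt + 1 = k ∨ k ≤ s ∨ (Tt = k ∧ 2 * k ≤ 3 * s)) (hD : k * X ≤ j * Tt + m * s) :
    V m j X k Tt s 0 0 0 := by
  obtain ⟨X', hX, hl, hu⟩ := Tall_floor _ k X (by omega) hD
  obtain ⟨js, rfl⟩ : ∃ js, j = s + js := ⟨j - s, by omega⟩
  have a1 : 8 * Tt ≤ js * Tt := Nat.mul_le_mul_right Tt (by omega)
  obtain ⟨d, hd⟩ : ∃ d, Tt + d = 3 * k := ⟨3 * k - Tt, by omega⟩
  have a2 : 8 * d ≤ js * d := Nat.mul_le_mul_right d (by omega)
  have a3 : js * Tt + js * d = 3 * (js * k) := by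
    rw [← Nat.mul_add, hd]
    ring
  have a4 : (s + js) * Tt = s * Tt + js * Tt := by ring
  have a5 : m * js * k = m * (js * k) := by ring
  have a6 : s * (Tt + 0 + 2) = s * Tt + 2 * s := by ring
  have a7 : s * (Tt + 1 + 2) = s * Tt + 3 * s := by ring
  refine V_mono hX ?_
  by_cases c : Tt + 1 ≤ k
  · refine V_QQ m _ X' k Tt s 0 (m - 1) Tt (by omega) (by omega) (by omega) c (by omega) (by omega) hB hl
      ?_ ?_ (by omega)
    · rcases hm with rfl | rfl <;> omega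
    · rw [Nat.add_sub_cancel_left]
      rcases hm with rfl | rfl <;> omega
  · refine V_QQ m _ X' k Tt s 1 (m - 2) (Tt + 1 - k) (by omega) (by omega) (by omega) (by omega) (by omega)
      (by omega) hB hl ?_ ?_ ?_
    · rcases hm with rfl | rfl <;> omega
    · rw [Nat.add_sub_cancel_left]
      rcases hm with rfl | rfl <;> omega
    · rcases hc with h | h | ⟨h, h'⟩
      · omega
      · exact Or.inr (Or.inl h)
      · rw [show Tt + 1 - k = 1 by omega]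
        omega

theorem tl (m j X k Tt s : ℕ) (x t : ℤ) (hX : (X : ℤ) = j + x) (hT : (Tt : ℤ) + t = k) (hm : m = 4 ∨ m = 5)
    (hk : 4 ≤ k) (h1 : 3 * k ≤ 4 * Tt) (h2 : 2 * Tt ≤ 3 * k) (h3 : s + 8 ≤ j) (hB : s ≤ k + Tt)
    (hc : Tt + 1 = k ∨ k ≤ s ∨ (Tt = k ∧ 2 * k ≤ 3 * s)) (hD : (k : ℤ) * x + j * t ≤ m * s) :
    V m j X k Tt s 0 0 0 :=
  V_tn m j X k Tt s hm hk h1 h2 h3 hB hc (Dx m j X k Tt s x t hX hT hD)

/-- a strip: squares and a grid -/
theorem V_SA (m j x k ρ s : ℕ) (hm : 3 ≤ m) (h1 : m ≤ x) (h2 : x ≤ j) (h3 : s + ρ + m ≤ k)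
    (h4 : s + x ≤ m * j) (hD : k * x ≤ j * ρ + m * s) : V m j (j + x) k (k + ρ) s 0 0 0 := by
  have a1 := Nat.div_add_mod' s j
  have a2 := Nat.mod_lt s (show 0 < j by omega)
  generalize s / j = q at a1
  generalize s % j = s' at a1 a2
  subst a1
  obtain ⟨k', rfl⟩ : ∃ k', k = q * j + k' := ⟨k - q * j, by omega⟩
  obtain ⟨z, rfl⟩ : ∃ z, x = m + z := ⟨x - m, by omega⟩
  have e1 : (q * j + k') * (m + z) = m * (q * j) + j * (q * z) + k' * m + k' * z := by ring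
  have e2 : m * (q * j + s') = m * (q * j) + m * s' := by ring
  have e3 : m * s' ≤ k' * m := by
    rw [mul_comm]
    exact Nat.mul_le_mul_right m (by omega)
  have e4 : q * z ≤ ρ := Nat.le_of_mul_le_mul_left (c := j) (by omega) (by omega)
  obtain ⟨ρ', rfl⟩ := Nat.exists_eq_add_of_le e4
  have e5 : j * (q * z + ρ') = j * (q * z) + j * ρ' := by ring
  have e6 : q * j + k' + (q * z + ρ') = q * (j + z) + (k' + ρ') := by ring
  have e7 : (m + 1) * j = m * j + j := by ring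
  have e8 : k' * (j + (m + z)) = j * k' + k' * m + k' * z := by ring
  have e9 : j * (k' + ρ') = j * k' + j * ρ' := by ring
  rw [e6]
  exact V_peelSQ q (fun _ => V_sq m j _ (j + z) 0 1 (m - 2) (z + 1) (by omega) (by omega) (by omega)
      (by omega) (by omega) (by omega) (Or.inl rfl))
    (V_H m j _ k' (k' + ρ') s' 0 0 0 1 (m - 2) (by omega) (by omega) (by omega) (by omega) (by omega)
      (by omega) (by omega) (by omega) (by omega) (by omega)) (by omega)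

/-- three strips, two of them without remainder -/
theorem V_three (m J x k ρ a b s j3 x3 s3 : ℕ) (hm : 3 ≤ m) (hs : s + b * ρ = k * a)
    (hj : J = 2 * (m * b) + j3) (hx : x = 2 * (m * a) + x3) (h3 : k + (k + ρ) = 2 * s + s3) (ha : 1 ≤ a)
    (hab : a ≤ b) (c1 : s + ρ + m ≤ k) (c2 : s + m * a ≤ m * (m * b)) (c3 : m ≤ x3) (c4 : x3 ≤ j3)
    (c5 : s3 + ρ + m ≤ k) (c6 : s3 + x3 ≤ m * j3) (hD : k * x ≤ J * ρ + m * (k + (k + ρ))) :
    V m J (J + x) k (k + ρ) (k + (k + ρ)) 0 0 0 := by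
  have e1 : k * (m * a) = m * b * ρ + m * s := by
    rw [Nat.mul_left_comm, ← hs]
    ring
  refine V_cutBn 2 (m * b) (m * b + m * a) s j3 (j3 + x3) s3 hj (by omega) h3 le_rfl
    (V_SA m _ _ k ρ s hm (Nat.le_mul_of_pos_right m ha) (Nat.mul_le_mul_left m hab) c1 c2 e1.le)
    (V_SA m j3 x3 k ρ s3 hm c3 c4 c5 c6 ?_)
  rw [h3, hj, hx] at hD
  nlinarith

theorem blk4L (J x k ρ e : ℕ) (hJ : 320 ≤ J) (hx : x = e + 8) (h1 : 13 ≤ e) (h2 : 12 * e ≤ J)
    (hk : 6 * J ≤ 7 * k) (hk' : k ≤ J + 4) (h3 : k * e ≤ (J + 4) * ρ) (h4 : ρ ≤ e) :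
    V 4 J (J + x) k (k + ρ) (k + (k + ρ)) 0 0 0 := by
  have hρ : 0 < ρ := Nat.pos_of_ne_zero fun h => by
    have := Nat.mul_pos (show 0 < k by omega) (show 0 < e by omega)
    rw [h] at h3
    omega
  obtain ⟨a, α, a1, a2, a3⟩ : ∃ a α, 13 * a ≤ e + 17 ∧ e + 5 ≤ 13 * a ∧ α + 3 = 4 * a :=
    ⟨(e + 17) / 13, 4 * ((e + 17) / 13) - 3, by omega, by omega, by omega⟩
  have b1 := Nat.div_mul_le_self (k * α) (4 * ρ)
  have b2 := Nat.lt_div_mul_add (a := k * α) (show 0 < 4 * ρ by omega)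
  generalize k * α / (4 * ρ) = b at b1 b2
  have b3 : 5 * k < 84 * (b + 1) := by
    refine Nat.lt_of_mul_lt_mul_right (a := ρ) ?_
    have := Nat.mul_le_mul_left k (show 5 * ρ ≤ 21 * α by omega)
    nlinarith
  have b4 : 88 * b ≤ 9 * (J + 4) := by
    refine Nat.le_of_mul_le_mul_right (c := k * e) ?_ (Nat.mul_pos (by omega) (by omega))
    have d1 := Nat.mul_le_mul_left (88 * b) h3
    have d2 := Nat.mul_le_mul_left (22 * (J + 4)) b1
    have d3 := Nat.mul_le_mul_left (k * (J + 4)) (show 22 * α ≤ 9 * e by omega)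
    nlinarith
  have b5 : k * α + 3 * k = 4 * (k * a) := by
    rw [← Nat.mul_left_comm, ← a3]
    ring
  have b6 : b * (4 * ρ) = 4 * (b * ρ) := by ring
  obtain ⟨s, hs⟩ : ∃ s, s + b * ρ = k * a := ⟨k * a - b * ρ, by omega⟩
  refine V_three 4 J x k ρ a b s (J - 8 * b) (x - 8 * a) (k + (k + ρ) - 2 * s) (by omega) hs (by omega)
    (by omega) (by omega) (by omega) (by omega) (by omega) (by omega) (by omega) (by omega) (by omega)
    (by omega) ?_
  subst hx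
  nlinarith

theorem blk5L (J x e : ℕ) (hJ : 600 ≤ J) (hx : x = e + 10) (h1 : 6 ≤ e) (h2 : 24 * e ≤ J) :
    V 5 J (J + x) (J + 5) (J + 5 + e) (J + 5 + (J + 5 + e)) 0 0 0 := by
  obtain ⟨a, α, p, l1, l2, u1, u2, a1, a2, a3, a4, a5⟩ : ∃ a α p l1 l2 u1 u2, α + p = 20 * a ∧ l1 * e ≤ l2 * α ∧
      u2 * α ≤ u1 * e ∧ (1 ≤ a ∧ 20 * a ≤ e + 22 ∧ 10 * a ≤ e + 5) ∧
      ((p = 11 ∧ l1 = 9 ∧ l2 = 17 ∧ u1 = 3 ∧ u2 = 2 ∧ e ≤ 17) ∨
        (p = 14 ∧ l1 = 26 ∧ l2 = 37 ∧ u1 = 13 ∧ u2 = 9)) := by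
    by_cases c : e ≤ 17
    · exact ⟨1, 9, 11, 9, 17, 3, 2, by omega, by omega, by omega, by omega, by omega⟩
    · exact ⟨(e + 22) / 20, 20 * ((e + 22) / 20) - 14, 14, 26, 37, 13, 9, by omega, by omega, by omega,
        by omega, by omega⟩
  obtain ⟨k, hk⟩ : ∃ k, k = J + 5 := ⟨_, rfl⟩
  rw [← hk]
  have b1 := Nat.div_mul_le_self (k * α) (20 * e)
  have b2 := Nat.lt_div_mul_add (a := k * α) (show 0 < 20 * e by omega)
  generalize k * α / (20 * e) = b at b1 b2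
  have b3 : l1 * k ≤ 20 * l2 * (b + 1) := by
    refine Nat.le_of_mul_le_mul_right (c := e) ?_ (by omega)
    have d1 := Nat.mul_le_mul_left k a2
    have d2 := Nat.mul_le_mul_left l2 b2.le
    nlinarith
  have b4 : 20 * u2 * b ≤ u1 * k := by
    refine Nat.le_of_mul_le_mul_right (c := e) ?_ (by omega)
    have d1 := Nat.mul_le_mul_left k a3
    have d2 := Nat.mul_le_mul_left u2 b1
    nlinarith
  have b5 : k * α + p * k = 20 * (k * a) := by
    rw [← Nat.mul_left_comm, ← a1]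
    ring
  have b6 : b * (20 * e) = 20 * (b * e) := by ring
  have hD : k * x ≤ J * e + 5 * (k + (k + e)) := by
    subst hx hk
    exact le_of_eq (by ring)
  clear a2 a3
  obtain ⟨s, hs⟩ : ∃ s, s + b * e = k * a := ⟨k * a - b * e, by omega⟩
  rcases a5 with ⟨rfl, rfl, rfl, rfl, rfl, a6⟩ | ⟨rfl, rfl, rfl, rfl, rfl⟩ <;>
  exact V_three 5 J x k e a b s (J - 10 * b) (x - 10 * a) (k + (k + e) - 2 * s) (by omega) hs (by omega)
    (by omega) (by omega) (by omega) (by omega) (by omega) (by omega) (by omega) (by omega) (by omega)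
    (by omega) hD

end Pool.Agent.Work.MP_f4b644_ag.Mid
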