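import Pool.Agent.Work.MP_f4b644_ag.Mid.HX

/-!
First dimension 6, X = J + x for small x: tall blocks, in four cases also strips.
-/

set_option autoImplicit false

namespace Pool.Agent.Work.MP_f4b644_ag.Mid

open Big Thin Multiset Big.Gad

theorem hx4_1 (i K : ℕ) (hi : 280 ≤ i)
    (hK : K * (i + 40 + (i + 41)) ≤ (4 * i + 159) * (i + 40 + 4)) :
    S (4 + 2) (i + 40) K (replicate (4 * i + 159) (T 0 0)) := by
  obtain ⟨K0, h0⟩ : ∃ z, z = 2 * i + 86 := ⟨_, rfl⟩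
  refine S_of_V (X := i + 41) (K0 := K0) (T0 := (K0 - 13)) (by omega) (K_le hK (by subst h0; nlinarith)) ?_
  obtain ⟨a, a1, a2⟩ : ∃ z, 13 * z ≤ 3 * K0 ∧ 3 * K0 < 13 * z + 13 := ⟨(3 * K0) / 13, by omega, by omega⟩
  obtain ⟨c, c1, c2⟩ : ∃ z, 13 * z ≤ 2 * K0 ∧ 2 * K0 < 13 * z + 13 := ⟨(2 * K0) / 13, by omega, by omega⟩
  obtain ⟨b, b0⟩ : ∃ z, K0 = 3 * a + z := ⟨K0 - (3 * a), by omega⟩
  obtain ⟨d, d0⟩ : ∃ z, b = 1 * c + z := ⟨b - (1 * c), by omega⟩
  exact V_cutC0 3 a (a - 3) (a + (a - 3)) b (b - 4) (b + (b - 4)) (by omega) (by omega) (by omega) (by omega)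
    (tl _ _ _ _ _ _ (1) (3) (by omega) (by omega) (by omega) (by omega) (by omega) (by omega) (by omega) (by omega) (by omega) (by omega))
    (V_cutC0 1 c (c - 2) (c + (c - 2)) d (d - 2) (d + (d - 2)) (by omega) (by omega) (by omega) (by omega)
    (tl _ _ _ _ _ _ (1) (2) (by omega) (by omega) (by omega) (by omega) (by omega) (by omega) (by omega) (by omega) (by omega) (by omega))
    (tl _ _ _ _ _ _ (1) (2) (by omega) (by omega) (by omega) (by omega) (by omega) (by omega) (by omega) (by omega) (by omega) (by omega)))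

theorem hx4_2 (i K : ℕ) (hi : 280 ≤ i)
    (hK : K * (i + 40 + (i + 42)) ≤ (4 * i + 158) * (i + 40 + 4)) :
    S (4 + 2) (i + 40) K (replicate (4 * i + 158) (T 0 0)) := by
  obtain ⟨K0, h0⟩ : ∃ z, z = 2 * i + 84 := ⟨_, rfl⟩
  refine S_of_V (X := i + 42) (K0 := K0) (T0 := (K0 - 10)) (by omega) (K_le hK (by subst h0; nlinarith)) ?_
  obtain ⟨a, a1, a2⟩ : ∃ z, 10 * z ≤ 2 * K0 ∧ 2 * K0 < 10 * z + 10 := ⟨(2 * K0) / 10, by omega, by omega⟩
  obtain ⟨b, b0⟩ : ∃ z, K0 = 4 * a + z := ⟨K0 - (4 * a), by omega⟩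
  exact V_cutC0 4 a (a - 2) (a + (a - 2)) b (b - 2) (b + (b - 2)) (by omega) (by omega) (by omega) (by omega)
    (tl _ _ _ _ _ _ (2) (2) (by omega) (by omega) (by omega) (by omega) (by omega) (by omega) (by omega) (by omega) (by omega) (by omega))
    (tl _ _ _ _ _ _ (2) (2) (by omega) (by omega) (by omega) (by omega) (by omega) (by omega) (by omega) (by omega) (by omega) (by omega))

theorem hx4_3 (i K : ℕ) (hi : 280 ≤ i)
    (hK : K * (i + 40 + (i + 43)) ≤ (4 * i + 157) * (i + 40 + 4)) :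
    S (4 + 2) (i + 40) K (replicate (4 * i + 157) (T 0 0)) := by
  obtain ⟨K0, h0⟩ : ∃ z, z = 2 * i + 83 := ⟨_, rfl⟩
  refine S_of_V (X := i + 43) (K0 := K0) (T0 := (K0 - 9)) (by omega) (K_le hK (by subst h0; nlinarith)) ?_
  obtain ⟨a, a1, a2⟩ : ∃ z, 9 * z ≤ 2 * K0 ∧ 2 * K0 < 9 * z + 9 := ⟨(2 * K0) / 9, by omega, by omega⟩
  obtain ⟨b, b0⟩ : ∃ z, K0 = 4 * a + z := ⟨K0 - (4 * a), by omega⟩
  exact V_cutC0 4 a (a - 2) (a + (a - 2)) b (b - 1) (b + (b - 1)) (by omega) (by omega) (by omega) (by omega)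
    (tl _ _ _ _ _ _ (3) (2) (by omega) (by omega) (by omega) (by omega) (by omega) (by omega) (by omega) (by omega) (by omega) (by omega))
    (tl _ _ _ _ _ _ (3) (1) (by omega) (by omega) (by omega) (by omega) (by omega) (by omega) (by omega) (by omega) (by omega) (by omega))

theorem hx4_4 (i K : ℕ) (hi : 280 ≤ i)
    (hK : K * (i + 40 + (i + 44)) ≤ (4 * i + 156) * (i + 40 + 4)) :
    S (4 + 2) (i + 40) K (replicate (4 * i + 156) (T 0 0)) := by
  obtain ⟨K0, h0⟩ : ∃ z, z = 2 * i + 81 := ⟨_, rfl⟩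
  refine S_of_V (X := i + 44) (K0 := K0) (T0 := (K0 - 6)) (by omega) (K_le hK (by subst h0; nlinarith)) ?_
  obtain ⟨a, a1, a2⟩ : ∃ z, 6 * z ≤ 1 * K0 ∧ 1 * K0 < 6 * z + 6 := ⟨(1 * K0) / 6, by omega, by omega⟩
  obtain ⟨b, b0⟩ : ∃ z, K0 = 5 * a + z := ⟨K0 - (5 * a), by omega⟩
  exact V_cutC0 5 a (a - 1) (a + (a - 1)) b (b - 1) (b + (b - 1)) (by omega) (by omega) (by omega) (by omega)
    (tl _ _ _ _ _ _ (4) (1) (by omega) (by omega) (by omega) (by omega) (by omega) (by omega) (by omega) (by omega) (by omega) (by omega))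
    (tl _ _ _ _ _ _ (4) (1) (by omega) (by omega) (by omega) (by omega) (by omega) (by omega) (by omega) (by omega) (by omega) (by omega))

theorem hx4_5 (i K : ℕ) (hi : 280 ≤ i)
    (hK : K * (i + 40 + (i + 45)) ≤ (4 * i + 155) * (i + 40 + 4)) :
    S (4 + 2) (i + 40) K (replicate (4 * i + 155) (T 0 0)) := by
  obtain ⟨K0, h0⟩ : ∃ z, z = 2 * i + 80 := ⟨_, rfl⟩
  refine S_of_V (X := i + 45) (K0 := K0) (T0 := (K0 - 5)) (by omega) (K_le hK (by subst h0; nlinarith)) ?_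
  obtain ⟨a, a1, a2⟩ : ∃ z, 5 * z ≤ 1 * K0 ∧ 1 * K0 < 5 * z + 5 := ⟨(1 * K0) / 5, by omega, by omega⟩
  obtain ⟨b, b0⟩ : ∃ z, K0 = 4 * a + z := ⟨K0 - (4 * a), by omega⟩
  exact V_cutC0 4 a (a - 1) (a + (a - 1)) b (b - 1) (b + (b - 1)) (by omega) (by omega) (by omega) (by omega)
    (tl _ _ _ _ _ _ (5) (1) (by omega) (by omega) (by omega) (by omega) (by omega) (by omega) (by omega) (by omega) (by omega) (by omega))
    (tl _ _ _ _ _ _ (5) (1) (by omega) (by omega) (by omega) (by omega) (by omega) (by omega) (by omega) (by omega) (by omega) (by omega))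

theorem bb4_6 (i k : ℕ) (hi : 280 ≤ i) (h1 : i + 78 ≤ 2 * k) (h2 : 2 * k ≤ i + 80) :
    V 4 (i + 40) (i + 46) k (k - 1) (k + (k - 1)) 0 0 0 := by
  obtain ⟨j, j1, j2⟩ : ∃ z, 2 * z ≤ i + 40 ∧ i + 40 < 2 * z + 2 := ⟨(i + 40) / 2, by omega, by omega⟩
  obtain ⟨g, g0⟩ : ∃ z, i + 40 = j + z := ⟨i + 40 - (j), by omega⟩
  obtain ⟨c, c1, c2⟩ : ∃ z, 16 * z ≤ i + 40 ∧ i + 40 < 16 * z + 16 := ⟨(i + 40) / 16, by omega, by omega⟩
  obtain ⟨l, l0⟩ : ∃ z, k = 4 * c + z := ⟨k - (4 * c), by omega⟩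
  obtain ⟨s, s1, s2⟩ : ∃ z, 4 * z ≤ 3 * l + j + 3 ∧ 3 * l + j + 3 < 4 * z + 4 := ⟨(3 * l + j + 3) / 4, by omega, by omega⟩
  obtain ⟨u, u0⟩ : ∃ z, k + (k - 1) = 6 * c + s + z := ⟨k + (k - 1) - (6 * c + s), by omega⟩
  exact V_cutB0 j (j + 3) (3 * c + s) g (g + 3) (3 * c + u) (by omega) (by omega) (by omega) le_rfl
    (V_cutC0 1 (4 * c) (4 * c) (3 * c) l (l - 1) s (by omega) (by omega) (by omega) (by omega)
      (tl _ _ _ _ _ _ (3) (0) (by omega) (by omega) (by omega) (by omega) (by omega) (by omega) (by omega) (by omega) (by omega) (by omega))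
      (tl _ _ _ _ _ _ (3) (1) (by omega) (by omega) (by omega) (by omega) (by omega) (by omega) (by omega) (by omega) (by omega) (by omega)))
    (V_cutC0 1 (4 * c) (4 * c) (3 * c) l (l - 1) u (by omega) (by omega) (by omega) (by omega)
      (tl _ _ _ _ _ _ (3) (0) (by omega) (by omega) (by omega) (by omega) (by omega) (by omega) (by omega) (by omega) (by omega) (by omega))
      (tl _ _ _ _ _ _ (3) (1) (by omega) (by omega) (by omega) (by omega) (by omega) (by omega) (by omega) (by omega) (by omega) (by omega)))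

theorem hx4_6 (i K : ℕ) (hi : 280 ≤ i)
    (hK : K * (i + 40 + (i + 46)) ≤ (4 * i + 154) * (i + 40 + 4)) :
    S (4 + 2) (i + 40) K (replicate (4 * i + 154) (T 0 0)) := by
  obtain ⟨K0, h0⟩ : ∃ z, z = 2 * i + 78 := ⟨_, rfl⟩
  refine S_of_V (X := i + 46) (K0 := K0) (T0 := (K0 - 2)) (by omega) (K_le hK (by subst h0; nlinarith)) ?_
  obtain ⟨a, a1, a2⟩ : ∃ z, 2 * z ≤ 1 * (i + 40) + 40 ∧ 1 * (i + 40) + 40 < 2 * z + 2 := ⟨(1 * (i + 40) + 40) / 2, by omega, by omega⟩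
  obtain ⟨b, b0⟩ : ∃ z, K0 = 2 * a + z := ⟨K0 - (2 * a), by omega⟩
  obtain ⟨c, c1, c2⟩ : ∃ z, 2 * z ≤ b ∧ b < 2 * z + 2 := ⟨(b) / 2, by omega, by omega⟩
  obtain ⟨d, d0⟩ : ∃ z, b = c + z := ⟨b - (c), by omega⟩
  exact V_cutC0 2 a (a - 1) (a + (a - 1)) b b (b + b) (by omega) (by omega) (by omega) (by omega)
    (bb4_6 i _ hi (by omega) (by omega))
    (V_cutC0 1 c c (c + c) d d (d + d) (by omega) (by omega) (by omega) (by omega)
    (tl _ _ _ _ _ _ (6) (0) (by omega) (by omega) (by omega) (by omega) (by omega) (by omega) (by omega) (by omega) (by omega) (by omega))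
    (tl _ _ _ _ _ _ (6) (0) (by omega) (by omega) (by omega) (by omega) (by omega) (by omega) (by omega) (by omega) (by omega) (by omega)))

theorem bb4_7 (i k : ℕ) (hi : 280 ≤ i) (h1 : i + 52 ≤ k) (h2 : k ≤ i + 52) :
    V 4 (i + 40) (i + 47) k (k - 1) (k + (k - 1)) 0 0 0 := by
  obtain ⟨j, j1, j2⟩ : ∃ z, 2 * z ≤ i + 40 ∧ i + 40 < 2 * z + 2 := ⟨(i + 40) / 2, by omega, by omega⟩
  obtain ⟨g, g0⟩ : ∃ z, i + 40 = j + z := ⟨i + 40 - (j), by omega⟩
  obtain ⟨c, c1, c2⟩ : ∃ z, 15 * z ≤ i + 40 ∧ i + 40 < 15 * z + 15 := ⟨(i + 40) / 15, by omega, by omega⟩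
  obtain ⟨l, l0⟩ : ∃ z, k = 12 * c + z := ⟨k - (12 * c), by omega⟩
  obtain ⟨s, s1, s2⟩ : ∃ z, 4 * z ≤ 3 * l + j + 3 ∧ 3 * l + j + 3 < 4 * z + 4 := ⟨(3 * l + j + 3) / 4, by omega, by omega⟩
  obtain ⟨u, u0⟩ : ∃ z, k + (k - 1) = 21 * c + s + z := ⟨k + (k - 1) - (21 * c + s), by omega⟩
  exact V_cutB0 j (j + 3) (9 * c + s) g (g + 4) (12 * c + u) (by omega) (by omega) (by omega) le_rfl
    (V_cutC0 3 (4 * c) (4 * c) (3 * c) l (l - 1) s (by omega) (by omega) (by omega) (by omega)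
      (tl _ _ _ _ _ _ (3) (0) (by omega) (by omega) (by omega) (by omega) (by omega) (by omega) (by omega) (by omega) (by omega) (by omega))
      (tl _ _ _ _ _ _ (3) (1) (by omega) (by omega) (by omega) (by omega) (by omega) (by omega) (by omega) (by omega) (by omega) (by omega)))
    (V_cutC0 3 (4 * c) (4 * c) (4 * c) l (l - 1) u (by omega) (by omega) (by omega) (by omega)
      (tl _ _ _ _ _ _ (4) (0) (by omega) (by omega) (by omega) (by omega) (by omega) (by omega) (by omega) (by omega) (by omega) (by omega))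
      (tl _ _ _ _ _ _ (4) (1) (by omega) (by omega) (by omega) (by omega) (by omega) (by omega) (by omega) (by omega) (by omega) (by omega)))

theorem hx4_7 (i K : ℕ) (hi : 280 ≤ i)
    (hK : K * (i + 40 + (i + 47)) ≤ (4 * i + 153) * (i + 40 + 4)) :
    S (4 + 2) (i + 40) K (replicate (4 * i + 153) (T 0 0)) := by
  obtain ⟨K0, h0⟩ : ∃ z, z = 2 * i + 77 := ⟨_, rfl⟩
  refine S_of_V (X := i + 47) (K0 := K0) (T0 := (K0 - 1)) (by omega) (K_le hK (by subst h0; nlinarith)) ?_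
  obtain ⟨a, a1, a2⟩ : ∃ z, 1 * z ≤ 1 * (i + 40) + 12 ∧ 1 * (i + 40) + 12 < 1 * z + 1 := ⟨(1 * (i + 40) + 12) / 1, by omega, by omega⟩
  obtain ⟨b, b0⟩ : ∃ z, K0 = 1 * a + z := ⟨K0 - (1 * a), by omega⟩
  obtain ⟨c, c1, c2⟩ : ∃ z, 2 * z ≤ b ∧ b < 2 * z + 2 := ⟨(b) / 2, by omega, by omega⟩
  obtain ⟨d, d0⟩ : ∃ z, b = c + z := ⟨b - (c), by omega⟩
  exact V_cutC0 1 a (a - 1) (a + (a - 1)) b b (b + b) (by omega) (by omega) (by omega) (by omega)
    (bb4_7 i _ hi (by omega) (by omega))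
    (V_cutC0 1 c c (c + c) d d (d + d) (by omega) (by omega) (by omega) (by omega)
    (tl _ _ _ _ _ _ (7) (0) (by omega) (by omega) (by omega) (by omega) (by omega) (by omega) (by omega) (by omega) (by omega) (by omega))
    (tl _ _ _ _ _ _ (7) (0) (by omega) (by omega) (by omega) (by omega) (by omega) (by omega) (by omega) (by omega) (by omega) (by omega)))

theorem hx4_8 (i K : ℕ) (hi : 280 ≤ i)
    (hK : K * (i + 40 + (i + 48)) ≤ (4 * i + 152) * (i + 40 + 4)) :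
    S (4 + 2) (i + 40) K (replicate (4 * i + 152) (T 0 0)) := by
  obtain ⟨K0, h0⟩ : ∃ z, z = 2 * i + 76 := ⟨_, rfl⟩
  refine S_of_V (X := i + 48) (K0 := K0) (T0 := K0) (by omega) (K_le hK (by subst h0; nlinarith)) ?_
  obtain ⟨a, a1, a2⟩ : ∃ z, 5 * z ≤ K0 ∧ K0 < 5 * z + 5 := ⟨(K0) / 5, by omega, by omega⟩
  obtain ⟨b, b0⟩ : ∃ z, K0 = 4 * a + z := ⟨K0 - (4 * a), by omega⟩
  exact V_cutC0 4 a a (a + a) b b (b + b) (by omega) (by omega) (by omega) (by omega)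
    (tl _ _ _ _ _ _ (8) (0) (by omega) (by omega) (by omega) (by omega) (by omega) (by omega) (by omega) (by omega) (by omega) (by omega))
    (tl _ _ _ _ _ _ (8) (0) (by omega) (by omega) (by omega) (by omega) (by omega) (by omega) (by omega) (by omega) (by omega) (by omega))

theorem bb4_9 (i k : ℕ) (hi : 280 ≤ i) (h1 : i ≤ 2 * k) (h2 : 3 * k ≤ 2 * i + 90) :
    V 4 (i + 40) (i + 49) k (k + 1) (k + (k + 1)) 0 0 0 := by
  obtain ⟨b, b1, b2⟩ : ∃ z, 20 * z ≤ i + 40 ∧ i + 40 < 20 * z + 20 := ⟨(i + 40) / 20, by omega, by omega⟩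
  obtain ⟨j, j0⟩ : ∃ z, i + 40 = 4 * b + z := ⟨i + 40 - (4 * b), by omega⟩
  obtain ⟨s, s0⟩ : ∃ z, k = b + z := ⟨k - (b), by omega⟩
  exact V_cutB0 (4 * b) (4 * b + 4) s j (j + 5) (k + 1 + b) (by omega) (by omega) (by omega) le_rfl
    (V_SA 4 _ _ _ _ _ (by omega) (by omega) (by omega) (by omega) (by omega) (by omega))
    (tl _ _ _ _ _ _ (5) (-1) (by omega) (by omega) (by omega) (by omega) (by omega) (by omega) (by omega) (by omega) (by omega) (by omega))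

theorem hx4_9 (i K : ℕ) (hi : 280 ≤ i)
    (hK : K * (i + 40 + (i + 49)) ≤ (4 * i + 151) * (i + 40 + 4)) :
    S (4 + 2) (i + 40) K (replicate (4 * i + 151) (T 0 0)) := by
  obtain ⟨K0, h0⟩ : ∃ z, z = 2 * i + 74 := ⟨_, rfl⟩
  refine S_of_V (X := i + 49) (K0 := K0) (T0 := (K0 + 3)) (by omega) (K_le hK (by subst h0; nlinarith)) ?_
  obtain ⟨a, a1, a2⟩ : ∃ z, 3 * z ≤ K0 ∧ K0 < 3 * z + 3 := ⟨(K0) / 3, by omega, by omega⟩
  obtain ⟨b, b0⟩ : ∃ z, K0 = 2 * a + z := ⟨K0 - (2 * a), by omega⟩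
  exact V_cutC0 2 a (a + 1) (a + (a + 1)) b (b + 1) (b + (b + 1)) (by omega) (by omega) (by omega) (by omega)
    (bb4_9 i _ hi (by omega) (by omega))
    (bb4_9 i _ hi (by omega) (by omega))

theorem bb4_10 (i k : ℕ) (hi : 280 ≤ i) (h1 : i ≤ 2 * k) (h2 : 2 * k ≤ i + 44) :
    V 4 (i + 40) (i + 50) k (k + 1) (k + (k + 1)) 0 0 0 := by
  obtain ⟨b, b1, b2⟩ : ∃ z, 20 * z ≤ i + 40 ∧ i + 40 < 20 * z + 20 := ⟨(i + 40) / 20, by omega, by omega⟩
  obtain ⟨j, j0⟩ : ∃ z, i + 40 = 4 * b + z := ⟨i + 40 - (4 * b), by omega⟩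
  obtain ⟨s, s0⟩ : ∃ z, k = b + z := ⟨k - (b), by omega⟩
  exact V_cutB0 (4 * b) (4 * b + 4) s j (j + 6) (k + 1 + b) (by omega) (by omega) (by omega) le_rfl
    (V_SA 4 _ _ _ _ _ (by omega) (by omega) (by omega) (by omega) (by omega) (by omega))
    (tl _ _ _ _ _ _ (6) (-1) (by omega) (by omega) (by omega) (by omega) (by omega) (by omega) (by omega) (by omega) (by omega) (by omega))

theorem hx4_10 (i K : ℕ) (hi : 280 ≤ i)
    (hK : K * (i + 40 + (i + 50)) ≤ (4 * i + 150) * (i + 40 + 4)) :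
    S (4 + 2) (i + 40) K (replicate (4 * i + 150) (T 0 0)) := by
  obtain ⟨K0, h0⟩ : ∃ z, z = 2 * i + 73 := ⟨_, rfl⟩
  refine S_of_V (X := i + 50) (K0 := K0) (T0 := (K0 + 4)) (by omega) (K_le hK (by subst h0; nlinarith)) ?_
  obtain ⟨a, a1, a2⟩ : ∃ z, 4 * z ≤ K0 ∧ K0 < 4 * z + 4 := ⟨(K0) / 4, by omega, by omega⟩
  obtain ⟨b, b0⟩ : ∃ z, K0 = 3 * a + z := ⟨K0 - (3 * a), by omega⟩
  exact V_cutC0 3 a (a + 1) (a + (a + 1)) b (b + 1) (b + (b + 1)) (by omega) (by omega) (by omega) (by omega)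
    (bb4_10 i _ hi (by omega) (by omega))
    (bb4_10 i _ hi (by omega) (by omega))

theorem hx4_11 (i K : ℕ) (hi : 280 ≤ i)
    (hK : K * (i + 40 + (i + 51)) ≤ (4 * i + 149) * (i + 40 + 4)) :
    S (4 + 2) (i + 40) K (replicate (4 * i + 149) (T 0 0)) := by
  obtain ⟨K0, h0⟩ : ∃ z, z = 2 * i + 71 := ⟨_, rfl⟩
  refine S_of_V (X := i + 51) (K0 := K0) (T0 := (K0 + 7)) (by omega) (K_le hK (by subst h0; nlinarith)) ?_
  obtain ⟨a, a1, a2⟩ : ∃ z, 7 * z ≤ 1 * K0 ∧ 1 * K0 < 7 * z + 7 := ⟨(1 * K0) / 7, by omega, by omega⟩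
  obtain ⟨b, b0⟩ : ∃ z, K0 = 6 * a + z := ⟨K0 - (6 * a), by omega⟩
  exact V_cutC0 6 a (a + 1) (a + (a + 1)) b (b + 1) (b + (b + 1)) (by omega) (by omega) (by omega) (by omega)
    (tl _ _ _ _ _ _ (11) (-1) (by omega) (by omega) (by omega) (by omega) (by omega) (by omega) (by omega) (by omega) (by omega) (by omega))
    (tl _ _ _ _ _ _ (11) (-1) (by omega) (by omega) (by omega) (by omega) (by omega) (by omega) (by omega) (by omega) (by omega) (by omega))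

theorem hx4_12 (i K : ℕ) (hi : 280 ≤ i)
    (hK : K * (i + 40 + (i + 52)) ≤ (4 * i + 148) * (i + 40 + 4)) :
    S (4 + 2) (i + 40) K (replicate (4 * i + 148) (T 0 0)) := by
  obtain ⟨K0, h0⟩ : ∃ z, z = 2 * i + 70 := ⟨_, rfl⟩
  refine S_of_V (X := i + 52) (K0 := K0) (T0 := (K0 + 8)) (by omega) (K_le hK (by subst h0; nlinarith)) ?_
  obtain ⟨a, a1, a2⟩ : ∃ z, 4 * z ≤ 1 * (i + 44) ∧ 1 * (i + 44) < 4 * z + 4 := ⟨(1 * (i + 44)) / 4, by omega, by omega⟩
  obtain ⟨b, b0⟩ : ∃ z, K0 = 7 * a + z := ⟨K0 - (7 * a), by omega⟩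
  exact V_cutC0 7 a (a + 1) (a + (a + 1)) b (b + 1) (b + (b + 1)) (by omega) (by omega) (by omega) (by omega)
    (tl _ _ _ _ _ _ (12) (-1) (by omega) (by omega) (by omega) (by omega) (by omega) (by omega) (by omega) (by omega) (by omega) (by omega))
    (tl _ _ _ _ _ _ (12) (-1) (by omega) (by omega) (by omega) (by omega) (by omega) (by omega) (by omega) (by omega) (by omega) (by omega))

theorem hx4_13 (i K : ℕ) (hi : 280 ≤ i)
    (hK : K * (i + 40 + (i + 53)) ≤ (4 * i + 147) * (i + 40 + 4)) :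
    S (4 + 2) (i + 40) K (replicate (4 * i + 147) (T 0 0)) := by
  obtain ⟨K0, h0⟩ : ∃ z, z = 2 * i + 68 := ⟨_, rfl⟩
  refine S_of_V (X := i + 53) (K0 := K0) (T0 := (K0 + 11)) (by omega) (K_le hK (by subst h0; nlinarith)) ?_
  obtain ⟨a, a1, a2⟩ : ∃ z, 11 * z ≤ 2 * K0 ∧ 2 * K0 < 11 * z + 11 := ⟨(2 * K0) / 11, by omega, by omega⟩
  obtain ⟨b, b0⟩ : ∃ z, K0 = 5 * a + z := ⟨K0 - (5 * a), by omega⟩
  exact V_cutC0 5 a (a + 2) (a + (a + 2)) b (b + 1) (b + (b + 1)) (by omega) (by omega) (by omega) (by omega)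
    (tl _ _ _ _ _ _ (13) (-2) (by omega) (by omega) (by omega) (by omega) (by omega) (by omega) (by omega) (by omega) (by omega) (by omega))
    (tl _ _ _ _ _ _ (13) (-1) (by omega) (by omega) (by omega) (by omega) (by omega) (by omega) (by omega) (by omega) (by omega) (by omega))

theorem hx4_14 (i K : ℕ) (hi : 280 ≤ i)
    (hK : K * (i + 40 + (i + 54)) ≤ (4 * i + 146) * (i + 40 + 4)) :
    S (4 + 2) (i + 40) K (replicate (4 * i + 146) (T 0 0)) := by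
  obtain ⟨K0, h0⟩ : ∃ z, z = 2 * i + 67 := ⟨_, rfl⟩
  refine S_of_V (X := i + 54) (K0 := K0) (T0 := (K0 + 12)) (by omega) (K_le hK (by subst h0; nlinarith)) ?_
  obtain ⟨a, a1, a2⟩ : ∃ z, 6 * z ≤ 2 * (i + 44) ∧ 2 * (i + 44) < 6 * z + 6 := ⟨(2 * (i + 44)) / 6, by omega, by omega⟩
  obtain ⟨b, b0⟩ : ∃ z, K0 = 5 * a + z := ⟨K0 - (5 * a), by omega⟩
  exact V_cutC0 5 a (a + 2) (a + (a + 2)) b (b + 2) (b + (b + 2)) (by omega) (by omega) (by omega) (by omega)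
    (tl _ _ _ _ _ _ (14) (-2) (by omega) (by omega) (by omega) (by omega) (by omega) (by omega) (by omega) (by omega) (by omega) (by omega))
    (tl _ _ _ _ _ _ (14) (-2) (by omega) (by omega) (by omega) (by omega) (by omega) (by omega) (by omega) (by omega) (by omega) (by omega))

theorem hx4_15 (i K : ℕ) (hi : 280 ≤ i)
    (hK : K * (i + 40 + (i + 55)) ≤ (4 * i + 145) * (i + 40 + 4)) :
    S (4 + 2) (i + 40) K (replicate (4 * i + 145) (T 0 0)) := by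
  obtain ⟨K0, h0⟩ : ∃ z, z = 2 * i + 65 := ⟨_, rfl⟩
  refine S_of_V (X := i + 55) (K0 := K0) (T0 := (K0 + 15)) (by omega) (K_le hK (by subst h0; nlinarith)) ?_
  obtain ⟨a, a1, a2⟩ : ∃ z, 15 * z ≤ 3 * K0 ∧ 3 * K0 < 15 * z + 15 := ⟨(3 * K0) / 15, by omega, by omega⟩
  obtain ⟨b, b0⟩ : ∃ z, K0 = 4 * a + z := ⟨K0 - (4 * a), by omega⟩
  exact V_cutC0 4 a (a + 3) (a + (a + 3)) b (b + 3) (b + (b + 3)) (by omega) (by omega) (by omega) (by omega)
    (tl _ _ _ _ _ _ (15) (-3) (by omega) (by omega) (by omega) (by omega) (by omega) (by omega) (by omega) (by omega) (by omega) (by omega))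
    (tl _ _ _ _ _ _ (15) (-3) (by omega) (by omega) (by omega) (by omega) (by omega) (by omega) (by omega) (by omega) (by omega) (by omega))

theorem hx4_16 (i K : ℕ) (hi : 280 ≤ i)
    (hK : K * (i + 40 + (i + 56)) ≤ (4 * i + 144) * (i + 40 + 4)) :
    S (4 + 2) (i + 40) K (replicate (4 * i + 144) (T 0 0)) := by
  obtain ⟨K0, h0⟩ : ∃ z, z = 2 * i + 64 := ⟨_, rfl⟩
  refine S_of_V (X := i + 56) (K0 := K0) (T0 := (K0 + 16)) (by omega) (K_le hK (by subst h0; nlinarith)) ?_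
  obtain ⟨a, a1, a2⟩ : ∃ z, 8 * z ≤ 3 * (i + 44) ∧ 3 * (i + 44) < 8 * z + 8 := ⟨(3 * (i + 44)) / 8, by omega, by omega⟩
  obtain ⟨b, b0⟩ : ∃ z, K0 = 5 * a + z := ⟨K0 - (5 * a), by omega⟩
  exact V_cutC0 5 a (a + 3) (a + (a + 3)) b (b + 1) (b + (b + 1)) (by omega) (by omega) (by omega) (by omega)
    (tl _ _ _ _ _ _ (16) (-3) (by omega) (by omega) (by omega) (by omega) (by omega) (by omega) (by omega) (by omega) (by omega) (by omega))
    (tl _ _ _ _ _ _ (16) (-1) (by omega) (by omega) (by omega) (by omega) (by omega) (by omega) (by omega) (by omega) (by omega) (by omega))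

theorem hx4_17 (i K : ℕ) (hi : 280 ≤ i)
    (hK : K * (i + 40 + (i + 57)) ≤ (4 * i + 143) * (i + 40 + 4)) :
    S (4 + 2) (i + 40) K (replicate (4 * i + 143) (T 0 0)) := by
  obtain ⟨K0, h0⟩ : ∃ z, z = 2 * i + 62 := ⟨_, rfl⟩
  refine S_of_V (X := i + 57) (K0 := K0) (T0 := (K0 + 19)) (by omega) (K_le hK (by subst h0; nlinarith)) ?_
  obtain ⟨a, a1, a2⟩ : ∃ z, 19 * z ≤ 4 * K0 ∧ 4 * K0 < 19 * z + 19 := ⟨(4 * K0) / 19, by omega, by omega⟩
  obtain ⟨b, b0⟩ : ∃ z, K0 = 4 * a + z := ⟨K0 - (4 * a), by omega⟩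
  exact V_cutC0 4 a (a + 4) (a + (a + 4)) b (b + 3) (b + (b + 3)) (by omega) (by omega) (by omega) (by omega)
    (tl _ _ _ _ _ _ (17) (-4) (by omega) (by omega) (by omega) (by omega) (by omega) (by omega) (by omega) (by omega) (by omega) (by omega))
    (tl _ _ _ _ _ _ (17) (-3) (by omega) (by omega) (by omega) (by omega) (by omega) (by omega) (by omega) (by omega) (by omega) (by omega))

theorem hx4_18 (i K : ℕ) (hi : 280 ≤ i)
    (hK : K * (i + 40 + (i + 58)) ≤ (4 * i + 142) * (i + 40 + 4)) :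
    S (4 + 2) (i + 40) K (replicate (4 * i + 142) (T 0 0)) := by
  obtain ⟨K0, h0⟩ : ∃ z, z = 2 * i + 61 := ⟨_, rfl⟩
  refine S_of_V (X := i + 58) (K0 := K0) (T0 := (K0 + 20)) (by omega) (K_le hK (by subst h0; nlinarith)) ?_
  obtain ⟨a, a1, a2⟩ : ∃ z, 10 * z ≤ 4 * (i + 44) ∧ 4 * (i + 44) < 10 * z + 10 := ⟨(4 * (i + 44)) / 10, by omega, by omega⟩
  obtain ⟨b, b0⟩ : ∃ z, K0 = 4 * a + z := ⟨K0 - (4 * a), by omega⟩
  exact V_cutC0 4 a (a + 4) (a + (a + 4)) b (b + 4) (b + (b + 4)) (by omega) (by omega) (by omega) (by omega)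
    (tl _ _ _ _ _ _ (18) (-4) (by omega) (by omega) (by omega) (by omega) (by omega) (by omega) (by omega) (by omega) (by omega) (by omega))
    (tl _ _ _ _ _ _ (18) (-4) (by omega) (by omega) (by omega) (by omega) (by omega) (by omega) (by omega) (by omega) (by omega) (by omega))

theorem hx4_19 (i K : ℕ) (hi : 280 ≤ i)
    (hK : K * (i + 40 + (i + 59)) ≤ (4 * i + 141) * (i + 40 + 4)) :
    S (4 + 2) (i + 40) K (replicate (4 * i + 141) (T 0 0)) := by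
  obtain ⟨K0, h0⟩ : ∃ z, z = 2 * i + 59 := ⟨_, rfl⟩
  refine S_of_V (X := i + 59) (K0 := K0) (T0 := (K0 + 23)) (by omega) (K_le hK (by subst h0; nlinarith)) ?_
  obtain ⟨a, a1, a2⟩ : ∃ z, 23 * z ≤ 5 * K0 ∧ 5 * K0 < 23 * z + 23 := ⟨(5 * K0) / 23, by omega, by omega⟩
  obtain ⟨b, b0⟩ : ∃ z, K0 = 4 * a + z := ⟨K0 - (4 * a), by omega⟩
  exact V_cutC0 4 a (a + 5) (a + (a + 5)) b (b + 3) (b + (b + 3)) (by omega) (by omega) (by omega) (by omega)
    (tl _ _ _ _ _ _ (19) (-5) (by omega) (by omega) (by omega) (by omega) (by omega) (by omega) (by omega) (by omega) (by omega) (by omega))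
    (tl _ _ _ _ _ _ (19) (-3) (by omega) (by omega) (by omega) (by omega) (by omega) (by omega) (by omega) (by omega) (by omega) (by omega))

theorem hx4_20 (i K : ℕ) (hi : 280 ≤ i)
    (hK : K * (i + 40 + (i + 60)) ≤ (4 * i + 140) * (i + 40 + 4)) :
    S (4 + 2) (i + 40) K (replicate (4 * i + 140) (T 0 0)) := by
  obtain ⟨K0, h0⟩ : ∃ z, z = 2 * i + 58 := ⟨_, rfl⟩
  refine S_of_V (X := i + 60) (K0 := K0) (T0 := (K0 + 24)) (by omega) (K_le hK (by subst h0; nlinarith)) ?_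
  obtain ⟨a, a1, a2⟩ : ∃ z, 12 * z ≤ 5 * (i + 44) ∧ 5 * (i + 44) < 12 * z + 12 := ⟨(5 * (i + 44)) / 12, by omega, by omega⟩
  obtain ⟨b, b0⟩ : ∃ z, K0 = 4 * a + z := ⟨K0 - (4 * a), by omega⟩
  exact V_cutC0 4 a (a + 5) (a + (a + 5)) b (b + 4) (b + (b + 4)) (by omega) (by omega) (by omega) (by omega)
    (tl _ _ _ _ _ _ (20) (-5) (by omega) (by omega) (by omega) (by omega) (by omega) (by omega) (by omega) (by omega) (by omega) (by omega))
    (tl _ _ _ _ _ _ (20) (-4) (by omega) (by omega) (by omega) (by omega) (by omega) (by omega) (by omega) (by omega) (by omega) (by omega))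

theorem hx4 (J x r K : ℕ) (hJ : 320 ≤ J) (h1 : 1 ≤ x) (h2 : x ≤ 20) (hr : r + x = 4 * J)
    (hK : K * (J + (J + x)) ≤ r * (J + 4)) : S (4 + 2) J K (replicate r (T 0 0)) := by
  obtain ⟨i, rfl⟩ : ∃ i, J = i + 40 := ⟨J - 40, by omega⟩
  interval_cases x
  · obtain rfl : r = 4 * i + 159 := by omega
    exact hx4_1 i K (by omega) hK
  · obtain rfl : r = 4 * i + 158 := by omega
    exact hx4_2 i K (by omega) hK
  · obtain rfl : r = 4 * i + 157 := by omega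
    exact hx4_3 i K (by omega) hK
  · obtain rfl : r = 4 * i + 156 := by omega
    exact hx4_4 i K (by omega) hK
  · obtain rfl : r = 4 * i + 155 := by omega
    exact hx4_5 i K (by omega) hK
  · obtain rfl : r = 4 * i + 154 := by omega
    exact hx4_6 i K (by omega) hK
  · obtain rfl : r = 4 * i + 153 := by omega
    exact hx4_7 i K (by omega) hK
  · obtain rfl : r = 4 * i + 152 := by omega
    exact hx4_8 i K (by omega) hK
  · obtain rfl : r = 4 * i + 151 := by omega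
    exact hx4_9 i K (by omega) hK
  · obtain rfl : r = 4 * i + 150 := by omega
    exact hx4_10 i K (by omega) hK
  · obtain rfl : r = 4 * i + 149 := by omega
    exact hx4_11 i K (by omega) hK
  · obtain rfl : r = 4 * i + 148 := by omega
    exact hx4_12 i K (by omega) hK
  · obtain rfl : r = 4 * i + 147 := by omega
    exact hx4_13 i K (by omega) hK
  · obtain rfl : r = 4 * i + 146 := by omega
    exact hx4_14 i K (by omega) hK
  · obtain rfl : r = 4 * i + 145 := by omega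
    exact hx4_15 i K (by omega) hK
  · obtain rfl : r = 4 * i + 144 := by omega
    exact hx4_16 i K (by omega) hK
  · obtain rfl : r = 4 * i + 143 := by omega
    exact hx4_17 i K (by omega) hK
  · obtain rfl : r = 4 * i + 142 := by omega
    exact hx4_18 i K (by omega) hK
  · obtain rfl : r = 4 * i + 141 := by omega
    exact hx4_19 i K (by omega) hK
  · obtain rfl : r = 4 * i + 140 := by omega
    exact hx4_20 i K (by omega) hK

end Pool.Agent.Work.MP_f4b644_ag.Mid
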