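import Pool.Agent.Work.MP_f4b644_ag.Thin.L2

/-!
The first cut, states.

`PV_root2`: as `PV_root` / `Cuts_root` in Thin/Cuts.lean (pairs both ways), with single mates both ways as in `Cuts_peel`
(a tangent with one mate `T 1 0` on one side, a token `BP 1` on the other side, and a hinge that returns the mate as a
C-fibre). `PV_of_V`: unfold (`replicate 0`).
-/

set_option autoImplicit false

namespace Pool.Agent.Work.MP_f4b644_ag.Mid

open Big Thin Multiset Big.Gad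

theorem PV_of_V {m j X k Tt s u e : ℕ} (h : V m j X k Tt s u e 0) : PV m j X k Tt s u e 0 0 := by
  obtain ⟨a1, a2, a3, a4⟩ := h
  refine ⟨by omega, by omega, by omega, S.of_eq ?_ a4⟩
  simp

theorem L1_root {I j1 j2 k : ℕ} (a1 a2 h1 h2 p1 p2 b f1 f2 : ℕ) {s f : ℕ}
    (H1 : S I j1 k (replicate a1 (T 0 0) + replicate h1 (T 1 0) + replicate p1 (TT 0) +
      replicate (a2 + b) (BP 0) + replicate h2 (BP 1) + replicate p2 (PB 0 true) +
      replicate f1 (CP 1)))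
    (H2 : S I j2 k (replicate a2 (T 0 0) + replicate h2 (T 1 0) + replicate p2 (TT 0) +
      replicate (a1 + b) (BP 0) + replicate h1 (BP 1) + replicate p1 (PB 0 true) +
      replicate f2 (CP 1))) (hs : s = 2 * (p1 + p2) + (h1 + h2) + a1 + a2)
    (hf : f = h1 + h2 + f1 + f2) : BS I (j1 + j2) k s 0 b 0 0 f := by
  have r1 : Rule Dir.B (T 0 1) (T 1 0) (BP 1) := ruleB_T 0 0 1
  have r2 : Rule Dir.B (T 0 0) (T 0 0) (BP 0) := ruleB_T 0 0 0
  have r4 : Rule Dir.B (BP 0) (BP 0) (BP 0) := ruleB_BP 0 0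
  have h0 := ((Spl.rep r1 h1).add (Spl.rep r1.symm h2)).add
    (((Spl.rep (ruleB_PP 0) p1).add (Spl.rep (ruleB_PP 0).symm p2)).add
    (((((Spl.rep r2 a1).add (Spl.rep r2.symm a2)).add (Spl.rep r4 b)).add
    (Spl.repL (ruleB_CP 1) f1)).add (Spl.repR (ruleB_CP 1).symm f2)))
  rw [← replicate_add, ← replicate_add] at h0
  have h3 := S.hingeT (h1 + h2) 0 1 _ (S.splitB (h0.of_eq rfl ?_ ?_) H1 H2)
  · rw [add_left_comm] at h3
    refine (S.hingePP (p1 + p2) 0 _ h3).of_eq ?_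
    rw [hs, hf]
    generalize 2 * (p1 + p2) = n
    simp only [replicate_add, mul_zero, mul_one, replicate_zero]
    abel
  · simp only [replicate_add]
    abel
  · simp only [replicate_add]
    abel

theorem PV_root2 {m j1 X1 j2 X2 k Tt s1 s2 h1 h2 p1 p2 : ℕ} (H1 : PV m j1 X1 k Tt s1 h1 h2 p1 p2)
    (H2 : PV m j2 X2 k Tt s2 h2 h1 p2 p1) (hB : s1 + s2 ≤ k + Tt) :
    V m (j1 + j2) (X1 + X2) k Tt (s1 + s2) 0 0 0 := by
  obtain ⟨a1, a2, a3, a4⟩ := H1
  obtain ⟨b1, b2, b3, b4⟩ := H2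
  unfold V
  rw [mul_add (m + 1) j1 j2]
  generalize (m + 1) * j1 = N1 at *
  generalize (m + 1) * j2 = N2 at *
  refine ⟨Nat.zero_le _, hB, by omega, ?_⟩
  have e1 : k + Tt - s1 - h2 - 2 * p2 = (s2 - 2 * p2 - h2) + (k + Tt - (s1 + s2) - 0) := by
    clear a4 b4
    omega
  have e2 : k + Tt - s2 - h1 - 2 * p1 = (s1 - 2 * p1 - h1) + (k + Tt - (s1 + s2) - 0) := by
    clear a4 b4
    omega
  rw [e1] at a4
  rw [e2] at b4
  exact L1_root _ _ _ _ _ _ _ _ _ a4 b4 (by clear a4 b4; omega) (by clear a4 b4; omega)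

end Pool.Agent.Work.MP_f4b644_ag.Mid
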