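import Mathlib

/-!
The first cut, arithmetic: the proof of `pp_core`.
-/

set_option autoImplicit false

namespace Pool.Agent.Work.MP_f4b644_ag.Mid

theorem L1aP_near (N z : ℤ) (hN : 0 < N) : ∃ s : ℤ, -N ≤ 2 * (N * s - z) ∧ 2 * (N * s - z) ≤ N := by
  have h0 : 0 < 2 * N := by omega
  have h1 := Int.mul_ediv_add_emod (2 * z + N) (2 * N)
  have h2 := Int.emod_nonneg (2 * z + N) h0.ne'
  have h3 := Int.emod_lt_of_pos (2 * z + N) h0
  refine ⟨(2 * z + N) / (2 * N), ?_, ?_⟩ <;> nlinarith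

theorem L1aP_core (N c J j1 δ : ℤ) (hN : 2 ≤ N) (hδ : 0 ≤ δ) (hj0 : 0 ≤ j1) (hj : j1 < J)
    (hev : j1 % 2 = 0) : ∃ s1 δ1 π : ℤ, 0 ≤ δ1 ∧ δ1 ≤ δ ∧ N * s1 - j1 * c = δ1 + 2 * π ∧
      -J ≤ J * δ1 - j1 * δ ∧ J * δ1 - j1 * δ ≤ J ∧ -N ≤ 2 * π ∧ 2 * π ≤ N ∧
      ((δ = 0 ∧ N % 2 = 1) ∨ (-(N + 2) ≤ 4 * π ∧ 4 * π ≤ N + 2)) := by
  obtain ⟨a, rfl⟩ : ∃ a, j1 = 2 * a := ⟨j1 / 2, by omega⟩
  rcases hδ.eq_or_lt with rfl | hδ'
  · rcases Int.emod_two_eq_zero_or_one N with h | h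
    · obtain ⟨n, rfl⟩ : ∃ n, N = 2 * n := ⟨N / 2, by omega⟩
      obtain ⟨s, h1, h2⟩ := L1aP_near (2 * n) (2 * a * c) (by omega)
      refine ⟨s, 0, n * s - a * c, le_rfl, le_rfl, by ring, by linarith, by linarith, by linarith,
        by linarith, Or.inr ⟨by linarith, by linarith⟩⟩
    · obtain ⟨s, h1, h2⟩ := L1aP_near N (a * c) (by omega)
      exact ⟨2 * s, 0, N * s - a * c, le_rfl, le_rfl, by ring, by linarith, by linarith, h1, h2,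
        Or.inl ⟨rfl, h⟩⟩
  · have hJ : 0 < J := by omega
    have e1 := Int.mul_ediv_add_emod (2 * a * δ) J
    have e2 := Int.emod_nonneg (2 * a * δ) hJ.ne'
    have e3 := Int.emod_lt_of_pos (2 * a * δ) hJ
    have e4 : 0 ≤ 2 * a * δ / J := Int.ediv_nonneg (by positivity) hJ.le
    generalize 2 * a * δ / J = d at e1 e4
    generalize 2 * a * δ % J = ρ at e1 e2 e3
    have e5 : d < δ := by
      by_contra hc
      have h1 : J * δ ≤ J * d := mul_le_mul_of_nonneg_left (not_lt.1 hc) hJ.le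
      have h2 : 2 * a * δ < J * δ := mul_lt_mul_of_pos_right hj hδ'
      linarith
    obtain ⟨s, h1, h2⟩ := L1aP_near N (2 * a * c + d) (by omega)
    generalize hy : N * s - (2 * a * c + d) = y at h1 h2
    rcases Int.emod_two_eq_zero_or_one y with h | h
    · obtain ⟨p, rfl⟩ : ∃ p, y = 2 * p := ⟨y / 2, by omega⟩
      exact ⟨s, d, p, e4, e5.le, by linarith, by linarith, by linarith, by omega, by omega,
        Or.inr ⟨by omega, by omega⟩⟩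
    · obtain ⟨p, rfl⟩ : ∃ p, y = 2 * p + 1 := ⟨y / 2, by omega⟩
      exact ⟨s, d + 1, p, by omega, by omega, by linarith, by linarith, by linarith, by omega,
        by omega, Or.inr ⟨by omega, by omega⟩⟩

theorem L1aP_pos {J x : ℤ} (hJ : 0 < J) (h : -J < J * x) : 0 ≤ x := by
  by_contra hc
  have h1 : J * x ≤ J * (-1) := mul_le_mul_of_nonneg_left (by omega) hJ.le
  linarith

theorem L1a_pp (m J K T r X j1 j2 : ℕ) (hm : 1 ≤ m) (hK : 1 ≤ K) (hr : K + T = r)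
    (hX : r + X = (m + 1) * J) (hδ : K * X ≤ J * T + m * r) (hj : j1 + j2 = J) (hj2 : 1 ≤ j2)
    (hev : j1 % 2 = 0) (h1 : J ≤ j1 * r) (h2 : J ≤ j2 * r) (h3 : J ≤ j1 * X) (h4 : J ≤ j2 * X) :
    ∃ s1 s2 X1 X2 π1 π2 : ℕ, s1 + s2 = r ∧ s1 + X1 = (m + 1) * j1 ∧ s2 + X2 = (m + 1) * j2 ∧
      K * X1 + 2 * π1 ≤ j1 * T + m * s1 + 2 * π2 ∧ K * X2 + 2 * π2 ≤ j2 * T + m * s2 + 2 * π1 ∧
      J * s1 < j1 * r + 2 * J ∧ j1 * r < J * s1 + 2 * J ∧
      2 * (π1 + π2) ≤ K + m ∧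
      ((K * X = J * T + m * r ∧ (K + m) % 2 = 1) ∨ 4 * (π1 + π2) ≤ K + m + 2) := by
  have hJ : (0 : ℤ) < J := by omega
  have hN : (2 : ℤ) ≤ K + m := by omega
  zify at hr hX hδ hj h1 h2 h3 h4
  obtain ⟨s, δ1, π, a1, a2, a3, a4, a5, a6, a7, a8⟩ := L1aP_core ((K : ℤ) + m)
    ((m + 2) * K - r) J j1 (J * T + m * r - K * X) hN (by linarith) (by omega) (by omega) (by omega)
  have hT : (T : ℤ) = r - K := by linarith
  have hX' : (X : ℤ) = (m + 1) * J - r := by linarith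
  have hj' : (j2 : ℤ) = J - j1 := by linarith
  have e1 : ((K : ℤ) + m) * (J * s - j1 * r) =
      J * δ1 - j1 * (J * T + m * r - K * X) + J * (2 * π) := by
    rw [hT, hX'] at *
    linear_combination (J : ℤ) * a3
  have b1 : (J : ℤ) * (2 * π) ≤ J * (K + m) := mul_le_mul_of_nonneg_left a7 hJ.le
  have b2 : (J : ℤ) * (-(K + m)) ≤ J * (2 * π) := mul_le_mul_of_nonneg_left a6 hJ.le
  have b3 : (J : ℤ) * 2 ≤ J * (K + m) := mul_le_mul_of_nonneg_left hN hJ.le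
  have c1 : (J : ℤ) * s - j1 * r < 2 * J := by
    refine lt_of_mul_lt_mul_left (a := (K : ℤ) + m) ?_ (by omega)
    rw [e1]
    linarith
  have c2 : -(2 * J : ℤ) < J * s - j1 * r := by
    refine lt_of_mul_lt_mul_left (a := (K : ℤ) + m) ?_ (by omega)
    rw [e1]
    linarith
  have p1 : 0 ≤ s := L1aP_pos hJ (by linarith)
  have p2 : 0 ≤ r - s := L1aP_pos hJ (by rw [hj'] at h2; linarith)
  have p3 : 0 ≤ ((m : ℤ) + 1) * j1 - s := L1aP_pos hJ (by rw [hX'] at h3; linarith)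
  have p4 : 0 ≤ ((m : ℤ) + 1) * j2 - (r - s) :=
    L1aP_pos hJ (by rw [hX', hj'] at h4; rw [hj']; linarith)
  obtain ⟨s1, rfl⟩ := Int.eq_ofNat_of_zero_le p1
  obtain ⟨s2, q2⟩ := Int.eq_ofNat_of_zero_le p2
  obtain ⟨X1, q3⟩ := Int.eq_ofNat_of_zero_le p3
  obtain ⟨X2, q4⟩ := Int.eq_ofNat_of_zero_le p4
  obtain ⟨π1, π2, q5, q6⟩ : ∃ π1 π2 : ℕ, π = (π1 : ℤ) - π2 ∧ (π1 = 0 ∨ π2 = 0) :=
    ⟨π.toNat, (-π).toNat, by omega, by omega⟩
  subst q5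
  refine ⟨s1, s2, X1, X2, π1, π2, by omega, by zify; linarith, by zify; linarith, ?_, ?_,
    by zify; linarith, by zify; linarith, by omega, ?_⟩
  · zify
    rw [← q3, hT]
    linarith
  · zify
    rw [← q4, ← q2, hj']
    rw [hT, hX'] at a2
    rw [hT]
    linarith
  · rcases a8 with ⟨d1, d2⟩ | ⟨d1, d2⟩
    · exact Or.inl ⟨by zify; linarith, by omega⟩
    · exact Or.inr (by omega)

end Pool.Agent.Work.MP_f4b644_ag.Mid
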