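import Pool.Agent.Work.MP_f4b644_ag.Mid.L1aM
import Pool.Agent.Work.MP_f4b644_ag.Mid.L1aP

/-!
The first cut, arithmetic. All statements are about natural numbers; work in ℤ.

Root: K + T = r, N = K + m, Y j s = N s - j ((m + 2) K - r) (integer, additive in (j, s)), δ = Y J r ≥ 0 by hδ. With
X1 = (m + 1) j1 - s1 the slack of the first part is j1 T + m s1 - K X1 - 2 π = Y j1 s1 - 2 π. Let d = δ j1 / J (floor).
`pp_core`: choose an integer s1 and δ1 ∈ {d, d + 1}, 0 ≤ δ1 ≤ δ, with Y j1 s1 - δ1 = 2 π and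
* (N odd, δ = 0, j1 even): δ1 = 0, s1 even, nearest to the zero of Y: |2 π| ≤ N;
* (δ ≥ 1, so d + 1 ≤ δ as j1 < J; or N even and δ = 0, where Y j1 s1 is always even as j1 is even): s1 nearest to the solution of
  Y j1 s1 = d, |Y j1 s1 - d| ≤ N / 2, δ1 = d or d + 1 by parity: |2 π| ≤ N / 2 + 1.
Then N (J s1 - j1 r) = J δ1 - j1 δ + 2 J π has absolute value ≤ J + J N < 2 J N, so |J s1 - j1 r| < 2 J; hence 0 ≤ s1 ≤ r by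
h1, h2 (J ≤ j1 r gives J s1 > - J), and X1 = (m + 1) j1 - s1 satisfies J X1 - j1 X = - (J s1 - j1 r), so X1, X2 ≥ 0 by h3, h4.
π1 = max π 0, π2 = max (- π) 0.

`pe_data`: slack zero and N odd. N r = J ((m + 2) K - r), so J ∣ N r; if g = gcd r J = 1 then J ∣ N, J < N < 3 J, N = 2 J, which
is even. So g ≥ 2; j1 = (J / g) (g / 2), j2 = J - j1 = (J / g) (g - g / 2); g ≤ 3 (g / 2), 2 (g / 2) ≤ g.

`mt_exists`: B = K + t, δ = J t + m B - K X ≥ 0. X1 = (2 X j1 + J) / (2 J) (nearest integer; |2 J X1 - 2 X j1| ≤ J,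
X1 ≤ X as j1 < J), δ1 = δ j1 / J, s1 = the integer nearest to (K X1 - j1 t + δ1) / m, η = m s1 - (K X1 - j1 t + δ1),
|2 η| ≤ m, η1 = max η 0, η2 = max (- η) 0. m J s1 - m B j1 = K (J X1 - j1 X) + (J δ1 - j1 δ) + J η.
0 ≤ s1 ≤ B by h1, h2.
-/

set_option autoImplicit false

namespace Pool.Agent.Work.MP_f4b644_ag.Mid

theorem pp_core (m J K T r X j1 j2 : ℕ) (hm : 1 ≤ m) (hK : 1 ≤ K) (hr : K + T = r)
    (hX : r + X = (m + 1) * J) (hδ : K * X ≤ J * T + m * r) (hj : j1 + j2 = J) (hj2 : 1 ≤ j2)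
    (hev : j1 % 2 = 0) (h1 : J ≤ j1 * r) (h2 : J ≤ j2 * r) (h3 : J ≤ j1 * X) (h4 : J ≤ j2 * X) :
    ∃ s1 s2 X1 X2 π1 π2 : ℕ, s1 + s2 = r ∧ s1 + X1 = (m + 1) * j1 ∧ s2 + X2 = (m + 1) * j2 ∧
      K * X1 + 2 * π1 ≤ j1 * T + m * s1 + 2 * π2 ∧ K * X2 + 2 * π2 ≤ j2 * T + m * s2 + 2 * π1 ∧
      J * s1 < j1 * r + 2 * J ∧ j1 * r < J * s1 + 2 * J ∧
      2 * (π1 + π2) ≤ K + m ∧
      ((K * X = J * T + m * r ∧ (K + m) % 2 = 1) ∨ 4 * (π1 + π2) ≤ K + m + 2) :=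
  L1a_pp m J K T r X j1 j2 hm hK hr hX hδ hj hj2 hev h1 h2 h3 h4

theorem pe_data (m J K T r X : ℕ) (hm : 1 ≤ m) (hJ : 1 ≤ J) (hr : K + T = r)
    (hX : r + X = (m + 1) * J) (hδ : K * X = J * T + m * r) (hodd : (K + m) % 2 = 1) (h1 : J ≤ K)
    (h2 : K + m < 3 * J) :
    ∃ j1 j2 : ℕ, j1 + j2 = J ∧ J ≤ 3 * j1 ∧ j1 ≤ j2 ∧ J ∣ j1 * r ∧ J ∣ j2 * r :=
  L1a_pe m J K T r X hm hJ hr hX hδ hodd h1 h2

theorem mt_exists (m J K t X j1 j2 : ℕ) (hm : 1 ≤ m) (hδ : K * X ≤ J * t + m * (K + t))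
    (hj : j1 + j2 = J) (hj1 : 1 ≤ j1) (hj2 : 1 ≤ j2)
    (h1 : J * (K + m + 2) ≤ 2 * m * (K + t) * j1) (h2 : J * (K + m + 2) ≤ 2 * m * (K + t) * j2) :
    ∃ s1 s2 X1 X2 η1 η2 : ℕ, s1 + s2 = K + t ∧ X1 + X2 = X ∧ 2 * (η1 + η2) ≤ m ∧
      K * X1 + η1 ≤ j1 * t + m * s1 + η2 ∧ K * X2 + η2 ≤ j2 * t + m * s2 + η1 ∧
      2 * J * X1 ≤ 2 * X * j1 + J ∧ 2 * X * j1 ≤ 2 * J * X1 + J ∧
      2 * m * J * s1 ≤ 2 * m * (K + t) * j1 + J * (K + m + 2) ∧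
      2 * m * (K + t) * j1 ≤ 2 * m * J * s1 + J * (K + m + 2) :=
  (fun _ => L1a_mt m J K t X j1 j2 hm hδ hj hj1 h1 h2) hj2

end Pool.Agent.Work.MP_f4b644_ag.Mid
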