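import Mathlib

/-!
The first cut, arithmetic: the case of slack zero and the cut with mates.
-/

set_option autoImplicit false

namespace Pool.Agent.Work.MP_f4b644_ag.Mid

theorem L1a_pe (m J K T r X : ℕ) (hm : 1 ≤ m) (hJ : 1 ≤ J) (hr : K + T = r)
    (hX : r + X = (m + 1) * J) (hδ : K * X = J * T + m * r) (hodd : (K + m) % 2 = 1) (h1 : J ≤ K)
    (h2 : K + m < 3 * J) :
    ∃ j1 j2 : ℕ, j1 + j2 = J ∧ J ≤ 3 * j1 ∧ j1 ≤ j2 ∧ J ∣ j1 * r ∧ J ∣ j2 * r := by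
  have e : J * r + (K + m) * r = J * ((m + 2) * K) := by
    zify at hr hX hδ ⊢
    linear_combination (K : ℤ) * hX - hδ - (J : ℤ) * hr
  have hd : J ∣ (K + m) * r :=
    (Nat.dvd_add_right (Dvd.intro r rfl)).1 (e ▸ Dvd.intro _ rfl)
  have hg : 2 ≤ Nat.gcd J r := by
    by_contra hc
    have h0 : 0 < Nat.gcd J r := Nat.gcd_pos_of_pos_left r hJ
    obtain ⟨c, hc'⟩ := Nat.Coprime.dvd_of_dvd_mul_right (show Nat.gcd J r = 1 by omega) hd
    have c1 : 1 < c := Nat.lt_of_mul_lt_mul_left (a := J) (by omega)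
    have c2 : c < 3 := Nat.lt_of_mul_lt_mul_left (a := J) (by omega)
    obtain rfl : c = 2 := by omega
    omega
  obtain ⟨a, ha⟩ := Nat.gcd_dvd_left J r
  obtain ⟨b, hb⟩ := Nat.gcd_dvd_right J r
  generalize Nat.gcd J r = g at hg ha hb
  subst ha hb
  refine ⟨g / 2 * a, (g - g / 2) * a, ?_, ?_, Nat.mul_le_mul_right a (by omega),
    ⟨g / 2 * b, by ring⟩, ⟨(g - g / 2) * b, by ring⟩⟩
  · rw [← Nat.add_mul, Nat.add_sub_cancel' (Nat.div_le_self g 2)]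
  · rw [← Nat.mul_assoc]
    exact Nat.mul_le_mul_right a (by omega)

theorem L1a_mt (m J K t X j1 j2 : ℕ) (hm : 1 ≤ m) (hδ : K * X ≤ J * t + m * (K + t))
    (hj : j1 + j2 = J) (hj1 : 1 ≤ j1)
    (h1 : J * (K + m + 2) ≤ 2 * m * (K + t) * j1) (h2 : J * (K + m + 2) ≤ 2 * m * (K + t) * j2) :
    ∃ s1 s2 X1 X2 η1 η2 : ℕ, s1 + s2 = K + t ∧ X1 + X2 = X ∧ 2 * (η1 + η2) ≤ m ∧
      K * X1 + η1 ≤ j1 * t + m * s1 + η2 ∧ K * X2 + η2 ≤ j2 * t + m * s2 + η1 ∧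
      2 * J * X1 ≤ 2 * X * j1 + J ∧ 2 * X * j1 ≤ 2 * J * X1 + J ∧
      2 * m * J * s1 ≤ 2 * m * (K + t) * j1 + J * (K + m + 2) ∧
      2 * m * (K + t) * j1 ≤ 2 * m * J * s1 + J * (K + m + 2) := by
  have hJ : 0 < J := by omega
  obtain ⟨δ, hd⟩ := Nat.exists_eq_add_of_le hδ
  obtain ⟨X1, x1, x2⟩ : ∃ X1, 2 * J * X1 ≤ 2 * X * j1 + J ∧ 2 * X * j1 + J < 2 * J * X1 + 2 * J :=
    ⟨(2 * X * j1 + J) / (2 * J), Nat.mul_div_le _ _, Nat.lt_mul_div_succ _ (by omega)⟩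
  obtain ⟨d, d1, d2⟩ : ∃ d, J * d ≤ δ * j1 ∧ δ * j1 < J * d + J :=
    ⟨δ * j1 / J, Nat.mul_div_le _ _, Nat.lt_mul_div_succ _ hJ⟩
  have hX : X1 ≤ X := by
    have a1 : 2 * X * j1 ≤ 2 * X * J := Nat.mul_le_mul_left _ (by omega)
    have a2 : 2 * J * (X + 1) = 2 * X * J + 2 * J := by ring
    exact Nat.lt_add_one_iff.1 (Nat.lt_of_mul_lt_mul_left (a := 2 * J) (by omega))
  have hdd : d ≤ δ := by
    have a1 : δ * j1 ≤ δ * J := Nat.mul_le_mul_left _ (by omega)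
    exact Nat.le_of_mul_le_mul_left (d1.trans (a1.trans (Nat.mul_comm _ _).le)) hJ
  obtain ⟨X2, rfl⟩ := Nat.exists_eq_add_of_le hX
  obtain ⟨s, η, e, s1, s2⟩ : ∃ s η : ℤ, m * s = K * X1 - j1 * t + d + η ∧ 2 * η ≤ m ∧
      -(m : ℤ) ≤ 2 * η := by
    generalize (K : ℤ) * X1 - j1 * t + d = A
    have a0 : (0 : ℤ) < 2 * m := by omega
    have a1 := Int.mul_ediv_add_emod (2 * A + m) (2 * m)
    have a2 := Int.emod_nonneg (2 * A + m) a0.ne'
    have a3 := Int.emod_lt_of_pos (2 * A + m) a0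
    refine ⟨(2 * A + m) / (2 * m), m * ((2 * A + m) / (2 * m)) - A, by ring, ?_, ?_⟩ <;> linarith
  zify at hd x1 x2 d1 d2 h1 h2 hj hdd hJ hm
  have key : (m : ℤ) * J * s - m * (K + t) * j1 =
      K * (J * X1 - j1 * (X1 + X2)) + (J * d - j1 * δ) + J * η := by
    linear_combination (J : ℤ) * e - (j1 : ℤ) * hd
  have b1 := mul_le_mul_of_nonneg_left x1 (Int.natCast_nonneg K)
  have b2 := mul_le_mul_of_nonneg_left (show 2 * ((X1 : ℤ) + X2) * j1 ≤ 2 * J * X1 + J by linarith)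
    (Int.natCast_nonneg K)
  have b3 := mul_le_mul_of_nonneg_left s1 hJ.le
  have b4 := mul_le_mul_of_nonneg_left s2 hJ.le
  have u1 : 2 * (m : ℤ) * J * s ≤ 2 * m * (K + t) * j1 + J * (K + m + 2) := by linarith
  have u2 : 2 * (m : ℤ) * (K + t) * j1 ≤ 2 * m * J * s + J * (K + m + 2) := by linarith
  have p : (0 : ℤ) < 2 * m * J := by positivity
  have s0 : 0 ≤ s := nonneg_of_mul_nonneg_right (by linarith) p
  have sB : s ≤ K + t := by
    refine le_of_mul_le_mul_left ?_ p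
    have : 2 * (m : ℤ) * J * (K + t) = 2 * m * (K + t) * j1 + 2 * m * (K + t) * j2 := by
      rw [← hj]
      ring
    linarith
  lift s to ℕ using s0
  obtain ⟨s', hs⟩ := Nat.exists_eq_add_of_le (show s ≤ K + t by exact_mod_cast sB)
  have hs' : (K : ℤ) + t = s + s' := by exact_mod_cast hs
  have q1 : (η.toNat : ℤ) - (-η).toNat = η := Int.toNat_sub_toNat_neg η
  have q2 : (J : ℤ) * t = j1 * t + j2 * t := by rw [← hj, add_mul]
  have q3 : (m : ℤ) * (K + t) = m * s + m * s' := by rw [hs', mul_add]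
  have q4 := Int.natCast_nonneg d
  refine ⟨s, s', X1, X2, η.toNat, (-η).toNat, hs.symm, rfl, by omega, ?_, ?_, ?_, ?_, ?_, ?_⟩ <;>
    zify <;> linarith

end Pool.Agent.Work.MP_f4b644_ag.Mid
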