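import Pool.Agent.Work.MP_f4b644_ag.Mid.PP

/-!
The block with free C-fibres which is cut into two parts.
-/

set_option autoImplicit false

namespace Pool.Agent.Work.MP_f4b644_ag.Mid

open Big Thin

theorem MT_rng {N s A D lo hi : ℕ} (hN : 1 ≤ N) (e1 : lo = (A + (N - 1) - D) / N) (e2 : hi = (A + D) / N)
    (h1 : N * s ≤ A + D) (h2 : A ≤ N * s + D) : lo ≤ s ∧ s ≤ hi :=
  ⟨e1 ▸ PT_lo hN (by omega), e2 ▸ PT_hi hN h1⟩

theorem MT_rngX {J x A lo hi : ℕ} (hJ : 1 ≤ J) (e1 : lo = (A + (J - 1)) / (2 * J)) (e2 : hi = (A + J) / (2 * J))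
    (h1 : 2 * J * x ≤ A + J) (h2 : A ≤ 2 * J * x + J) : lo ≤ x ∧ x ≤ hi :=
  ⟨e1 ▸ PT_lo (by omega) (by omega), e2 ▸ PT_hi (by omega) h1⟩

/-- room for the mates -/
theorem MT_room {m J j B X f s x h hh K : ℕ} (hm : 1 ≤ m) (hJ : 1 ≤ J) (hC : B + f + X ≤ (m + 1) * J)
    (h1 : 2 * m * J * s ≤ 2 * m * B * j + J * (K + m + 2)) (h2 : 2 * J * x ≤ 2 * X * j + J) (h3 : h ≤ hh)
    (hE : J * (K + m + 2) + m * J + m * (2 * J) * hh ≤ 2 * m * f * j) : s + h + x ≤ (m + 1) * j := by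
  have a1 := Nat.mul_le_mul_left m h2
  have a2 := Nat.mul_le_mul_left (2 * m * j) hC
  have a3 := Nat.mul_le_mul_left (m * (2 * J)) h3
  refine Nat.le_of_mul_le_mul_left (?_ : 2 * m * J * _ ≤ 2 * m * J * _) (by positivity)
  linarith

/-- one of the two parts -/
theorem MT_side {m j K t slo shi Xlo Xhi one fp kc n0 n k rho a b Phi need gl Ul Uh gh c rn rc wc rn2 rc2
    wc2 : ℕ} (hm : 1 ≤ m) (hj : 1 ≤ j) (e1 : n = if kc = 0 then n0 else K / kc)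
    (e2 : k = if kc = 0 then K / n else kc) (e3 : rho = min (K - n * k) (if kc = 0 then n - 1 else kc - 1))
    (e4 : Phi = (m + (b * j - a * m + (a * m - b * j)) * (b - 1) + (b - 1)) / b)
    (e5 : need = if one = 0 then (if fp = 0 then n * (Phi / 2)
      else max ((n * (Phi / 2) + 1) / 2) ((n * (Phi / 2 + 1) - 3) / (n - 2))) else 0)
    (hgl : need ≤ gl) (e6 : Ul = if fp = 0 then gl else 2 * gl) (e7 : Uh = Ul + m / 2) (e8 : gh = gl + m / 2)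
    (c1 : one ≠ 0 ∨ (kc ≤ n ∧ (1 ≤ b ∧ Nat.Coprime a b) ∧ (if fp = 0 then 2 else 3) ≤ n))
    (c2 : (one ≠ 0 ∧ fp = 0 ∧ LFc m j K t t slo shi Uh Ul Uh 0 Xlo Xhi rn rc wc) ∨
      (one = 0 ∧ PTc m j t t slo shi Xlo Xhi n k rho Phi Ul Uh gh b c rn rc wc rn2 rc2 wc2))
    {s X p g η η' : ℕ} (hp : (fp = 0 ∧ p = 0 ∧ g = gl) ∨ (fp ≠ 0 ∧ p = gl ∧ g = 0)) (h1 : η ≤ m / 2)
    (h2 : η' ≤ m / 2) (hs1 : slo ≤ s) (hs2 : s ≤ shi) (hX1 : Xlo ≤ X) (hX2 : X ≤ Xhi)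
    (hD : K * X + η ≤ j * t + m * s + η') (hC : s + (g + η) + X ≤ (m + 1) * j) :
    PV m j X K t s (g + η) (g + η') p p := by
  rcases c2 with ⟨-, d1, H⟩ | ⟨d1, H⟩
  · obtain ⟨-, rfl, rfl⟩ := hp.resolve_right (by omega)
    rw [if_pos d1] at e6
    exact PV_of_V (V_LF H le_rfl le_rfl hs1 hs2 (by omega) (by omega) (by omega) le_rfl hX1 hX2 (by omega))
  obtain ⟨a1, a2, a3⟩ := c1.resolve_left (by omega)
  rw [if_pos d1] at e5
  have v1 := a2.1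
  have v2 := PP_cov hm e4 a2
  rcases hp with ⟨d2, rfl, rfl⟩ | ⟨d2, rfl, rfl⟩
  · rw [if_pos d2] at e5 e6 a3
    obtain ⟨k1, k2⟩ := PP_nk e1 e2 e3 a1 (by omega)
    clear e1 e2 e3 e4 a2 c1
    exact PV_PT H hm hj (by omega) v1 v2 k1 k2 le_rfl le_rfl hs1 hs2 hX1 hX2 (by omega) (by omega)
      (by omega) (by omega) (by omega) (by omega) (PP_need1 a3 (by omega)) (PP_need1 a3 (by omega))
      (by omega) hC
  · rw [if_neg d2] at e5 e6 a3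
    obtain ⟨k1, k2⟩ := PP_nk e1 e2 e3 a1 (by omega)
    have n1 := (e5 ▸ le_max_left _ _ : _ ≤ need)
    have n2 := (e5 ▸ le_max_right _ _ : _ ≤ need)
    clear e1 e2 e3 e4 e5 a2 c1
    exact PV_PT H hm hj (by omega) v1 v2 k1 k2 le_rfl le_rfl hs1 hs2 hX1 hX2 (by omega) (by omega)
      (by omega) (by omega) (by omega) (by omega) (PP_need2 a3 (by omega)) (PP_need2 a3 (by omega))
      (by omega) hC

theorem MT_ceil {m J om K t : ℕ} (hJ : 1 ≤ J) (h : t = (om * K + (J + m - 1)) / (J + m)) :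
    K * (om + m) ≤ J * t + m * (K + t) := by
  have a1 := Nat.div_add_mod (om * K + (J + m - 1)) (J + m)
  have a2 := Nat.mod_lt (om * K + (J + m - 1)) (show 0 < J + m by omega)
  rw [← h] at a1
  have a3 : K * (om + m) + (J + m) * t = J * t + m * (K + t) + om * K := by ring
  omega

theorem blkF_MT {m J om K' f fp cm cJ cd pc pk oneA oneB aA bA kcA ncA ndA nnA cA rnA rcA wcA rn2A rc2A wc2A aB
    bB kcB ncB ndB nnB cB rnB rcB wcB rn2B rc2B wc2B : ℕ}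
    (H : MTc m J om K' f fp cm cJ cd pc pk oneA oneB aA bA kcA ncA ndA nnA cA rnA rcA wcA rn2A rc2A wc2A aB
      bB kcB ncB ndB nnB cB rnB rcB wcB rn2B rc2B wc2B) : BlkF m J om K' f := by
  obtain ⟨t, X, B, jA, jB, D, J2, mJ, xA, qA, sloA, shiA, XloA, XhiA, nA, kA, rhoA, PhiA, needA, xB, qB, sloB,
    shiB, XloB, XhiB, nB, kB, rhoB, PhiB, needB, gl, m2, Ul, Uh, gh, hh, z, E, d1, rfl, rfl, -, d5, rfl, rfl,
    rfl, rfl, rfl, d11, d12, d13, d14, d15, d16, d17, d18, d19, rfl, rfl, d22, d23, d24, d25, d26, d27, d28,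
    d29, d30, d31, rfl, d33, d34, d35, d36, rfl, rfl, c1, c3, c4, c5, c6, c7, c8, c9, c10, HA, HB⟩ := H
  rw [BlkF, ← d1]
  intro hC
  have hδ := MT_ceil ((Nat.le_add_left 1 jA).trans c4) d1
  have g1 : needA ≤ gl := d31 ▸ ((le_max_left _ _).trans (Nat.le_add_right _ _)).trans (Nat.le_add_right _ _)
  have g2 : needB ≤ gl := d31 ▸ ((le_max_right _ _).trans (Nat.le_add_right _ _)).trans (Nat.le_add_right _ _)
  have hj : jA + jB = J := by clear * - d5 c4; omega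
  have hB : 1 ≤ jB := by clear * - d5 c4; omega
  have hJ : 1 ≤ J := by clear * - c4; omega
  obtain ⟨s1, s2, X1, X2, η1, η2, a1, a2, a3, a4, a5, a6, a7, a8, a9⟩ := mt_exists m J K' t (om + m) jA jB c1
    hδ hj c3 hB c5 c7
  have f1 : 2 * J * X1 + 2 * J * X2 = 2 * (om + m) * jA + 2 * (om + m) * jB := by
    rw [← mul_add, ← mul_add, a2, hj]
    ring
  have f2 : 2 * m * J * s1 + 2 * m * J * s2 = 2 * m * (K' + t) * jA + 2 * m * (K' + t) * jB := by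
    rw [← mul_add, ← mul_add, a1, hj]
    ring
  have b6 : 2 * J * X2 ≤ 2 * (om + m) * jB + J := by clear * - f1 a7; omega
  have b7 : 2 * (om + m) * jB ≤ 2 * J * X2 + J := by clear * - f1 a6; omega
  have b8 : 2 * m * J * s2 ≤ 2 * m * (K' + t) * jB + J * (K' + m + 2) := by clear * - f2 a9; omega
  have b9 : 2 * m * (K' + t) * jB ≤ 2 * m * J * s2 + J * (K' + m + 2) := by clear * - f2 a8; omega
  have hN : 1 ≤ m * (2 * J) := Nat.mul_pos c1 (by clear * - hJ; omega)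
  have f3 : ∀ s, m * (2 * J) * s = 2 * m * J * s := fun s => by ring
  obtain ⟨r1, r2⟩ := MT_rng hN d11 d12 (f3 s1 ▸ a8) (f3 s1 ▸ a9)
  obtain ⟨r3, r4⟩ := MT_rng hN d22 d23 (f3 s2 ▸ b8) (f3 s2 ▸ b9)
  obtain ⟨r5, r6⟩ := MT_rngX hJ d13 d14 a6 a7
  obtain ⟨r7, r8⟩ := MT_rngX hJ d24 d25 b6 b7
  obtain ⟨p, g, hp, hg⟩ : ∃ p g, ((fp = 0 ∧ p = 0 ∧ g = gl) ∨ (fp ≠ 0 ∧ p = gl ∧ g = 0)) ∧ g + m / 2 ≤ hh := by
    by_cases h : fp = 0
    · rw [if_pos h] at d36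
      exact ⟨0, gl, Or.inl ⟨h, rfl, rfl⟩, (d36.trans d35).ge⟩
    · rw [if_neg h] at d36
      exact ⟨gl, 0, Or.inr ⟨h, rfl, rfl⟩, by rw [d36, zero_add]⟩
  have u1 : η1 ≤ m / 2 := by clear * - a3; omega
  have u2 : η2 ≤ m / 2 := by clear * - a3; omega
  have PA := MT_side c1 c3 d15 d16 d17 d18 d19 g1 d33 d34 d35 c6 HA hp u1 u2 r1 r2 r5 r6 a4
    (MT_room c1 hJ hC a8 a6 ((Nat.add_le_add_left u1 g).trans hg) c9)
  have PB := MT_side c1 hB d26 d27 d28 d29 d30 g2 d33 d34 d35 c8 HB hp u2 u1 r3 r4 r7 r8 a5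
    (MT_room c1 hJ hC b8 b6 ((Nat.add_le_add_left u2 g).trans hg) c10)
  have HV := PV_root2 PA PB a1.le
  rwa [hj, a2, a1] at HV

theorem blkF_DQ {m J om K rn rc wc : ℕ} (H : DQc m J om K rn rc wc) (hJ : 1 ≤ J) (f : ℕ) : BlkF m J om K f := by
  obtain ⟨t, B, z, d1, rfl, rfl, H⟩ := H
  rw [BlkF, ← d1]
  exact fun _ => V_QZ H le_rfl le_rfl le_rfl le_rfl le_rfl le_rfl le_rfl le_rfl le_rfl (MT_ceil hJ d1)

end Pool.Agent.Work.MP_f4b644_ag.Mid
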