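import Pool.Agent.Work.MP_f4b644_ag.Mid.PT
import Pool.Agent.Work.MP_f4b644_ag.Mid.L0
import Pool.Agent.Work.MP_f4b644_ag.Mid.L1
import Pool.Agent.Work.MP_f4b644_ag.Mid.L1a

/-!
The root which is cut into two parts joined by pairs.
-/

set_option autoImplicit false

namespace Pool.Agent.Work.MP_f4b644_ag.Mid

open Big Thin

theorem PP_nk {K kc n0 n k rho : ℕ} (e1 : n = if kc = 0 then n0 else K / kc)
    (e2 : k = if kc = 0 then K / n else kc) (e3 : rho = min (K - n * k) (if kc = 0 then n - 1 else kc - 1))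
    (h1 : kc ≤ n) (h2 : 1 ≤ n) : K / n = k ∧ K % n = rho := by
  by_cases h : kc = 0
  · rw [if_pos h] at e2 e3
    have a1 := Nat.div_add_mod K n
    have a2 := Nat.mod_lt K h2
    rw [← e2] at a1
    exact ⟨e2.symm, by omega⟩
  · rw [if_neg h] at e1 e2 e3
    subst e2
    have a1 := Nat.div_add_mod' K k
    have a2 := Nat.mod_lt K (Nat.pos_of_ne_zero h)
    rw [← e1] at a1
    exact (Nat.div_mod_unique h2).2 ⟨by omega, by omega⟩

theorem PP_cov {m j a b Phi : ℕ} (hm : 1 ≤ m)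
    (e : Phi = (m + (b * j - a * m + (a * m - b * j)) * (b - 1) + (b - 1)) / b)
    (h : 1 ≤ b ∧ Nat.Coprime a b) : Cover m j b Phi := by
  refine cover_of m j a b (b * j - a * m + (a * m - b * j)) Phi hm h.1 h.2 (by omega) (by omega) ?_
  have a1 := Nat.div_add_mod' (m + (b * j - a * m + (a * m - b * j)) * (b - 1) + (b - 1)) b
  have a2 := Nat.mod_lt (m + (b * j - a * m + (a * m - b * j)) * (b - 1) + (b - 1)) h.1
  rw [← e] at a1
  omega

/-- enough pairs -/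
theorem PP_need2 {n a p h : ℕ} (hn : 3 ≤ n) (h1 : (n * (a + 1) - 3) / (n - 2) ≤ p) :
    n * a + (2 * p + h) ≤ n * (p + h) := by
  obtain ⟨n, rfl⟩ := Nat.exists_eq_add_of_le' hn
  rw [← Nat.lt_succ_iff, Nat.div_lt_iff_lt_mul (by omega), show n + 3 - 2 = n + 1 by omega] at h1
  have e1 : (n + 3) * (a + 1) = (n + 3) * a + n + 3 := by ring
  have e2 : p.succ * (n + 1) = p * n + p + n + 1 := by rw [Nat.succ_eq_add_one]; ring
  have e3 : (n + 3) * (p + h) = p * n + 3 * p + n * h + 3 * h := by ring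
  omega

/-- enough single mates -/
theorem PP_need1 {n a h : ℕ} (hn : 2 ≤ n) (h1 : n * a ≤ h) : n * a + (2 * 0 + h) ≤ n * (0 + h) := by
  have := Nat.mul_le_mul_right h hn
  rw [zero_add]
  omega

theorem PP_rng {J s A q : ℕ} (hJ : 1 ≤ J) (e : q = A / J) (h1 : J * s < A + 2 * J) (h2 : A < J * s + 2 * J) :
    q - 1 ≤ s ∧ s ≤ q + 2 := by
  have a1 := Nat.div_add_mod A J
  have a2 := Nat.mod_lt A hJ
  rw [← e] at a1
  have a3 : J * q < J * (s + 2) := by rw [mul_add]; omega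
  have a4 : J * s < J * (q + 3) := by rw [mul_add]; omega
  have a5 := Nat.lt_of_mul_lt_mul_left a3
  have a6 := Nat.lt_of_mul_lt_mul_left a4
  omega

theorem PP_pos {J A q : ℕ} (e : q = A / J) (h : 1 ≤ q) : J ≤ A := by
  have := Nat.div_mul_le_self A J
  rw [← e] at this
  exact (Nat.le_mul_of_pos_left J h).trans this

/-- the number of B-fibres of a root -/
theorem PP_T {m J om r K : ℕ} (hJ : 1 ≤ J) (hK : K = r * (J + m) / (J + m + om)) :
    ∃ T, K + T = r ∧ K * om ≤ (J + m) * T ∧ (J + m) * T < K * om + (J + m + om) := by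
  have a1 := Nat.div_add_mod' (r * (J + m)) (J + m + om)
  have a2 := Nat.mod_lt (r * (J + m)) (show 0 < J + m + om by omega)
  rw [← hK] at a1
  have a3 : K ≤ r := Nat.le_of_mul_le_mul_right
    (((Nat.mul_le_mul_left K (Nat.le_add_right _ om)).trans (Nat.le_add_right _ _)).trans a1.le)
    (show 0 < J + m by omega)
  obtain ⟨T, rfl⟩ := Nat.exists_eq_add_of_le a3
  have e1 : K * (J + m + om) = K * (J + m) + K * om := by ring
  have e2 : (K + T) * (J + m) = K * (J + m) + (J + m) * T := by ring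
  exact ⟨T, rfl, by omega, by omega⟩

theorem root_PP {m J om r K f4 cm cJ cd pc pk aA bA kcA ncA ndA nnA cA rnA rcA wcA rn2A rc2A wc2A aB bB kcB
    ncB ndB nnB cB rnB rcB wcB rn2B rc2B wc2B : ℕ}
    (H : PPc m J om r K f4 cm cJ cd pc pk aA bA kcA ncA ndA nnA cA rnA rcA wcA rn2A rc2A wc2A aB bB kcB
      ncB ndB nnB cB rnB rcB wcB rn2B rc2B wc2B) (hr : r + (J + m + om) = (m + 2) * J)
    (hK : K = r * (J + m) / (J + m + om)) (hK1 : 1 ≤ K)
    (hf : f4 = 0 ∨ K * (J + m + om) ≠ r * (J + m) ∨ (K + m) % 2 = 0) : Dag.Root (m + 2) J r := by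
  obtain ⟨tau, X, jA, jB, Tlo, Thi, qA, xA, sloA, shiA, XloA, XhiA, nA, kA, rhoA, PhiA, qB, xB, sloB, shiB,
    XloB, XhiB, nB, kB, rhoB, PhiB, p0, pm, Ul, gh, Uh, rfl, rfl, d3, d4, d5, d6, d7, d8, rfl, rfl, rfl,
    rfl, d13, d14, d15, d16, d17, d18, rfl, rfl, rfl, rfl, d23, d24, d25, d26, d27, d28, rfl, rfl, rfl, c1,
    c2, c3, c4, c5, c6, c7, c8, c9, c10, c11, c12, HA, HB⟩ := H
  obtain ⟨k1, k2⟩ := PP_nk d13 d14 d15 c3 (by omega)
  obtain ⟨k3, k4⟩ := PP_nk d23 d24 d25 c8 (by omega)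
  have v1 := c4.1
  have v2 := PP_cov c1 d16 c4
  have v3 := c9.1
  have v4 := PP_cov c1 d26 c9
  have n0 : ∀ a b c d : ℕ, p0 = max (max a b) (max c d) + K * pk / 16 + pc →
      a ≤ p0 ∧ b ≤ p0 ∧ c ≤ p0 ∧ d ≤ p0 := fun a b c d h => by omega
  obtain ⟨n1, n2, n3, n4⟩ := n0 _ _ _ _ d27
  have hev : jA % 2 = 0 := d3 ▸ Nat.mul_mod_right 2 _
  have hJ : 1 ≤ J := by omega
  obtain ⟨T, hT, t1, t2⟩ := PP_T hJ hK
  have t3 : Tlo ≤ T := d5 ▸ PT_lo (by omega) (by omega)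
  have t4 : T ≤ Thi := d6 ▸ PT_hi (by omega) (by omega)
  have g1 := PP_pos d7 c6
  have g2 := PP_pos d17 c11
  have g3 := PP_pos d8 c7
  have g4 := PP_pos d18 c12
  have hX : r + (om + m) = (m + 1) * J := by
    have : (m + 2) * J = (m + 1) * J + J := by ring
    omega
  have e1 : K * (om + m) + (J + m) * T = J * T + m * r + K * om := by rw [← hT]; ring
  have e2 : K * (J + m + om) + (J + m) * T = r * (J + m) + K * om := by rw [← hT]; ring
  clear d3 d5 d6 d13 d14 d15 d16 d23 d24 d25 d26 d27 c4 c9 n0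
  obtain ⟨s1, s2, X1, X2, π1, π2, a1, a2, a3, a4, a5, a6, a7, a8, a9⟩ := pp_core m J K T r (om + m) jA jB c1 hK1
    hT hX (by omega) (by omega) (by omega) hev g1 g2 g3 g4
  have hpm : π1 + π2 ≤ pm := by
    rw [d28]
    split_ifs <;> omega
  clear d28 hf a9
  obtain ⟨rfl⟩ : J = jA + jB := by omega
  have f1 : (jA + jB) * s1 + (jA + jB) * s2 = jA * r + jB * r := by rw [← a1]; ring
  have f2 : (jA + jB) * s1 + (jA + jB) * X1 = jA * r + jA * (om + m) := by
    rw [← mul_add, ← mul_add, a2, hX]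
    ring
  have f3 : (jA + jB) * s2 + (jA + jB) * X2 = jB * r + jB * (om + m) := by
    rw [← mul_add, ← mul_add, a3, hX]
    ring
  obtain ⟨r1, r2⟩ := PP_rng hJ d7 a6 a7
  obtain ⟨r3, r4⟩ := PP_rng (s := X1) hJ d8 (by omega) (by omega)
  obtain ⟨r5, r6⟩ := PP_rng (s := s2) hJ d17 (by omega) (by omega)
  obtain ⟨r7, r8⟩ := PP_rng (s := X2) hJ d18 (by omega) (by omega)
  have hA : 1 ≤ jA := Nat.pos_of_ne_zero fun h => by rw [h, zero_mul] at g1; omega
  have PA := PV_PT HA (p := p0 + π1) (h := 0) (p' := p0 + π2) (h' := 0) c1 hA (by omega) v1 v2 k1 k2 t3 t4 r1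
    r2 r3 r4 (by omega) (by omega) (by omega) (by omega) (by omega) (by omega)
    (PP_need2 c5 (by omega)) (PP_need2 c5 (by omega)) (by omega) (by omega)
  have PB := PV_PT HB (p := p0 + π2) (h := 0) (p' := p0 + π1) (h' := 0) c1 (by omega) (by omega) v3 v4 k3 k4
    t3 t4 r5 r6 r7 r8 (by omega) (by omega) (by omega) (by omega) (by omega) (by omega)
    (PP_need2 c10 (by omega)) (PP_need2 c10 (by omega)) (by omega) (by omega)
  have hXX : X1 + X2 = om + m := by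
    have : (m + 1) * (jA + jB) = (m + 1) * jA + (m + 1) * jB := by ring
    omega
  have HV := PV_root PA PB (by omega)
  rw [hXX, a1] at HV
  exact root_of_V m _ om r K T hJ hr hK hT HV

theorem PE_data {m J om r K T j : ℕ} (hJ : 1 ≤ J) (hT : K + T = r) (hX : r + (om + m) = (m + 1) * J)
    (h0 : K * om = (J + m) * T) (hd : J ∣ j * r) :
    j * r / J + j * (om + m) / J = (m + 1) * j ∧ K * (j * (om + m) / J) = j * T + m * (j * r / J) ∧
      J * (j * r / J) = j * r := by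
  obtain ⟨s, hs⟩ := hd
  have e1 : j * (om + m) + J * s = J * ((m + 1) * j) := by
    rw [← hs, ← mul_add, add_comm, hX]
    ring
  obtain ⟨x, hx⟩ : ∃ x, (m + 1) * j = s + x :=
    Nat.exists_eq_add_of_le (Nat.le_of_mul_le_mul_left (by omega : J * s ≤ J * _) hJ)
  have e2 : j * (om + m) = J * x := by
    rw [hx, mul_add J] at e1
    omega
  rw [hs, e2, Nat.mul_div_cancel_left _ hJ, Nat.mul_div_cancel_left _ hJ]
  refine ⟨hx.symm, Nat.eq_of_mul_eq_mul_left hJ ?_, rfl⟩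
  calc J * (K * x) = K * (j * (om + m)) := by rw [e2]; ring
    _ = j * (K * om) + m * (j * K) := by ring
    _ = J * (j * T) + m * (j * (K + T)) := by rw [h0]; ring
    _ = _ := by rw [hT, hs]; ring

theorem root_PE {m J om r K j pc pk kcA ncA ndA nnA cA rnA rcA wcA rn2A rc2A wc2A kcB ncB ndB nnB cB rnB rcB
    wcB rn2B rc2B wc2B : ℕ}
    (H : PEc m J om r K j pc pk kcA ncA ndA nnA cA rnA rcA wcA rn2A rc2A wc2A kcB ncB ndB nnB cB rnB rcB
      wcB rn2B rc2B wc2B) (hr : r + (J + m + om) = (m + 2) * J) (hK : K = r * (J + m) / (J + m + om))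
    (h0 : K * (J + m + om) = r * (J + m)) (hj : 1 ≤ j) (hjJ : j + 1 ≤ J) (h1 : J ∣ j * r)
    (h2 : J ∣ (J - j) * r) : Dag.Root (m + 2) J r := by
  obtain ⟨tau, T', jB, sA, XA, nA, kA, rhoA, sB, XB, nB, kB, rhoB, p0, U, rfl, d2, d3, d4, d5, d6, d7, d8, d9,
    d10, d11, d12, d13, d14, rfl, c1, c2, c3, c4, c5, HA, HB⟩ := H
  obtain ⟨k1, k2⟩ := PP_nk d6 d7 d8 c2 (by omega)
  obtain ⟨k3, k4⟩ := PP_nk d11 d12 d13 c4 (by omega)
  have n0 : ∀ a b c d : ℕ, p0 = max (max a b) (max c d) + K * pk / 16 + pc →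
      a ≤ p0 ∧ b ≤ p0 ∧ c ≤ p0 ∧ d ≤ p0 := fun a b c d h => by omega
  obtain ⟨n1, n2, n3, n4⟩ := n0 _ _ _ _ d14
  have hJ : 1 ≤ J := by omega
  obtain ⟨T, hT, -, -⟩ := PP_T hJ hK
  have hX : r + (om + m) = (m + 1) * J := by
    have : (m + 2) * J = (m + 1) * J + J := by ring
    omega
  have e2 : K * (J + m + om) + (J + m) * T = r * (J + m) + K * om := by rw [← hT]; ring
  have e3 : K * om = (J + m) * T := by omega
  obtain rfl : T = T' := by rw [d2, e3, Nat.mul_div_cancel_left _ (by omega)]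
  rw [← d3] at h2
  obtain ⟨a1, a2, a3⟩ := PE_data hJ hT hX e3 h1
  obtain ⟨a4, a5, a6⟩ := PE_data hJ hT hX e3 h2
  rw [← d4, ← d5] at a1 a2
  rw [← d9, ← d10] at a4 a5
  rw [← d4] at a3
  rw [← d9] at a6
  clear d2 d4 d5 d6 d7 d8 d9 d10 d11 d12 d13 d14 n0
  obtain ⟨rfl⟩ : J = j + jB := by omega
  have hs : sA + sB = r := Nat.eq_of_mul_eq_mul_left hJ (by rw [mul_add, a3, a6, add_mul])
  have PA := PV_PT HA (p := p0) (h := 0) (p' := p0) (h' := 0) c1 hj (by omega) le_rfl (cover_one m j c1) k1 k2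
    le_rfl le_rfl le_rfl le_rfl le_rfl le_rfl le_rfl le_rfl le_rfl le_rfl le_rfl (by omega)
    (PP_need2 c3 n2) (PP_need2 c3 n2) (by omega) (by omega)
  have PB := PV_PT HB (p := p0) (h := 0) (p' := p0) (h' := 0) c1 (by omega) (by omega) le_rfl
    (cover_one m jB c1) k3 k4 le_rfl le_rfl le_rfl le_rfl le_rfl le_rfl le_rfl le_rfl le_rfl le_rfl le_rfl
    (by omega) (PP_need2 c5 n4) (PP_need2 c5 n4) (by omega) (by omega)
  have hXX : XA + XB = om + m := by
    have : (m + 1) * (j + jB) = (m + 1) * j + (m + 1) * jB := by ring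
    omega
  have HV := PV_root PA PB (by omega)
  rw [hXX, hs] at HV
  exact root_of_V m _ om r K T hJ hr hK hT HV

end Pool.Agent.Work.MP_f4b644_ag.Mid
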