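import Pool.Agent.Work.MP_f4b644_ag.Mid.QR
import Pool.Agent.Work.MP_f4b644_ag.Mid.Cum

/-!
A part which is cut into n blocks, under the condition `PTc`.
-/

set_option autoImplicit false

namespace Pool.Agent.Work.MP_f4b644_ag.Mid

open Big Thin

theorem PT_ivt (f : ℕ → ℕ) (c W : ℕ) (h0 : f 0 ≤ W) (h1 : W < f c) : ∃ i < c, f i ≤ W ∧ W < f (i + 1) := by
  induction c with
  | zero => omega
  | succ c ih =>
    by_cases h : W < f c
    · obtain ⟨i, a, b⟩ := ih h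
      exact ⟨i, by omega, b⟩
    · exact ⟨c, by omega, by omega, h1⟩

theorem PT_lo {N x A : ℕ} (hN : 0 < N) (h : A < N * x + N) : A / N ≤ x := by
  rw [← Nat.lt_succ_iff, Nat.div_lt_iff_lt_mul hN, Nat.succ_mul, mul_comm]
  exact h

theorem PT_hi {N x A : ℕ} (hN : 0 < N) (h : N * x ≤ A) : x ≤ A / N := by
  rw [Nat.le_div_iff_mul_le hN, mul_comm]
  exact h

/-- one block; `Cp - Cm` is the ideal value of `nj * Tb` -/
theorem PT_blk {m j k nj mn b njb Cl Dh Ch Dl Sl Sh nP uhi elo ehi Ghi Xlo Xhi c rn rc wc : ℕ}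
    (H : ∀ i < c, CHc m j k nj mn njb Cl Dh Ch Dl Sl Sh nP uhi elo ehi Ghi Xlo Xhi (2 * b * i / c)
      (2 * b * (i + 1) / c) rn rc wc) (hc : 1 ≤ c) (hnj : 0 < nj) (hmn : 0 < mn) (hb : njb = nj * b)
    {X Tb sb u e G Cp Cm S : ℕ} (a1 : Cl ≤ Cp) (a2 : Cp ≤ Ch) (a3 : Dl ≤ Cm) (a4 : Cm ≤ Dh)
    (a5 : Sl ≤ S + mn) (a6 : S + nP ≤ Sh) (t1 : nj * Tb + Cm < Cp + njb) (t2 : Cp < nj * Tb + Cm + njb)
    (s1 : mn * sb + nj * Tb + Cm < S + Cp + nP) (s2 : S + Cp < mn * sb + nj * Tb + Cm + nP)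
    (hu : u ≤ uhi) (he1 : elo ≤ e) (he2 : e ≤ ehi) (hG : G ≤ Ghi) (hX1 : Xlo ≤ X) (hX2 : X ≤ Xhi)
    (hd : k * X + u ≤ j * Tb + m * sb + e) : V m j X k Tb sb u e G := by
  obtain ⟨W, hW⟩ : ∃ W, W + Cp = nj * Tb + Cm + njb := ⟨nj * Tb + Cm + njb - Cp, by omega⟩
  obtain ⟨i, hi, w1, w2⟩ := PT_ivt (fun i => nj * (2 * b * i / c)) c W (by simp) (by
    show W < nj * (2 * b * c / c)
    rw [Nat.mul_div_cancel _ hc, mul_left_comm]
    omega)
  obtain ⟨a0, a1, T1, T2, s1, s2, e0, e1, e2, e3, e4, e5, h⟩ := H i hi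
  rw [← e0] at w1
  rw [← e1] at w2
  have b1 : T1 ≤ Tb := by
    rw [e2]
    refine PT_lo hnj ?_
    split_ifs with g
    · rw [g, mul_zero] at e0
      omega
    · omega
  have b2 : Tb ≤ T2 := e3 ▸ PT_hi hnj (by omega)
  have b3 : s1 ≤ sb := e4 ▸ PT_lo hmn (by omega)
  have b4 : sb ≤ s2 := e5 ▸ PT_hi hmn (by omega)
  exact V_LF (h.resolve_left (by omega)) b1 b2 b3 b4 hu he1 he2 hG hX1 hX2 hd

theorem PT_cap {n a U g : ℕ} (hn : 1 ≤ n) (h : n * a + U ≤ n * g) : (U + n - 1) / n + a ≤ g := by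
  obtain ⟨d, rfl⟩ : ∃ d, g = d + a := ⟨g - a, by
    have : a ≤ g := Nat.le_of_mul_le_mul_left (by omega : n * a ≤ n * g) hn
    omega⟩
  rw [mul_add] at h
  exact Nat.add_le_add_right (PT_lo hn (by omega)) a

theorem PV_PT {m j Tlo Thi slo shi Xlo Xhi n k rho Phi Ul Uh gh b c rn rc wc rn2 rc2 wc2 : ℕ}
    (H : PTc m j Tlo Thi slo shi Xlo Xhi n k rho Phi Ul Uh gh b c rn rc wc rn2 rc2 wc2)
    {K T s X p h p' h' : ℕ} (hm : 1 ≤ m) (hj : 1 ≤ j) (hn : 1 ≤ n) (hb : 1 ≤ b) (hcov : Cover m j b Phi)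
    (hk : K / n = k) (hrho : K % n = rho) (hT1 : Tlo ≤ T) (hT2 : T ≤ Thi) (hs1 : slo ≤ s) (hs2 : s ≤ shi)
    (hX1 : Xlo ≤ X) (hX2 : X ≤ Xhi) (hU1 : Ul ≤ 2 * p + h) (hU2 : 2 * p + h ≤ Uh)
    (hE1 : Ul ≤ 2 * p' + h') (hE2 : 2 * p' + h' ≤ Uh) (hg : p + h ≤ gh) (hl : n * (Phi / 2) ≤ Ul)
    (hcU : n * (Phi / 2) + (2 * p + h) ≤ n * (p + h))
    (hcE : n * (Phi / 2) + (2 * p' + h') ≤ n * (p' + h'))
    (hD : K * X + (2 * p + h) ≤ j * T + m * s + (2 * p' + h')) (hC : s + h + X ≤ (m + 1) * j) :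
    PV m j X K T s h h' p p' := by
  obtain ⟨aU, aE, ql, qh, uhi, elo, ehi, Ghi, nj, mn, njb, nP, Sl, Sh, Cl, Ch, Dl, Dh, k1, nr, Cl1, Ch1, z,
    d1, d2, d3, d4, rfl, rfl, rfl, rfl, rfl, rfl, d11, d12, rfl, rfl, rfl, rfl, rfl, rfl, rfl, d20,
    rfl, rfl, rfl, c1, c2, c3, c4, c5⟩ := H
  obtain ⟨_, φ, -, hφ, -⟩ := hcov 0
  have hP : aU + aE + 3 = Phi + 2 := by omega
  have hU : aU ≤ aE := by omega
  rw [← d2] at hl hcU hcE
  have hq : aE ≤ ql := d3 ▸ PT_hi hn hl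
  have q1 : ql ≤ (2 * p + h) / n := d3 ▸ Nat.div_le_div_right hU1
  have q2 : ql ≤ (2 * p' + h') / n := d3 ▸ Nat.div_le_div_right hE1
  have q3 : (2 * p + h + n - 1) / n ≤ qh := d4 ▸ Nat.div_le_div_right (by omega)
  have q4 : (2 * p' + h' + n - 1) / n ≤ qh := d4 ▸ Nat.div_le_div_right (by omega)
  have q5 := PT_cap hn hcU
  have q6 := PT_cap hn hcE
  clear d1 d2 d3 d4
  have r1 := Nat.mul_le_mul_left j hT1
  have r2 := Nat.mul_le_mul_left j hT2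
  have r3 := Nat.mul_le_mul_left m hs1
  have r4 := Nat.mul_le_mul_left m hs2
  have r5 := Nat.mul_le_mul_left rho hX1
  have r6 := Nat.mul_le_mul_left rho hX2
  have r7 := Nat.mul_le_mul_left nr hX1
  have r8 := Nat.mul_le_mul_left nr hX2
  have hK : K * X = n * k * X + rho * X := by
    rw [← hk, ← hrho, ← add_mul, Nat.div_add_mod]
  have hr : rho < n := hrho ▸ Nat.mod_lt K hn
  have hK1 : n * (k + 1) * X = K * X + nr * X := by
    obtain rfl : n = nr + rho := by omega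
    rw [hK]
    ring
  have hnj := Nat.mul_pos hn hj
  have hmn := Nat.mul_pos hm hn
  refine PV_cum m j X K T s p h p' h' n b Phi aU aE hm hj hn hb hcov (by omega) hD (by omega) (by omega)
    (by omega) q6 (by rw [hrho]; omega) (by rw [hP]; omega) hC ?_
  rintro κ Tb sb u e ⟨b1, b2, b3, b4, b5, b6, b7, b8, b9, b10⟩
  rw [hP, ← d12] at b5 b6
  rw [← d11] at b3 b4
  rw [hk, hrho] at b1
  rcases b1 with rfl | ⟨rfl, b1⟩
  · exact PT_blk c4 c1 hnj hmn d11 (Cp := j * T) (Cm := rho * X) (S := m * s) r1 r2 r5 r6 (by omega)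
      (by omega) (by omega) (by omega) (by omega) (by omega) (by omega) (by omega) (by omega) (by omega)
      hX1 hX2 b2
  · exact PT_blk (c5.resolve_left (by omega)) c1 hnj hmn d11 (Cp := j * T + nr * X) (Cm := 0)
      (S := m * s) (by omega) (by omega) le_rfl le_rfl (by omega) (by omega) (by omega) (by omega)
      (by omega) (by omega) (by omega) (by omega) (by omega) (by omega) hX1 hX2 b2

end Pool.Agent.Work.MP_f4b644_ag.Mid
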