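import Pool.Agent.Work.MP_f4b644_ag.Mid.A0
import Pool.Agent.Work.MP_f4b644_ag.Thin.Tall

/-!
The block with a sink: as `V_Q`, but the full strips absorb rp (k - 1) pairs of C-fibres each (their tangents have
y mates, the tangents of the last strip have Y = y + 2 rp mates) and the sink may contain many pairs.
-/

set_option autoImplicit false

namespace Pool.Agent.Work.MP_f4b644_ag.Mid

open Big Thin Multiset Big.Gad

theorem grOKR (m j X G f : ℕ) (hj : 1 ≤ j) (hX1 : 1 ≤ X)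
    (hG : (G ≤ j ∧ X + j ≤ m * j) ∨ X + G + j ≤ m * j) (hf : 2 * G + f + X = (m + 1) * j) :
    GrOK (m + 2) j X (replicate G 2 + replicate f 1) := by
  have hm : 2 ≤ m := by
    rcases m with _ | _ | m <;> omega
  by_cases c : G ≤ j
  · exact grOK2 m j X G f hm hj c (by omega) hf
  have hs : (replicate G 2 + replicate f 1 : Multiset ℕ).sum = 2 * G + f := by simp [mul_comm]
  have hc : (replicate G 2 + replicate f 1 : Multiset ℕ).card = G + f := by simp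
  have e1 : (m + 2) * j = (m + 1) * j + j := by ring
  obtain ⟨R, E, hR, hE⟩ := Tall_ceil G j hj
  have hR2 : 2 ≤ R := by
    rcases R with _ | _ | R <;> omega
  have hRm : R + 1 ≤ m := by
    by_contra hh
    have := Nat.mul_le_mul_right j (show m ≤ R by omega)
    rw [mul_comm R] at this
    omega
  obtain ⟨d, rfl⟩ := Nat.exists_eq_add_of_le hRm
  refine ⟨hj, by omega, R, by omega, ?_, fun w hw => ?_, ?_, by rw [mul_comm R]; omega⟩
  · have : (X - 1) / j < d + 1 := by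
      rw [Nat.div_lt_iff_lt_mul hj]
      have e2 : (R + 1 + d) * j = j * R + (d + 1) * j := by ring
      omega
    omega
  · simp only [mem_add, mem_replicate] at hw
    omega
  · rw [count_add, count_replicate, count_replicate, if_neg (by omega), if_neg (by omega)]
    omega

theorem QP_spl (y Y a0 e2a a1 e2b b0 e1 e' G1 G2 f1 f2 : ℕ) (Z0 Z1 : Multiset ℕ) (hy : 1 ≤ y)
    (hZ0 : ∀ z ∈ Z0, z + 1 ≤ Y) (hZ : ∀ z ∈ Z1, z ≤ Y) (h2 : 2 ≤ y ∨ e2b = 0) :
    Spl Dir.B (replicate (a0 + e2a) (T 0 y) + (replicate Z1.card (T 0 Y) +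
        (replicate (a1 + e2b) (T 1 (y - 1)) + (replicate Z0.card (T 1 (Y - 1)) +
        (replicate b0 (BP 0) + replicate (e1 + e') (BP 1) + replicate (G1 + G2) (CP 2) +
          replicate (f1 + f2) (CP 1))))))
      (replicate (a0 + a1) (T y 0) + replicate (e2a + e2b) (T (y - 1) 1) +
        (Z0 + Z1).map (fun z => T (Y - z) z) + replicate (b0 + e') (BP 0) +
        replicate e1 (BP 1) + replicate G1 (CP 2) + replicate f1 (CP 1))
      ((replicate a0 y + replicate e2a (y - 1) + Z1.map (fun z => Y - z) + replicate a1 (y - 1) +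
        replicate e2b (y - 2) + Z0.map (fun z => Y - 1 - z) + replicate b0 0 + replicate e1 0 +
        replicate e' 1).map BP + (replicate G2 2 + replicate f2 1).map CP) := by
  have s1 := Spl.rep (Q_rule 0 0 y y y (by omega) (by omega)) a0
  have s2 := Spl.rep (Q_rule 0 1 (y - 1) y (y - 1) (by omega) (by omega)) e2a
  have s3 := Spl.map (d := Dir.B) Z1 (fun _ => T 0 Y) (fun z => T (Y - z) z) (fun z => BP (Y - z))
    (fun z hz => Q_rule 0 z (Y - z) Y (Y - z) (by have := hZ z hz; omega) (by omega))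
  have s4 := Spl.rep (Q_rule 1 0 (y - 1) (y - 1) y (by omega) (by omega)) a1
  have s5 := Q_splT1 y e2b h2
  have s6 := Spl.map (d := Dir.B) Z0 (fun _ => T 1 (Y - 1)) (fun z => T (Y - z) z)
    (fun z => BP (Y - 1 - z))
    (fun z hz => Q_rule 1 z (Y - 1 - z) (Y - 1) (Y - z) (by have := hZ0 z hz; omega)
      (by have := hZ0 z hz; omega))
  have s7 := Spl.rep (ruleB_BP 0 0) b0
  have s8 := Spl.rep (ruleB_BP 1 0) e1
  have s9 := Spl.rep (ruleB_BP 0 1) e'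
  have s10 := Spl.repR (ruleB_CP 2).symm G2
  have s11 := Spl.repL (ruleB_CP 1) f1
  have s12 := Spl.repR (ruleB_CP 1).symm f2
  have s13 := Spl.repL (ruleB_CP 2) G1
  refine Spl.of_eq ((((((((((((s1.add s2).add s3).add s4).add s5).add s6).add s7).add s8).add s9).add
    s10).add s11).add s12).add s13) ?_ ?_ ?_
  · simp only [replicate_add, Multiset.map_const', Nat.add_zero, Nat.zero_add]
    abel
  · simp only [replicate_add, Multiset.map_add]
    abel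
  · simp only [Multiset.map_add, Multiset.map_replicate, Multiset.map_map, Function.comp_def]
    abel

theorem QP_hinge {I J K : ℕ} (y Y s0 s1 u0 u1 b e G F f : ℕ)
    (hF : F = s0 * y + s1 * Y + u0 * (y - 1) + u1 * (Y - 1) + f)
    (H : S I J K (replicate s0 (T 0 y) + (replicate s1 (T 0 Y) + (replicate u0 (T 1 (y - 1)) +
      (replicate u1 (T 1 (Y - 1)) + (replicate b (BP 0) + replicate e (BP 1) + replicate G (CP 2) +
        replicate f (CP 1))))))) : BS I J K (s0 + s1) (u0 + u1) b e G F := by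
  have H1 := S.hingeT s0 0 y _ H
  have H2 := S.hingeT s1 0 Y _ (H1.of_eq (add_left_comm _ _ _))
  have H3 := S.hingeT u0 1 (y - 1) _ (H2.of_eq (M' := _ + (replicate u1 (T 1 (Y - 1)) +
    (replicate s1 (T 0 0) + replicate (s1 * Y) (CP 1) + replicate s0 (T 0 0) +
      replicate (s0 * y) (CP 1) + (replicate b (BP 0) + replicate e (BP 1) + replicate G (CP 2) +
        replicate f (CP 1))))) (by abel))
  have H4 := S.hingeT u1 1 (Y - 1) _ (H3.of_eq (add_left_comm _ _ _))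
  subst hF
  refine S.of_eq ?_ H4
  simp only [replicate_add]
  abel

theorem QP_sum1 (Y : ℕ) (Z : Multiset ℕ) (h : ∀ z ∈ Z, z + 1 ≤ Y) :
    (Z.map (fun z => Y - 1 - z)).sum + Z.sum + Z.card = Z.card * Y := by
  induction Z using Multiset.induction_on with
  | empty => simp
  | cons a Z ih =>
    have h1 := ih (fun z hz => h z (Multiset.mem_cons_of_mem hz))
    have h2 := h a (Multiset.mem_cons_self a Z)
    simp only [Multiset.map_cons, Multiset.sum_cons, Multiset.card_cons, add_mul, one_mul]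
    omega

theorem QP_core (m k Tt w y rp Y T' c q s' X' c' z0 e1 js Xs Gs f a0 e2a a1 e2b b0 e' : ℕ)
    (Z0 Z1 : Multiset ℕ) (hm : m = Y + w + 1) (hy : 1 ≤ y) (hY : Y = y + 2 * rp)
    (hT : Tt + w = w * k + T') (hc : c + T' + 1 = k) (ha : a0 + a1 + (e2a + e2b) = q * k)
    (hZc : Z0.card + Z1.card = s') (hZ : ∀ z ∈ Z0 + Z1, z ≤ z0) (hZ0 : ∀ z ∈ Z0, z + 1 ≤ Y)
    (hz0 : z0 ≤ Y) (hk : s' + e1 + (e2a + e2b) ≤ k) (hX' : X' + c' = s')
    (hE : k * X' ≤ s' * (T' + 1) + (e1 + (e2a + e2b) + (Z0 + Z1).sum))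
    (h1 : 1 ≤ X' ∨ e1 + (e2a + e2b) = 0) (h2 : z0 + 1 ≤ X' ∨ (Z0 + Z1).sum = 0)
    (hy2 : 2 ≤ y ∨ e2b = 0) (hb : b0 + e' + e1 + q * k + s' = k + Tt) (hjs : 1 ≤ js)
    (hG : (Gs ≤ js ∧ Xs + js ≤ m * js) ∨ Xs + Gs + js ≤ m * js)
    (hf : 2 * Gs + f + Xs = (m + 1) * js) (hyX : Y ≤ Xs)
    (hD : k * Xs + (a1 + e2b + Z0.card) + (e1 + (e2a + e2b) + (Z0 + Z1).sum) ≤
      js * Tt + y * (q * k) + Y * s' + (e1 + e')) :
    S (m + 2) (q * k + s' + js) k (replicate (a0 + e2a) (T 0 y) + (replicate Z1.card (T 0 Y) +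
      (replicate (a1 + e2b) (T 1 (y - 1)) + (replicate Z0.card (T 1 (Y - 1)) +
      (replicate b0 (BP 0) + replicate (e1 + e') (BP 1) +
        replicate (q * (rp * (k - 1)) + Gs) (CP 2) + replicate (q * c + c' + f) (CP 1)))))) := by
  have hZy : ∀ z ∈ Z1, z ≤ Y := fun z hz => (hZ z (mem_add.2 (Or.inr hz))).trans hz0
  have htop := QTopP k Tt w y rp Y T' c q s' X' c' z0 e1 (e2a + e2b) (a0 + a1) (b0 + e')
    (Z0 + Z1) hy hY hT hc ha (by simp [hZc]) hZ hz0 hk hX' hE h1 h2 hb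
  rw [show Y + w + 3 = m + 2 by omega] at htop
  refine S.splitB (QP_spl y Y a0 e2a a1 e2b b0 e1 e' _ Gs (q * c + c') f Z0 Z1 hy hZ0 hZy hy2) htop ?_
  have hS := Q_sum Y Z1 hZy
  have hS0 := QP_sum1 Y Z0 hZ0
  refine S_gpl (grOKR m js Xs Gs f hjs (by omega) hG hf) k _ ?_ ?_
  · intro x hx
    simp only [Multiset.mem_add, Multiset.mem_replicate, Multiset.mem_map] at hx
    rcases hx with (((((((hx | hx) | ⟨z, _, hx⟩) | hx) | hx) | ⟨z, _, hx⟩) | hx) | hx) | hx <;> omega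
  · simp only [Multiset.card_add, Multiset.card_replicate, Multiset.card_map, Multiset.sum_add,
      Multiset.sum_replicate, smul_eq_mul] at hD ⊢
    have hc' : a0 + e2a + Z1.card + a1 + e2b + Z0.card + b0 + e1 + e' = k + Tt := by omega
    rw [hc']
    obtain ⟨y1, rfl⟩ : ∃ y1, y = y1 + 1 := ⟨y - 1, by omega⟩
    have h3 : e2b * (y1 + 1 - 2) + e2b = e2b * y1 := by
      rcases hy2 with h | h
      · obtain ⟨y2, rfl⟩ : ∃ y2, y1 = y2 + 1 := ⟨y1 - 1, by omega⟩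
        have : y2 + 1 + 1 - 2 = y2 := by omega
        rw [this]
        ring
      · subst h
        simp
    rw [← ha, ← hZc] at hD
    simp only [Nat.add_sub_cancel] at hS ⊢
    nlinarith [hS, hS0, hD, h3]

theorem V_monoG {m j X k Tt s u e G G' : ℕ} (hG : G ≤ G') (h : V m j X k Tt s u e G') :
    V m j X k Tt s u e G := by
  obtain ⟨d, rfl⟩ := Nat.exists_eq_add_of_le hG
  obtain ⟨a1, a2, a3, a4⟩ := h
  refine ⟨a1, a2, by omega, ?_⟩
  have H := S_mergeCP1 d 2 _ (S.of_eq (M' := _ + (replicate (s - u) (T 0 0) + replicate u (T 1 0) +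
    replicate (k + Tt - s - e) (BP 0) + replicate e (BP 1) + replicate G (CP 2) +
    replicate ((m + 1) * j - X - s - u - 2 * (G + d)) (CP 1))) (by rw [replicate_add]; abel) a4)
  refine H.of_eq ?_
  rw [show (m + 1) * j - X - s - u - 2 * G = d * 2 + ((m + 1) * j - X - s - u - 2 * (G + d)) by omega,
    replicate_add]
  abel

theorem V_Qp (m j X k Tt s u e G w y rp Y T' q s' X' z0 e1 e2 E2 js Xs Gs : ℕ) (hm : m = Y + w + 1)
    (hy : 1 ≤ y) (hY : Y = y + 2 * rp) (hT : Tt + w = w * k + T') (hT' : T' + 1 ≤ k)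
    (hs : s = q * k + s') (hj : j = s + js) (hjs : 1 ≤ js) (hX' : X' ≤ s')
    (hX : X ≤ q * (Tt + w + 1 + 2 * rp) + w * s' + X' + Xs)
    (hE : k * X' ≤ s' * (T' + 1) + (e1 + e2 + E2)) (he1 : e1 ≤ e) (hk : s' + e1 + e2 ≤ k)
    (hq : (q = 0 ∧ e2 = 0 ∧ u ≤ s' ∧ z0 + 1 ≤ Y) ∨ (1 ≤ q ∧ u ≤ q * k ∧ (e2 + u ≤ q * k ∨ 2 ≤ y)))
    (hE2 : E2 ≤ z0 * s') (hz0 : z0 ≤ Y) (h1 : 1 ≤ X' ∨ e1 + e2 = 0) (h2 : z0 + 1 ≤ X' ∨ E2 = 0)
    (hB : s + e ≤ k + Tt) (hG : G ≤ q * (rp * (k - 1)) + Gs)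
    (hGs : (Gs ≤ js ∧ Xs + js ≤ m * js) ∨ Xs + Gs + js ≤ m * js) (hXs : 2 * Gs + Xs ≤ (m + 1) * js)
    (hyX : Y ≤ Xs) (hD : k * Xs + u + (e1 + e2 + E2) ≤ js * Tt + y * (q * k) + Y * s' + e) :
    V m j X k Tt s u e G := by
  refine V_monoG hG (V_mono hX ?_)
  obtain ⟨c, hc⟩ : ∃ c, c + T' + 1 = k := ⟨k - T' - 1, by omega⟩
  obtain ⟨c', hc'⟩ : ∃ c', X' + c' = s' := ⟨s' - X', by omega⟩
  obtain ⟨e', rfl⟩ : ∃ e', e = e1 + e' := ⟨e - e1, by omega⟩
  obtain ⟨b0, hb0⟩ : ∃ b0, b0 + e' + e1 + q * k + s' = k + Tt := ⟨k + Tt - s - (e1 + e'), by omega⟩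
  obtain ⟨f, hf⟩ : ∃ f, 2 * Gs + f + Xs = (m + 1) * js := ⟨(m + 1) * js - Xs - 2 * Gs, by omega⟩
  obtain ⟨Z, hZc, hZ, rfl⟩ := Q_Z s' z0 E2 hE2
  obtain ⟨a0, e2a, a1, e2b, Z0, Z1, rfl, ha, hu, he2, hy2, hZ0⟩ :
      ∃ (a0 e2a a1 e2b : ℕ) (Z0 Z1 : Multiset ℕ), Z = Z0 + Z1 ∧ a0 + a1 + (e2a + e2b) = q * k ∧
        u = a1 + e2b + Z0.card ∧ e2 = e2a + e2b ∧ (2 ≤ y ∨ e2b = 0) ∧ ∀ z ∈ Z0, z + 1 ≤ Y := by
    rcases hq with ⟨hq0, he0, hus, hz⟩ | ⟨hq1, huq, he⟩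
    · obtain ⟨Z0, Z1, rfl, h0⟩ := exists_split_card Z u (by omega)
      exact ⟨0, 0, 0, 0, Z0, Z1, rfl, by simp [hq0], by omega, by omega, Or.inr rfl,
        fun z hh => by have := hZ z (mem_add.2 (Or.inl hh)); omega⟩
    · have hkq : k ≤ q * k := Nat.le_mul_of_pos_left k hq1
      by_cases hh : e2 + u ≤ q * k
      · exact ⟨q * k - u - e2, e2, u, 0, 0, Z, by simp, by omega, by simp, by omega, Or.inr rfl,
          by simp⟩
      · exact ⟨0, q * k - u, q * k - e2, e2 + u - q * k, 0, Z, by simp, by omega,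
          by rw [card_zero]; omega, by omega, Or.inl (by omega), by simp⟩
  subst hu he2
  rw [card_add] at hZc
  have hcore := QP_core m k Tt w y rp Y T' c q s' X' c' z0 e1 js Xs Gs f a0 e2a a1 e2b b0 e' Z0 Z1 hm
    hy hY hT hc ha hZc hZ hZ0 hz0 hk hc' hE h1 h2 hy2 hb0 hjs hGs hf hyX hD
  obtain ⟨y1, rfl⟩ : ∃ y1, y = y1 + 1 := ⟨y - 1, by omega⟩
  obtain ⟨Y1, rfl⟩ : ∃ Y1, Y = Y1 + 1 := ⟨Y - 1, by omega⟩
  obtain ⟨k1, rfl⟩ : ∃ k1, k = k1 + 1 := ⟨k - 1, by omega⟩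
  simp only [Nat.add_sub_cancel] at hcore ⊢
  have key : s + (a1 + e2b + Z0.card) + 2 * (q * (rp * k1) + Gs) +
      (q * (Tt + w + 1 + 2 * rp) + w * s' + X' + Xs) + ((a0 + e2a) * (y1 + 1) + Z1.card * (Y1 + 1) +
      (a1 + e2b) * y1 + Z0.card * Y1 + (q * c + c' + f)) = (m + 1) * j := by
    have e1' : (m + 1) * j = (m + 1) * (q * (k1 + 1)) + (m + 1) * s' + (m + 1) * js := by
      rw [hj, hs]
      ring
    have e2' : (m + 1) * s' = Z1.card * (Y1 + 1) + Z0.card * Y1 + Z0.card + 2 * s' + w * s' := by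
      rw [hm, ← hZc]
      ring
    have e3' : q * (Tt + w + 1 + 2 * rp) + q * c + 2 * (q * (rp * k1)) =
        q * (k1 + 1) + (w + 2 * rp) * (q * (k1 + 1)) := by
      have : Tt + w + 1 + c = w * (k1 + 1) + (k1 + 1) := by omega
      calc _ = q * (Tt + w + 1 + c) + 2 * (q * rp) + 2 * (q * (rp * k1)) := by ring
        _ = _ := by rw [this]; ring
    have e4' : (m + 1) * (q * (k1 + 1)) = (y1 + 1) * (q * (k1 + 1)) + 2 * (q * (k1 + 1)) +
        (w + 2 * rp) * (q * (k1 + 1)) := by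
      rw [hm, hY]
      ring
    have e5' : (y1 + 1) * (q * (k1 + 1)) = (a0 + e2a) * (y1 + 1) + (a1 + e2b) * y1 + (a1 + e2b) := by
      rw [← ha]
      ring
    omega
  refine ⟨by omega, hB, by omega, ?_⟩
  rw [show s - (a1 + e2b + Z0.card) = a0 + e2a + Z1.card by omega,
    show k1 + 1 + Tt - s - (e1 + e') = b0 by omega, hj, hs]
  refine QP_hinge (y1 + 1) (Y1 + 1) _ _ _ _ _ _ _ _ (q * c + c' + f) ?_ hcore
  rw [← hs, ← hj, Nat.add_sub_cancel, Nat.add_sub_cancel]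
  omega

end Pool.Agent.Work.MP_f4b644_ag.Mid
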