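import Pool.Agent.Work.MP_f4b644_ag.Mid.QP
import Pool.Agent.Work.MP_f4b644_ag.Mid.Cond
import Pool.Agent.Work.MP_f4b644_ag.Thin.Sq

/-!
The leaves under conditions on ranges of the counts.
-/

set_option autoImplicit false

namespace Pool.Agent.Work.MP_f4b644_ag.Mid

open Big Thin

theorem QR_tok1 (k s' T' X' E : ℕ) (hs : s' < k) (hE : k * X' = s' * (T' + 1) + E) (hEk : E < k) :
    ∃ e2 E2, E = e2 + E2 ∧ s' + e2 ≤ k ∧ E2 ≤ s' ∧ (1 ≤ X' ∨ e2 = 0) ∧ (2 ≤ X' ∨ E2 = 0) := by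
  have e1 : s' * (T' + 1) = s' * T' + s' := by ring
  refine ⟨min E (k - s'), E - min E (k - s'), by omega, by omega, by omega, ?_, ?_⟩ <;>
    rcases X' with _ | _ | X' <;> omega

theorem QR_tok0 (k s T' X' E e Y : ℕ) (hs : s < k) (hE : k * X' = s * (T' + 1) + E) (hEk : E < k)
    (hY : 2 ≤ Y) (hT : 1 ≤ T') (h : k ≤ s + e ∨ (k * k ≤ s * s * (T' + 1) + k * e ∧ k ≤ (Y - 1) * s + e + 1) ∨
      (3 ≤ Y ∧ 2 * k ≤ 3 * s)) :
    ∃ e1 E2 z0, E = e1 + E2 ∧ e1 ≤ e ∧ s + e1 ≤ k ∧ z0 + 1 ≤ Y ∧ E2 ≤ z0 * s ∧ (1 ≤ X' ∨ e1 = 0) ∧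
      (z0 + 1 ≤ X' ∨ E2 = 0) := by
  by_cases c : k ≤ s + e
  · obtain ⟨e2, E2, a1, a2, a3, a4, a5⟩ := QR_tok1 k s T' X' E hs hE hEk
    by_cases d : e2 ≤ e
    · exact ⟨e2, E2, 1, a1, d, a2, hY, by omega, a4, a5⟩
    · omega
  rcases h.resolve_left c with ⟨h1, h2⟩ | ⟨h1, h2⟩
  swap
  · have a1 := Nat.mul_le_mul_left s (show 2 ≤ T' + 1 by omega)
    rcases X' with _ | _ | _ | X'
    · omega
    · omega
    · exact ⟨0, E, 1, by omega, by omega, by omega, by omega, by omega, by omega, by omega⟩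
    · exact ⟨0, E, 2, by omega, by omega, by omega, by omega, by omega, by omega, by omega⟩
  have hX : 1 ≤ X' ∨ E = 0 := by rcases X' with _ | X' <;> omega
  by_cases d : E ≤ e
  · exact ⟨E, 0, 0, rfl, d, by omega, by omega, by omega, hX, Or.inr rfl⟩
  obtain ⟨x, rfl⟩ : ∃ x, X' = x + 1 := ⟨X' - 1, by omega⟩
  rcases le_total x (Y - 1) with g | g
  · refine ⟨e, E - e, x, by omega, le_rfl, by omega, by omega, ?_, by omega, by omega⟩
    obtain ⟨a, rfl⟩ : ∃ a, k = s + a := ⟨k - s, by omega⟩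
    have h3 : E * a ≤ (s + a) * a := Nat.mul_le_mul_right a hEk.le
    have h4 : (s + a) * (E + s) ≤ (s + a) * (e + (x + 1) * s) := by
      have h5 : (s + a) * ((x + 1) * s) = s * s * (T' + 1) + s * E := by
        calc _ = ((s + a) * (x + 1)) * s := by ring
          _ = _ := by rw [hE]; ring
      rw [mul_add (s + a) e, h5]
      nlinarith
    have h6 := Nat.le_of_mul_le_mul_left h4 (by omega)
    have h7 : (x + 1) * s = x * s + s := by ring
    omega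
  · exact ⟨e, E - e, Y - 1, by omega, le_rfl, by omega, by omega, by omega, by omega, by omega⟩

/-- upper bounds for the excess of the sink -/
theorem QR_up (m k km w wU wl yL Y T Tlo Thi js js' shi L P N c : ℕ) (hk : k = km + 1)
    (hm : m = Y + w + 1) (hm' : m = yL + wU + 1) (hw : w ≤ wU) (hwl : wl ≤ w) (hT : T ≤ (w + 1) * km)
    (hT1 : Tlo ≤ T) (hT2 : T ≤ Thi) (hTh : Thi ≤ (wU + 1) * km) (hjs : js ≤ js') (hy : 1 ≤ yL)
    (hN : N ≤ js' * T + L + (Y - yL) * shi) (h1 : L + P ≤ js * (k * (m - 1 + c) - Thi))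
    (h2 : wU * km + 1 ≤ Tlo ∨ (shi ≤ k * js ∧ L + shi + P ≤ js * (k * (yL + c) + wl + 1))) :
    N + P ≤ k * ((m - 1 + c) * js') := by
  obtain ⟨d, rfl⟩ := Nat.exists_eq_add_of_le hw
  obtain rfl : Y = yL + d := by omega
  rw [Nat.add_sub_cancel_left] at hN
  rw [show m - 1 + c = yL + d + w + c by omega] at h1 ⊢
  rcases d with _ | d
  · obtain ⟨y, rfl⟩ := Nat.exists_eq_add_of_le' hy
    obtain ⟨A, hA⟩ : ∃ A, k * (y + 1 + 0 + w + c) = Thi + A :=
      Nat.exists_eq_add_of_le (by subst hk; nlinarith)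
    rw [hA, Nat.add_sub_cancel_left] at h1
    have a1 := Nat.mul_le_mul_right A hjs
    have a2 := Nat.mul_le_mul_left js' hT2
    have a3 : k * ((y + 1 + 0 + w + c) * js') = js' * Thi + js' * A := by
      rw [← mul_assoc, hA]
      ring
    omega
  · rcases h2 with h2 | ⟨h2, h3⟩
    · have := Nat.mul_le_mul_right km (show w + 1 ≤ w + (d + 1) by omega)
      omega
    have a1 := Nat.mul_le_mul_left js' hT
    have a2 := Nat.mul_le_mul_left d (h2.trans (Nat.mul_le_mul_left k hjs))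
    have a3 := Nat.mul_le_mul hjs (show k * (yL + c) + wl + 1 ≤ k * (yL + c) + w + 1 by omega)
    have a4 : k * ((yL + (d + 1) + w + c) * js') =
        js' * ((w + 1) * km) + d * (k * js') + js' * (k * (yL + c) + w + 1) := by
      subst hk
      ring
    have a5 : (d + 1) * shi = d * shi + shi := by ring
    omega

theorem V_QC {m j k Tlo Thi slo shi uhi elo ehi Ghi wc km wU wl yL yH js rp ro Tp Gs L X T s u e G : ℕ}
    (d1 : km = k - 1) (d2 : wU = max ((Thi - 1) / km) wc) (d3 : wl = (Tlo - 1) / km) (d4 : yL = m - (wU + 1))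
    (d5 : yH = m - (wl + 1)) (d6 : js = j - shi) (d8 : ro = 2 * rp) (d9 : Tp = max (Tlo - wU * km) 1)
    (d10 : Gs = Ghi - slo / k * rp * km) (d11 : L = (yL - ro) * shi + ehi + ro * km) (c1 : 2 ≤ k)
    (c2 : 1 ≤ Tlo) (c3 : wU + 2 ≤ m) (c4 : shi + 1 ≤ j) (c5 : s + e ≤ k + T) (c6 : uhi ≤ slo)
    (c7 : ro + 1 ≤ yL)
    (c8 : s + 1 ≤ k ∨ uhi + k ≤ slo ∨ ((uhi ≤ k ∨ uhi + k ≤ slo + 1) ∧ ro + 2 ≤ yL))
    (c9 : k ≤ s ∨ (2 ≤ yL ∧ (k ≤ s + e ∨ (k * k ≤ slo * slo * (Tp + 1) + k * elo ∧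
      k ≤ (yL - 1) * slo + elo + 1) ∨ (3 ≤ yL ∧ 2 * k ≤ 3 * slo))))
    (c10 : yH * (k - slo) + ro * shi + uhi + k ≤ js * Tlo + yL * (slo - k) + elo + 1)
    (c11 : L + 2 * (k * Gs) ≤ js * (k * (m + 1) - Thi))
    (c12 : (Gs ≤ js ∧ L ≤ js * (k * (m - 1) - Thi)) ∨ L + k * Gs ≤ js * (k * (m - 1) - Thi))
    (c13 : wU * km + 1 ≤ Tlo ∨ (shi ≤ k * js ∧ L + shi + 2 * (k * Gs) ≤ js * (k * (yL + 2) + wl + 1) ∧
      ((Gs ≤ js ∧ L + shi ≤ js * (k * yL + wl + 1)) ∨ L + shi + k * Gs ≤ js * (k * yL + wl + 1))))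
    (hT1 : Tlo ≤ T) (hT2 : T ≤ Thi) (hs1 : slo ≤ s) (hs2 : s ≤ shi) (hu : u ≤ uhi) (he1 : elo ≤ e)
    (he2 : e ≤ ehi) (hG : G ≤ Ghi) (hd : k * X + u ≤ j * T + m * s + e) : V m j X k T s u e G := by
  have p2 := PLift.up d2
  have p3 := PLift.up d3
  have p9 := PLift.up d9
  have p10 := PLift.up d10
  have q8 := PLift.up c8
  have q9 := PLift.up c9
  have q12 := PLift.up c12
  have q13 := PLift.up c13
  clear d2 d3 d9 d10 c8 c9 c12 c13
  have hk : k = km + 1 := by omega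
  have hkm : 0 < km := by omega
  obtain ⟨w, T', hT, hT', hT0, hw1, hw2⟩ : ∃ w T', T = w * km + T' ∧ T' ≤ km ∧ 1 ≤ T' ∧ wl ≤ w ∧ w ≤ wU := by
    have a1 := Nat.div_add_mod' (T - 1) km
    have a2 := Nat.mod_lt (T - 1) hkm
    refine ⟨(T - 1) / km, (T - 1) % km + 1, by omega, by omega, by omega, ?_, ?_⟩
    · exact p3.down ▸ Nat.div_le_div_right (by omega)
    · exact p2.down ▸ (Nat.div_le_div_right (by omega)).trans (le_max_left _ _)
  have hTh : Thi ≤ (wU + 1) * km := by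
    have a1 : (Thi - 1) / km < wU + 1 := Nat.lt_succ_of_le (p2.down ▸ le_max_left _ _)
    rw [Nat.div_lt_iff_lt_mul hkm] at a1
    omega
  have hTp : Tp ≤ T' := by
    have := Nat.mul_le_mul_right km hw2
    exact p9.down ▸ max_le (by omega) hT0
  obtain ⟨Y, hm⟩ : ∃ Y, m = Y + w + 1 := ⟨m - w - 1, by omega⟩
  obtain ⟨y, hY⟩ : ∃ y, Y = y + 2 * rp := ⟨Y - 2 * rp, by omega⟩
  obtain ⟨q, s', hs, hs', hq⟩ : ∃ q s', s = q * k + s' ∧ s' < k ∧ slo / k ≤ q :=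
    ⟨s / k, s % k, (Nat.div_add_mod' s k).symm, Nat.mod_lt _ (by omega), Nat.div_le_div_right hs1⟩
  obtain ⟨js', hj⟩ : ∃ js', j = s + js' := ⟨j - s, by omega⟩
  obtain ⟨X', E, hE, hEk⟩ := Tall_ceil (s' * (T' + 1)) k (by omega)
  have hX' : X' ≤ s' := by
    have a1 := Nat.mul_le_mul_left s' (show T' + 1 ≤ k by omega)
    have a2 : k * X' < k * (s' + 1) := by rw [mul_add, mul_comm k s']; omega
    exact Nat.lt_succ_iff.1 (Nat.lt_of_mul_lt_mul_left a2)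
  have hjs : js ≤ js' := by omega
  obtain ⟨e1, e2, E2, z0, rfl, t1, t2, t3, t4, t5, t6, t7⟩ : ∃ e1 e2 E2 z0, E = e1 + e2 + E2 ∧ e1 ≤ e ∧
      s' + e1 + e2 ≤ k ∧ ((q = 0 ∧ e2 = 0 ∧ u ≤ s' ∧ z0 + 1 ≤ Y) ∨
        (1 ≤ q ∧ u ≤ q * k ∧ (e2 + u ≤ q * k ∨ 2 ≤ y))) ∧ E2 ≤ z0 * s' ∧ z0 ≤ Y ∧
      (1 ≤ X' ∨ e1 + e2 = 0) ∧ (z0 + 1 ≤ X' ∨ E2 = 0) := by
    rcases Nat.eq_zero_or_pos q with h0 | h0
    · subst h0
      rw [zero_mul, zero_add] at hs
      subst hs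
      obtain ⟨b1, b2⟩ := q9.down.resolve_left (by omega)
      obtain ⟨e1, E2, z0, a1, a2, a3, a4, a5, a6, a7⟩ := QR_tok0 k s T' X' E e Y hs' hE hEk (by omega) hT0
        (b2.imp_right (Or.imp (fun ⟨b3, b4⟩ => ⟨b3.trans (add_le_add (Nat.mul_le_mul
          (Nat.mul_le_mul hs1 hs1) (by omega)) (Nat.mul_le_mul_left k he1)), by
            have := Nat.mul_le_mul (show yL - 1 ≤ Y - 1 by omega) hs1
            omega⟩) fun b3 => by omega))
      exact ⟨e1, 0, E2, z0, a1, a2, a3, Or.inl ⟨rfl, rfl, by omega, a4⟩, a5, by omega, a6, a7⟩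
    · obtain ⟨e2, E2, a1, a2, a3, a4, a5⟩ := QR_tok1 k s' T' X' E hs' hE hEk
      have := Nat.le_mul_of_pos_left k h0
      have c8 := q8.down
      exact ⟨0, e2, E2, 1, by omega, by omega, by omega, Or.inr ⟨h0, by omega, by omega⟩, by omega,
        by omega, by omega, a5⟩
  have f1 : Y * s = y * (q * k) + Y * s' + 2 * rp * (q * k) := by
    rw [hs, hY]
    ring
  have f2 : 2 * rp * (q * k) ≤ ro * shi := d8 ▸ Nat.mul_le_mul_left _ (by omega)
  have f3 := Nat.mul_le_mul hjs hT1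
  have hlow : k * Y + u + (e1 + e2 + E2) ≤ js' * T + y * (q * k) + Y * s' + e := by
    rcases le_total k s with g | g
    · obtain ⟨a, ha⟩ := Nat.exists_eq_add_of_le g
      have a1 := Nat.mul_le_mul (show yL ≤ Y by omega) (show slo - k ≤ a by omega)
      have a2 : Y * s = k * Y + Y * a := by rw [ha]; ring
      omega
    · obtain ⟨a, ha⟩ := Nat.exists_eq_add_of_le g
      have a1 := Nat.mul_le_mul (show Y ≤ yH by omega) (show a ≤ k - slo by omega)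
      have a2 : k * Y = Y * s + Y * a := by rw [ha]; ring
      rw [show slo - k = 0 by omega, mul_zero] at c10
      omega
  obtain ⟨N, hN⟩ : ∃ N, N + u + (e1 + e2 + E2) = js' * T + y * (q * k) + Y * s' + e :=
    ⟨js' * T + y * (q * k) + Y * s' + e - u - (e1 + e2 + E2), by omega⟩
  obtain ⟨Xs, x1, x2, x3⟩ := Tall_floor N k Y (by omega) (by omega)
  have hNL : N ≤ js' * T + L + (Y - yL) * shi := by
    have a1 : y * (q * k) + Y * s' = y * s + 2 * rp * s' := by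
      rw [hs, hY]
      ring
    have a2 := Nat.mul_le_mul_left y hs2
    have a3 : 2 * rp * s' ≤ ro * km := d8 ▸ Nat.mul_le_mul_left _ (by omega)
    have a4 : y * shi = (yL - ro) * shi + (Y - yL) * shi := by
      rw [← add_mul]
      congr 1
      omega
    omega
  have hTw : T ≤ (w + 1) * km := by rw [add_mul]; omega
  have up := fun P c => QR_up m k km w wU wl yL Y T Tlo Thi js js' shi L P N c hk hm (by omega) hw2 hw1
    hTw hT1 hT2 hTh hjs (by omega) hNL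
  have u1 : 2 * Gs + Xs ≤ (m + 1) * js' := by
    have a1 := up (2 * (k * Gs)) 2 (by rwa [show m - 1 + 2 = m + 1 by omega])
      (q13.down.imp_right fun a => ⟨a.1, a.2.1⟩)
    rw [show m - 1 + 2 = m + 1 by omega] at a1
    refine Nat.le_of_mul_le_mul_left (?_ : k * _ ≤ k * _) (by omega)
    rw [mul_add, mul_left_comm]
    omega
  have e3 : m * js' = (m - 1 + 0) * js' + js' := by
    rw [← add_one_mul]
    congr 1
    omega
  have u2 : (Gs ≤ js' ∧ Xs + js' ≤ m * js') ∨ Xs + Gs + js' ≤ m * js' := by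
    have c12 := q12.down
    by_cases g : Gs ≤ js
    · have a1 := up 0 0 (by rw [Nat.add_zero (m - 1)]; omega)
        (q13.down.imp_right fun a => ⟨a.1, by rw [Nat.add_zero yL]; omega⟩)
      have a2 : Xs ≤ (m - 1 + 0) * js' := Nat.le_of_mul_le_mul_left (by omega : k * _ ≤ k * _) (by omega)
      omega
    · have a1 := up (k * Gs) 0 (by rw [Nat.add_zero (m - 1)]; omega)
        (q13.down.imp_right fun a => ⟨a.1, by rw [Nat.add_zero yL]; omega⟩)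
      have a2 : Xs + Gs ≤ (m - 1 + 0) * js' :=
        Nat.le_of_mul_le_mul_left (by rw [mul_add]; omega : k * _ ≤ k * _) (by omega)
      omega
  have hTk : T + w = w * k + T' := by rw [hk, mul_add]; omega
  refine V_Qp m j X k T s u e G w y rp Y T' q s' X' z0 e1 e2 E2 js' Xs Gs hm (by omega) hY hTk (by omega)
    hs hj (by omega) hX' ?_ hE.le t1 t2 t3 t4 t5 t6 t7 c5 ?_ u2 u1 x1 (by omega)
  · refine Nat.lt_succ_iff.1 (Nat.lt_of_mul_lt_mul_left (a := k) ?_)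
    have a1 : k * (q * (T + w + 1 + 2 * rp) + w * s' + X' + Xs + 1) + (y * (q * k) + Y * s') + js' * T +
        s' * (T + w) + s' = j * T + m * s + k * X' + k * Xs + k + s' * (w * k) := by
      rw [hj, hs, hm, hY]
      ring
    have a2 : s' * (T + w) + s' = s' * (w * k) + s' * (T' + 1) := by
      rw [hTk]
      ring
    rw [Nat.succ_eq_add_one]
    omega
  · have a1 := Nat.mul_le_mul_right (rp * km) hq
    have d10 := p10.down
    rw [mul_assoc] at d10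
    rw [← d1]
    omega

theorem V_QZ {m j k Tlo Thi slo shi uhi elo ehi Ghi rn rc wc : ℕ}
    (h : QZc m j k Tlo Thi slo shi uhi elo ehi Ghi rn rc wc) {X T s u e G : ℕ} (hT1 : Tlo ≤ T)
    (hT2 : T ≤ Thi) (hs1 : slo ≤ s) (hs2 : s ≤ shi) (hu : u ≤ uhi) (he1 : elo ≤ e) (he2 : e ≤ ehi)
    (hG : G ≤ Ghi) (hB : s + e ≤ k + T) (hd : k * X + u ≤ j * T + m * s + e) : V m j X k T s u e G := by
  obtain ⟨km, wU, wl, yL, yH, js, rp, ro, Tp, Gs, L, L2, kG, kk, A1, A2, B1, B2, d1, d2, d3, d4, d5, d6,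
    -, d8, d9, d10, d11, rfl, rfl, rfl, rfl, rfl, rfl, rfl, c1, c2, c3, c4, c6, c7, c8, c9, c10,
    c11, c12, c13⟩ := h
  exact V_QC d1 d2 d3 d4 d5 d6 d8 d9 d10 d11 c1 c2 c3 c4 hB c6 c7
    (c8.imp_left (Nat.succ_le_succ hs2).trans) (c9.imp (·.trans hs1) (And.imp_right
      (Or.imp_left (·.trans (Nat.add_le_add hs1 he1))))) c10 c11 c12 c13 hT1 hT2 hs1 hs2 hu he1 he2 hG hd

theorem V_QR {m j k Tlo Thi slo shi uhi elo ehi Ghi rn rc wc : ℕ}
    (h : QRc m j k Tlo Thi slo shi uhi elo ehi Ghi rn rc wc) {X T s u e G : ℕ} (hT1 : Tlo ≤ T)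
    (hT2 : T ≤ Thi) (hs1 : slo ≤ s) (hs2 : s ≤ shi) (hu : u ≤ uhi) (he1 : elo ≤ e) (he2 : e ≤ ehi)
    (hG : G ≤ Ghi) (hd : k * X + u ≤ j * T + m * s + e) : V m j X k T s u e G := by
  obtain ⟨km, wU, wl, yL, yH, js, rp, ro, Tp, Gs, L, L2, kG, kk, A1, A2, B1, B2, d1, d2, d3, d4, d5, d6,
    -, d8, d9, d10, d11, rfl, rfl, rfl, rfl, rfl, rfl, rfl, c1, c2, c3, c4, c5, c6, c7, c8, c9, c10,
    c11, c12, c13⟩ := h
  exact V_QC d1 d2 d3 d4 d5 d6 d8 d9 d10 d11 c1 c2 c3 c4 (by clear * - c5 hs2 he2 hT1; omega) c6 c7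
    (c8.imp_left (Nat.succ_le_succ hs2).trans) (c9.imp (·.trans hs1) (And.imp_right
      (Or.imp_left (·.trans (Nat.add_le_add hs1 he1))))) c10 c11 c12 c13 hT1 hT2 hs1 hs2 hu he1 he2 hG hd

theorem V_QY {m j k Tlo Thi slo shi uhi elo ehi Ghi rn rc wc : ℕ}
    (h : QYc m j k Tlo Thi slo shi uhi elo ehi Ghi rn rc wc) {X T s u e G : ℕ} (hT1 : Tlo ≤ T)
    (hT2 : T ≤ Thi) (hs1 : slo ≤ s) (hs2 : s ≤ shi) (hu : u ≤ uhi) (he1 : elo ≤ e) (he2 : e ≤ ehi)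
    (hG : G ≤ Ghi) (hk : k ≤ s + e) (hd : k * X + u ≤ j * T + m * s + e) : V m j X k T s u e G := by
  obtain ⟨km, wU, wl, yL, yH, js, rp, ro, Gs, L, L2, kG, kk, A1, A2, B1, B2, d1, d2, d3, d4, d5, d6,
    -, d8, d10, d11, rfl, rfl, rfl, rfl, rfl, rfl, rfl, c1, c2, c3, c4, c5, c6, c7, c8, c9, c10,
    c11, c12, c13⟩ := h
  exact V_QC d1 d2 d3 d4 d5 d6 d8 rfl d10 d11 c1 c2 c3 c4 (by clear * - c5 hs2 he2 hT1; omega) c6 c7
    (c8.imp_left (Nat.succ_le_succ hs2).trans) (Or.inr ⟨c9, Or.inl hk⟩) c10 c11 c12 c13 hT1 hT2 hs1 hs2 hu he1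
    he2 hG hd

theorem V_QO {m j k Tlo slo shi uhi elo ehi Ghi : ℕ} (h : QOc m j k Tlo slo shi uhi elo ehi Ghi)
    {X T s u e G : ℕ} (hT1 : Tlo ≤ T) (hT2 : T < k) (hs1 : slo ≤ s) (hs2 : s ≤ shi) (hu : u ≤ uhi)
    (he1 : elo ≤ e) (he2 : e ≤ ehi) (hG : G ≤ Ghi) (hk : s + e < k) (hd : k * X + u ≤ j * T + m * s + e) :
    V m j X k T s u e G := by
  obtain ⟨y, js, L, kG, A2, d1, d2, d3, rfl, rfl, c1, c2, c3, c4, c5, c6, c7, c8, c9, c10⟩ := h
  have a0 : (T - 1) / (k - 1) = 0 := Nat.div_eq_of_lt (by omega)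
  have a1 := Nat.mul_le_mul_left js hT1
  have a2 : js * (k * m + 1) ≤ js * (k * (m + 1) - T) := Nat.mul_le_mul_left js (by rw [mul_add]; omega)
  have a3 : js * (k * (m - 2) + 1) ≤ js * (k * (m - 1) - T) := Nat.mul_le_mul_left js (by
    rw [show m - 1 = m - 2 + 1 by omega, mul_add]
    omega)
  have a4 := Nat.mul_le_mul_left (slo * slo) (Nat.succ_le_succ hT1)
  exact V_QC (Tlo := T) (Thi := T) (wc := 0) (wU := 0) (wl := 0) (yL := y) (yH := y) (rp := 0) (ro := 0)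
    (Tp := T) (Gs := Ghi) (L := L) rfl (by rw [a0]; rfl) a0.symm d1 d1 d2 rfl (by omega) (by simp)
    (by simpa using d3) c1 (by omega) (by omega) c4 (by omega) c5 (by omega) (Or.inl (by omega))
    (Or.inr ⟨by omega, Or.inr (Or.inl ⟨c6.trans (Nat.add_le_add_right a4 _), c7⟩)⟩) (by omega)
    (c9.trans a2) (c10.imp (And.imp_right (·.trans a3)) (·.trans a3)) (Or.inl (by omega)) le_rfl le_rfl hs1
    hs2 hu he1 he2 hG hd

theorem cornerH (s X Y w y F1 F2 : ℕ) (hX : y + 2 ≤ X) (hY : (y + 2) * w ≤ Y) :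
    Corner s X Y w F1 F2 1 y := by
  intro a b1 b2 _ ha _ _ hb _
  have e5 := min_le_right s (a + b2)
  obtain ⟨d, rfl⟩ := Nat.exists_eq_add_of_le hX
  have e0 : a * (b1 + b2 + 1 + w) ≤ (b1 + b2) * (d + 1) + a * Y := by
    rcases le_total (b1 + b2 + 1 + w) Y with h | h
    · exact (Nat.mul_le_mul_left a h).trans (Nat.le_add_left _ _)
    · have e1 : a * (b1 + b2 + 1 + w) ≤ a * (Y + w) := Nat.mul_le_mul_left a (by omega)
      rcases (show b1 + b2 + 1 + w = Y ∨ (y + 1) * w ≤ b1 + b2 by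
        have : (y + 2) * w = (y + 1) * w + w := by ring
        omega) with g | g
      · rw [g]
        exact Nat.le_add_left _ _
      have e2 : a * w ≤ (y + 1 + d) * w := Nat.mul_le_mul_right w (by omega)
      have e3 := Nat.mul_le_mul_right (d + 1) g
      nlinarith [Nat.zero_le (y * w * d)]
  nlinarith [Nat.zero_le (b1 * y)]

theorem V_H (m j X k Tt s u e G w y : ℕ) (hm : m = y + w + 1) (hy : 1 ≤ y) (hu : u ≤ s)
    (h1 : s + G ≤ j) (h2 : s + e ≤ k) (hT : w * k ≤ Tt) (hX : X ≤ (w + 1) * j)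
    (hD : k * X + u ≤ j * Tt + m * s + e) (h3 : w * j + y + 2 ≤ X) (h4 : Tt + (y + 2) * w ≤ w * k + k) :
    V m j X k Tt s u e G := by
  obtain ⟨nB, rfl⟩ := Nat.exists_eq_add_of_le hT
  obtain ⟨nC, hnC⟩ := Nat.exists_eq_add_of_le hX
  obtain ⟨s0, rfl⟩ := Nat.exists_eq_add_of_le' hu
  have e1 : (m + 1) * j = (w + 1) * j + (y + 1) * j := by rw [hm]; ring
  have e2 : 2 * j ≤ (y + 1) * j := Nat.mul_le_mul_right _ (by omega)
  have e3 : (w + 1) * k = w * k + k := by ring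
  have e4 : (w + 1) * j = w * j + j := by ring
  refine ⟨hu, by omega, by omega, ?_⟩
  rw [show m + 2 = y + w + 3 by omega, Nat.add_sub_cancel]
  refine S_G j k s0 u _ e G _ y w nB nC hy h1 h2 (by omega) (by omega) ?_ ?_
  · have e5 : k * ((w + 1) * j) = k * (X + nC) := by rw [hnC]
    rw [← hm]
    nlinarith
  · exact cornerH _ _ _ _ _ _ _ (by omega) (by omega)

theorem V_LF {m j k Tlo Thi slo shi uhi elo ehi Ghi Xlo Xhi rn rc wc : ℕ}
    (h : LFc m j k Tlo Thi slo shi uhi elo ehi Ghi Xlo Xhi rn rc wc) {X T s u e G : ℕ} (hT1 : Tlo ≤ T)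
    (hT2 : T ≤ Thi) (hs1 : slo ≤ s) (hs2 : s ≤ shi) (hu : u ≤ uhi) (he1 : elo ≤ e) (he2 : e ≤ ehi)
    (hG : G ≤ Ghi) (hX1 : Xlo ≤ X) (hX2 : X ≤ Xhi) (hd : k * X + u ≤ j * T + m * s + e) :
    V m j X k T s u e G := by
  rcases h with h | ⟨w, hw, c1, c2, c3, c4, c5, c6⟩ | ⟨h0, s1, s2, y, wk, d1, d2, d3, rfl, c1, c2, c3⟩
  · exact V_QR h hT1 hT2 hs1 hs2 hu he1 he2 hG hd
  · exact V_G m j X k T s u e G w (m - (w + 1)) (by omega) (by omega) (by omega) (by omega) (by omega)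
      ((hw ▸ Nat.div_mul_le_self Tlo k).trans hT1) (by omega) hd (by omega)
  by_cases g1 : k ≤ s + e
  · exact V_QY (c3.resolve_left (by omega)) hT1 hT2 (by omega) hs2 hu he1 he2 hG g1 hd
  clear c3 d1
  by_cases g2 : wc * k ≤ T
  · obtain ⟨b1, b2, b3, b4, b5⟩ := c1.resolve_left (by omega)
    clear c1 c2
    rcases b5 with ⟨b5, b6⟩ | ⟨b5, b6⟩
    · exact V_H m j X k T s u e G wc y (by omega) (by omega) (by omega) (by omega) (by omega) g2 (by omega) hd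
        (by omega) (by omega)
    · exact V_G m j X k T s u e G wc y (by omega) (by omega) (by omega) (by omega) (by omega) g2 (by omega) hd
        (Or.inr ⟨by omega, by rw [add_mul]; omega⟩)
  · obtain ⟨b1, b2⟩ := c2.resolve_left (by omega)
    obtain rfl : wc = 1 := by omega
    clear c1 c2
    exact V_QO b2 hT1 (by omega) hs1 (by omega) hu he1 he2 hG (by omega) hd

end Pool.Agent.Work.MP_f4b644_ag.Mid
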