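import Pool.Agent.Work.MP_f4b644_ag.Mid.Cov3
import Pool.Agent.Work.MP_f4b644_ag.Mid.D.TH

/-!
The three conditions for the formats with `6 ≤ I ≤ 29` and large `J`.
-/

namespace Pool.Agent.Work.MP_f4b644_ag.Mid

theorem thin4 {J : ℕ} (h : 320 ≤ J) : HH 4 J :=
  HH.of (RA0 rt4 (by unfold In0; omega)) (BA0 bk4 (by unfold In0; omega))
    fun _ => PA0 px4 (by unfold In0; omega)

theorem thin5 {J : ℕ} (h : 600 ≤ J) : HH 5 J :=
  HH.of (RA0 rt5 (by unfold In0; omega)) (BA0 bk5 (by unfold In0; omega))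
    fun _ => PA0 px5 (by unfold In0; omega)

theorem thin6 {J : ℕ} (h : 193 ≤ J) : HH 6 J :=
  HH.of (RA0 rt6 (by unfold In0; omega)) (BA0 bk6 (by unfold In0; omega))
    fun _ => PA0 px6 (by unfold In0; omega)

theorem thin7 {J : ℕ} (h : 244 ≤ J) : HH 7 J :=
  HH.of (RA0 rt7 (by unfold In0; omega)) (BA0 bk7 (by unfold In0; omega))
    fun _ => PA0 px7 (by unfold In0; omega)

theorem thin8 {J : ℕ} (h : 301 ≤ J) : HH 8 J :=
  HH.of (RA0 rt8 (by unfold In0; omega)) (BA0 bk8 (by unfold In0; omega))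
    fun _ => PA0 px8 (by unfold In0; omega)

theorem thin9 {J : ℕ} (h : 364 ≤ J) : HH 9 J :=
  HH.of (RA0 rt9 (by unfold In0; omega)) (BA0 bk9 (by unfold In0; omega))
    fun _ => PA0 px9 (by unfold In0; omega)

theorem thin10 {J : ℕ} (h : 433 ≤ J) : HH 10 J :=
  HH.of (RA0 rt10 (by unfold In0; omega)) (BA0 bk10 (by unfold In0; omega))
    fun _ => PA0 px10 (by unfold In0; omega)

theorem thin11 {J : ℕ} (h : 150 ≤ J) : HH 11 J :=
  HH.of (RA0 rt11 (by unfold In0; omega)) (BA0 bk11 (by unfold In0; omega))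
    fun _ => PA0 px11 (by unfold In0; omega)

theorem thin12 {J : ℕ} (h : 150 ≤ J) : HH 12 J :=
  HH.of (RA0 rt12 (by unfold In0; omega)) (BA0 bk12 (by unfold In0; omega))
    fun _ => PA0 px12 (by unfold In0; omega)

theorem thin13 {J : ℕ} (h : 150 ≤ J) : HH 13 J :=
  HH.of (RA0 rt13 (by unfold In0; omega)) (BA0 bk13 (by unfold In0; omega))
    fun _ => PA0 px13 (by unfold In0; omega)

theorem thin14 {J : ℕ} (h : 150 ≤ J) : HH 14 J :=
  HH.of (RA0 rt14 (by unfold In0; omega)) (BA0 bk14 (by unfold In0; omega))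
    fun _ => PA0 px14 (by unfold In0; omega)

theorem thin15 {J : ℕ} (h : 150 ≤ J) : HH 15 J :=
  HH.of (RA0 rt15 (by unfold In0; omega)) (BA0 bk15 (by unfold In0; omega))
    fun _ => PA0 px15 (by unfold In0; omega)

theorem thin16 {J : ℕ} (h : 150 ≤ J) : HH 16 J :=
  HH.of (RA0 rt16 (by unfold In0; omega)) (BA0 bk16 (by unfold In0; omega))
    fun _ => PA0 px16 (by unfold In0; omega)

theorem thin17 {J : ℕ} (h : 150 ≤ J) : HH 17 J :=
  HH.of (RA0 rt17 (by unfold In0; omega)) (BA0 bk17 (by unfold In0; omega))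
    fun _ => PA0 px17 (by unfold In0; omega)

theorem thin18 {J : ℕ} (h : 150 ≤ J) : HH 18 J :=
  HH.of (RA0 rt18 (by unfold In0; omega)) (BA0 bk18 (by unfold In0; omega))
    fun _ => PA0 px18 (by unfold In0; omega)

theorem thin19 {J : ℕ} (h : 150 ≤ J) : HH 19 J :=
  HH.of (RA0 rt19 (by unfold In0; omega)) (BA0 bk19 (by unfold In0; omega))
    fun _ => PA0 px19 (by unfold In0; omega)

theorem thin20 {J : ℕ} (h : 150 ≤ J) : HH 20 J :=
  HH.of (RA0 rt20 (by unfold In0; omega)) (BA0 bk20 (by unfold In0; omega))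
    fun k => absurd k (by omega)

theorem thin21 {J : ℕ} (h : 150 ≤ J) : HH 21 J :=
  HH.of (RA0 rt21 (by unfold In0; omega)) (BA0 bk21 (by unfold In0; omega))
    fun k => absurd k (by omega)

theorem thin22 {J : ℕ} (h : 150 ≤ J) : HH 22 J :=
  HH.of (RA0 rt22 (by unfold In0; omega)) (BA0 bk22 (by unfold In0; omega))
    fun k => absurd k (by omega)

theorem thin23 {J : ℕ} (h : 150 ≤ J) : HH 23 J :=
  HH.of (RA0 rt23 (by unfold In0; omega)) (BA0 bk23 (by unfold In0; omega))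
    fun k => absurd k (by omega)

theorem thin24 {J : ℕ} (h : 150 ≤ J) : HH 24 J :=
  HH.of (RA0 rt24 (by unfold In0; omega)) (BA0 bk24 (by unfold In0; omega))
    fun k => absurd k (by omega)

theorem thin25 {J : ℕ} (h : 150 ≤ J) : HH 25 J :=
  HH.of (RA0 rt25 (by unfold In0; omega)) (BA0 bk25 (by unfold In0; omega))
    fun k => absurd k (by omega)

theorem thin26 {J : ℕ} (h : 150 ≤ J) : HH 26 J :=
  HH.of (RA0 rt26 (by unfold In0; omega)) (BA0 bk26 (by unfold In0; omega))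
    fun k => absurd k (by omega)

theorem thin27 {J : ℕ} (h : 150 ≤ J) : HH 27 J :=
  HH.of (RA0 rt27 (by unfold In0; omega)) (BA0 bk27 (by unfold In0; omega))
    fun k => absurd k (by omega)

theorem thin {m J : ℕ} (h4 : 4 ≤ m) (h27 : m ≤ 27) (hJ : 150 ≤ J) (a4 : m = 4 → 320 ≤ J) (a5 : m = 5 → 600 ≤ J)
    (a6 : 6 ≤ m → m ≤ 10 → 3 * (m + 2) ^ 2 < J) : HH m J := by
  interval_cases m
  · exact thin4 (a4 rfl)
  · exact thin5 (a5 rfl)
  · exact thin6 (a6 (by norm_num) (by norm_num))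
  · exact thin7 (a6 (by norm_num) (by norm_num))
  · exact thin8 (a6 (by norm_num) (by norm_num))
  · exact thin9 (a6 (by norm_num) (by norm_num))
  · exact thin10 (a6 (by norm_num) (by norm_num))
  · exact thin11 hJ
  · exact thin12 hJ
  · exact thin13 hJ
  · exact thin14 hJ
  · exact thin15 hJ
  · exact thin16 hJ
  · exact thin17 hJ
  · exact thin18 hJ
  · exact thin19 hJ
  · exact thin20 hJ
  · exact thin21 hJ
  · exact thin22 hJ
  · exact thin23 hJ
  · exact thin24 hJ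
  · exact thin25 hJ
  · exact thin26 hJ
  · exact thin27 hJ

end Pool.Agent.Work.MP_f4b644_ag.Mid
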